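import Pool.Agent.Lib.MP_021685_agU.XC

/-!
# The action of `J` and its conjugates on the products of pairings and determinants
-/

set_option autoImplicit false
set_option linter.unusedSectionVars false

namespace Pool.Agent.Lib.MP_021685_agU

open Matrix Function Module

/-- PROOF. Write `T = w + ∑_{g ∈ B} c g • g` with `w` in the span of the good generators (those killed
by all the `A i`) and `B` a finite set of generators which are not good, with `B.card` minimal
(or: induction on `B.card`, for all `w` and `c`). If `B` is empty we are done. Otherwise choose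
`g₀ ∈ B` and `i` with `A i g₀ = z₀ • g₀ ≠ 0`, `z₀ ≠ 0`. Then
`T = T - z₀⁻¹ • A i T = w + ∑_{g ∈ B} c g (1 - z g / z₀) • g` (`A i w = 0`), where the coefficient of
`g₀` vanishes: a shorter expression. -/
theorem mem_span_zero {C V ι : Type*} [Field C] [AddCommGroup V] [Module C V] (A : ι → V →ₗ[C] V) (G : Set V)
    (hG : ∀ g ∈ G, ∀ i, ∃ z : C, A i g = z • g) {T : V} (hT : T ∈ Submodule.span C G)
    (h0 : ∀ i, A i T = 0) : T ∈ Submodule.span C {g | g ∈ G ∧ ∀ i, A i g = 0} := by
  classical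
  have hgood : ∀ w ∈ Submodule.span C {g | g ∈ G ∧ ∀ i, A i g = 0}, ∀ i, A i w = 0 := by
    intro w hw i
    have h1 : Submodule.span C {g | g ∈ G ∧ ∀ i, A i g = 0} ≤ LinearMap.ker (A i) :=
      Submodule.span_le.mpr fun g hg => hg.2 i
    exact h1 hw
  have key : ∀ B : Finset V, (∀ g ∈ B, g ∈ G) → ∀ (c : V → C),
      ∀ w ∈ Submodule.span C {g | g ∈ G ∧ ∀ i, A i g = 0},
      (∀ i, A i (w + ∑ g ∈ B, c g • g) = 0) →
      w + ∑ g ∈ B, c g • g ∈ Submodule.span C {g | g ∈ G ∧ ∀ i, A i g = 0} := by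
    intro B
    induction B using Finset.induction_on with
    | empty =>
      intro _ c w hw _
      rw [Finset.sum_empty, add_zero]
      exact hw
    | insert g₀ B hg₀ ih =>
      intro hB c w hw h
      have hB' : ∀ g ∈ B, g ∈ G := fun g hg => hB g (Finset.mem_insert_of_mem hg)
      rw [Finset.sum_insert hg₀]
      by_cases hg : ∀ i, A i g₀ = 0
      · rw [← add_assoc]
        refine ih hB' c _ (add_mem hw (Submodule.smul_mem _ _
          (Submodule.subset_span ⟨hB g₀ (Finset.mem_insert_self _ _), hg⟩))) fun i => ?_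
        rw [add_assoc, ← Finset.sum_insert (f := fun g => c g • g) hg₀]
        exact h i
      · obtain ⟨i, hi⟩ := not_forall.mp hg
        obtain ⟨z₀, hz₀⟩ := hG g₀ (hB g₀ (Finset.mem_insert_self _ _)) i
        have hz0 : z₀ ≠ 0 := by
          rintro rfl
          exact hi (by rw [hz₀, zero_smul])
        have hz : ∀ g : V, ∃ z : C, g ∈ B → A i g = z • g := by
          intro g
          by_cases h1 : g ∈ B
          · obtain ⟨z, hz⟩ := hG g (hB' g h1) i
            exact ⟨z, fun _ => hz⟩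
          · exact ⟨0, fun h2 => absurd h2 h1⟩
        choose z hz using hz
        have h1 := h i
        rw [Finset.sum_insert hg₀, map_add, map_add, hgood w hw i, zero_add, map_smul, hz₀, map_sum,
          Finset.sum_congr rfl fun g hg => by rw [map_smul, hz g hg]] at h1
        have h2 : c g₀ • g₀ = ∑ g ∈ B, (-(z₀⁻¹ * (c g * z g))) • g := by
          have h3 : c g₀ • g₀ = z₀⁻¹ • (c g₀ • z₀ • g₀) := by
            rw [smul_smul, smul_smul]
            congr 1
            field_simp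
          rw [h3, eq_neg_of_add_eq_zero_left h1, smul_neg, Finset.smul_sum, ← Finset.sum_neg_distrib]
          refine Finset.sum_congr rfl fun g _ => ?_
          rw [neg_smul, smul_smul, smul_smul, mul_assoc]
        have h3 : w + (c g₀ • g₀ + ∑ g ∈ B, c g • g) =
            w + ∑ g ∈ B, (-(z₀⁻¹ * (c g * z g)) + c g) • g := by
          rw [h2, ← Finset.sum_add_distrib]
          congr 1
          exact Finset.sum_congr rfl fun g _ => (add_smul _ _ _).symm
        rw [h3]
        refine ih hB' _ w hw fun i' => ?_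
        rw [← h3, ← Finset.sum_insert (f := fun g => c g • g) hg₀]
        exact h i'
  obtain ⟨c, hc⟩ : ∃ (c : G →₀ C), (c.sum fun g a => a • (g : V)) = T := by
    rw [Finsupp.mem_span_iff_linearCombination] at hT
    obtain ⟨c, hc⟩ := hT
    exact ⟨c, hc⟩
  have hT' : T = 0 + ∑ g ∈ c.support.image (fun g : G => (g : V)),
      (if h : g ∈ G then c ⟨g, h⟩ else 0) • g := by
    rw [zero_add, Finset.sum_image (fun a _ b _ h => Subtype.ext h), ← hc, Finsupp.sum]
    refine Finset.sum_congr rfl fun g _ => ?_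
    rw [dif_pos g.2]
  rw [hT']
  refine key _ (fun g hg => ?_) (fun g => if h : g ∈ G then c ⟨g, h⟩ else 0) 0
    (Submodule.zero_mem _) fun i => ?_
  · obtain ⟨g', _, rfl⟩ := Finset.mem_image.mp hg
    exact g'.2
  · rw [← hT']
    exact h0 i

variable {C : Type*} [Field C] [CharZero C] [IsAlgClosed C] {K : Type*} [Fintype K] [DecidableEq K]
  {D : TData C K} {X I : Type*} [Fintype X] [DecidableEq X] [Fintype I] [DecidableEq I]
  (F : RFr D X I)

namespace RFr

theorem CH_sum_ix {R : Type*} [AddCommMonoid R] (f : X) (g : I → R) :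
    ∑ i, (if F.Y.φ i = f then g i else 0) = ∑ c : FFT.Ix F.Y f, g c.1 := by
  rw [← Finset.sum_filter]
  exact Finset.sum_subtype _ (fun i => by simp) g

theorem CH_vecMul_PF (u : K → C) (f : X) (k : K) :
    (u ᵥ* PF F.Y F.w F.l f) k = ∑ c' : FFT.Ix F.Y f, (u ⬝ᵥ F.w c'.1) * F.l c'.1 k := by
  have h1 : PF F.Y F.w F.l f = ∑ c' : FFT.Ix F.Y f, vecMulVec (F.w c'.1) (F.l c'.1) :=
    F.CH_sum_ix f fun i => vecMulVec (F.w i) (F.l i)
  rw [h1, Matrix.vecMul_sum, Finset.sum_apply]
  refine Finset.sum_congr rfl fun c' _ => ?_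
  simp only [Matrix.vecMul, dotProduct, vecMulVec_apply, Finset.sum_mul, mul_assoc]

/-- PROOF. `M` commutes with `PF f` (`P_mem`, `uu_comm`). As row vectors
`l c ᵥ* M = l c ᵥ* PF f ᵥ* M` (`l_PF`) `= (l c ᵥ* M) ᵥ* PF f = ∑_{c'} ((l c ᵥ* M) ⬝ᵥ w c') • l c'`. -/
theorem l_mul {M : Matrix K K C} (hM : M ∈ uu D) {f : X} (c : FFT.Ix F.Y f) (k : K) :
    (F.l c.1 ᵥ* M) k = ∑ c' : FFT.Ix F.Y f, (F.l c.1 ⬝ᵥ (M *ᵥ F.w c'.1)) * F.l c'.1 k := by
  have h1 : F.l c.1 ᵥ* M = (F.l c.1 ᵥ* M) ᵥ* PF F.Y F.w F.l f := by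
    rw [Matrix.vecMul_vecMul, uu_comm hM (F.P_mem f), ← Matrix.vecMul_vecMul]
    have h2 := F.l_PF c.1
    rw [c.2] at h2
    rw [h2]
  rw [h1, CH_vecMul_PF]
  refine Finset.sum_congr rfl fun c' _ => ?_
  rw [Matrix.dotProduct_mulVec]

/-- PROOF. `PF f = ∑ vecMulVec`, `Matrix.trace_mul_comm`, `trace_vecMulVec`. -/
theorem trace_PF (M : Matrix K K C) (f : X) :
    (M * PF F.Y F.w F.l f).trace = ∑ c : FFT.Ix F.Y f, F.l c.1 ⬝ᵥ (M *ᵥ F.w c.1) := by
  have h1 : PF F.Y F.w F.l f = ∑ c' : FFT.Ix F.Y f, vecMulVec (F.w c'.1) (F.l c'.1) :=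
    F.CH_sum_ix f fun i => vecMulVec (F.w i) (F.l i)
  rw [h1, Matrix.mul_sum, Matrix.trace_sum]
  refine Finset.sum_congr rfl fun c _ => ?_
  rw [Matrix.mul_vecMulVec, Matrix.trace_vecMulVec, dotProduct_comm]

variable {S A : Type*} [Fintype S] [DecidableEq S] [Fintype A] [DecidableEq A]

/-- The matrix of the action of `M` on the columns of the determinants. -/
noncomputable def dmat {N : ℕ} (f : Fin N → X) (M : Matrix K K C) : Matrix (F.Cx f) (F.Cx f) C :=
  Matrix.of fun c c' => if c.1 = c'.1 then F.l c.2.1 ⬝ᵥ (M *ᵥ F.w c'.2.1) else 0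

/-- The trace of `dmat` is the sum over `ν` of `trace_PF`. -/
theorem trace_dmat {N : ℕ} (f : Fin N → X) (M : Matrix K K C) :
    (F.dmat f M).trace = ∑ ν, (M * PF F.Y F.w F.l (f ν)).trace := by
  rw [Matrix.trace, Fintype.sum_sigma]
  refine Finset.sum_congr rfl fun ν _ => ?_
  rw [trace_PF]
  refine Finset.sum_congr rfl fun c _ => ?_
  rw [Matrix.diag_apply, dmat, Matrix.of_apply, if_pos rfl]

/-- `∑_m dlam s c m * lift M m m' = [s.1 = c.1][m'.1 = α s] (l c ᵥ* r s ᵥ* M) m'.2`, `r s * M = M * r s`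
(`uu_comm`), and `l_mul`. -/
theorem dlam_mul {N : ℕ} {f : Fin N → X} {r : F.Cx f → Matrix K K C} (hr : ∀ s, r s ∈ RC D)
    (α : F.Cx f → A) {M : Matrix K K C} (hM : M ∈ uu D) (s c : F.Cx f) (m' : A × K) :
    ∑ m, F.dlam f r α s c m * lift A M m m' = ∑ c', F.dmat f M c c' * F.dlam f r α s c' m' := by
  have hL : ∑ m, F.dlam f r α s c m * lift A M m m' =
      if s.1 = c.1 ∧ m'.1 = α s then ((F.l c.2.1 ᵥ* r s) ᵥ* M) m'.2 else 0 := by
    rw [Fintype.sum_prod_type, Finset.sum_eq_single m'.1]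
    · unfold dlam lift
      split_ifs with h1
      · simp only [Matrix.vecMul, dotProduct, Matrix.of_apply, if_true]
      · refine Finset.sum_eq_zero fun k _ => ?_
        rw [zero_mul]
    · intro a _ ha
      refine Finset.sum_eq_zero fun k _ => ?_
      unfold lift
      rw [Matrix.of_apply, if_neg ha, mul_zero]
    · intro h1
      exact absurd (Finset.mem_univ _) h1
  rw [hL, Matrix.vecMul_vecMul, ← uu_comm hM (hr s), ← Matrix.vecMul_vecMul]
  rw [Fintype.sum_sigma, Finset.sum_eq_single c.1]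
  · have hvec : F.l c.2.1 ᵥ* M =
        ∑ c' : FFT.Ix F.Y (f c.1), (F.l c.2.1 ⬝ᵥ (M *ᵥ F.w c'.1)) • F.l c'.1 := by
      funext k
      rw [F.l_mul hM c.2 k, Finset.sum_apply]
      rfl
    rw [hvec, Matrix.sum_vecMul]
    by_cases h1 : s.1 = c.1 ∧ m'.1 = α s
    · rw [if_pos h1, Finset.sum_apply]
      refine Finset.sum_congr rfl fun c' _ => ?_
      rw [dmat, Matrix.of_apply, if_pos rfl, Matrix.smul_vecMul, Pi.smul_apply, smul_eq_mul]
      unfold dlam
      rw [if_pos h1]
    · rw [if_neg h1]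
      symm
      refine Finset.sum_eq_zero fun c' _ => ?_
      unfold dlam
      rw [if_neg h1, mul_zero]
  · intro ν _ hν
    refine Finset.sum_eq_zero fun c' _ => ?_
    rw [dmat, Matrix.of_apply, if_neg (fun h => hν h.symm), zero_mul]
  · intro h1
    exact absurd (Finset.mem_univ _) h1

/-- PROOF. `DM_detT` with `dmat` and `dlam_mul`. -/
theorem DM_dlam {N : ℕ} {f : Fin N → X} {r : F.Cx f → Matrix K K C} (hr : ∀ s, r s ∈ RC D)
    (α : F.Cx f → A) {M : Matrix K K C} (hM : M ∈ uu D) (j : F.Cx f → A × K) :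
    DM (lift A M) (detT (F.dlam f r α)) j =
      (∑ ν, (M * PF F.Y F.w F.l (f ν)).trace) * detT (F.dlam f r α) j := by
  rw [DM_detT (lift A M) (F.dlam f r α) (F.dmat f M) (F.dlam_mul hr α hM) j, trace_dmat]

end RFr

end Pool.Agent.Lib.MP_021685_agU
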