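import Pool.Agent.Lib.MP_021685_agU.CH

/-!
# The derivation of a generator
-/

set_option autoImplicit false
set_option linter.unusedSectionVars false

namespace Pool.Agent.Lib.MP_021685_agU

open Matrix Function Module

variable {C : Type*} [Field C] [CharZero C] [IsAlgClosed C] {K : Type*} [Fintype K] [DecidableEq K]
  {D : TData C K} {X I : Type*} [Fintype X] [DecidableEq X] [Fintype I] [DecidableEq I]
  (F : RFr D X I)

namespace RFr

variable {S A : Type*} [Fintype S] [DecidableEq S] [Fintype A] [DecidableEq A]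

theorem CHg_pair {e M : Matrix K K C} (he : e ∈ RC D) (hM : M ∈ uu D) (a b : A) (y z : A × K) :
    ∑ k, pr (eᵀ * D.G) a b (y.1, k) z * M k y.2 + ∑ k, pr (eᵀ * D.G) a b y (z.1, k) * M k z.2 =
      0 := by
  unfold pr
  by_cases h : y.1 = a ∧ z.1 = b
  · have h1 : Mᵀ * (eᵀ * D.G) + (eᵀ * D.G) * M = 0 := by
      have h2 : Mᵀ * eᵀ = eᵀ * Mᵀ := by
        rw [← Matrix.transpose_mul, ← Matrix.transpose_mul, uu_comm hM he]
      rw [← Matrix.mul_assoc, h2, Matrix.mul_assoc, Matrix.mul_assoc, ← Matrix.mul_add, hM.2,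
        Matrix.mul_zero]
    have h2 := congrFun (congrFun h1 y.2) z.2
    rw [Matrix.add_apply, Matrix.mul_apply, Matrix.mul_apply, Matrix.zero_apply] at h2
    rw [← h2]
    congr 1
    · refine Finset.sum_congr rfl fun k _ => ?_
      rw [if_pos (show (y.1, k).1 = a ∧ z.1 = b from h), Matrix.transpose_apply, mul_comm]
    · refine Finset.sum_congr rfl fun k _ => ?_
      rw [if_pos (show y.1 = a ∧ (z.1, k).1 = b from h)]
  · have e1 : ∀ k : K, ¬ ((y.1, k).1 = a ∧ z.1 = b) := fun _ => h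
    have e2 : ∀ k : K, ¬ (y.1 = a ∧ (z.1, k).1 = b) := fun _ => h
    rw [Finset.sum_eq_zero fun k _ => by rw [if_neg (e1 k), zero_mul],
      Finset.sum_eq_zero fun k _ => by rw [if_neg (e2 k), zero_mul], add_zero]

/-- PROOF. `DX M` is a derivation for products over disjoint sets of slots. The terms of the slots
`q (inl (μ, 0))`, `q (inl (μ, 1))` together give zero (`Mᵀ eᵀ Gc + eᵀ Gc M = eᵀ (Mᵀ Gc + Gc M) = 0`),
the terms of the slots `q (inr s)` give `DM_dlam`. -/
theorem DX_genT {m N : ℕ} {f : Fin N → X} {q : (Fin m × Fin 2) ⊕ F.Cx f ≃ S}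
    {e : Fin m → Matrix K K C} {r : F.Cx f → Matrix K K C} (α : S → A) (he : ∀ μ, e μ ∈ RC D)
    (hr : ∀ s, r s ∈ RC D) {M : Matrix K K C} (hM : M ∈ uu D) (j : S → A × K) :
    DX M (F.genT f q e r α) j =
      (∑ ν, (M * PF F.Y F.w F.l (f ν)).trace) * F.genT f q e r α j := by
  have hne : ∀ {a b : (Fin m × Fin 2) ⊕ F.Cx f}, a ≠ b → q a ≠ q b := fun h h' =>
    h (q.injective h')
  rw [DX, ← Equiv.sum_comp q, Fintype.sum_sum_type]
  have hA : ∑ x : Fin m × Fin 2, ∑ k, F.genT f q e r α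
      (update j (q (Sum.inl x)) ((j (q (Sum.inl x))).1, k)) * M k (j (q (Sum.inl x))).2 = 0 := by
    rw [Fintype.sum_prod_type]
    refine Finset.sum_eq_zero fun μ _ => ?_
    obtain ⟨Z, hZ⟩ : ∃ Z : C, Z = (∏ μ' ∈ Finset.univ.erase μ,
        pr ((e μ')ᵀ * D.G) (α (q (Sum.inl (μ', 0)))) (α (q (Sum.inl (μ', 1))))
          (j (q (Sum.inl (μ', 0)))) (j (q (Sum.inl (μ', 1))))) *
        detT (F.dlam f r fun s => α (q (Sum.inr s))) (fun s => j (q (Sum.inr s))) := ⟨_, rfl⟩
    have key : ∀ (b : Fin 2) (y : A × K), F.genT f q e r α (update j (q (Sum.inl (μ, b))) y) =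
        pr ((e μ)ᵀ * D.G) (α (q (Sum.inl (μ, 0)))) (α (q (Sum.inl (μ, 1))))
          (update j (q (Sum.inl (μ, b))) y (q (Sum.inl (μ, 0))))
          (update j (q (Sum.inl (μ, b))) y (q (Sum.inl (μ, 1)))) * Z := by
      intro b y
      rw [genT, ← Finset.mul_prod_erase Finset.univ _ (Finset.mem_univ μ), hZ, mul_assoc]
      congr 2
      · refine Finset.prod_congr rfl fun μ' hμ' => ?_
        have h1 : μ' ≠ μ := Finset.ne_of_mem_erase hμ'
        have h2 : ∀ b' : Fin 2, update j (q (Sum.inl (μ, b))) y (q (Sum.inl (μ', b'))) =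
            j (q (Sum.inl (μ', b'))) := fun b' =>
          update_of_ne (hne fun h => h1 (congrArg Prod.fst (Sum.inl_injective h))) _ _
        rw [h2, h2]
      · exact congrArg (detT (F.dlam f r fun s => α (q (Sum.inr s))))
          (funext fun s => update_of_ne (hne (by simp)) _ _)
    have h01 : q (Sum.inl (μ, 1)) ≠ q (Sum.inl (μ, 0)) := hne (by simp)
    rw [Fin.sum_univ_two]
    have e0 : ∀ y, update j (q (Sum.inl (μ, 0))) y (q (Sum.inl (μ, 1))) = j (q (Sum.inl (μ, 1))) :=
      fun y => update_of_ne h01 _ _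
    have e1 : ∀ y, update j (q (Sum.inl (μ, 1))) y (q (Sum.inl (μ, 0))) = j (q (Sum.inl (μ, 0))) :=
      fun y => update_of_ne h01.symm _ _
    have h := CHg_pair (A := A) (he μ) hM (α (q (Sum.inl (μ, 0)))) (α (q (Sum.inl (μ, 1))))
      (j (q (Sum.inl (μ, 0)))) (j (q (Sum.inl (μ, 1))))
    have h2 := congrArg (fun x : C => x * Z) h
    beta_reduce at h2
    rw [add_mul, Finset.sum_mul, Finset.sum_mul, zero_mul] at h2
    rw [← h2]
    congr 1
    · refine Finset.sum_congr rfl fun k _ => ?_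
      rw [key 0, update_self, e0]
      ring
    · refine Finset.sum_congr rfl fun k _ => ?_
      rw [key 1, update_self, e1]
      ring
  rw [hA, zero_add]
  obtain ⟨P, hP⟩ : ∃ P : C, P = ∏ μ, pr ((e μ)ᵀ * D.G) (α (q (Sum.inl (μ, 0))))
      (α (q (Sum.inl (μ, 1)))) (j (q (Sum.inl (μ, 0)))) (j (q (Sum.inl (μ, 1)))) := ⟨_, rfl⟩
  have key : ∀ (c : F.Cx f) (y : A × K), F.genT f q e r α (update j (q (Sum.inr c)) y) =
      P * detT (F.dlam f r fun s => α (q (Sum.inr s))) (update (fun s => j (q (Sum.inr s))) c y) := by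
    intro c y
    rw [genT, hP]
    congr 1
    · refine Finset.prod_congr rfl fun μ _ => ?_
      rw [update_of_ne (hne (by simp)), update_of_ne (hne (by simp))]
    · congr 1
      funext s
      by_cases hs : s = c
      · rw [hs, update_self, update_self]
      · rw [update_of_ne hs, update_of_ne (hne fun h => hs (Sum.inr_injective h))]
  have h := F.DM_dlam hr (fun s => α (q (Sum.inr s))) hM (fun s => j (q (Sum.inr s)))
  rw [← DX_eq_DM] at h
  have hg : F.genT f q e r α j =
      P * detT (F.dlam f r fun s => α (q (Sum.inr s))) (fun s => j (q (Sum.inr s))) := by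
    rw [genT, hP]
  rw [hg, mul_left_comm, ← h, DX, Finset.mul_sum]
  refine Finset.sum_congr rfl fun c _ => ?_
  rw [Finset.mul_sum]
  refine Finset.sum_congr rfl fun k _ => ?_
  rw [key, mul_assoc]

end RFr

end Pool.Agent.Lib.MP_021685_agU
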