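import Pool.Agent.Lib.MP_021685_agU.XCe

/-!
# Tensors killed by `ss`
-/

set_option autoImplicit false
set_option linter.unusedSectionVars false

namespace Pool.Agent.Lib.MP_021685_agU

open Matrix Function Module

variable {C : Type*} [Field C] [CharZero C] [IsAlgClosed C] {K : Type*} [Fintype K] [DecidableEq K]
  {D : TData C K} {X I : Type*} [Fintype X] [DecidableEq X] [Fintype I] [DecidableEq I]
  (F : RFr D X I)

namespace RFr

variable {S A : Type*} [Fintype S] [DecidableEq S] [Fintype A] [DecidableEq A]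

/-- The tensor with the coordinates `t` in the labels `α` and the summands `χ`. -/
noncomputable def XCs_Th (α : S → A) (χ : S → X) : ((S → I) → C) →ₗ[C] ((S → A × K) → C) where
  toFun t j := if (∀ s, (j s).1 = α s) then ∑ i, t i * ∏ s, F.cov (χ s) (i s) (j s).2 else 0
  map_add' x y := by
    funext j
    by_cases h : ∀ s, (j s).1 = α s
    · simp only [Pi.add_apply, if_pos h, add_mul, Finset.sum_add_distrib]
    · simp only [Pi.add_apply, if_neg h, add_zero]
  map_smul' c x := by
    funext j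
    by_cases h : ∀ s, (j s).1 = α s
    · simp only [Pi.smul_apply, smul_eq_mul, RingHom.id_apply, if_pos h, mul_assoc, Finset.mul_sum]
    · simp only [Pi.smul_apply, smul_eq_mul, RingHom.id_apply, if_neg h, mul_zero]

theorem XCs_Th_apply (α : S → A) (χ : S → X) (t : (S → I) → C) (j : S → A × K) :
    F.XCs_Th α χ t j =
      if (∀ s, (j s).1 = α s) then ∑ i, t i * ∏ s, F.cov (χ s) (i s) (j s).2 else 0 := rfl

theorem XCs_eq_sum (T : (S → A × K) → C) :
    T = ∑ α : S → A, ∑ χ : S → X, F.XCs_Th α χ (F.tv T α χ) := by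
  funext j
  rw [Finset.sum_apply, Finset.sum_eq_single (fun s => (j s).1)]
  · rw [Finset.sum_apply]
    have h := F.eq_sum_tv T (fun s => (j s).1) (fun s => (j s).2)
    simp only [Prod.mk.eta] at h
    rw [h]
    refine Finset.sum_congr rfl fun χ _ => ?_
    rw [XCs_Th_apply, if_pos fun s => rfl]
  · intro α _ hα
    rw [Finset.sum_apply]
    refine Finset.sum_eq_zero fun χ _ => ?_
    rw [XCs_Th_apply, if_neg fun h => hα (funext fun s => (h s).symm)]
  · intro h
    exact absurd (Finset.mem_univ _) h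

/-- PROOF. For `α : S → A`, `χ : S → X` consider the linear map
`Θ : (S → I → C) → ...`, `Θ t j = if (∀ s, (j s).1 = α s) then ∑ i, t i * ∏ s, cov (χ s) (i s) (j s).2
else 0`. `T = ∑ α, ∑ χ, Θ (tv T α χ)` by `eq_sum_tv`, `tv T α χ` is in the span of the generators of `fft`
(`inv_tv`), and `Θ` of a generator is a `genT` by `eval_gen`. -/
theorem mem_span_genT {T : (S → A × K) → C} (hT : ∀ M ∈ ss D, ∀ j, DX M T j = 0) :
    T ∈ Submodule.span C {G : (S → A × K) → C | ∃ (m N : ℕ) (f : Fin N → X)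
      (q : (Fin m × Fin 2) ⊕ F.Cx f ≃ S) (e : Fin m → Matrix K K C) (r : F.Cx f → Matrix K K C)
      (α : S → A), (∀ μ, e μ ∈ RC D) ∧ (∀ s, r s ∈ RC D) ∧ G = F.genT f q e r α} := by
  rw [F.XCs_eq_sum T]
  refine Submodule.sum_mem _ fun α _ => Submodule.sum_mem _ fun χ _ => ?_
  have h1 := FFT.fft (Y := F.Y) (F.tv T α χ) (F.inv_tv hT α χ)
  have h2 := Submodule.mem_map_of_mem (f := F.XCs_Th α χ) h1
  rw [Submodule.map_span] at h2
  refine Submodule.span_mono ?_ h2
  rintro G ⟨t, ⟨m, N, f', f, q, rfl⟩, rfl⟩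
  obtain ⟨e, r, he, hr, h⟩ := F.eval_gen f' f q α χ
  exact ⟨m, N, f, q, e, r, α, he, hr, funext h⟩

end RFr

end Pool.Agent.Lib.MP_021685_agU
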