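import Pool.Agent.Lib.MP_021685_agU.CHg
import Pool.Agent.Lib.MP_021685_agU.XCs

/-!
# Tensors killed by `ss` and by `g`
-/

set_option autoImplicit false
set_option linter.unusedSectionVars false

namespace Pool.Agent.Lib.MP_021685_agU

open Matrix Function Module

variable {C : Type*} [Field C] [CharZero C] [IsAlgClosed C] {K : Type*} [Fintype K] [DecidableEq K]
  {D : TData C K} {X I : Type*} [Fintype X] [DecidableEq X] [Fintype I] [DecidableEq I]
  (F : RFr D X I)

namespace RFr

variable {S A : Type*} [Fintype S] [DecidableEq S] [Fintype A] [DecidableEq A]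

/-- the derivation as a linear map of tensors -/
private noncomputable def CHm_lin (M : Matrix K K C) : ((S → A × K) → C) →ₗ[C] ((S → A × K) → C) where
  toFun T := fun j => DX M T j
  map_add' T T' := by
    funext j
    simp only [DX, Pi.add_apply, add_mul, Finset.sum_add_distrib]
  map_smul' c T := by
    funext j
    simp only [DX, Pi.smul_apply, smul_eq_mul, RingHom.id_apply, Finset.mul_sum, mul_assoc]

private theorem CHm_lin_apply (M : Matrix K K C) (T : (S → A × K) → C) (j : S → A × K) :
    CHm_lin M T j = DX M T j := rfl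

/-- PROOF. `mem_span_genT` gives `T` in the span of the `genT`.
`T` is killed by the `M ∈ g`, `M ∈ uu D` (`g_le_uu`),
so `mem_span_zero` with `A M = DX M` and `DX_genT` shows that `T` is in the span of the `genT`
with `(∑ ν, trace) • genT = 0` for all `M ∈ g`; those which are zero can be omitted. -/
theorem mem_span_good {T : (S → A × K) → C} (hJ : ∀ M ∈ D.g, ∀ j, DX M T j = 0)
    (hs : ∀ M ∈ ss D, ∀ j, DX M T j = 0) :
    T ∈ Submodule.span C {G : (S → A × K) → C | ∃ (m N : ℕ) (f : Fin N → X)
      (q : (Fin m × Fin 2) ⊕ F.Cx f ≃ S) (e : Fin m → Matrix K K C) (r : F.Cx f → Matrix K K C)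
      (α : S → A), (∀ μ, e μ ∈ RC D) ∧ (∀ s, r s ∈ RC D) ∧
      (∀ M ∈ D.g, ∑ ν, (M * PF F.Y F.w F.l (f ν)).trace = 0) ∧
      G = F.genT f q e r α} := by
  have h2 := F.mem_span_genT (S := S) (A := A) hs
  have h3 := mem_span_zero (fun M : D.g => CHm_lin (S := S) (A := A) (M : Matrix K K C)) _ ?_ h2 ?_
  · refine Submodule.span_le.2 ?_ h3
    rintro G ⟨⟨m, N, f, q, e, r, α, he, hr, rfl⟩, h4⟩
    by_cases h0 : F.genT f q e r α = 0
    · rw [h0]
      exact Submodule.zero_mem _
    · refine Submodule.subset_span ⟨m, N, f, q, e, r, α, he, hr, fun M hM => ?_, rfl⟩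
      by_contra h5
      apply h0
      funext j
      have h6 := congrFun (h4 ⟨M, hM⟩) j
      have h8 : DX M (F.genT f q e r α) j =
          (∑ ν, (M * PF F.Y F.w F.l (f ν)).trace) * F.genT f q e r α j :=
        F.DX_genT α he hr (g_le_uu hM) j
      rw [CHm_lin_apply, h8] at h6
      rcases mul_eq_zero.1 h6 with h7 | h7
      · exact absurd h7 h5
      · exact h7
  · rintro G ⟨m, N, f, q, e, r, α, he, hr, rfl⟩ M
    refine ⟨∑ ν, ((M : Matrix K K C) * PF F.Y F.w F.l (f ν)).trace, ?_⟩
    funext j
    rw [CHm_lin_apply]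
    exact F.DX_genT α he hr (g_le_uu M.2) j
  · intro M
    funext j
    rw [CHm_lin_apply, hJ _ M.2 j]
    rfl

end RFr

end Pool.Agent.Lib.MP_021685_agU
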