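import Pool.Agent.Lib.MP_802513_agU.FG

/-!
# Invariants of a product of special linear, symplectic and orthogonal Lie algebras over a field

As `MP_802513_agU/FA.lean` (helper39), with an arbitrary field `C` instead of the complex numbers.
-/

set_option autoImplicit false
set_option linter.unusedSectionVars false

namespace Pool.Agent.Lib.MP_021685_agU.FFT

open Finset Function

/-- The index set of the basis, with its involution, signs and places. -/
structure Sys (C I Φ : Type*) [Field C] where
  bar : I → I
  ε : I → C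
  φ : I → Φ
  η : Φ → C
  bar_bar : ∀ i, bar (bar i) = i
  ε_sq : ∀ i, ε i * ε i = 1
  ε_bar : ∀ i, ε (bar i) = η (φ i) * ε i
  η_eq : ∀ f, η f = 1 ∨ η f = -1
  φ_bar : ∀ i j, φ i = φ j → φ (bar i) = φ (bar j)

namespace Sys

variable {C I Φ : Type*} [Field C] (Y : Sys C I Φ)

theorem ε_ne (i : I) : Y.ε i ≠ 0 := by
  intro h
  have := Y.ε_sq i
  rw [h, mul_zero] at this
  exact zero_ne_one this

theorem ε_eq (i : I) : Y.ε i = 1 ∨ Y.ε i = -1 := mul_self_eq_one_iff.1 (Y.ε_sq i)

theorem bar_inj {i j : I} (h : Y.bar i = Y.bar j) : i = j := by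
  rw [← Y.bar_bar i, h, Y.bar_bar]

theorem φ_bar' {i j : I} (h : Y.φ (Y.bar i) = Y.φ (Y.bar j)) : Y.φ i = Y.φ j := by
  have := Y.φ_bar _ _ h
  rwa [Y.bar_bar, Y.bar_bar] at this

theorem η_sq (f : Φ) : Y.η f * Y.η f = 1 := by
  rcases Y.η_eq f with h | h <;> rw [h]
  · rw [mul_one]
  · rw [neg_mul_neg, mul_one]

end Sys

variable {C S I Φ : Type*} [Field C] [Fintype S] [DecidableEq S] [Fintype I] [DecidableEq I]
  [DecidableEq Φ]

/-- The operator which replaces the index `l` of a slot in `D` by `i`. -/
def op (D : Finset S) (l i : I) (T : (S → I) → C) (j : S → I) : C :=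
  ∑ s ∈ D, if j s = l then T (update j s i) else 0

variable (Y : Sys C I Φ)

/-- Invariance of `T` (with respect to the slots in `D`) under the Lie algebra `s`: the product of the
special linear algebras (for the pairs of dual places), the symplectic and orthogonal ones. -/
structure InvS (D : Finset S) (T : (S → I) → C) : Prop where
  off : ∀ i l, Y.φ i = Y.φ l → i ≠ l → ∀ j : S → I,
    Y.ε l * op D l i T j = Y.ε i * op D (Y.bar i) (Y.bar l) T j
  diag : ∀ i l, Y.φ i = Y.φ l → ∀ j : S → I,
    op D i i T j - op D (Y.bar i) (Y.bar i) T j = op D l l T j - op D (Y.bar l) (Y.bar l) T j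

/-- The indices at the place `f`. -/
abbrev Ix (f : Φ) : Type _ := {i : I // Y.φ i = f}

/-- The basic pairing of two slots. -/
def beta (f : Φ) (x y : I) : C := if Y.φ x = f ∧ y = Y.bar x then Y.ε x else 0

/-- The determinant of the place `f`. -/
noncomputable def dt (f : Φ) (g : Ix Y f → I) : C :=
  (Matrix.of fun a b : Ix Y f => if g a = b.1 then (1 : C) else 0).det

end Pool.Agent.Lib.MP_021685_agU.FFT
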