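import Pool.Agent.Lib.MP_021685_agU.TC

/-!
# Stable subspaces of the powers are kernels of equivariant idempotents
-/

set_option autoImplicit false
set_option linter.unusedSectionVars false

namespace Pool.Agent.Lib.MP_021685_agU

open Matrix Function Module

variable {C : Type*} [Field C] [CharZero C] {K : Type*} [Fintype K] [DecidableEq K] {D : TData C K}
  {A : Type*} [Fintype A] [DecidableEq A]

/-- An equivariant projection with a given kernel in a power of a semisimple module. -/
private theorem GN_proj {R M A : Type*} [Ring R] [AddCommGroup M] [Module R M] [Finite A]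
    (h : IsSemisimpleModule R M) (N : Submodule R (A → M)) :
    ∃ q : (A → M) →ₗ[R] (A → M), (∀ f, q (q f) = q f) ∧ ∀ f, q f = 0 ↔ f ∈ N := by
  have hpi : IsSemisimpleModule R (A → M) := inferInstance
  obtain ⟨W, hW⟩ := exists_isCompl N
  refine ⟨W.subtype ∘ₗ W.projectionOnto N hW.symm, fun f => ?_, fun f => ?_⟩
  · exact congrArg Subtype.val
      (Submodule.projectionOnto_apply_left hW.symm (W.projectionOnto N hW.symm f))
  · rw [← Submodule.projectionOnto_apply_eq_zero_iff hW.symm]
    exact ⟨fun h => Subtype.ext h, fun h => by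
      change ((W.projectionOnto N hW.symm f : W) : A → M) = 0
      rw [h]
      rfl⟩

/-- The algebra of endomorphisms generated by `g`. -/
private def GN_alg (D : TData C K) : Subalgebra C (Module.End C (K → C)) :=
  Algebra.adjoin C (Matrix.toLin' '' D.g)

private theorem GN_smul (r : GN_alg D) (v : K → C) : r • v = (r : Module.End C (K → C)) v := rfl

private theorem GN_algebraMap (c : C) (v : K → C) : algebraMap C (GN_alg D) c • v = c • v := rfl

/-- Stability under `g` implies stability under the generated algebra. -/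
private theorem GN_stable {M : Type*} [AddCommGroup M] [Module C M] (f : GN_alg D → M → M)
    (N : Submodule C M) (hc : ∀ c m, f (algebraMap C (GN_alg D) c) m = c • m)
    (ha : ∀ r s m, f (r + s) m = f r m + f s m) (hm : ∀ r s m, f (r * s) m = f r (f s m))
    (hg : ∀ Y, ∀ hY : Y ∈ D.g, ∀ m ∈ N, f ⟨Matrix.toLin' Y, Algebra.subset_adjoin ⟨Y, hY, rfl⟩⟩ m ∈ N)
    (r : GN_alg D) : ∀ m ∈ N, f r m ∈ N := by
  obtain ⟨r, hr⟩ := r
  induction hr using Algebra.adjoin_induction with
  | mem x hx =>
    obtain ⟨Y, hY, rfl⟩ := hx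
    exact hg Y hY
  | algebraMap c =>
    intro m hm'
    have := hc c m
    rw [show (⟨algebraMap C (Module.End C (K → C)) c, _⟩ : GN_alg D) =
      algebraMap C (GN_alg D) c from rfl, this]
    exact N.smul_mem c hm'
  | add x y hx hy h1 h2 =>
    intro m hm'
    have := ha ⟨x, hx⟩ ⟨y, hy⟩ m
    rw [show (⟨x + y, _⟩ : GN_alg D) = ⟨x, hx⟩ + ⟨y, hy⟩ from rfl, this]
    exact N.add_mem (h1 m hm') (h2 m hm')
  | mul x y hx hy h1 h2 =>
    intro m hm'
    have := hm ⟨x, hx⟩ ⟨y, hy⟩ m
    rw [show (⟨x * y, _⟩ : GN_alg D) = ⟨x, hx⟩ * ⟨y, hy⟩ from rfl, this]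
    exact h1 _ (h2 m hm')

private theorem GN_semisimple : IsSemisimpleModule (GN_alg D) (K → C) := by
  rw [isSemisimpleModule_iff]
  refine ⟨fun W => ?_⟩
  let W' : Submodule C (K → C) :=
    { carrier := W
      add_mem' := fun h h' => W.add_mem h h'
      zero_mem' := W.zero_mem
      smul_mem' := fun c v hv => W.smul_mem (algebraMap C (GN_alg D) c) hv }
  obtain ⟨p, hp, h1, h2⟩ := exists_RC_proj D W' (fun X hX v hv =>
    W.smul_mem (⟨Matrix.toLin' X, Algebra.subset_adjoin ⟨X, hX, rfl⟩⟩ : GN_alg D) hv)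
  let Z' : Submodule C (K → C) := LinearMap.ker (Matrix.toLin' p)
  have hZ : ∀ v, v ∈ Z' ↔ p *ᵥ v = 0 := fun v => by
    rw [LinearMap.mem_ker, Matrix.toLin'_apply]
  have hst := GN_stable (D := D) (fun r v => r • v) Z' (fun c v => rfl) (fun r s v => add_smul r s v)
    (fun r s v => mul_smul r s v) (fun X hX v hv => by
      rw [hZ] at hv ⊢
      change p *ᵥ (Matrix.toLin' X v) = 0
      rw [Matrix.toLin'_apply, mulVec_mulVec, hp X hX, ← mulVec_mulVec, hv, mulVec_zero])
  let Z : Submodule (GN_alg D) (K → C) :=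
    { carrier := Z'
      add_mem' := fun h h' => Z'.add_mem h h'
      zero_mem' := Z'.zero_mem
      smul_mem' := fun r v hv => hst r v hv }
  refine ⟨Z, ?_⟩
  have hpp : ∀ v, p *ᵥ (p *ᵥ v) = p *ᵥ v := fun v => h2 _ (h1 v)
  rw [isCompl_iff, disjoint_iff, codisjoint_iff]
  constructor
  · rw [eq_bot_iff]
    rintro v ⟨hv1, hv2⟩
    have h3 : p *ᵥ v = v := h2 v hv1
    have h4 : p *ᵥ v = 0 := (hZ v).1 hv2
    rw [Submodule.mem_bot, ← h3, h4]
  · rw [eq_top_iff]
    intro v _
    rw [Submodule.mem_sup]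
    refine ⟨p *ᵥ v, h1 v, v - p *ᵥ v, ?_, by rw [add_sub_cancel]⟩
    refine (hZ _).2 ?_
    rw [mulVec_sub, hpp, sub_self]

/-- Stable subspaces of the powers are kernels of equivariant idempotents. -/
theorem exists_pow_proj (N : Submodule C (A × K → C))
    (hN : ∀ Y ∈ D.g, ∀ v ∈ N, lift A Y *ᵥ v ∈ N) :
    ∃ P : Matrix (A × K) (A × K) C, P * P = P ∧ (∀ Y ∈ D.g, lift A Y * P = P * lift A Y) ∧
      ∀ v, P *ᵥ v = 0 ↔ v ∈ N := by
  classical
  have hss : IsSemisimpleModule (GN_alg D) (K → C) := GN_semisimple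
  let un : (A → K → C) →ₗ[C] (A × K → C) :=
    { toFun := fun f p => f p.1 p.2
      map_add' := fun f g => rfl
      map_smul' := fun c f => rfl }
  let cu : (A × K → C) →ₗ[C] (A → K → C) :=
    { toFun := fun f a k => f (a, k)
      map_add' := fun f g => rfl
      map_smul' := fun c f => rfl }
  have huc : ∀ v, un (cu v) = v := fun v => rfl
  have hcu : ∀ f, cu (un f) = f := fun f => rfl
  have hlift : ∀ Y, ∀ hY : Y ∈ D.g, ∀ f : A → K → C,
      un ((⟨Matrix.toLin' Y, Algebra.subset_adjoin ⟨Y, hY, rfl⟩⟩ : GN_alg D) • f) =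
        lift A Y *ᵥ un f := by
    intro Y hY f
    funext p
    change Matrix.toLin' Y (f p.1) p.2 = ∑ q : A × K, lift A Y p q * f q.1 q.2
    rw [Matrix.toLin'_apply, Fintype.sum_prod_type, Finset.sum_eq_single p.1]
    · simp [lift, Matrix.mulVec, dotProduct]
    · intro b _ hb
      refine Finset.sum_eq_zero fun k _ => ?_
      simp [lift, hb.symm]
    · intro h
      exact absurd (Finset.mem_univ _) h
  have hst := GN_stable (D := D) (fun r (f : A → K → C) => r • f) (N.comap un) (fun c f => rfl)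
    (fun r s f => add_smul r s f) (fun r s f => mul_smul r s f) (fun Y hY f hf => by
      rw [Submodule.mem_comap] at hf ⊢
      rw [hlift Y hY f]
      exact hN Y hY _ hf)
  let NR : Submodule (GN_alg D) (A → K → C) :=
    { carrier := N.comap un
      add_mem' := fun h h' => (N.comap un).add_mem h h'
      zero_mem' := (N.comap un).zero_mem
      smul_mem' := fun r v hv => hst r v hv }
  obtain ⟨q, hqq, hq0⟩ := GN_proj hss NR
  let F : (A × K → C) →ₗ[C] (A × K → C) :=
    { toFun := fun v => un (q (cu v))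
      map_add' := fun v w => by rw [map_add, map_add, map_add]
      map_smul' := fun c v => by
        have h1 : q (c • cu v) = c • q (cu v) := q.map_smul (algebraMap C (GN_alg D) c) (cu v)
        rw [map_smul, h1, map_smul, RingHom.id_apply] }
  have hF : ∀ v, LinearMap.toMatrix' F *ᵥ v = un (q (cu v)) := fun v => by
    rw [← Matrix.toLin'_apply, Matrix.toLin'_toMatrix']
    rfl
  refine ⟨LinearMap.toMatrix' F, ?_, ?_, ?_⟩
  · apply Matrix.toLin'.injective
    refine LinearMap.ext fun v => ?_
    rw [Matrix.toLin'_apply, Matrix.toLin'_apply, ← mulVec_mulVec, hF, hF, hcu, hqq]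
  · intro Y hY
    apply Matrix.toLin'.injective
    refine LinearMap.ext fun v => ?_
    rw [Matrix.toLin'_apply, Matrix.toLin'_apply, ← mulVec_mulVec, ← mulVec_mulVec, hF, hF,
      ← hlift Y hY, ← map_smul q]
    congr 2
    have h1 := hlift Y hY (cu v)
    rw [huc] at h1
    rw [← h1, hcu]
  · intro v
    rw [hF]
    constructor
    · intro h
      have h1 : q (cu v) = 0 := by
        rw [← hcu (q (cu v)), h, map_zero]
      exact (hq0 _).1 h1
    · intro h
      have h1 : q (cu v) = 0 := (hq0 _).2 h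
      rw [h1, map_zero]

end Pool.Agent.Lib.MP_021685_agU
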