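import Pool.Agent.Lib.MP_021685_agU.UV

/-!
# Alternating tensors of top degree on the image of an idempotent matrix
-/

set_option autoImplicit false
set_option linter.unusedSectionVars false

namespace Pool.Agent.Lib.MP_021685_agU

open Matrix Function Module

variable {C : Type*} [Field C] [CharZero C] {M S : Type*} [Fintype M] [DecidableEq M] [Fintype S] [DecidableEq S]

/-- Dual bases of the image of an idempotent matrix.
PROOF. Let `W = LinearMap.range (Matrix.mulVecLin P)`, `b = Module.finBasis C W`, `w i = b i`,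
`ℓ i` the coordinates of the linear form `b.coord i ∘ (P restricted to its range)`. Compare
`WData.exists_DB` in `MP_802513_ag/WCenter.lean`. `P.trace = ∑ i, ℓ i ⬝ᵥ w i = r`
(`Matrix.trace_vecMulVec`). -/
theorem exists_dec (P : Matrix M M C) (hP : P * P = P) :
    ∃ (r : ℕ) (w l : Fin r → M → C), (∀ i i', l i ⬝ᵥ w i' = if i = i' then 1 else 0) ∧
      P = ∑ i, vecMulVec (w i) (l i) ∧ P.trace = r := by
  classical
  let W := LinearMap.range (Matrix.mulVecLin P)
  let b := Module.finBasis C W
  let φ : Fin (finrank C W) → (M → C) →ₗ[C] C := fun k =>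
    (b.coord k) ∘ₗ (Matrix.mulVecLin P).rangeRestrict
  let c : Fin (finrank C W) → M → C := fun k x => φ k (fun y => if x = y then 1 else 0)
  have hφ : ∀ k u, φ k u = u ⬝ᵥ c k := by
    intro k u
    rw [LinearMap.pi_apply_eq_sum_univ (φ k) u]
    rfl
  have hb : ∀ k, P *ᵥ (b k : M → C) = (b k : M → C) := by
    intro k
    obtain ⟨u, hu⟩ := (b k).2
    rw [← hu]
    simp only [Matrix.mulVecLin_apply]
    rw [mulVec_mulVec, hP]
  have h1 : ∀ i i', c i ⬝ᵥ (b i' : M → C) = if i = i' then 1 else 0 := by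
    intro k l
    rw [dotProduct_comm, ← hφ]
    have h1 : (Matrix.mulVecLin P).rangeRestrict (b l : M → C) = b l := by
      apply Subtype.ext
      exact hb l
    change b.coord k ((Matrix.mulVecLin P).rangeRestrict (b l : M → C)) = _
    rw [h1, Basis.coord_apply, Basis.repr_self, Finsupp.single_apply]
    exact if_congr eq_comm rfl rfl
  have h2 : P = ∑ i, vecMulVec (b i : M → C) (c i) := by
    refine Matrix.ext_of_mulVec_single fun x => ?_
    obtain ⟨u, hu⟩ : ∃ u : M → C, u = Pi.single (M := fun _ : M => C) x 1 := ⟨_, rfl⟩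
    rw [← hu, Matrix.sum_mulVec]
    have h3 : ∀ i, vecMulVec (b i : M → C) (c i) *ᵥ u = φ i u • (b i : M → C) := by
      intro i
      rw [hφ, dotProduct_comm]
      ext m
      rw [Matrix.mulVec, dotProduct, Pi.smul_apply, smul_eq_mul, dotProduct, Finset.sum_mul]
      refine Finset.sum_congr rfl fun k _ => ?_
      rw [vecMulVec_apply]
      ring
    simp only [h3]
    have h4 := b.sum_repr ((Matrix.mulVecLin P).rangeRestrict u)
    have h5 := congrArg (fun z : W => (z : M → C)) h4
    have h6 : (((Matrix.mulVecLin P).rangeRestrict u : W) : M → C) = P *ᵥ u := rfl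
    rw [h6] at h5
    rw [← h5, Submodule.coe_sum]
    rfl
  refine ⟨finrank C W, fun k => (b k : M → C), c, h1, h2, ?_⟩
  rw [h2, Matrix.trace_sum]
  have h3 : ∀ i, (vecMulVec (b i : M → C) (c i)).trace = 1 := by
    intro i
    rw [Matrix.trace_vecMulVec, dotProduct_comm, h1, if_pos rfl]
  simp only [h3]
  rw [Finset.sum_const, Finset.card_univ, Fintype.card_fin, nsmul_eq_mul, mul_one]

/-- PROOF. `Fin r ≃ S`, `r = card S` because the trace is a natural number. -/
theorem exists_dec' (P : Matrix M M C) (hP : P * P = P) (h : P.trace = Fintype.card S) :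
    ∃ w l : S → M → C, (∀ s t, l s ⬝ᵥ w t = if s = t then 1 else 0) ∧
      P = ∑ s, vecMulVec (w s) (l s) := by
  obtain ⟨r, w, l, h1, h2, h3⟩ := exists_dec P hP
  have h4 : r = Fintype.card S := by
    rw [h3] at h
    exact_mod_cast h
  subst h4
  have e := Fintype.equivFin S
  refine ⟨fun s => w (e s), fun s => l (e s), fun s t => ?_, ?_⟩
  · rw [h1]
    exact if_congr e.injective.eq_iff rfl rfl
  · rw [h2]
    exact (Equiv.sum_comp e fun i => vecMulVec (w i) (l i)).symm

/-- An alternating tensor of top degree is a multiple of the determinant.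
PROOF. `T j = PM P T j = ∑_{j'} T j' ∏_s ∑_t w t (j' s) * l t (j s) =
∑_{h : S → S} (∑_{j'} T j' ∏_s w (h s) (j' s)) * ∏_s l (h s) (j s)`
(`Finset.prod_univ_sum`). Put `Tw h = ∑_{j'} T j' ∏_s w (h s) (j' s)`. As `T` is alternating,
`Tw (h ∘ σ) = sign σ * Tw h` (reindex `j' ↦ j' ∘ σ`), so `Tw h = 0` if `h` is not injective (take a
transposition of two slots with the same value: `Tw h = - Tw h`), and `Tw σ = sign σ * Tw id` for a
permutation `σ`. The sum over the bijective `h` is `Tw id * ∑ σ, sign σ ∏_s l (σ s) (j s)`, which is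
`Tw id * det (l c (j s))` (`Matrix.det_apply'`, transpose). -/
theorem alt_top {P : Matrix M M C} {w l : S → M → C}
    (hP : P = ∑ s, vecMulVec (w s) (l s)) {T : (S → M) → C}
    (hT : IsAlt T) (hs : PM P T = T) : ∃ c : C, T = c • detT fun _ s => l s := by
  classical
  obtain ⟨Tw, hTw⟩ : ∃ Tw : (S → S) → C, Tw = fun h => ∑ j' : S → M, T j' * ∏ s, w (h s) (j' s) :=
    ⟨_, rfl⟩
  have h1 : ∀ j, T j = ∑ h : S → S, Tw h * ∏ s, l (h s) (j s) := by
    intro j
    have e1 : T j = ∑ j' : S → M, T j' * ∏ s, ∑ t, w t (j' s) * l t (j s) := by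
      conv_lhs => rw [← hs]
      unfold PM
      refine Finset.sum_congr rfl fun j' _ => ?_
      congr 1
      refine Finset.prod_congr rfl fun s _ => ?_
      rw [hP, Matrix.sum_apply]
      exact Finset.sum_congr rfl fun t _ => by rw [vecMulVec_apply]
    rw [e1]
    have e2 : ∀ j' : S → M, T j' * ∏ s, ∑ t, w t (j' s) * l t (j s) =
        ∑ h : S → S, T j' * (∏ s, w (h s) (j' s)) * ∏ s, l (h s) (j s) := by
      intro j'
      rw [Finset.prod_univ_sum, Fintype.piFinset_univ, Finset.mul_sum]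
      refine Finset.sum_congr rfl fun h _ => ?_
      rw [Finset.prod_mul_distrib]
      ring
    simp only [e2]
    rw [Finset.sum_comm]
    refine Finset.sum_congr rfl fun h _ => ?_
    rw [hTw, Finset.sum_mul]
  have h2 : ∀ (h : S → S) (σ : Equiv.Perm S), Tw (fun s => h (σ s)) =
      ((Equiv.Perm.sign σ : ℤ) : C) * Tw h := by
    intro h σ
    rw [hTw]
    simp only
    rw [Finset.mul_sum, ← Equiv.sum_comp (Equiv.arrowCongr σ.symm (Equiv.refl M))]
    refine Finset.sum_congr rfl fun j' _ => ?_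
    have e1 : (Equiv.arrowCongr σ.symm (Equiv.refl M)) j' = fun s => j' (σ s) := by
      funext s
      simp [Equiv.arrowCongr]
    rw [e1, hT σ j', zsmul_eq_mul]
    have e2 : ∏ s, w (h (σ s)) (j' (σ s)) = ∏ s, w (h s) (j' s) :=
      Equiv.prod_comp σ fun s => w (h s) (j' s)
    rw [e2]
    ring
  have h3 : ∀ h : S → S, ¬ Function.Injective h → Tw h = 0 := by
    intro h hh
    unfold Function.Injective at hh
    push Not at hh
    obtain ⟨a, b, hab, hne⟩ := hh
    have e1 := h2 h (Equiv.swap a b)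
    rw [Equiv.Perm.sign_swap hne] at e1
    have e2 : (fun s => h (Equiv.swap a b s)) = h := by
      funext s
      rcases eq_or_ne s a with rfl | h4
      · rw [Equiv.swap_apply_left, hab]
      · rcases eq_or_ne s b with rfl | h5
        · rw [Equiv.swap_apply_right, hab]
        · rw [Equiv.swap_apply_of_ne_of_ne h4 h5]
    rw [e2] at e1
    have e3 : (((-1 : ℤˣ) : ℤ) : C) = -1 := by simp
    rw [e3] at e1
    linear_combination (1 / 2) * e1
  refine ⟨Tw id, ?_⟩
  funext j
  rw [h1 j, Pi.smul_apply, smul_eq_mul]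
  have e1 : ∑ h : S → S, Tw h * ∏ s, l (h s) (j s) =
      ∑ h ∈ Finset.image (fun σ : Equiv.Perm S => (⇑σ : S → S)) Finset.univ,
        Tw h * ∏ s, l (h s) (j s) := by
    refine (Finset.sum_subset (Finset.subset_univ _) fun h _ hh => ?_).symm
    rw [h3 h, zero_mul]
    intro hi
    apply hh
    rw [Finset.mem_image]
    exact ⟨Equiv.ofBijective h (Finite.injective_iff_bijective.1 hi), Finset.mem_univ _, rfl⟩
  rw [e1, Finset.sum_image fun σ _ τ _ h => DFunLike.coe_injective h]
  have e2 : detT (fun _ s => l s) j = ∑ σ : Equiv.Perm S, ((Equiv.Perm.sign σ : ℤ) : C) *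
      ∏ s, l (σ s) (j s) := by
    unfold detT
    rw [← Matrix.det_transpose, Matrix.det_apply']
    rfl
  rw [e2, Finset.mul_sum]
  refine Finset.sum_congr rfl fun σ _ => ?_
  have e3 : Tw σ = ((Equiv.Perm.sign σ : ℤ) : C) * Tw id := h2 id σ
  rw [e3]
  ring

/-- The derivation of the determinant on the image of an idempotent matrix.
PROOF. `DM_detT` with `A c c' = l c ⬝ᵥ (X *ᵥ w c')`. Hypothesis of `DM_detT`: as a row vector,
`l c ᵥ* X = l c ᵥ* P ᵥ* X` (`l c ᵥ* P = ∑ (l c ⬝ᵥ w s) • l s = l c`) `= (l c ᵥ* X) ᵥ* P =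
∑ c', ((l c ᵥ* X) ⬝ᵥ w c') • l c'`. Trace: `∑ c, l c ⬝ᵥ (X *ᵥ w c) = trace (X * P)`. -/
theorem DM_top {P : Matrix M M C} {w l : S → M → C}
    (hd : ∀ s t, l s ⬝ᵥ w t = if s = t then 1 else 0) (hP : P = ∑ s, vecMulVec (w s) (l s))
    {X : Matrix M M C} (hX : X * P = P * X) (j : S → M) :
    DM X (detT fun _ s => l s) j = (X * P).trace * detT (fun _ s => l s) j := by
  have hl : ∀ (v : M → C) (m : M), (v ᵥ* P) m = ∑ s, (v ⬝ᵥ w s) * l s m := by
    intro v m
    rw [Matrix.vecMul, dotProduct]
    simp only [dotProduct, Finset.sum_mul]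
    rw [Finset.sum_comm]
    refine Finset.sum_congr rfl fun k _ => ?_
    rw [hP, Matrix.sum_apply, Finset.mul_sum]
    refine Finset.sum_congr rfl fun s _ => ?_
    rw [vecMulVec_apply]
    ring
  have hlP : ∀ c, l c ᵥ* P = l c := by
    intro c
    funext m
    rw [hl]
    simp only [hd]
    rw [Finset.sum_eq_single c]
    · rw [if_pos rfl, one_mul]
    · intro b _ hb
      rw [if_neg (Ne.symm hb), zero_mul]
    · intro h
      exact absurd (Finset.mem_univ c) h
  have h1 := DM_detT X (fun _ s => l s) (Matrix.of fun c c' => l c ⬝ᵥ (X *ᵥ w c')) (by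
    intro _ c m'
    have e1 : ∑ m, l c m * X m m' = (l c ᵥ* X) m' := rfl
    have e2 : l c ᵥ* X = (l c ᵥ* X) ᵥ* P := by
      conv_lhs => rw [← hlP c, Matrix.vecMul_vecMul, ← hX, ← Matrix.vecMul_vecMul]
    rw [e1, e2, hl]
    refine Finset.sum_congr rfl fun s _ => ?_
    rw [Matrix.of_apply, Matrix.dotProduct_mulVec]) j
  rw [h1]
  congr 1
  have e1 : X * P = ∑ s, vecMulVec (X *ᵥ w s) (l s) := by
    rw [hP, Finset.mul_sum]
    exact Finset.sum_congr rfl fun s _ => Matrix.mul_vecMulVec _ _ _
  rw [e1, Matrix.trace_sum]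
  unfold Matrix.trace
  refine Finset.sum_congr rfl fun s _ => ?_
  have e2 := Matrix.trace_vecMulVec (X *ᵥ w s) (l s)
  unfold Matrix.trace at e2
  rw [e2, Matrix.diag_apply, Matrix.of_apply, dotProduct_comm]

/-- An alternating tensor of top degree on the image of `P` is killed by the matrices `X` which
commute with `P` and have trace zero on its image. -/
theorem DM_alt_top {P : Matrix M M C} (hP : P * P = P) (htr : P.trace = Fintype.card S)
    {T : (S → M) → C} (hT : IsAlt T) (hs : PM P T = T) {X : Matrix M M C} (hX : X * P = P * X)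
    (h0 : (X * P).trace = 0) : DM X T = 0 := by
  obtain ⟨w, l, hd, hP'⟩ := exists_dec' (S := S) P hP htr
  obtain ⟨c, hc⟩ := alt_top hP' hT hs
  funext j
  have h1 := DM_top hd hP' hX j
  rw [h0, zero_mul] at h1
  have h2 : DM X T j = c * DM X (detT fun _ s => l s) j := by
    rw [hc]
    unfold DM
    rw [Finset.mul_sum]
    refine Finset.sum_congr rfl fun s _ => ?_
    rw [Finset.mul_sum]
    refine Finset.sum_congr rfl fun m _ => ?_
    rw [Pi.smul_apply, smul_eq_mul]
    ring
  rw [h2, h1, mul_zero]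
  rfl

end Pool.Agent.Lib.MP_021685_agU
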