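import Pool.Agent.Lib.MP_021685_agU.GT
import Pool.Agent.Lib.MP_021685_agU.GN
import Pool.Agent.Lib.MP_021685_agU.VF

/-!
# Generated classes are killed by `ss`
-/

set_option autoImplicit false
set_option linter.unusedSectionVars false

namespace Pool.Agent.Lib.MP_021685_agU

open Matrix Function Module

section Mat

variable {C : Type*} [Field C] [CharZero C] {K : Type*} [Fintype K] [DecidableEq K] {D : TData C K}
  {A : Type*} [Fintype A] [DecidableEq A]

/-- The blocks of a matrix which commutes with the diagonal action of `g` are in the commutant. -/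
theorem block_mem {P : Matrix (A × K) (A × K) C} (hP : ∀ Y ∈ D.g, lift A Y * P = P * lift A Y)
    (a a' : A) : (Matrix.of fun κ κ' : K => P (a, κ) (a', κ')) ∈ RC D := by
  refine mem_RC.2 fun Y hY => ?_
  ext κ κ'
  have h1 := congrFun (congrFun (hP Y hY) (a, κ)) (a', κ')
  rw [Matrix.mul_apply, Matrix.mul_apply, Fintype.sum_prod_type, Fintype.sum_prod_type,
    Finset.sum_eq_single a, Finset.sum_eq_single a'] at h1
  · rw [Matrix.mul_apply, Matrix.mul_apply]
    simp only [lift, Matrix.of_apply, if_true] at h1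
    simp only [Matrix.of_apply]
    exact h1.symm
  · intro x _ hx
    refine Finset.sum_eq_zero fun y _ => ?_
    rw [lift, Matrix.of_apply, if_neg hx, mul_zero]
  · intro h
    exact absurd (Finset.mem_univ _) h
  · intro x _ hx
    refine Finset.sum_eq_zero fun y _ => ?_
    rw [lift, Matrix.of_apply, if_neg (Ne.symm hx), zero_mul]
  · intro h
    exact absurd (Finset.mem_univ _) h

/-- An element of `uu` commutes with the matrices which commute with `g`. -/
theorem uu_lift_comm {P : Matrix (A × K) (A × K) C}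
    (hP : ∀ Y ∈ D.g, lift A Y * P = P * lift A Y) {X : Matrix K K C} (hX : X ∈ uu D) :
    lift A X * P = P * lift A X := by
  ext ⟨a, κ⟩ ⟨a', κ'⟩
  have h1 := congrFun (congrFun (uu_comm hX (block_mem hP a a')) κ) κ'
  rw [Matrix.mul_apply, Matrix.mul_apply] at h1
  rw [Matrix.mul_apply, Matrix.mul_apply, Fintype.sum_prod_type, Fintype.sum_prod_type,
    Finset.sum_eq_single a, Finset.sum_eq_single a']
  · simp only [lift, Matrix.of_apply, if_true]
    simp only [Matrix.of_apply] at h1
    exact h1
  · intro x _ hx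
    refine Finset.sum_eq_zero fun y _ => ?_
    rw [lift, Matrix.of_apply, if_neg hx, mul_zero]
  · intro h
    exact absurd (Finset.mem_univ _) h
  · intro x _ hx
    refine Finset.sum_eq_zero fun y _ => ?_
    rw [lift, Matrix.of_apply, if_neg (Ne.symm hx), zero_mul]
  · intro h
    exact absurd (Finset.mem_univ _) h

/-- An element of `ss` has trace zero on the image of such a matrix. -/
theorem ss_lift_trace {P : Matrix (A × K) (A × K) C}
    (hP : ∀ Y ∈ D.g, lift A Y * P = P * lift A Y) {X : Matrix K K C} (hX : X ∈ ss D) :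
    (lift A X * P).trace = 0 := by
  rw [Matrix.trace, Fintype.sum_prod_type]
  refine Finset.sum_eq_zero fun a _ => ?_
  have h1 := ss_trace hX (block_mem hP a a)
  rw [Matrix.trace] at h1
  rw [← h1]
  refine Finset.sum_congr rfl fun κ _ => ?_
  rw [Matrix.diag_apply, Matrix.diag_apply, Matrix.mul_apply, Matrix.mul_apply,
    Fintype.sum_prod_type, Finset.sum_eq_single a]
  · simp only [lift, Matrix.of_apply, if_true]
  · intro x _ hx
    refine Finset.sum_eq_zero fun y _ => ?_
    rw [lift, Matrix.of_apply, if_neg (Ne.symm hx), zero_mul]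
  · intro h
    exact absurd (Finset.mem_univ _) h

/-- The trace of an idempotent matrix is its rank: here the dimension of the quotient by the kernel. -/
theorem trace_eq_finrank {M : Type*} [Fintype M] [DecidableEq M] {P : Matrix M M C}
    (hP : P * P = P) (N : Submodule C (M → C)) (hN : ∀ v, P *ᵥ v = 0 ↔ v ∈ N) :
    P.trace = (finrank C ((M → C) ⧸ N) : C) := by
  have h1 : N = LinearMap.ker (Matrix.toLin' P) := by
    ext v
    rw [LinearMap.mem_ker, Matrix.toLin'_apply, hN]
  have h2 : LinearMap.IsProj (LinearMap.range (Matrix.toLin' P)) (Matrix.toLin' P) := by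
    refine ⟨fun v => LinearMap.mem_range_self _ v, ?_⟩
    rintro _ ⟨v, rfl⟩
    rw [Matrix.toLin'_apply, Matrix.toLin'_apply, Matrix.mulVec_mulVec, hP]
  have h3 := h2.trace
  rw [Matrix.trace_toLin'_eq] at h3
  rw [h3, h1, (Matrix.toLin' P).quotKerEquivRange.finrank_eq]

end Mat

variable {k H : Type*} [Field k] [CharZero k] [AddCommGroup H] [Module k H]
  {K : Type*} [Fintype K] [DecidableEq K] {b : Basis K k H} {n : ℕ}

/-- A form on a quotient does not change if the arguments are changed by elements of the kernel. -/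
theorem form_congr {S W : Type*} [Fintype S] [DecidableEq S] [AddCommGroup W] [Module k W]
    {N : Submodule k W} {ξ : W [⋀^S]→ₗ[k] k} (hξ : ∀ v, (∃ s, v s ∈ N) → ξ v = 0)
    (v w : S → W) (h : ∀ s, v s - w s ∈ N) : ξ v = ξ w := by
  have key : ∀ F : Finset S, ξ (F.piecewise v w) = ξ w := by
    intro F
    induction F using Finset.induction_on with
    | empty => rw [Finset.piecewise_empty]
    | insert s F hs ih =>
      rw [Finset.piecewise_insert]
      have h1 : ξ (Function.update (F.piecewise v w) s (v s - w s)) = 0 :=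
        hξ _ ⟨s, by rw [update_self]; exact h s⟩
      rw [AlternatingMap.map_update_sub, sub_eq_zero] at h1
      rw [h1]
      have h2 : Function.update (F.piecewise v w) s (w s) = F.piecewise v w := by
        have h3 : (F.piecewise v w) s = w s := Finset.piecewise_eq_of_notMem _ _ _ hs
        rw [← h3]
        exact update_eq_self s _
      rw [h2, ih]
  have h1 := key Finset.univ
  rw [Finset.piecewise_univ] at h1
  exact h1

theorem toMatrix_dg (X : Module.End k H) :
    LinearMap.toMatrix (bp b n) (bp b n) (dg X n) = lift (Fin n) (LinearMap.toMatrix b b X) := by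
  ext x y
  rw [LinearMap.toMatrix_apply, dg_bp, map_sum, Finset.sum_apply']
  simp only [map_smul, Finsupp.smul_apply, Basis.repr_self, Finsupp.single_apply, smul_eq_mul]
  rw [lift, Matrix.of_apply]
  by_cases h : x.1 = y.1
  · rw [if_pos h, Finset.sum_eq_single x.2]
    · rw [if_pos (by rw [← h]), mul_one]
    · intro κ _ hκ
      rw [if_neg (fun h' => hκ (by rw [← h'])), mul_zero]
    · intro h
      exact absurd (Finset.mem_univ _) h
  · rw [if_neg h]
    refine Finset.sum_eq_zero fun κ _ => ?_
    rw [if_neg (fun h' => h (by rw [← h'])), mul_zero]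

/-- A form of top degree on a quotient is killed by `ss`. -/
theorem top_killed {g : Set (Module.End k H)} {c : Module.End k H → k} {D : TData k K}
    (hD : D.g = {Y | ∃ X ∈ g, Y = tw b c X}) {d : ℕ} {ξ : (Fin n → H) [⋀^Fin d]→ₗ[k] k}
    {N : Submodule k (Fin n → H)} (hN : ∀ X ∈ g, ∀ w ∈ N, (fun a => X (w a)) ∈ N)
    (hdim : finrank k ((Fin n → H) ⧸ N) ≤ d) (hξ : ∀ v, (∃ s, v s ∈ N) → ξ v = 0)
    {X : Matrix K K k} (hX : X ∈ ss D) (j : Fin d → Fin n × K) : DX X (co b ξ) j = 0 := by
  let e : (Fin n → H) ≃ₗ[k] (Fin n × K → k) := (bp b n).equivFun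
  have he : ∀ (Z : Module.End k H) (v : Fin n → H),
      lift (Fin n) (LinearMap.toMatrix b b Z) *ᵥ (e v) = e (dg Z n v) := by
    intro Z v
    rw [← toMatrix_dg]
    exact LinearMap.toMatrix_mulVec_repr (bp b n) (bp b n) (dg Z n) v
  obtain ⟨P, hP1, hP2, hP3⟩ := exists_pow_proj (D := D) (A := Fin n) (N.map e.toLinearMap) (by
    intro Y hY v hv
    rw [hD] at hY
    obtain ⟨Z, hZ, rfl⟩ := hY
    obtain ⟨w, hw, rfl⟩ := hv
    have h1 : lift (Fin n) (tw b c Z) *ᵥ (e w) = e (dg Z n w - (c Z / 2) • w) := by
      have h2 : lift (Fin n) (tw b c Z) = lift (Fin n) (LinearMap.toMatrix b b Z) -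
          (c Z / 2) • 1 := by
        ext x y
        rw [Matrix.sub_apply, Matrix.smul_apply, lift, lift, Matrix.of_apply, Matrix.of_apply, tw,
          Matrix.sub_apply, Matrix.smul_apply]
        by_cases h3 : x.1 = y.1
        · rw [if_pos h3, if_pos h3]
          by_cases h4 : x.2 = y.2
          · rw [Prod.ext h3 h4, Matrix.one_apply_eq, Matrix.one_apply_eq]
          · rw [Matrix.one_apply_ne h4, Matrix.one_apply_ne (fun h5 => h4 (by rw [h5]))]
        · rw [if_neg h3, if_neg h3, Matrix.one_apply_ne (fun h5 => h3 (by rw [h5])), smul_zero,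
            sub_zero]
      rw [h2, Matrix.sub_mulVec, Matrix.smul_mulVec, Matrix.one_mulVec, he, map_sub, map_smul]
    show lift (Fin n) (tw b c Z) *ᵥ (e w) ∈ _
    rw [h1]
    refine ⟨_, ?_, rfl⟩
    exact sub_mem (hN Z hZ w hw) (Submodule.smul_mem _ _ hw))
  let Pn : Module.End k (Fin n → H) := Matrix.toLin (bp b n) (bp b n) P
  have hPn : ∀ v, e (Pn v) = P *ᵥ e v := by
    intro v
    have h1 := LinearMap.toMatrix_mulVec_repr (bp b n) (bp b n) Pn v
    rw [LinearMap.toMatrix_toLin] at h1
    exact h1.symm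
  have hPN : ∀ v, v - Pn v ∈ N := by
    intro v
    have h1 : e (v - Pn v) ∈ N.map e.toLinearMap := by
      rw [← hP3, map_sub, hPn, Matrix.mulVec_sub, Matrix.mulVec_mulVec, hP1, sub_self]
    obtain ⟨w, hw, hw'⟩ := h1
    have h2 : w = v - Pn v := e.injective hw'
    rw [← h2]
    exact hw
  have hPξ : ∀ v : Fin d → Fin n → H, ξ v = ξ fun s => Pn (v s) := fun v =>
    form_congr hξ v _ fun s => hPN (v s)
  have hPM : PM P (co b ξ) = co b ξ := by
    funext j
    have h1 : co b ξ j = ξ fun s => Pn (bp b n (j s)) := hPξ _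
    have h2 : ∀ s, Pn (bp b n (j s)) = ∑ y, P y (j s) • bp b n y := by
      intro s
      exact Matrix.toLin_self (bp b n) (bp b n) P (j s)
    rw [h1]
    simp only [h2]
    have h3 := ξ.toMultilinearMap.map_sum (fun (s : Fin d) (y : Fin n × K) =>
      P y (j s) • bp b n y)
    have h4 : (ξ fun s => ∑ y, P y (j s) • bp b n y) = ξ.toMultilinearMap
      fun s => ∑ y, P y (j s) • bp b n y := rfl
    rw [h4, h3]
    unfold PM
    refine Finset.sum_congr rfl fun j' _ => ?_
    rw [MultilinearMap.map_smul_univ, smul_eq_mul, mul_comm]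
    rfl
  have htr : P.trace = (finrank k ((Fin n → H) ⧸ N) : k) := by
    rw [trace_eq_finrank hP1 (N.map e.toLinearMap) hP3]
    congr 1
    have h1 : ((Fin n × K → k) ⧸ (N.map e.toLinearMap)) ≃ₗ[k] ((Fin n → H) ⧸ N) :=
      (Submodule.Quotient.equiv N (N.map e.toLinearMap) e rfl).symm
    exact h1.finrank_eq
  rcases hdim.lt_or_eq with hlt | heq
  · have h0 : co b ξ = 0 := by
      funext j
      have h1 : co b ξ j = ξ fun s => Pn (bp b n (j s)) := hPξ _
      rw [h1]
      refine AlternatingMap.map_linearDependent ξ _ fun hli => ?_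
      have h2 : (Fintype.card (Fin d)) ≤ finrank k (LinearMap.range Pn) := by
        have h3 : LinearIndependent k fun s => (⟨Pn (bp b n (j s)), LinearMap.mem_range_self _ _⟩ :
            LinearMap.range Pn) := by
          refine LinearIndependent.of_comp (LinearMap.range Pn).subtype ?_
          exact hli
        have : Module.Finite k (Fin n → H) := Module.Finite.of_basis (bp b n)
        exact h3.fintype_card_le_finrank
      have h4 : finrank k (LinearMap.range Pn) ≤ finrank k ((Fin n → H) ⧸ N) := by
        have h5 : LinearMap.ker Pn = N := by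
          ext v
          rw [LinearMap.mem_ker]
          constructor
          · intro h6
            have h7 := hPN v
            rw [h6, sub_zero] at h7
            exact h7
          · intro h6
            have h7 : P *ᵥ e v = 0 := (hP3 _).2 ⟨v, h6, rfl⟩
            rw [← hPn] at h7
            exact e.map_eq_zero_iff.1 h7
        rw [← h5, Pn.quotKerEquivRange.finrank_eq]
      rw [Fintype.card_fin] at h2
      omega
    rw [h0]
    simp [DX]
  · rw [DX_eq_DM]
    have h1 := DM_alt_top (S := Fin d) hP1 (by rw [htr, heq, Fintype.card_fin]) (co_isAlt b ξ)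
      hPM (uu_lift_comm hP2 (ss_le_uu hX)) (ss_lift_trace hP2 hX)
    rw [h1]
    rfl

/-- A determinant class is killed by `ss`. -/
theorem det_killed {g : Set (Module.End k H)} {c : Module.End k H → k} {D : TData k K}
    (hD : D.g = {Y | ∃ X ∈ g, Y = tw b c X}) {i : ℕ} {ξ : (Fin n → H) [⋀^Fin (2 * i)]→ₗ[k] k}
    (h : IsDeterminantClass g c n i ξ) {X : Matrix K K k} (hX : X ∈ ss D)
    (j : Fin (2 * i) → Fin n × K) : DX X (co b ξ) j = 0 := by
  obtain ⟨-, N, hN, hdim, hξ⟩ := h
  exact top_killed hD hN hdim hξ hX j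

/-- The tensors of generated classes are killed by `ss`. -/
theorem generated_killed {g : Set (Module.End k H)} {c : Module.End k H → k} {D : TData k K}
    (hD : D.g = {Y | ∃ X ∈ g, Y = tw b c X}) {i : ℕ} {η : (Fin n → H) [⋀^Fin (2 * i)]→ₗ[k] k}
    (h : IsGenerated g c n i η) {X : Matrix K K k} (hX : X ∈ ss D)
    (j : Fin (2 * i) → Fin n × K) : DX X (co b η) j = 0 := by
  revert j
  refine Submodule.span_induction (p := fun η _ => ∀ j, DX X (co b η) j = 0) ?_ ?_ ?_ ?_ h
  · rintro _ ⟨m, d, p, ω, ξ, hω, hξ, rfl⟩ j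
    rw [co_alt]
    refine altT_prod_killed p (fun r => co b (ω r)) (co b ξ) (fun r j => ?_) (fun j => ?_) j
    · exact tate1_killed (D := D) (fun Y hY j => (tate_iff' b hD (ω r)).1 (hω r) Y hY j)
        (ss_le_uu hX) j
    · exact det_killed hD hξ hX j
  · intro j
    simp [co_zero, DX]
  · intro x y _ _ hx hy j
    rw [co_add, DX_add_right, hx, hy, add_zero]
  · intro q x _ hx j
    rw [co_smul, DX_smul_right, hx, mul_zero]

end Pool.Agent.Lib.MP_021685_agU
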