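import Mathlib

/-!
# Tate forms: multilinear forms on a space with an action of a Lie algebra
-/

set_option autoImplicit false

namespace Pool.Agent.Lib.MP_021685_agU

open Module

/-- The multilinear form `T` with `s` arguments on `H` is a Tate form: every element `X` of `g` acts on
it (as a derivation) as the multiplication by `s c(X) / 2`, where `c` is the multiplier of the bilinear
form on `H`. -/
def IsTateForm {k H : Type*} [Field k] [AddCommGroup H] [Module k H] (g : Set (Module.End k H))
    (c : Module.End k H → k) (s : ℕ) (T : MultilinearMap k (fun _ : Fin s => H) k) : Prop :=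
  ∀ X ∈ g, ∀ v : Fin s → H,
    ∑ j, T (Function.update v j (X (v j))) = (s : k) / 2 * c X * T v

/-- The multilinear form `T` with `s` arguments on `H` is a determinant form: there are `g`-equivariant
linear maps `lam j` from `H` to a space `U = kˢ` on which the `X ∈ g` act by matrices `ρ X` of trace
`s c(X) / 2`, and `T(v₁, …, v_s)` is the determinant of `lam 1 (v₁), …, lam s (v_s)`. -/
def IsDeterminantForm {k H : Type*} [Field k] [AddCommGroup H] [Module k H]
    (g : Set (Module.End k H)) (c : Module.End k H → k) (s : ℕ)
    (T : MultilinearMap k (fun _ : Fin s => H) k) : Prop :=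
  ∃ (lam : Fin s → H →ₗ[k] (Fin s → k)) (ρ : Module.End k H → Matrix (Fin s) (Fin s) k),
    (∀ X ∈ g, ∀ j v, lam j (X v) = (ρ X).mulVec (lam j v)) ∧
    (∀ X ∈ g, (ρ X).trace = (s : k) / 2 * c X) ∧
    ∀ v, T v = (Matrix.of fun j => lam j (v j)).det

/-- The multilinear form `T` with `s` arguments on `H` is a linear combination of products
`β₁ ⋯ β_m Δ` of Tate forms `β_r` with two arguments and of a determinant form `Δ`, the arguments being
distributed by a bijection `p`. -/
def IsGeneratedForm {k H : Type*} [Field k] [AddCommGroup H] [Module k H]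
    (g : Set (Module.End k H)) (c : Module.End k H → k) (s : ℕ)
    (T : MultilinearMap k (fun _ : Fin s => H) k) : Prop :=
  T ∈ Submodule.span k {T' | ∃ (m d : ℕ) (p : (Fin m × Fin 2) ⊕ Fin d ≃ Fin s)
    (β : Fin m → MultilinearMap k (fun _ : Fin 2 => H) k)
    (Δ : MultilinearMap k (fun _ : Fin d => H) k),
    (∀ r, IsTateForm g c 2 (β r)) ∧ IsDeterminantForm g c d Δ ∧
    ∀ v : Fin s → H, T' v = (∏ r, β r (fun ε => v (p (Sum.inl (r, ε))))) *
      Δ (fun t => v (p (Sum.inr t)))}

end Pool.Agent.Lib.MP_021685_agU
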