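import Pool.Agent.Lib.MP_021685_agU.GK
import Pool.Agent.Lib.MP_021685_agU.MDefs

/-!
# Coordinates of multilinear forms; generated forms are killed by `ss`
-/

set_option autoImplicit false
set_option linter.unusedSectionVars false

namespace Pool.Agent.Lib.MP_021685_agU

open Matrix Function Module

variable {k H : Type*} [Field k] [AddCommGroup H] [Module k H]
  {K : Type*} [Fintype K] [DecidableEq K] (b : Basis K k H) {S : Type*} [Fintype S] [DecidableEq S]

/-- The coordinates of a multilinear form. -/
noncomputable def cm (T : MultilinearMap k (fun _ : S => H) k) (j : S → Fin 1 × K) : k :=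
  T fun s => b (j s).2

theorem cm_add (T T' : MultilinearMap k (fun _ : S => H) k) : cm b (T + T') = cm b T + cm b T' :=
  rfl

theorem cm_smul (c : k) (T : MultilinearMap k (fun _ : S => H) k) : cm b (c • T) = c • cm b T := rfl

theorem cm_zero : cm b (0 : MultilinearMap k (fun _ : S => H) k) = 0 := rfl

theorem cm_inj {T T' : MultilinearMap k (fun _ : S => H) k} (h : cm b T = cm b T') : T = T' := by
  refine Basis.ext_multilinear (fun _ => b) fun j => ?_
  exact congrFun h fun s => (0, j s)

/-- Every tensor is the tensor of the coordinates of a multilinear form. -/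
theorem exists_ml (T0 : (S → Fin 1 × K) → k) :
    ∃ T : MultilinearMap k (fun _ : S => H) k, cm b T = T0 := by
  refine ⟨∑ j : S → K, T0 (fun s => (0, j s)) •
    (MultilinearMap.mkPiAlgebra k S k).compLinearMap fun s => b.coord (j s), ?_⟩
  funext j
  unfold cm
  rw [_root_.sum_apply, Finset.sum_eq_single fun s => (j s).2]
  · rw [_root_.smul_apply, MultilinearMap.compLinearMap_apply,
      MultilinearMap.mkPiAlgebra_apply]
    have h1 : ∏ s, b.coord ((j s).2) (b (j s).2) = 1 :=
      Finset.prod_eq_one fun s _ => by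
        rw [Basis.coord_apply, Basis.repr_self, Finsupp.single_eq_same]
    rw [h1, smul_eq_mul, mul_one]
    congr 1
    funext s
    exact Prod.ext (Subsingleton.elim _ _) rfl
  · intro j' _ hj
    obtain ⟨s, hs⟩ := Function.ne_iff.1 hj
    rw [_root_.smul_apply, MultilinearMap.compLinearMap_apply,
      MultilinearMap.mkPiAlgebra_apply, smul_eq_mul]
    have h1 : ∏ s, b.coord (j' s) (b (j s).2) = 0 := by
      refine Finset.prod_eq_zero (Finset.mem_univ s) ?_
      rw [Basis.coord_apply, Basis.repr_self, Finsupp.single_apply, if_neg (Ne.symm hs)]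
    rw [h1, mul_zero]
  · intro h
    exact absurd (Finset.mem_univ _) h

/-- The derivation in coordinates. -/
theorem cm_update (T : MultilinearMap k (fun _ : S => H) k) (X : Module.End k H)
    (j : S → Fin 1 × K) :
    ∑ s, T (Function.update (fun s => b (j s).2) s (X (b (j s).2))) =
      DX (LinearMap.toMatrix b b X) (cm b T) j := by
  unfold DX
  refine Finset.sum_congr rfl fun s _ => ?_
  have h1 : X (b (j s).2) = ∑ κ, LinearMap.toMatrix b b X κ (j s).2 • b κ := by
    simp only [LinearMap.toMatrix_apply]
    exact (b.sum_repr (X (b (j s).2))).symm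
  rw [h1, MultilinearMap.map_update_sum]
  refine Finset.sum_congr rfl fun κ _ => ?_
  rw [MultilinearMap.map_update_smul, smul_eq_mul, mul_comm]
  congr 1
  unfold cm
  congr 1
  funext t
  by_cases h : t = s
  · subst h
    rw [update_self, update_self]
  · rw [update_of_ne h, update_of_ne h]

/-- The condition for Tate forms in coordinates. -/
theorem tateForm_iff {g : Set (Module.End k H)} {c : Module.End k H → k} {s : ℕ}
    (T : MultilinearMap k (fun _ : Fin s => H) k) : IsTateForm g c s T ↔
      ∀ X ∈ g, ∀ j, DX (LinearMap.toMatrix b b X) (cm b T) j = (s : k) / 2 * c X * cm b T j := by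
  unfold IsTateForm
  refine forall_congr' fun X => forall_congr' fun hX => ⟨fun h j => ?_, fun h v => ?_⟩
  · rw [← cm_update]
    exact h fun s => b (j s).2
  · let M : MultilinearMap k (fun _ : Fin s => H) k :=
      ∑ t, T.compLinearMap fun t' => if t' = t then X else LinearMap.id
    have hM : ∀ v, M v = ∑ t, T (Function.update v t (X (v t))) := by
      intro v
      show (∑ t, T.compLinearMap (fun t' => if t' = t then X else LinearMap.id)) v = _
      rw [_root_.sum_apply]
      refine Finset.sum_congr rfl fun t _ => ?_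
      rw [MultilinearMap.compLinearMap_apply]
      congr 1
      funext t'
      by_cases ht : t' = t
      · subst ht
        rw [if_pos rfl, update_self]
      · rw [if_neg ht, update_of_ne ht]
        rfl
    have h1 : M = ((s : k) / 2 * c X) • T := by
      refine Basis.ext_multilinear (fun _ => b) fun j => ?_
      rw [hM]
      have h2 := h fun t => ((0 : Fin 1), j t)
      rw [← cm_update] at h2
      exact h2
    rw [← hM, h1]
    rfl

variable [CharZero k]

/-- The Tate forms are the forms killed by the matrices of the data. -/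
theorem tateForm_iff' {g : Set (Module.End k H)} {c : Module.End k H → k} {D : TData k K}
    (hD : D.g = {Y | ∃ X ∈ g, Y = tw b c X}) {s : ℕ}
    (T : MultilinearMap k (fun _ : Fin s => H) k) :
    IsTateForm g c s T ↔ ∀ Y ∈ D.g, ∀ j, DX Y (cm b T) j = 0 := by
  rw [tateForm_iff b]
  have h1 : ∀ (X : Module.End k H) (j : Fin s → Fin 1 × K), DX (tw b c X) (cm b T) j =
      DX (LinearMap.toMatrix b b X) (cm b T) j - (s : k) / 2 * c X * cm b T j := by
    intro X j
    have h2 : tw b c X = LinearMap.toMatrix b b X + (-(c X / 2)) • (1 : Matrix K K k) := by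
      unfold tw
      rw [neg_smul, sub_eq_add_neg]
    rw [h2, DX_add_left, DX_smul_left, DX_one, Fintype.card_fin]
    ring
  rw [hD]
  refine ⟨?_, fun h X hX j => ?_⟩
  · rintro h Y ⟨X, hX, rfl⟩ j
    rw [h1, h X hX j, sub_self]
  · have h2 := h (tw b c X) ⟨X, hX, rfl⟩ j
    rw [h1] at h2
    exact sub_eq_zero.1 h2

variable {b}

/-- A determinant form is killed by `ss`.
PROOF. `T(v) = ξ(v₁ in the first copy, …, v_s in the last copy)`, where `ξ` is the pull-back of the
volume form of `U` under `Λ : Hˢ → U`, `w ↦ ∑ j, lam j (w j)`; `top_killed`. -/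
theorem detForm_killed {g : Set (Module.End k H)} {c : Module.End k H → k} {D : TData k K}
    (hD : D.g = {Y | ∃ X ∈ g, Y = tw b c X}) {s : ℕ} {T : MultilinearMap k (fun _ : Fin s => H) k}
    (h : IsDeterminantForm g c s T) {X : Matrix K K k} (hX : X ∈ ss D)
    (j : Fin s → Fin 1 × K) : DX X (cm b T) j = 0 := by
  obtain ⟨lam, ρ, h1, -, h3⟩ := h
  let Λ : (Fin s → H) →ₗ[k] (Fin s → k) := ∑ t, lam t ∘ₗ LinearMap.proj t
  have hΛ : ∀ w, Λ w = ∑ t, lam t (w t) := by
    intro w
    show (∑ t, lam t ∘ₗ LinearMap.proj t : (Fin s → H) →ₗ[k] (Fin s → k)) w = _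
    rw [LinearMap.sum_apply]
    rfl
  have hΛs : ∀ (t : Fin s) (u : H), Λ (Pi.single t u) = lam t u := by
    intro t u
    rw [hΛ, Finset.sum_eq_single t]
    · rw [Pi.single_eq_same]
    · intro t' _ ht
      rw [Pi.single_eq_of_ne ht, map_zero]
    · intro h
      exact absurd (Finset.mem_univ _) h
  let ξ : (Fin s → H) [⋀^Fin s]→ₗ[k] k :=
    (Matrix.detRowAlternating (n := Fin s) (R := k)).compLinearMap Λ
  have hξ : ∀ v, ξ v = (Matrix.of fun t => Λ (v t)).det := fun v => rfl
  have h4 := top_killed (b := b) hD (N := LinearMap.ker Λ) (ξ := ξ) (fun X hX w hw => by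
      rw [LinearMap.mem_ker, hΛ]
      have h5 : ∑ t, lam t (X (w t)) = (ρ X).mulVec (∑ t, lam t (w t)) := by
        rw [Matrix.mulVec_sum]
        exact Finset.sum_congr rfl fun t _ => h1 X hX t (w t)
      rw [h5, ← hΛ, LinearMap.mem_ker.1 hw, Matrix.mulVec_zero])
    (by
      rw [Λ.quotKerEquivRange.finrank_eq]
      refine (Submodule.finrank_le _).trans ?_
      rw [Module.finrank_fin_fun])
    (by
      rintro v ⟨t, ht⟩
      rw [hξ]
      refine Matrix.det_eq_zero_of_row_eq_zero t fun c' => ?_
      rw [Matrix.of_apply, LinearMap.mem_ker.1 ht]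
      rfl) hX (fun t => (t, (j t).2))
  have h5 : ∀ κ : Fin s → K, cm b T (fun t => (0, κ t)) = co b ξ fun t => (t, κ t) := by
    intro κ
    show T (fun t => b (κ t)) = ξ fun t => bp b s (t, κ t)
    rw [h3, hξ]
    congr 1
    funext t
    show lam t (b (κ t)) = Λ (bp b s (t, κ t))
    rw [bp_apply, hΛs]
  rw [← h4]
  unfold DX
  refine Finset.sum_congr rfl fun t _ => Finset.sum_congr rfl fun κ _ => ?_
  congr 1
  have h6 : update j t ((j t).1, κ) = fun t' => ((0 : Fin 1), update (fun t => (j t).2) t κ t') := by
    funext t'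
    refine Prod.ext (Subsingleton.elim _ _) ?_
    by_cases h : t' = t
    · subst h
      rw [update_self, update_self]
    · rw [update_of_ne h, update_of_ne h]
  have h7 : update (fun t => (t, (j t).2)) t (t, κ) =
      fun t' => (t', update (fun t => (j t).2) t κ t') := by
    funext t'
    by_cases h : t' = t
    · subst h
      rw [update_self, update_self]
    · rw [update_of_ne h, update_of_ne h]
  rw [h6, h5]
  show _ = co b ξ (update (fun t => (t, (j t).2)) t (t, κ))
  rw [h7]

/-- The tensors of generated forms are killed by `ss`. -/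
theorem generatedForm_killed {g : Set (Module.End k H)} {c : Module.End k H → k} {D : TData k K}
    (hD : D.g = {Y | ∃ X ∈ g, Y = tw b c X}) {s : ℕ} {T : MultilinearMap k (fun _ : Fin s => H) k}
    (h : IsGeneratedForm g c s T) {X : Matrix K K k} (hX : X ∈ ss D)
    (j : Fin s → Fin 1 × K) : DX X (cm b T) j = 0 := by
  revert j
  refine Submodule.span_induction (p := fun T _ => ∀ j, DX X (cm b T) j = 0) ?_ ?_ ?_ ?_ h
  · rintro T ⟨m, d, p, β, Δ, hβ, hΔ, hT⟩ j
    have h1 : cm b T = fun j : Fin s → Fin 1 × K =>
        (∏ r, cm b (β r) (fun ε => j (p (Sum.inl (r, ε))))) *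
          cm b Δ (fun a => j (p (Sum.inr a))) := by
      funext j
      exact hT fun s => b (j s).2
    rw [h1]
    refine prod_killed p (fun r => cm b (β r)) (cm b Δ) (fun r j => ?_) (fun j => ?_) j
    · exact tate1_killed (D := D) (fun Y hY j => (tateForm_iff' b hD (β r)).1 (hβ r) Y hY j)
        (ss_le_uu hX) j
    · exact detForm_killed hD hΔ hX j
  · intro j
    simp [cm_zero, DX]
  · intro x y _ _ hx hy j
    rw [cm_add, DX_add_right, hx, hy, add_zero]
  · intro q x _ hx j
    rw [cm_smul, DX_smul_right, hx, mul_zero]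

end Pool.Agent.Lib.MP_021685_agU
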