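import Pool.Agent.Lib.MP_021685_agU.GM
import Pool.Agent.Lib.MP_021685_agU.CHm

/-!
# From tensors to generated forms
-/

set_option autoImplicit false
set_option linter.unusedSectionVars false

namespace Pool.Agent.Lib.MP_021685_agU

open Matrix Function Module

/-- The product of multilinear forms, the arguments being distributed by the bijection `p`. -/
def prodForm {k W : Type*} [CommRing k] [AddCommGroup W] [Module k W] {m d s : ℕ}
    (p : (Fin m × Fin 2) ⊕ Fin d ≃ Fin s)
    (β : Fin m → MultilinearMap k (fun _ : Fin 2 => W) k)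
    (Δ : MultilinearMap k (fun _ : Fin d => W) k) :
    MultilinearMap k (fun _ : Fin s => W) k :=
  (MultilinearMap.mk' (fun v : Fin s → W => (∏ r, β r (fun ε => v (p (Sum.inl (r, ε))))) *
    Δ (fun t => v (p (Sum.inr t))))
    (by
      intro v j x y
      obtain ⟨j', rfl⟩ := p.surjective j
      rcases j' with ⟨r₀, ε₀⟩ | t₀
      · have h1 : ∀ z : W, (∏ r, β r (fun ε => Function.update v (p (Sum.inl (r₀, ε₀))) z
              (p (Sum.inl (r, ε))))) =
            β r₀ (Function.update (fun ε : Fin 2 => v (p (Sum.inl (r₀, ε)))) ε₀ z) *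
              ∏ r ∈ Finset.univ.erase r₀, β r (fun ε => v (p (Sum.inl (r, ε)))) := by
          intro z
          rw [← Finset.mul_prod_erase Finset.univ _ (Finset.mem_univ r₀)]
          refine congrArg₂ (· * ·) (congrArg (β r₀) ?_) (Finset.prod_congr rfl fun r hr =>
            congrArg (β r) ?_)
          · funext ε
            by_cases h : ε = ε₀
            · subst h
              rw [update_self, update_self]
            · rw [update_of_ne h, update_of_ne (fun h' => h (congrArg Prod.snd
                (Sum.inl_injective (p.injective h'))))]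
          · funext ε
            rw [update_of_ne (fun h' => Finset.ne_of_mem_erase hr (congrArg Prod.fst
              (Sum.inl_injective (p.injective h'))))]
        have h2 : ∀ z : W, (fun t : Fin d => Function.update v (p (Sum.inl (r₀, ε₀))) z
            (p (Sum.inr t))) = fun t => v (p (Sum.inr t)) := by
          intro z
          funext t
          rw [update_of_ne (fun h' => absurd (p.injective h') (by simp))]
        rw [h1, h1, h1, h2, h2, h2, MultilinearMap.map_update_add]
        ring
      · have h1 : ∀ z : W, ∀ r, (fun ε : Fin 2 => Function.update v (p (Sum.inr t₀)) z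
            (p (Sum.inl (r, ε)))) = fun ε => v (p (Sum.inl (r, ε))) := by
          intro z r
          funext ε
          rw [update_of_ne (fun h' => absurd (p.injective h') (by simp))]
        have h2 : ∀ z : W, (fun t : Fin d => Function.update v (p (Sum.inr t₀)) z
            (p (Sum.inr t))) = Function.update (fun t => v (p (Sum.inr t))) t₀ z := by
          intro z
          funext t
          by_cases h : t = t₀
          · subst h
            rw [update_self, update_self]
          · rw [update_of_ne h, update_of_ne (fun h' => h (Sum.inr_injective (p.injective h')))]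
        simp only [h1, h2]
        rw [MultilinearMap.map_update_add]
        ring)
    (by
      intro v j a x
      obtain ⟨j', rfl⟩ := p.surjective j
      rcases j' with ⟨r₀, ε₀⟩ | t₀
      · have h1 : ∀ z : W, (∏ r, β r (fun ε => Function.update v (p (Sum.inl (r₀, ε₀))) z
              (p (Sum.inl (r, ε))))) =
            β r₀ (Function.update (fun ε : Fin 2 => v (p (Sum.inl (r₀, ε)))) ε₀ z) *
              ∏ r ∈ Finset.univ.erase r₀, β r (fun ε => v (p (Sum.inl (r, ε)))) := by
          intro z
          rw [← Finset.mul_prod_erase Finset.univ _ (Finset.mem_univ r₀)]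
          refine congrArg₂ (· * ·) (congrArg (β r₀) ?_) (Finset.prod_congr rfl fun r hr =>
            congrArg (β r) ?_)
          · funext ε
            by_cases h : ε = ε₀
            · subst h
              rw [update_self, update_self]
            · rw [update_of_ne h, update_of_ne (fun h' => h (congrArg Prod.snd
                (Sum.inl_injective (p.injective h'))))]
          · funext ε
            rw [update_of_ne (fun h' => Finset.ne_of_mem_erase hr (congrArg Prod.fst
              (Sum.inl_injective (p.injective h'))))]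
        have h2 : ∀ z : W, (fun t : Fin d => Function.update v (p (Sum.inl (r₀, ε₀))) z
            (p (Sum.inr t))) = fun t => v (p (Sum.inr t)) := by
          intro z
          funext t
          rw [update_of_ne (fun h' => absurd (p.injective h') (by simp))]
        rw [h1, h1, h2, h2, MultilinearMap.map_update_smul]
        simp only [smul_eq_mul]
        ring
      · have h1 : ∀ z : W, ∀ r, (fun ε : Fin 2 => Function.update v (p (Sum.inr t₀)) z
            (p (Sum.inl (r, ε)))) = fun ε => v (p (Sum.inl (r, ε))) := by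
          intro z r
          funext ε
          rw [update_of_ne (fun h' => absurd (p.injective h') (by simp))]
        have h2 : ∀ z : W, (fun t : Fin d => Function.update v (p (Sum.inr t₀)) z
            (p (Sum.inr t))) = Function.update (fun t => v (p (Sum.inr t))) t₀ z := by
          intro z
          funext t
          by_cases h : t = t₀
          · subst h
            rw [update_self, update_self]
          · rw [update_of_ne h, update_of_ne (fun h' => h (Sum.inr_injective (p.injective h')))]
        simp only [h1, h2]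
        rw [MultilinearMap.map_update_smul]
        simp only [smul_eq_mul]
        ring))

theorem prodForm_apply {k W : Type*} [CommRing k] [AddCommGroup W] [Module k W] {m d s : ℕ}
    (p : (Fin m × Fin 2) ⊕ Fin d ≃ Fin s)
    (β : Fin m → MultilinearMap k (fun _ : Fin 2 => W) k)
    (Δ : MultilinearMap k (fun _ : Fin d => W) k) (v : Fin s → W) :
    prodForm p β Δ v = (∏ r, β r (fun ε => v (p (Sum.inl (r, ε))))) *
      Δ (fun t => v (p (Sum.inr t))) := rfl

variable {k H : Type*} [Field k] [CharZero k] [IsAlgClosed k] [AddCommGroup H] [Module k H]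
  {K : Type*} [Fintype K] [DecidableEq K] {b : Basis K k H}

/-- A good generator is the tensor of a generating form.
PROOF. The forms `lam t` are `v ↦ ∑ m, dlam s c m * v m`, `ρ X` is `dmat f (X - c(X) / 2) + c(X) / 2`. -/
theorem genT_form {g : Set (Module.End k H)} {c : Module.End k H → k} {D : TData k K}
    (hD : D.g = {Y | ∃ X ∈ g, Y = tw b c X}) {X I : Type*} [Fintype X] [DecidableEq X] [Fintype I]
    [DecidableEq I] (F : RFr D X I) {s m N : ℕ} {f : Fin N → X}
    (q : (Fin m × Fin 2) ⊕ F.Cx f ≃ Fin s) {e : Fin m → Matrix K K k}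
    {r : F.Cx f → Matrix K K k} (α : Fin s → Fin 1) (he : ∀ μ, e μ ∈ RC D)
    (hr : ∀ s, r s ∈ RC D)
    (hc : ∀ M ∈ D.g, ∑ ν, (M * PF F.Y F.w F.l (f ν)).trace = 0) :
    ∃ T : MultilinearMap k (fun _ : Fin s => H) k, IsGeneratedForm g c s T ∧
      cm b T = F.genT f q e r α := by
  classical
  set d := Fintype.card (F.Cx f) with hd
  let γ : F.Cx f ≃ Fin d := Fintype.equivFin _
  have hβ : ∀ μ, ∃ β : MultilinearMap k (fun _ : Fin 2 => H) k, cm b β =
      fun x : Fin 2 → Fin 1 × K => pr ((e μ)ᵀ * D.G) (α (q (Sum.inl (μ, 0))))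
        (α (q (Sum.inl (μ, 1)))) (x 0) (x 1) := fun μ => exists_ml b _
  choose β hβ using hβ
  let L : F.Cx f → F.Cx f → Fin 1 × K → k := F.dlam f r fun s => α (q (Sum.inr s))
  let lam : Fin d → H →ₗ[k] (Fin d → k) := fun t =>
    { toFun := fun u c' => ∑ κ, L (γ.symm t) (γ.symm c') (0, κ) * b.repr u κ
      map_add' := fun u u' => by
        funext c'
        simp only [map_add, Finsupp.add_apply, mul_add, Finset.sum_add_distrib, Pi.add_apply]
      map_smul' := fun a u => by
        funext c'
        simp only [map_smul, Finsupp.smul_apply, smul_eq_mul, RingHom.id_apply, Pi.smul_apply,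
          Finset.mul_sum]
        refine Finset.sum_congr rfl fun κ _ => ?_
        ring }
  have hlam : ∀ t u c', lam t u c' = ∑ κ, L (γ.symm t) (γ.symm c') (0, κ) * b.repr u κ :=
    fun _ _ _ => rfl
  let ρ : Module.End k H → Matrix (Fin d) (Fin d) k := fun X =>
    (F.dmat f (tw b c X)).submatrix γ.symm γ.symm + (c X / 2) • 1
  let Δ : MultilinearMap k (fun _ : Fin d => H) k :=
    (Matrix.detRowAlternating (n := Fin d) (R := k)).toMultilinearMap.compLinearMap lam
  have hΔ : ∀ v, Δ v = (Matrix.of fun j => lam j (v j)).det := fun v => rfl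
  refine ⟨prodForm ((Equiv.sumCongr (Equiv.refl _) γ.symm).trans q) β Δ,
    Submodule.subset_span ⟨m, d, _, β, Δ, fun μ => ?_, ⟨lam, ρ, ?_, ?_, hΔ⟩, fun v => rfl⟩, ?_⟩
  · refine (tateForm_iff' b hD (β μ)).2 fun Y hY j => ?_
    rw [hβ]
    exact pr_killed (he μ) _ _ hY j
  · intro X hX t u
    funext c'
    have hY : tw b c X ∈ D.g := by rw [hD]; exact ⟨X, hX, rfl⟩
    have h1 : ∀ κ, b.repr (X u) κ = ∑ κ', LinearMap.toMatrix b b X κ κ' * b.repr u κ' := by
      intro κ
      have h2 := congrFun (LinearMap.toMatrix_mulVec_repr b b X u) κ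
      rw [← h2]
      rfl
    have h2 : ∀ κ κ', LinearMap.toMatrix b b X κ κ' =
        tw b c X κ κ' + (c X / 2) * (if κ = κ' then 1 else 0) := by
      intro κ κ'
      unfold tw
      rw [Matrix.sub_apply, Matrix.smul_apply, Matrix.one_apply, smul_eq_mul]
      ring
    have h3 : ∀ κ, b.repr (X u) κ = ∑ κ', tw b c X κ κ' * b.repr u κ' + c X / 2 * b.repr u κ := by
      intro κ
      rw [h1]
      simp only [h2, add_mul, Finset.sum_add_distrib]
      congr 1
      rw [Finset.sum_eq_single κ]
      · rw [if_pos rfl, mul_one]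
      · intro κ' _ h
        rw [if_neg (Ne.symm h), mul_zero, zero_mul]
      · intro h
        exact absurd (Finset.mem_univ _) h
    have h4 : ∀ s' c'' : F.Cx f, ∀ κ', ∑ κ, L s' c'' (0, κ) * tw b c X κ κ' =
        ∑ c''', F.dmat f (tw b c X) c'' c''' * L s' c''' (0, κ') := by
      intro s' c'' κ'
      have h5 := F.dlam_mul hr (fun s => α (q (Sum.inr s))) (g_le_uu hY) s' c''
        ((0 : Fin 1), κ')
      rw [Fintype.sum_prod_type, Fin.sum_univ_one] at h5
      simp only [lift, Matrix.of_apply, if_true] at h5
      exact h5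
    rw [hlam]
    simp only [h3, mul_add, Finset.sum_add_distrib]
    have h6 : ∑ κ, L (γ.symm t) (γ.symm c') (0, κ) * ∑ κ', tw b c X κ κ' * b.repr u κ' =
        ∑ κ', (∑ κ, L (γ.symm t) (γ.symm c') (0, κ) * tw b c X κ κ') * b.repr u κ' := by
      simp only [Finset.mul_sum, Finset.sum_mul]
      rw [Finset.sum_comm]
      refine Finset.sum_congr rfl fun y _ => Finset.sum_congr rfl fun m _ => ?_
      ring
    rw [h6]
    simp only [h4]
    show _ = ∑ c'', ρ X c' c'' * lam t u c''
    simp only [hlam]
    have h7 : ∀ c'', ρ X c' c'' = F.dmat f (tw b c X) (γ.symm c') (γ.symm c'') +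
        (c X / 2) * (if c' = c'' then 1 else 0) := by
      intro c''
      show ((F.dmat f (tw b c X)).submatrix γ.symm γ.symm + (c X / 2) • 1) c' c'' = _
      rw [Matrix.add_apply, Matrix.smul_apply, Matrix.one_apply, smul_eq_mul]
      rfl
    simp only [h7, add_mul, Finset.sum_add_distrib]
    congr 1
    · rw [← Equiv.sum_comp γ]
      simp only [Equiv.symm_apply_apply, Finset.sum_mul, Finset.mul_sum]
      rw [Finset.sum_comm]
      refine Finset.sum_congr rfl fun y _ => Finset.sum_congr rfl fun m _ => ?_
      ring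
    · rw [Finset.sum_eq_single c']
      · rw [if_pos rfl, mul_one, Finset.mul_sum]
        refine Finset.sum_congr rfl fun κ _ => ?_
        ring
      · intro c'' _ h
        rw [if_neg (Ne.symm h), mul_zero, zero_mul]
      · intro h
        exact absurd (Finset.mem_univ _) h
  · intro X hX
    show ((F.dmat f (tw b c X)).submatrix γ.symm γ.symm + (c X / 2) • 1).trace = _
    have hY : tw b c X ∈ D.g := by rw [hD]; exact ⟨X, hX, rfl⟩
    have h1 : ((F.dmat f (tw b c X)).submatrix γ.symm γ.symm).trace =
        (F.dmat f (tw b c X)).trace := by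
      unfold Matrix.trace
      exact Equiv.sum_comp γ.symm fun s => F.dmat f (tw b c X) s s
    rw [Matrix.trace_add, h1, F.trace_dmat, hc _ hY, zero_add, Matrix.trace_smul, Matrix.trace_one,
      Fintype.card_fin, smul_eq_mul]
    ring
  · funext j
    show prodForm _ β Δ (fun s => b (j s).2) = _
    rw [prodForm_apply]
    unfold RFr.genT
    refine congr_arg₂ _ (Finset.prod_congr rfl fun μ _ => ?_) ?_
    · exact congrFun (hβ μ) fun ε => j (q (Sum.inl (μ, ε)))
    · rw [hΔ]
      unfold detT
      rw [← Matrix.det_submatrix_equiv_self γ.symm]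
      congr 1
      funext t c'
      show lam t (b (j (q (Sum.inr (γ.symm t)))).2) c' =
        L (γ.symm t) (γ.symm c') (j (q (Sum.inr (γ.symm t))))
      rw [hlam, Finset.sum_eq_single (j (q (Sum.inr (γ.symm t)))).2]
      · rw [Basis.repr_self, Finsupp.single_eq_same, mul_one]
        congr 1
        exact Prod.ext (Subsingleton.elim _ _) rfl
      · intro κ _ h
        rw [Basis.repr_self, Finsupp.single_apply, if_neg (Ne.symm h), mul_zero]
      · intro h
        exact absurd (Finset.mem_univ _) h

/-- A Tate form whose tensor is killed by `ss` is generated. -/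
theorem generated_of_killed {g : Set (Module.End k H)} {c : Module.End k H → k} {D : TData k K}
    (hD : D.g = {Y | ∃ X ∈ g, Y = tw b c X}) {s : ℕ} {T : MultilinearMap k (fun _ : Fin s => H) k}
    (hT : IsTateForm g c s T) (hs : ∀ X ∈ ss D, ∀ j, DX X (cm b T) j = 0) :
    IsGeneratedForm g c s T := by
  classical
  obtain ⟨m₀, I, _, _, ⟨F⟩⟩ := exists_rfr D
  have h1 := F.mem_span_good ((tateForm_iff' b hD T).1 hT) hs
  have key : ∀ T0 ∈ Submodule.span k {G : (Fin s → Fin 1 × K) → k | ∃ (m N : ℕ)
      (f : Fin N → Fin m₀) (q : (Fin m × Fin 2) ⊕ F.Cx f ≃ Fin s) (e : Fin m → Matrix K K k)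
      (r : F.Cx f → Matrix K K k) (α : Fin s → Fin 1), (∀ μ, e μ ∈ RC D) ∧ (∀ s, r s ∈ RC D) ∧
      (∀ M ∈ D.g, ∑ ν, (M * PF F.Y F.w F.l (f ν)).trace = 0) ∧ G = F.genT f q e r α},
      ∃ T : MultilinearMap k (fun _ : Fin s => H) k, IsGeneratedForm g c s T ∧ cm b T = T0 := by
    intro T0 hT0
    refine Submodule.span_induction (p := fun T0 _ =>
      ∃ T : MultilinearMap k (fun _ : Fin s => H) k, IsGeneratedForm g c s T ∧ cm b T = T0)
      ?_ ?_ ?_ ?_ hT0
    · rintro - ⟨m, N, f, q, e, r, α, he, hr, hc, rfl⟩
      exact genT_form hD F q α he hr hc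
    · exact ⟨0, Submodule.zero_mem _, cm_zero b⟩
    · rintro x y _ _ ⟨Tx, hx, hx'⟩ ⟨Ty, hy, hy'⟩
      exact ⟨Tx + Ty, Submodule.add_mem _ hx hy, by rw [cm_add, hx', hy']⟩
    · rintro q x _ ⟨Tx, hx, hx'⟩
      exact ⟨q • Tx, Submodule.smul_mem _ _ hx, by rw [cm_smul, hx']⟩
  obtain ⟨T', h2, h3⟩ := key _ h1
  rw [cm_inj b h3] at h2
  exact h2

end Pool.Agent.Lib.MP_021685_agU
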