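import Pool.Agent.Lib.MP_021685_agU.GX

/-!
# The matrix data attached to a set of endomorphisms with a multiplier
-/

set_option autoImplicit false
set_option linter.unusedSectionVars false

namespace Pool.Agent.Lib.MP_021685_agU

open Matrix Function Module

variable {k H : Type*} [Field k] [CharZero k] [AddCommGroup H] [Module k H]
  {K : Type*} [Fintype K] [DecidableEq K] (b : Basis K k H)

/-- The matrix of `X - c(X) / 2`. -/
noncomputable def tw (c : Module.End k H → k) (X : Module.End k H) : Matrix K K k :=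
  LinearMap.toMatrix b b X - (c X / 2) • 1

theorem tw_bracket (c : Module.End k H → k) (X : Module.End k H) (Y : Matrix K K k) :
    tw b c X * Y - Y * tw b c X =
      LinearMap.toMatrix b b X * Y - Y * LinearMap.toMatrix b b X := by
  unfold tw
  rw [sub_mul, mul_sub, smul_mul_assoc, mul_smul_comm, one_mul, mul_one]
  abel

/-- The matrix data.
PROOF. `G = (ψ (b i, b j))`; `X - c(X) / 2` is skew for `ψ`. -/
theorem exists_tdata {ψ : H →ₗ[k] H →ₗ[k] k} (hψ : ψ.Nondegenerate) (hψ' : ψ.IsAlt ∨ ψ.IsSymm)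
    {g : Set (Module.End k H)} {c : Module.End k H → k}
    (hc : ∀ X ∈ g, ∀ u v, ψ (X u) v + ψ u (X v) = c X * ψ u v)
    (hg : ∀ U : Submodule k (Module.End k H), (∀ X ∈ g, ∀ Y ∈ U, X * Y - Y * X ∈ U) →
      ∃ W : Submodule k (Module.End k H), (∀ X ∈ g, ∀ Y ∈ W, X * Y - Y * X ∈ W) ∧ IsCompl U W) :
    ∃ D : TData k K, D.g = {Y | ∃ X ∈ g, Y = tw b c X} := by
  have hG : ∀ i j, LinearMap.toMatrix₂ b b ψ i j = ψ (b i) (b j) := fun i j =>
    LinearMap.toMatrix₂_apply b b ψ i j
  have hX : ∀ (X : Module.End k H), (LinearMap.toMatrix b b X)ᵀ * LinearMap.toMatrix₂ b b ψ =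
      LinearMap.toMatrix₂ b b (ψ.comp X) := by
    intro X
    rw [LinearMap.toMatrix₂_comp b b b]
  have hX' : ∀ (X : Module.End k H), LinearMap.toMatrix₂ b b ψ * LinearMap.toMatrix b b X =
      LinearMap.toMatrix₂ b b (ψ.compl₂ X) := by
    intro X
    rw [LinearMap.toMatrix₂_compl₂ b b b]
  obtain ⟨e, he, hGe⟩ : ∃ e : k, e * e = 1 ∧ (LinearMap.toMatrix₂ b b ψ)ᵀ =
      e • LinearMap.toMatrix₂ b b ψ := by
    rcases hψ' with h | h
    · refine ⟨-1, by ring, ?_⟩
      ext i j
      rw [Matrix.transpose_apply, Matrix.smul_apply, hG, hG, smul_eq_mul, neg_one_mul]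
      exact (h.neg (b i) (b j)).symm
    · refine ⟨1, by ring, ?_⟩
      ext i j
      rw [Matrix.transpose_apply, Matrix.smul_apply, hG, hG, smul_eq_mul, one_mul]
      exact h.eq (b j) (b i)
  refine ⟨⟨LinearMap.toMatrix₂ b b ψ, {Y | ∃ X ∈ g, Y = tw b c X}, e, he, hGe, ?_, ?_, ?_⟩, rfl⟩
  · have h1 := (LinearMap.nondegenerate_toMatrix₂_iff (B := ψ) b b).2 hψ
    exact isUnit_iff_ne_zero.2 (Matrix.nondegenerate_iff_det_ne_zero.1 h1)
  · rintro Y ⟨X, hXg, rfl⟩
    have h1 : (LinearMap.toMatrix b b X)ᵀ * LinearMap.toMatrix₂ b b ψ +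
        LinearMap.toMatrix₂ b b ψ * LinearMap.toMatrix b b X =
        c X • LinearMap.toMatrix₂ b b ψ := by
      rw [hX, hX']
      ext i j
      rw [Matrix.add_apply, Matrix.smul_apply, LinearMap.toMatrix₂_apply,
        LinearMap.toMatrix₂_apply, LinearMap.toMatrix₂_apply, smul_eq_mul, ← hc X hXg]
      rfl
    unfold tw
    rw [Matrix.transpose_sub, Matrix.transpose_smul, Matrix.transpose_one, sub_mul, mul_sub,
      smul_mul_assoc, mul_smul_comm, one_mul, mul_one]
    calc _ = ((LinearMap.toMatrix b b X)ᵀ * LinearMap.toMatrix₂ b b ψ +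
          LinearMap.toMatrix₂ b b ψ * LinearMap.toMatrix b b X) -
          ((c X / 2) • LinearMap.toMatrix₂ b b ψ + (c X / 2) • LinearMap.toMatrix₂ b b ψ) := by abel
      _ = 0 := by rw [h1, ← add_smul, add_halves, sub_self]
  · intro U hU
    let e : Module.End k H ≃ₗ[k] Matrix K K k := LinearMap.toMatrix b b
    have he : ∀ X Y : Module.End k H, e (X * Y) = e X * e Y := fun X Y =>
      LinearMap.toMatrix_mul b X Y
    obtain ⟨W, hW1, hW2⟩ := hg (U.comap e.toLinearMap) (by
      intro X hX Y hY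
      show e (X * Y - Y * X) ∈ U
      rw [map_sub, he, he]
      have h1 := hU (tw b c X) ⟨X, hX, rfl⟩ (e Y) hY
      rw [tw_bracket] at h1
      exact h1)
    refine ⟨W.map e.toLinearMap, ?_, ?_⟩
    · rintro _ ⟨X, hX, rfl⟩ _ ⟨Y, hY, rfl⟩
      rw [tw_bracket]
      refine ⟨X * Y - Y * X, hW1 X hX Y hY, ?_⟩
      show e (X * Y - Y * X) = _
      rw [map_sub, he, he]
      rfl
    · have h1 : U = (U.comap e.toLinearMap).map e.toLinearMap := by
        rw [Submodule.map_comap_eq, LinearEquiv.range, top_inf_eq]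
      rw [h1]
      exact ((Submodule.orderIsoMapComap e).isCompl_iff).1 hW2

variable {n i : ℕ}

/-- The Tate classes are the classes killed by the matrices of the data. -/
theorem tate_iff' {g : Set (Module.End k H)} {c : Module.End k H → k} {D : TData k K}
    (hD : D.g = {Y | ∃ X ∈ g, Y = tw b c X}) (η : (Fin n → H) [⋀^Fin (2 * i)]→ₗ[k] k) :
    IsTateClass g c n i η ↔ ∀ Y ∈ D.g, ∀ j, DX Y (co b η) j = 0 := by
  rw [tate_iff b]
  have h1 : ∀ (X : Module.End k H) (j : Fin (2 * i) → Fin n × K), DX (tw b c X) (co b η) j =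
      DX (LinearMap.toMatrix b b X) (co b η) j - (i : k) * c X * co b η j := by
    intro X j
    have h2 : tw b c X = LinearMap.toMatrix b b X + (-(c X / 2)) • (1 : Matrix K K k) := by
      unfold tw
      rw [neg_smul, sub_eq_add_neg]
    rw [h2, DX_add_left, DX_smul_left, DX_one, Fintype.card_fin]
    push_cast
    ring
  rw [hD]
  refine ⟨?_, fun h X hX j => ?_⟩
  · rintro h Y ⟨X, hX, rfl⟩ j
    rw [h1, h X hX j, sub_self]
  · have h2 := h (tw b c X) ⟨X, hX, rfl⟩ j
    rw [h1] at h2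
    exact sub_eq_zero.1 h2

end Pool.Agent.Lib.MP_021685_agU
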