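import Pool.Agent.Lib.MP_021685_agU.TB

/-!
# Tensors of degree one; products
-/

set_option autoImplicit false
set_option linter.unusedSectionVars false

namespace Pool.Agent.Lib.MP_021685_agU

open Matrix Function Module

variable {C : Type*} [Field C] {K : Type*} [Fintype K] [DecidableEq K]

/-- The matrix of the tensor `T` between the copies `a` and `b` of the space. -/
theorem TW_DX_two {n : ℕ} (T : (Fin 2 → Fin n × K) → C)
    (X : Matrix K K C) (j : Fin 2 → Fin n × K) (M : Matrix K K C)
    (hM : ∀ k l, M k l = T ![((j 0).1, k), ((j 1).1, l)]) :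
    DX X T j = (Xᵀ * M + M * X) (j 0).2 (j 1).2 := by
  unfold DX
  rw [Fin.sum_univ_two, Matrix.add_apply, Matrix.mul_apply, Matrix.mul_apply]
  congr 1
  · refine Finset.sum_congr rfl fun m _ => ?_
    have h1 : update j 0 ((j 0).1, m) = ![((j 0).1, m), ((j 1).1, (j 1).2)] := by
      funext i
      fin_cases i
      · simp
      · simp
    rw [h1, Matrix.transpose_apply, hM, mul_comm]
  · refine Finset.sum_congr rfl fun m _ => ?_
    have h1 : update j 1 ((j 1).1, m) = ![((j 0).1, (j 0).2), ((j 1).1, m)] := by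
      funext i
      fin_cases i
      · simp
      · simp
    rw [h1, hM]

/-- The tensors of degree one killed by `g` are killed by `uu`.
PROOF. For labels `a, b` let `M k l = T ![(a, k), (b, l)]`. `DX Y T = 0` says `Yᵀ M + M Y = 0`. Put
`N = G⁻¹ * M`: `M = G N`, `Yᵀ G = - G Y`, so `G (N Y - Y N) = 0` and `N ∈ RC D`. For `X ∈ uu D`:
`Xᵀ G N + G N X = G (- X N + N X) = 0`. -/
theorem tate1_killed {D : TData C K} {n : ℕ}
    {T : (Fin 2 → Fin n × K) → C} (hT : ∀ Y ∈ D.g, ∀ j, DX Y T j = 0)
    {X : Matrix K K C} (hX : X ∈ uu D) (j : Fin 2 → Fin n × K) :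
    DX X T j = 0 := by
  let M : Matrix K K C := Matrix.of fun k l => T ![((j 0).1, k), ((j 1).1, l)]
  have hM : ∀ k l, M k l = T ![((j 0).1, k), ((j 1).1, l)] := fun k l => rfl
  have h1 : ∀ Y ∈ D.g, Yᵀ * M + M * Y = 0 := by
    intro Y hY
    ext k l
    have h2 := TW_DX_two T Y ![((j 0).1, k), ((j 1).1, l)] M (fun k l => by simp [hM])
    rw [hT Y hY] at h2
    simpa using h2.symm
  have hG := isUnit_G (D := D)
  let N : Matrix K K C := D.G⁻¹ * M
  have hN : M = D.G * N := by
    change M = D.G * (D.G⁻¹ * M)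
    rw [← mul_assoc, Matrix.mul_nonsing_inv _ hG, one_mul]
  have hNR : N ∈ RC D := by
    refine mem_RC.2 fun Y hY => ?_
    have hJ : Yᵀ * D.G = - (D.G * Y) := eq_neg_of_add_eq_zero_left (D.g_skew Y hY)
    have h3 : D.G * (N * Y - Y * N) = 0 := by
      have h0 := h1 Y hY
      rw [hN, ← mul_assoc, hJ] at h0
      calc D.G * (N * Y - Y * N) = -(D.G * Y) * N + D.G * N * Y := by noncomm_ring
        _ = 0 := h0
    have h4 : N * Y - Y * N = 0 := by
      calc N * Y - Y * N = D.G⁻¹ * D.G * (N * Y - Y * N) := by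
            rw [Matrix.nonsing_inv_mul _ hG, one_mul]
        _ = 0 := by rw [mul_assoc, h3, mul_zero]
    exact sub_eq_zero.1 h4
  obtain ⟨h5, h6⟩ := mem_uu.1 hX
  have h7 : Xᵀ * D.G = - (D.G * X) := eq_neg_of_add_eq_zero_left h6
  rw [TW_DX_two T X j M hM, hN, ← mul_assoc, h7]
  have h8 : -(D.G * X) * N + D.G * N * X = 0 := by
    rw [mul_assoc D.G N X, ← h5 N hNR]
    noncomm_ring
  rw [h8, Matrix.zero_apply]

/-- The pairings given by the commutant are killed by `g`. -/
theorem pr_killed {D : TData C K} {n : ℕ} {e : Matrix K K C} (he : e ∈ RC D) (a b : Fin n)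
    {Y : Matrix K K C} (hY : Y ∈ D.g) (j : Fin 2 → Fin n × K) :
    DX Y (fun x : Fin 2 → Fin n × K => pr (eᵀ * D.G) a b (x 0) (x 1)) j = 0 := by
  classical
  by_cases hj : (j 0).1 = a ∧ (j 1).1 = b
  · rw [TW_DX_two _ Y j (eᵀ * D.G) (fun k l => by simp [pr, hj])]
    have h1 : Yᵀ * (eᵀ * D.G) + eᵀ * D.G * Y = eᵀ * (Yᵀ * D.G + D.G * Y) := by
      rw [← Matrix.mul_assoc, ← Matrix.transpose_mul, mem_RC.1 he Y hY, Matrix.transpose_mul,
        Matrix.mul_add, Matrix.mul_assoc, Matrix.mul_assoc]
    rw [h1, D.g_skew Y hY, Matrix.mul_zero, Matrix.zero_apply]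
  · unfold DX
    refine Finset.sum_eq_zero fun s _ => Finset.sum_eq_zero fun k _ => ?_
    have h1 : ∀ t, (update j s ((j s).1, k) t).1 = (j t).1 := by
      intro t
      by_cases h : t = s
      · subst h; rw [update_self]
      · rw [update_of_ne h]
    show pr (eᵀ * D.G) a b (update j s ((j s).1, k) 0) (update j s ((j s).1, k) 1) *
      Y k (j s).2 = 0
    unfold pr
    rw [if_neg (fun h => hj (by rw [h1, h1] at h; exact h)), zero_mul]

/-- A product of tensors killed by `X` on disjoint sets of slots is killed by `X`. -/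
theorem prod_killed {n m t s : ℕ}
    (p : (Fin m × Fin 2) ⊕ Fin t ≃ Fin s) (T : Fin m → (Fin 2 → Fin n × K) → C)
    (ξ : (Fin t → Fin n × K) → C) {X : Matrix K K C}
    (hT : ∀ r j, DX X (T r) j = 0) (hξ : ∀ j, DX X ξ j = 0) (j : Fin s → Fin n × K) :
    DX X (fun j => (∏ r, T r (fun ε => j (p (Sum.inl (r, ε))))) *
      ξ (fun a => j (p (Sum.inr a)))) j = 0 := by
  unfold DX
  rw [← Equiv.sum_comp p, Fintype.sum_sum_type, Fintype.sum_prod_type]
  have h0 : ∀ r : Fin m, ∑ ε : Fin 2, ∑ k, ((∏ r', T r' (fun ε' =>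
      update j (p (Sum.inl (r, ε))) ((j (p (Sum.inl (r, ε)))).1, k) (p (Sum.inl (r', ε'))))) *
      ξ (fun a => update j (p (Sum.inl (r, ε))) ((j (p (Sum.inl (r, ε)))).1, k) (p (Sum.inr a)))) *
      X k (j (p (Sum.inl (r, ε)))).2 = 0 := by
    intro r
    have h2 : ∀ (ε : Fin 2) (v : Fin n × K), (∏ r', T r' (fun ε' =>
        update j (p (Sum.inl (r, ε))) v (p (Sum.inl (r', ε'))))) *
        ξ (fun a => update j (p (Sum.inl (r, ε))) v (p (Sum.inr a))) =
        ((∏ r' ∈ Finset.univ.erase r, T r' (fun ε' => j (p (Sum.inl (r', ε'))))) *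
          ξ (fun a => j (p (Sum.inr a)))) * T r (update (fun ε' => j (p (Sum.inl (r, ε')))) ε v) := by
      intro ε v
      rw [← Finset.mul_prod_erase Finset.univ _ (Finset.mem_univ r)]
      have h3 : (fun ε' => update j (p (Sum.inl (r, ε))) v (p (Sum.inl (r, ε')))) =
          update (fun ε' => j (p (Sum.inl (r, ε')))) ε v := by
        funext ε'
        by_cases h : ε' = ε
        · subst h
          rw [update_self, update_self]
        · rw [update_of_ne h, update_of_ne]
          intro h'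
          exact h (congrArg Prod.snd (Sum.inl_injective (p.injective h')))
      have h4 : ∏ r' ∈ Finset.univ.erase r, T r' (fun ε' =>
          update j (p (Sum.inl (r, ε))) v (p (Sum.inl (r', ε')))) =
          ∏ r' ∈ Finset.univ.erase r, T r' (fun ε' => j (p (Sum.inl (r', ε')))) := by
        refine Finset.prod_congr rfl fun r' hr' => ?_
        congr 1
        funext ε'
        rw [update_of_ne]
        intro h'
        exact Finset.ne_of_mem_erase hr' (congrArg Prod.fst (Sum.inl_injective (p.injective h')))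
      have h5 : (fun a => update j (p (Sum.inl (r, ε))) v (p (Sum.inr a))) =
          fun a => j (p (Sum.inr a)) := by
        funext a
        rw [update_of_ne]
        intro h'
        exact absurd (p.injective h') (by simp)
      rw [h3, h4, h5]
      ring
    have h6 : ∀ (ε : Fin 2) (k : K), ((∏ r', T r' (fun ε' =>
        update j (p (Sum.inl (r, ε))) ((j (p (Sum.inl (r, ε)))).1, k) (p (Sum.inl (r', ε'))))) *
        ξ (fun a => update j (p (Sum.inl (r, ε))) ((j (p (Sum.inl (r, ε)))).1, k) (p (Sum.inr a)))) *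
        X k (j (p (Sum.inl (r, ε)))).2 =
        ((∏ r' ∈ Finset.univ.erase r, T r' (fun ε' => j (p (Sum.inl (r', ε'))))) *
          ξ (fun a => j (p (Sum.inr a)))) * (T r (update (fun ε' => j (p (Sum.inl (r, ε')))) ε
            ((j (p (Sum.inl (r, ε)))).1, k)) * X k (j (p (Sum.inl (r, ε)))).2) := by
      intro ε k
      rw [h2, mul_assoc]
    simp only [h6, ← Finset.mul_sum]
    have h7 := hT r (fun ε' => j (p (Sum.inl (r, ε'))))
    unfold DX at h7
    rw [h7, mul_zero]
  rw [Finset.sum_eq_zero fun r _ => h0 r, zero_add]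
  have h8 : ∀ (a₀ : Fin t) (k : K), ((∏ r', T r' (fun ε' =>
      update j (p (Sum.inr a₀)) ((j (p (Sum.inr a₀))).1, k) (p (Sum.inl (r', ε'))))) *
      ξ (fun a => update j (p (Sum.inr a₀)) ((j (p (Sum.inr a₀))).1, k) (p (Sum.inr a)))) *
      X k (j (p (Sum.inr a₀))).2 =
      (∏ r', T r' (fun ε' => j (p (Sum.inl (r', ε'))))) *
        (ξ (update (fun a => j (p (Sum.inr a))) a₀ ((j (p (Sum.inr a₀))).1, k)) *
          X k (j (p (Sum.inr a₀))).2) := by
    intro a₀ k
    have h3 : (fun a => update j (p (Sum.inr a₀)) ((j (p (Sum.inr a₀))).1, k) (p (Sum.inr a))) =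
        update (fun a => j (p (Sum.inr a))) a₀ ((j (p (Sum.inr a₀))).1, k) := by
      funext a
      by_cases h : a = a₀
      · subst h
        rw [update_self, update_self]
      · rw [update_of_ne h, update_of_ne]
        intro h'
        exact h (Sum.inr_injective (p.injective h'))
    have h4 : ∏ r', T r' (fun ε' =>
        update j (p (Sum.inr a₀)) ((j (p (Sum.inr a₀))).1, k) (p (Sum.inl (r', ε')))) =
        ∏ r', T r' (fun ε' => j (p (Sum.inl (r', ε')))) := by
      refine Finset.prod_congr rfl fun r' _ => ?_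
      congr 1
      funext ε'
      rw [update_of_ne]
      intro h'
      exact absurd (p.injective h') (by simp)
    rw [h3, h4, mul_assoc]
  simp only [h8, ← Finset.mul_sum]
  have h9 := hξ (fun a => j (p (Sum.inr a)))
  unfold DX at h9
  rw [h9, mul_zero]

/-- The alternation of a product of tensors killed by `X` is killed by `X`. -/
theorem altT_prod_killed {n m t s : ℕ}
    (p : (Fin m × Fin 2) ⊕ Fin t ≃ Fin s) (T : Fin m → (Fin 2 → Fin n × K) → C)
    (ξ : (Fin t → Fin n × K) → C) {X : Matrix K K C}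
    (hT : ∀ r j, DX X (T r) j = 0) (hξ : ∀ j, DX X ξ j = 0)
    (j : Fin s → Fin n × K) :
    DX X (altT (fun j : Fin s → Fin n × K =>
      (∏ r, T r (fun ε => j (p (Sum.inl (r, ε))))) * ξ (fun a => j (p (Sum.inr a))))) j = 0 := by
  rw [DX_eq_DM, DM_altT]
  have h2 : DM (lift (Fin n) X) (fun j : Fin s → Fin n × K =>
      (∏ r, T r (fun ε => j (p (Sum.inl (r, ε))))) * ξ (fun a => j (p (Sum.inr a)))) =
        fun _ => 0 := by
    funext j
    rw [← DX_eq_DM]
    exact prod_killed p T ξ hT hξ j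
  rw [h2]
  simp only [altT, smul_zero, Finset.sum_const_zero]

end Pool.Agent.Lib.MP_021685_agU
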