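import Pool.Agent.Lib.MP_021685_agU.TDefs
import Pool.Agent.Lib.MP_021685_agU.TW

/-!
# Coordinates of alternating forms on the powers of a space
-/

set_option autoImplicit false
set_option linter.unusedSectionVars false

namespace Pool.Agent.Lib.MP_021685_agU

open Matrix Function Module

variable {k H : Type*} [Field k] [AddCommGroup H] [Module k H]
  {K : Type*} [Fintype K] [DecidableEq K] (b : Basis K k H)

/-- The basis of `Hⁿ`. -/
noncomputable def bp (n : ℕ) : Basis (Fin n × K) k (Fin n → H) :=
  (Pi.basis fun _ : Fin n => b).reindex (Equiv.sigmaEquivProd (Fin n) K)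

theorem bp_apply (n : ℕ) (x : Fin n × K) : bp b n x = Pi.single x.1 (b x.2) := by
  unfold bp
  rw [Basis.reindex_apply]
  have h1 : (Equiv.sigmaEquivProd (Fin n) K).symm x = ⟨x.1, x.2⟩ := rfl
  rw [h1, Pi.basis_apply]

variable {S : Type*} [Fintype S] [DecidableEq S] {n : ℕ}

/-- The coordinates of a form. -/
noncomputable def co (η : (Fin n → H) [⋀^S]→ₗ[k] k) (j : S → Fin n × K) : k :=
  η fun s => bp b n (j s)

theorem co_add (η η' : (Fin n → H) [⋀^S]→ₗ[k] k) : co b (η + η') = co b η + co b η' := rfl

theorem co_smul (c : k) (η : (Fin n → H) [⋀^S]→ₗ[k] k) : co b (c • η) = c • co b η := rfl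

theorem co_zero : co b (0 : (Fin n → H) [⋀^S]→ₗ[k] k) = 0 := rfl

/-- A form is determined by its coordinates. -/
theorem co_inj {η η' : (Fin n → H) [⋀^S]→ₗ[k] k} (h : co b η = co b η') : η = η' := by
  apply AlternatingMap.coe_multilinearMap_injective
  refine Basis.ext_multilinear (fun _ => bp b n) fun j => ?_
  exact congrFun h j

theorem co_isAlt (η : (Fin n → H) [⋀^S]→ₗ[k] k) : IsAlt (co b η) := by
  intro σ j
  exact η.map_perm (fun s => bp b n (j s)) σ

theorem co_alt (M : MultilinearMap k (fun _ : S => Fin n → H) k) :
    co b (MultilinearMap.alternatization M) = altT fun j => M fun s => bp b n (j s) := by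
  funext j
  unfold co altT
  rw [MultilinearMap.alternatization_apply]
  rfl

/-- The multilinear form with the coordinates `T`. -/
noncomputable def ml (T : (S → Fin n × K) → k) : MultilinearMap k (fun _ : S => Fin n → H) k :=
  ∑ j : S → Fin n × K, T j •
    (MultilinearMap.mkPiAlgebra k S k).compLinearMap fun s => (bp b n).coord (j s)

theorem ml_apply (T : (S → Fin n × K) → k) (v : S → Fin n → H) :
    ml b T v = ∑ j : S → Fin n × K, T j * ∏ s, (bp b n).repr (v s) (j s) := by
  unfold ml
  rw [_root_.sum_apply]
  rfl

theorem ml_basis (T : (S → Fin n × K) → k) (j : S → Fin n × K) :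
    ml b T (fun s => bp b n (j s)) = T j := by
  rw [ml_apply, Finset.sum_eq_single j]
  · have h1 : ∏ s, (bp b n).repr (bp b n (j s)) (j s) = 1 :=
      Finset.prod_eq_one fun s _ => by rw [Basis.repr_self, Finsupp.single_eq_same]
    rw [h1, mul_one]
  · intro j' _ hj
    obtain ⟨s, hs⟩ := Function.ne_iff.1 hj
    have h1 : ∏ s, (bp b n).repr (bp b n (j s)) (j' s) = 0 := by
      refine Finset.prod_eq_zero (Finset.mem_univ s) ?_
      rw [Basis.repr_self, Finsupp.single_apply, if_neg (Ne.symm hs)]
    rw [h1, mul_zero]
  · intro h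
    exact absurd (Finset.mem_univ _) h

/-- An alternating tensor is the tensor of the coordinates of a form. -/
theorem exists_alt_form [CharZero k] {T : (S → Fin n × K) → k} (hT : IsAlt T) :
    ∃ η : (Fin n → H) [⋀^S]→ₗ[k] k, co b η = T := by
  refine ⟨((Fintype.card S).factorial : k)⁻¹ • MultilinearMap.alternatization (ml b T), ?_⟩
  rw [co_smul, co_alt]
  have h1 : (fun j => ml b T fun s => bp b n (j s)) = T := by
    funext j
    exact ml_basis b T j
  rw [h1, hT.altT, ← Nat.cast_smul_eq_nsmul k, smul_smul, inv_mul_cancel₀, one_smul]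
  exact_mod_cast Nat.factorial_ne_zero _

/-- The diagonal action. -/
def dg (X : Module.End k H) (n : ℕ) : Module.End k (Fin n → H) where
  toFun v a := X (v a)
  map_add' v w := by funext a; simp
  map_smul' c v := by funext a; simp

theorem dg_apply (X : Module.End k H) (n : ℕ) (v : Fin n → H) (a : Fin n) :
    dg X n v a = X (v a) := rfl

theorem dg_bp (X : Module.End k H) (x : Fin n × K) :
    dg X n (bp b n x) = ∑ κ, LinearMap.toMatrix b b X κ x.2 • bp b n (x.1, κ) := by
  rw [bp_apply]
  funext a
  rw [dg_apply, Finset.sum_apply]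
  simp only [bp_apply, Pi.smul_apply]
  by_cases h : a = x.1
  · subst h
    simp only [Pi.single_eq_same]
    have h1 := LinearMap.toMatrix_mulVec_repr b b X (b x.2)
    have h2 : ∀ κ, LinearMap.toMatrix b b X κ x.2 = b.repr (X (b x.2)) κ := by
      intro κ
      rw [LinearMap.toMatrix_apply]
    simp only [h2]
    exact (b.sum_repr (X (b x.2))).symm
  · simp only [Pi.single_eq_of_ne h, smul_zero, Finset.sum_const_zero, map_zero]

/-- The derivation in coordinates. -/
theorem co_update (η : (Fin n → H) [⋀^S]→ₗ[k] k) (X : Module.End k H) (j : S → Fin n × K) :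
    ∑ s, η (Function.update (fun s => bp b n (j s)) s (dg X n (bp b n (j s)))) =
      DX (LinearMap.toMatrix b b X) (co b η) j := by
  unfold DX
  refine Finset.sum_congr rfl fun s _ => ?_
  rw [dg_bp, AlternatingMap.map_update_sum]
  refine Finset.sum_congr rfl fun κ _ => ?_
  rw [AlternatingMap.map_update_smul, smul_eq_mul, mul_comm]
  congr 1
  unfold co
  congr 1
  funext t
  by_cases h : t = s
  · subst h
    rw [update_self, update_self]
  · rw [update_of_ne h, update_of_ne h]

/-- The identity matrix acts as the multiplication by the degree. -/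
theorem DX_one (T : (S → Fin n × K) → k) (j : S → Fin n × K) :
    DX (1 : Matrix K K k) T j = (Fintype.card S : k) * T j := by
  unfold DX
  have h1 : ∀ s, ∑ κ, T (update j s ((j s).1, κ)) * (1 : Matrix K K k) κ (j s).2 = T j := by
    intro s
    rw [Finset.sum_eq_single (j s).2]
    · rw [Matrix.one_apply_eq, mul_one]
      congr 1
      exact update_eq_self s j
    · intro κ _ h
      rw [Matrix.one_apply_ne h, mul_zero]
    · intro h
      exact absurd (Finset.mem_univ _) h
  rw [Finset.sum_congr rfl fun s _ => h1 s, Finset.sum_const, Finset.card_univ, nsmul_eq_mul]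

/-- The condition for Tate classes in coordinates. -/
theorem tate_iff {g : Set (Module.End k H)} {c : Module.End k H → k} {i : ℕ}
    (η : (Fin n → H) [⋀^Fin (2 * i)]→ₗ[k] k) : IsTateClass g c n i η ↔
      ∀ X ∈ g, ∀ j, DX (LinearMap.toMatrix b b X) (co b η) j = (i : k) * c X * co b η j := by
  unfold IsTateClass
  refine forall_congr' fun X => forall_congr' fun hX => ⟨fun h j => ?_, fun h v => ?_⟩
  · rw [← co_update]
    exact h fun s => bp b n (j s)
  · let M : MultilinearMap k (fun _ : Fin (2 * i) => Fin n → H) k :=
      ∑ s, η.toMultilinearMap.compLinearMap fun t => if t = s then dg X n else LinearMap.id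
    have hM : ∀ v, M v = ∑ s, η (Function.update v s (fun a => X (v s a))) := by
      intro v
      show (∑ s, η.toMultilinearMap.compLinearMap
        (fun t => if t = s then dg X n else LinearMap.id)) v = _
      rw [_root_.sum_apply]
      refine Finset.sum_congr rfl fun s _ => ?_
      rw [MultilinearMap.compLinearMap_apply]
      show η _ = η _
      congr 1
      funext t
      by_cases ht : t = s
      · subst ht
        rw [if_pos rfl, update_self]
        rfl
      · rw [if_neg ht, update_of_ne ht]
        rfl
    have h1 : M = ((i : k) * c X) • η.toMultilinearMap := by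
      refine Basis.ext_multilinear (fun _ => bp b n) fun j => ?_
      rw [hM]
      have h2 := h j
      rw [← co_update] at h2
      exact h2
    rw [← hM, h1]
    rfl

end Pool.Agent.Lib.MP_021685_agU
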