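import Pool.Agent.Lib.MP_021685_agU.UV

/-!
# Alternation of a determinant tensor; polarisation
-/

set_option autoImplicit false
set_option linter.unusedSectionVars false

namespace Pool.Agent.Lib.MP_021685_agU

open Matrix Function

variable {R C M : Type*} [CommRing R] [Fintype C] [DecidableEq C] [Fintype M] [DecidableEq M]

/-- PROOF. `det (lam s c (j (σ s))) = ∑ π, sign π ∏ c, lam (π c) c (j (σ (π c)))`
(`Matrix.det_apply'`). In the double sum over `σ`, `π` put `τ = σ * π`, `sign σ * sign π = sign τ`. -/
theorem altT_detT (lam : C → C → M → R) (j : C → M) :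
    altT (detT lam) j =
      ∑ π : Equiv.Perm C, (Matrix.of fun r c => lam (π c) c (j r)).det := by
  unfold altT detT
  simp only [Matrix.det_apply', Matrix.of_apply, Finset.smul_sum]
  rw [Finset.sum_comm]
  refine Finset.sum_congr rfl fun π _ => ?_
  refine Fintype.sum_equiv (Equiv.mulRight π) _ _ fun σ => ?_
  rw [Equiv.coe_mulRight, Equiv.Perm.sign_mul, zsmul_eq_mul]
  simp only [Units.val_mul, Int.cast_mul, Equiv.Perm.mul_apply]
  ring

/-- PROOF. The determinant is multilinear in the columns: `det (∑_{s ∈ Z} v s c)_c =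
∑_{g : C → C, g c ∈ Z} det (v (g c) c)_c` (`MultilinearMap.map_sum_finset` for the transpose,
`Matrix.detRowAlternating`, `Matrix.det_transpose`). -/
theorem det_sum_columns (v : C → C → C → R) (Z : Finset C) :
    (Matrix.of fun r c => ∑ s ∈ Z, v s c r).det =
      ∑ g : C → C, if (∀ c, g c ∈ Z) then (Matrix.of fun r c => v (g c) c r).det else 0 := by
  have h1 : (Matrix.of fun r c => ∑ s ∈ Z, v s c r).det =
      Matrix.detRowAlternating.toMultilinearMap (fun c : C => ∑ s ∈ Z, v s c) := by
    rw [← Matrix.det_transpose]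
    show Matrix.det _ = Matrix.det _
    congr 1
    ext c r
    simp [Matrix.transpose_apply, Matrix.of_apply, Finset.sum_apply]
  rw [h1, MultilinearMap.map_sum_finset]
  have h2 : (Fintype.piFinset fun _ : C => Z) =
      (Finset.univ : Finset (C → C)).filter (fun g => ∀ c, g c ∈ Z) := by
    ext g
    simp [Fintype.mem_piFinset]
  rw [h2, Finset.sum_filter]
  refine Finset.sum_congr rfl fun g _ => ?_
  split_ifs
  · rw [← Matrix.det_transpose (Matrix.of fun r c => v (g c) c r)]
    rfl
  · rfl

/-- PROOF. `∑_{Z ⊇ image g} (-1)^(card C - card Z) = 1` if `g` is surjective and `0` otherwise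
(`Finset.sum_powerset_neg_one_pow_card` for the complement of `Z`, a subset of the complement of the
image of `g`). -/
theorem sum_sign (g : C → C) :
    ∑ Z : Finset C, (if (∀ c, g c ∈ Z) then (-1 : ℤ) ^ (Fintype.card C - Z.card) else 0) =
      if Function.Bijective g then 1 else 0 := by
  classical
  obtain ⟨B, hB⟩ : ∃ B : Finset C, B = (Finset.univ.image g)ᶜ := ⟨_, rfl⟩
  have h1 : ∑ Z : Finset C, (if (∀ c, g c ∈ Z) then (-1 : ℤ) ^ (Fintype.card C - Z.card) else 0) =
      ∑ W : Finset C, (if W ⊆ B then (-1 : ℤ) ^ W.card else 0) := by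
    refine Fintype.sum_equiv (Function.Involutive.toPerm (fun Z : Finset C => Zᶜ) (compl_involutive (α := Finset C))) _ _
      fun Z => ?_
    have e1 : (∀ c, g c ∈ Z) ↔ Zᶜ ⊆ B := by
      rw [hB, Finset.compl_subset_compl]
      constructor
      · intro h x hx
        obtain ⟨c, _, rfl⟩ := Finset.mem_image.1 hx
        exact h c
      · intro h c
        exact h (Finset.mem_image_of_mem g (Finset.mem_univ c))
    have e2 : Fintype.card C - Z.card = (Zᶜ).card := (Finset.card_compl Z).symm
    show (if (∀ c, g c ∈ Z) then (-1 : ℤ) ^ (Fintype.card C - Z.card) else 0) =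
      if Zᶜ ⊆ B then (-1 : ℤ) ^ (Zᶜ).card else 0
    rw [e2]
    by_cases h : Zᶜ ⊆ B
    · rw [if_pos (e1.2 h), if_pos h]
    · rw [if_neg (fun h' => h (e1.1 h')), if_neg h]
  rw [h1, ← Finset.sum_filter]
  have h2 : (Finset.univ : Finset (Finset C)).filter (fun W => W ⊆ B) = B.powerset := by
    ext W
    simp
  rw [h2, Finset.sum_powerset_neg_one_pow_card]
  have h3 : B = ∅ ↔ Function.Bijective g := by
    rw [← Finite.surjective_iff_bijective, hB, Finset.compl_eq_empty_iff]
    constructor
    · intro h x
      have hx : x ∈ Finset.univ.image g := by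
        rw [h]
        exact Finset.mem_univ x
      obtain ⟨c, _, hc⟩ := Finset.mem_image.1 hx
      exact ⟨c, hc⟩
    · intro h
      ext x
      obtain ⟨c, hc⟩ := h x
      simp only [Finset.mem_univ, iff_true]
      exact Finset.mem_image.2 ⟨c, Finset.mem_univ c, hc⟩
  by_cases hb : Function.Bijective g
  · rw [if_pos (h3.2 hb), if_pos hb]
  · rw [if_neg (fun h => hb (h3.1 h)), if_neg hb]

/-- The alternation of a determinant tensor is a combination of determinant tensors of linear forms
which do not depend on the slot. PROOF. `altT_detT`, `det_sum_columns`, `sum_sign`; the bijective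
`g : C → C` are the permutations (`Equiv.ofBijective`). -/
theorem altT_detT_eq (lam : C → C → M → R) : altT (detT lam) =
    ∑ Z : Finset C, ((-1 : ℤ) ^ (Fintype.card C - Z.card)) •
      detT (fun _ c m => ∑ s ∈ Z, lam s c m) := by
  funext j
  rw [altT_detT, Finset.sum_apply]
  have h1 : ∀ Z : Finset C, (((-1 : ℤ) ^ (Fintype.card C - Z.card)) •
      detT (fun _ c m => ∑ s ∈ Z, lam s c m)) j =
      ∑ g : C → C, (if (∀ c, g c ∈ Z) then (-1 : ℤ) ^ (Fintype.card C - Z.card) else 0) •
        (Matrix.of fun r c => lam (g c) c (j r)).det := by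
    intro Z
    show ((-1 : ℤ) ^ (Fintype.card C - Z.card)) •
      (Matrix.of fun s' c => ∑ s ∈ Z, lam s c (j s')).det = _
    rw [det_sum_columns (fun s c r => lam s c (j r)) Z, Finset.smul_sum]
    refine Finset.sum_congr rfl fun g _ => ?_
    by_cases h : ∀ c, g c ∈ Z
    · rw [if_pos h, if_pos h]
    · rw [if_neg h, if_neg h, smul_zero, zero_smul]
  rw [Finset.sum_congr rfl fun Z _ => h1 Z, Finset.sum_comm]
  have h2 : ∀ g : C → C, ∑ Z : Finset C,
      (if (∀ c, g c ∈ Z) then (-1 : ℤ) ^ (Fintype.card C - Z.card) else 0) •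
        (Matrix.of fun r c => lam (g c) c (j r)).det =
      if Function.Bijective g then (Matrix.of fun r c => lam (g c) c (j r)).det else 0 := by
    intro g
    rw [← Finset.sum_smul, sum_sign]
    split_ifs
    · rw [one_smul]
    · rw [zero_smul]
  rw [Finset.sum_congr rfl fun g _ => h2 g, ← Finset.sum_filter]
  refine Finset.sum_bij (fun (π : Equiv.Perm C) _ => (π : C → C)) ?_ ?_ ?_ ?_
  · intro π _
    exact Finset.mem_filter.2 ⟨Finset.mem_univ _, π.bijective⟩
  · intro π _ π' _ h
    exact Equiv.coe_fn_injective h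
  · intro g hg
    exact ⟨Equiv.ofBijective g (Finset.mem_filter.1 hg).2, Finset.mem_univ _, rfl⟩
  · intro π _
    rfl

end Pool.Agent.Lib.MP_021685_agU
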