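import Pool.Agent.Lib.MP_021685_agU.TC

/-!
# The primitive idempotents
-/

set_option autoImplicit false
set_option linter.unusedSectionVars false

namespace Pool.Agent.Lib.MP_021685_agU

open Matrix Function Module

variable {C : Type*} [Field C] [CharZero C] [IsAlgClosed C] {K : Type*} [Fintype K] [DecidableEq K]
  (D : TData C K)

/-- A complete system of orthogonal primitive idempotents of `RC D`, permuted by the adjoint
for the form. -/
structure Idem (X : Type*) [Fintype X] [DecidableEq X] where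
  p : X → Matrix K K C
  c : X → X
  mem : ∀ χ, p χ ∈ RC D
  ne : ∀ χ, p χ ≠ 0
  mul : ∀ χ χ', p χ * p χ' = if χ = χ' then p χ else 0
  sum : ∑ χ, p χ = 1
  adj : ∀ χ, MP_021685_agU.adj D (p χ) = p (c χ)
  prim : ∀ χ, ∀ Y ∈ RC D, ∃ z : C, p χ * Y * p χ = z • p χ

/-- An idempotent different from zero has an eigenvector of each element of its corner. -/
theorem RA_eig {p : Matrix K K C} (hpp : p * p = p) (h0 : p ≠ 0) {b : Matrix K K C}
    (hb : p * b = b) : ∃ (z : C) (v : K → C), v ≠ 0 ∧ p *ᵥ v = v ∧ b *ᵥ v = z • v := by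
  classical
  let W : Submodule C (K → C) := LinearMap.range (Matrix.toLin' p)
  have hW : ∀ v ∈ W, p *ᵥ v = v := by
    rintro v ⟨u, rfl⟩
    rw [Matrix.toLin'_apply, mulVec_mulVec, hpp]
  have hbW : ∀ v ∈ W, Matrix.toLin' b v ∈ W := by
    intro v _
    refine ⟨b *ᵥ v, ?_⟩
    rw [Matrix.toLin'_apply, Matrix.toLin'_apply, mulVec_mulVec, hb]
  have hnt : Nontrivial W := by
    rw [Submodule.nontrivial_iff_ne_bot]
    intro h1
    apply h0
    have h2 : Matrix.toLin' p = 0 := LinearMap.range_eq_bot.1 h1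
    apply Matrix.toLin'.injective
    rw [h2, map_zero]
  obtain ⟨z, hz⟩ := Module.End.exists_eigenvalue ((Matrix.toLin' b).restrict hbW)
  obtain ⟨v, hv⟩ := hz.exists_hasEigenvector
  refine ⟨z, v.1, ?_, hW v.1 v.2, ?_⟩
  · intro h1
    exact hv.2 (Subtype.ext h1)
  · have h1 := congrArg Subtype.val hv.apply_eq_smul
    rw [LinearMap.coe_restrict_apply, Matrix.toLin'_apply] at h1
    exact h1

/-- The splitting of an idempotent of the commutant which is not primitive. -/
theorem exists_split' {p : Matrix K K C} (hp : p ∈ RC D) (hpp : p * p = p)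
    (h : ∃ Y ∈ RC D, ∀ z : C, p * Y * p ≠ z • p) :
    ∃ e ∈ RC D, e * e = e ∧ p * e = e ∧ e * p = e ∧ e ≠ 0 ∧ e ≠ p := by
  obtain ⟨Y, hY, hYz⟩ := h
  have h0 : p ≠ 0 := by
    intro h1
    apply hYz 0
    rw [h1, mul_zero, smul_zero]
  have hb : p * (p * Y * p) = p * Y * p := by rw [← mul_assoc, ← mul_assoc, hpp]
  obtain ⟨z, v, hv0, hv1, hv2⟩ := RA_eig hpp h0 hb
  obtain ⟨y, hy⟩ : ∃ y, y = p * Y * p - z • p := ⟨_, rfl⟩
  have hym : y ∈ RC D := by
    rw [hy]
    exact (RC D).sub_mem ((RC D).mul_mem ((RC D).mul_mem hp hY) hp) ((RC D).smul_mem hp z)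
  have hy0 : y ≠ 0 := by
    rw [hy]
    exact sub_ne_zero.2 (hYz z)
  have hpy : p * y = y := by
    rw [hy, mul_sub, hb, mul_smul_comm, hpp]
  have hyp : y * p = y := by
    rw [hy, sub_mul, mul_assoc (p * Y), hpp, smul_mul_assoc, hpp]
  have hyv : y *ᵥ v = 0 := by
    rw [hy, sub_mulVec, hv2, smul_mulVec, hv1, sub_self]
  obtain ⟨Z, hZ, hyZ⟩ := exists_regular D hym
  have e1 : y * (p * Z * y) = y := by
    calc y * (p * Z * y) = (y * p) * Z * y := by simp only [mul_assoc]
      _ = y := by rw [hyp, hyZ]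
  refine ⟨p * Z * y, (RC D).mul_mem ((RC D).mul_mem hp hZ) hym, ?_, ?_, ?_, ?_, ?_⟩
  · calc p * Z * y * (p * Z * y) = p * Z * (y * (p * Z * y)) := by rw [mul_assoc]
      _ = p * Z * y := by rw [e1]
  · rw [← mul_assoc, ← mul_assoc, hpp]
  · rw [mul_assoc, hyp]
  · intro h1
    rw [h1, mul_zero] at e1
    exact hy0 e1.symm
  · intro h1
    apply hv0
    rw [← hv1, ← h1, ← mulVec_mulVec, hyv, mulVec_zero]

theorem RA_adj_pow (Y : Matrix K K C) (n : ℕ) : adj D (Y ^ n) = (adj D Y) ^ n := by
  induction n with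
  | zero => rw [pow_zero, pow_zero, adj_one]
  | succ n ih => rw [pow_succ, adj_mul, ih, ← pow_succ']

theorem RA_adj_sum {ι : Type*} (s : Finset ι) (f : ι → Matrix K K C) :
    adj D (∑ i ∈ s, f i) = ∑ i ∈ s, adj D (f i) := by
  classical
  induction s using Finset.induction_on with
  | empty => rw [Finset.sum_empty, Finset.sum_empty, adj_zero]
  | insert a s ha ih => rw [Finset.sum_insert ha, Finset.sum_insert ha, adj_add, ih]

theorem RA_adj_aeval (Y : Matrix K K C) (f : Polynomial C) :
    adj D (Polynomial.aeval Y f) = Polynomial.aeval (adj D Y) f := by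
  rw [Polynomial.aeval_eq_sum_range, Polynomial.aeval_eq_sum_range, RA_adj_sum]
  refine Finset.sum_congr rfl fun i _ => ?_
  rw [adj_smul, RA_adj_pow]

theorem RA_aeval_mem {Y : Matrix K K C} (hY : Y ∈ RC D) (f : Polynomial C) :
    Polynomial.aeval Y f ∈ RC D := by
  rw [Polynomial.aeval_eq_sum_range]
  exact Subalgebra.sum_mem _ fun i _ => (RC D).smul_mem ((RC D).pow_mem hY i) _

/-- The idempotent of a symmetric element which is neither invertible nor nilpotent. -/
theorem RA_sym {p b : Matrix K K C} (hb : b ∈ RC D) (hpb : p * b = b) (hbp : b * p = b)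
    (hbs : adj D b = b) {v : K → C} (hv0 : v ≠ 0) (hpv : p *ᵥ v = v) (hbv : b *ᵥ v = 0)
    (hn : ¬ IsNilpotent b) :
    ∃ e ∈ RC D, e * e = e ∧ p * e = e ∧ e * p = e ∧ e ≠ 0 ∧ e ≠ p ∧ adj D e = e := by
  have hmin : minpoly C b ≠ 0 := minpoly.ne_zero (Matrix.isIntegral b)
  obtain ⟨h, hh1, hh2⟩ := Polynomial.exists_eq_pow_rootMultiplicity_mul_and_not_dvd
    (minpoly C b) hmin 0
  obtain ⟨k, hk⟩ : ∃ k, k = Polynomial.rootMultiplicity 0 (minpoly C b) := ⟨_, rfl⟩
  rw [← hk, map_zero, sub_zero] at hh1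
  rw [map_zero, sub_zero] at hh2
  have hco : IsCoprime (Polynomial.X ^ k) h :=
    IsCoprime.pow_left ((Polynomial.irreducible_X.coprime_iff_not_dvd).2 hh2)
  have hz : b ^ k * Polynomial.aeval b h = 0 := by
    have h1 := minpoly.aeval C b
    rw [hh1, map_mul, map_pow, Polynomial.aeval_X] at h1
    exact h1
  have hk0 : k ≠ 0 := by
    intro hk0
    rw [hk0, pow_zero, one_mul] at hz
    -- the constant coefficient of `h` is not zero
    have h1 : Polynomial.aeval b h *ᵥ v = 0 := by rw [hz, zero_mulVec]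
    have h2 : ∀ f : Polynomial C, Polynomial.aeval b f *ᵥ v = f.coeff 0 • v := by
      intro f
      rw [Polynomial.aeval_eq_sum_range, Matrix.sum_mulVec,
        Finset.sum_eq_single_of_mem 0 (Finset.mem_range.2 (Nat.succ_pos _))]
      · rw [pow_zero, smul_mulVec, one_mulVec]
      · intro i _ hi
        obtain ⟨j, rfl⟩ := Nat.exists_eq_succ_of_ne_zero hi
        rw [smul_mulVec, pow_succ, ← mulVec_mulVec, hbv, mulVec_zero, smul_zero]
    rw [h2] at h1
    rcases smul_eq_zero.1 h1 with h3 | h3
    · exact hh2 (Polynomial.X_dvd_iff.2 h3)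
    · exact hv0 h3
  obtain ⟨j, rfl⟩ : ∃ j, k = j + 1 := ⟨k - 1, by omega⟩
  obtain ⟨u, w, huw⟩ := hco
  have huw' : w * h = 1 - u * Polynomial.X ^ (j + 1) := by
    rw [← huw]
    ring
  obtain ⟨g, hg⟩ : ∃ g : Polynomial C, g = u * Polynomial.X ^ j := ⟨_, rfl⟩
  have hgX : g * Polynomial.X = u * Polynomial.X ^ (j + 1) := by
    rw [hg]
    ring
  obtain ⟨e, he⟩ : ∃ e, e = Polynomial.aeval b (g * Polynomial.X) := ⟨_, rfl⟩
  have heR : e = Polynomial.aeval b g * b := by
    rw [he, map_mul, Polynomial.aeval_X]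
  have heL : e = b * Polynomial.aeval b g := by
    rw [he, mul_comm g, map_mul, Polynomial.aeval_X]
  have hmz : ∀ f : Polynomial C, Polynomial.aeval b (f * minpoly C b) = 0 := by
    intro f
    rw [map_mul, minpoly.aeval, mul_zero]
  refine ⟨e, ?_, ?_, ?_, ?_, ?_, ?_, ?_⟩
  · rw [he]
    exact RA_aeval_mem D hb _
  · rw [he, ← map_mul, ← sub_eq_zero, ← map_sub]
    have h1 : g * Polynomial.X * (g * Polynomial.X) - g * Polynomial.X =
        (- (u * w)) * minpoly C b := by
      rw [hh1, hgX]
      linear_combination (u * Polynomial.X ^ (j + 1)) * huw'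
    rw [h1, hmz]
  · rw [heL, ← mul_assoc, hpb]
  · rw [heR, mul_assoc, hbp]
  · intro h1
    apply hn
    refine ⟨j + 1, ?_⟩
    have h2 : Polynomial.aeval b (w * minpoly C b) = b ^ (j + 1) := by
      have h3 : w * minpoly C b = Polynomial.X ^ (j + 1) -
          Polynomial.X ^ (j + 1) * (g * Polynomial.X) := by
        rw [hh1, hgX]
        linear_combination (Polynomial.X ^ (j + 1)) * huw'
      rw [h3, map_sub, map_mul, ← he, h1, mul_zero, sub_zero, map_pow, Polynomial.aeval_X]
    rw [← h2, hmz]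
  · intro h1
    apply hv0
    rw [← hpv, ← h1, heR, ← mulVec_mulVec, hbv, mulVec_zero]
  · rw [he, RA_adj_aeval, hbs]

/-- The idempotent of a skew element whose square is a non-zero scalar up to nilpotents. -/
theorem RA_skew {p a : Matrix K K C} (hp : p ∈ RC D) (ha : a ∈ RC D) (hpp : p * p = p)
    (hps : adj D p = p) (h0 : p ≠ 0) (hpa : p * a = a) (hap : a * p = a) (has : adj D a = -a)
    {z : C} (hz : z ≠ 0) (hn : IsNilpotent (a * a - z • p)) :
    ∃ e ∈ RC D, e * e = e ∧ p * e = e ∧ e * p = e ∧ e ≠ 0 ∧ e ≠ p ∧ adj D e = p - e := by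
  obtain ⟨w, hw⟩ := IsAlgClosed.exists_pow_nat_eq z (n := 2) two_pos
  obtain ⟨M, hM⟩ := hn
  have hw0 : w ≠ 0 := by
    rintro rfl
    rw [zero_pow two_ne_zero] at hw
    exact hz hw.symm
  obtain ⟨P, hP⟩ : ∃ P : Polynomial C, P = Polynomial.X - Polynomial.C w := ⟨_, rfl⟩
  obtain ⟨P', hP'⟩ : ∃ P' : Polynomial C, P' = Polynomial.X + Polynomial.C w := ⟨_, rfl⟩
  have hco : IsCoprime (P ^ M) (P' ^ M) := by
    apply IsCoprime.pow
    refine ⟨- Polynomial.C (1 / (2 * w)), Polynomial.C (1 / (2 * w)), ?_⟩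
    rw [hP, hP']
    have h1 : Polynomial.C (1 / (2 * w)) * (2 * Polynomial.C w) = (1 : Polynomial C) := by
      rw [← Polynomial.C_ofNat 2, ← Polynomial.C_mul, ← Polynomial.C_mul, one_div,
        inv_mul_cancel₀ (mul_ne_zero two_ne_zero hw0), Polynomial.C_1]
    linear_combination h1
  obtain ⟨u, v, huv⟩ := hco
  -- substitution of `- X`
  obtain ⟨N, hN⟩ : ∃ N : Polynomial C, N = - Polynomial.X := ⟨_, rfl⟩
  have hPN : P.comp N = - P' := by
    rw [hP, hP', hN, Polynomial.sub_comp, Polynomial.X_comp, Polynomial.C_comp]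
    ring
  have hPN' : P'.comp N = - P := by
    rw [hP, hP', hN, Polynomial.add_comp, Polynomial.X_comp, Polynomial.C_comp]
    ring
  have huv' : u.comp N * (- P') ^ M + v.comp N * (- P) ^ M = 1 := by
    have h1 := congrArg (fun f : Polynomial C => f.comp N) huv
    simp only [Polynomial.add_comp, Polynomial.mul_comp, Polynomial.pow_comp, hPN, hPN',
      Polynomial.one_comp] at h1
    exact h1
  -- polynomials in `a` commute with `p`
  have hcomm : ∀ f : Polynomial C, Polynomial.aeval a f * p = p * Polynomial.aeval a f := by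
    intro f
    have hc : Commute a p := by
      show a * p = p * a
      rw [hap, hpa]
    rw [Polynomial.aeval_eq_sum_range, Finset.sum_mul, Finset.mul_sum]
    refine Finset.sum_congr rfl fun i _ => ?_
    rw [smul_mul_assoc, mul_smul_comm, (hc.pow_left i).eq]
  obtain ⟨φ, hφ⟩ : ∃ φ : Polynomial C → Matrix K K C, φ = fun f => Polynomial.aeval a f * p :=
    ⟨_, rfl⟩
  have hφmul : ∀ f g, φ f * φ g = φ (f * g) := by
    intro f g
    rw [hφ]
    show Polynomial.aeval a f * p * (Polynomial.aeval a g * p) = Polynomial.aeval a (f * g) * p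
    rw [hcomm g, mul_assoc, ← mul_assoc p p, hpp, ← hcomm g, ← mul_assoc, map_mul]
  have hφadd : ∀ f g, φ (f + g) = φ f + φ g := by
    intro f g
    rw [hφ]
    show Polynomial.aeval a (f + g) * p = _
    rw [map_add, add_mul]
  have hφone : φ 1 = p := by
    rw [hφ]
    show Polynomial.aeval a 1 * p = p
    rw [map_one, one_mul]
  have hφadj : ∀ f, adj D (φ f) = φ (f.comp N) := by
    intro f
    rw [hφ]
    show adj D (Polynomial.aeval a f * p) = Polynomial.aeval a (f.comp N) * p
    rw [adj_mul, hps, RA_adj_aeval, has, hcomm, hN, Polynomial.aeval_comp, map_neg,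
      Polynomial.aeval_X]
  have hφmem : ∀ f, φ f ∈ RC D := by
    intro f
    rw [hφ]
    exact (RC D).mul_mem (RA_aeval_mem D ha f) hp
  have hPP : ∀ f, φ (f * (P ^ M * P' ^ M)) = 0 := by
    intro f
    rw [← hφmul]
    obtain ⟨L, hL⟩ : ∃ L, L = a * a - z • p := ⟨_, rfl⟩
    rw [← hL] at hM
    have hpL : p * L = L := by
      rw [hL, mul_sub, ← mul_assoc, hpa, mul_smul_comm, hpp]
    have hL1 : (a * a - z • (1 : Matrix K K C)) * p = L := by
      rw [hL, sub_mul, mul_assoc, hap, smul_mul_assoc, one_mul]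
    have h2 : ∀ m : ℕ, (a * a - z • (1 : Matrix K K C)) ^ m * p = p * L ^ m := by
      intro m
      induction m with
      | zero => rw [pow_zero, pow_zero, one_mul, mul_one]
      | succ m ih => rw [pow_succ, mul_assoc, hL1, ← hpL, ← mul_assoc, ih, mul_assoc, ← pow_succ, hpL]
    have h3 : φ (P ^ M * P' ^ M) = 0 := by
      have h1 : P ^ M * P' ^ M = (Polynomial.X * Polynomial.X - Polynomial.C z) ^ M := by
        rw [← mul_pow]
        congr 1
        rw [hP, hP', ← hw, Polynomial.C_pow]
        ring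
      rw [hφ]
      show Polynomial.aeval a (P ^ M * P' ^ M) * p = 0
      rw [h1, map_pow, map_sub, map_mul, Polynomial.aeval_X, Polynomial.aeval_C,
        Algebra.algebraMap_eq_smul_one, h2, hM, mul_zero]
    rw [h3, mul_zero]
  obtain ⟨e, he⟩ : ∃ e, e = φ (u * P ^ M) := ⟨_, rfl⟩
  obtain ⟨e', he'⟩ : ∃ e', e' = φ (v * P' ^ M) := ⟨_, rfl⟩
  obtain ⟨f, hf⟩ : ∃ f, f = φ (u.comp N * (-P') ^ M) := ⟨_, rfl⟩
  obtain ⟨f', hf'⟩ : ∃ f', f' = φ (v.comp N * (-P) ^ M) := ⟨_, rfl⟩
  have h1 : e + e' = p := by rw [he, he', ← hφadd, huv, hφone]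
  have h2 : f + f' = p := by rw [hf, hf', ← hφadd, huv', hφone]
  have h3 : e * e' = 0 := by
    rw [he, he', hφmul, ← hPP (u * v)]
    congr 1
    ring
  have h4 : e * f = 0 := by
    rw [he, hf, hφmul, ← hPP (u * u.comp N * (-1) ^ M), neg_pow P' M]
    congr 1
    ring
  have h5 : e' * f' = 0 := by
    rw [he', hf', hφmul, ← hPP (v * v.comp N * (-1) ^ M), neg_pow P M]
    congr 1
    ring
  have hep : e * p = e := by
    rw [← hφone, he, hφmul, mul_one]
  have hpe : p * e = e := by
    rw [← hφone, he, hφmul, one_mul]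
  have hpf : p * f = f := by
    rw [← hφone, hf, hφmul, one_mul]
  have hadj : adj D e = f := by
    rw [he, hφadj, hf, Polynomial.mul_comp, Polynomial.pow_comp, hPN]
  have he'' : e' = p - e := by rw [← h1, add_sub_cancel_left]
  have hf'' : f' = p - f := by rw [← h2, add_sub_cancel_left]
  have hfe : f = p - e := by
    have h6 : (p - e) * (p - f) = 0 := by rw [← he'', ← hf'', h5]
    rw [sub_mul, mul_sub, mul_sub, hpp, hpf, hep, h4, sub_zero] at h6
    have h7 : p - e = f := by
      rw [← sub_eq_zero, ← h6]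
      abel
    exact h7.symm
  refine ⟨e, ?_, ?_, hpe, hep, ?_, ?_, ?_⟩
  · rw [he]
    exact hφmem _
  · have h6 : e * (p - e) = 0 := by rw [← he'', h3]
    rw [mul_sub, hep, sub_eq_zero] at h6
    exact h6.symm
  · intro h6
    apply h0
    rw [h6, adj_zero] at hadj
    rw [h6, sub_zero] at hfe
    rw [← hfe, ← hadj]
  · intro h6
    apply h0
    rw [h6, hps] at hadj
    rw [h6, sub_self] at hfe
    rw [hadj, hfe]
  · rw [hadj, hfe]

/-- The trace of an idempotent which is not zero. -/
theorem RA_trace_ne {p : Matrix K K C} (hpp : p * p = p) (h0 : p ≠ 0) : p.trace ≠ 0 := by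
  have h2 : IsIdempotentElem (Matrix.toLin' p) := by
    show Matrix.toLin' p * Matrix.toLin' p = _
    rw [Module.End.mul_eq_comp, ← Matrix.toLin'_mul, hpp]
  have h3 := LinearMap.IsIdempotentElem.isProj_range _ h2
  have h4 := h3.trace
  rw [Matrix.trace_toLin'_eq] at h4
  intro h1
  rw [h1] at h4
  have h5 : finrank C (LinearMap.range (Matrix.toLin' p)) = 0 := by exact_mod_cast h4.symm
  have h6 : LinearMap.range (Matrix.toLin' p) = ⊥ := Submodule.finrank_eq_zero.1 h5
  have h7 : Matrix.toLin' p = 0 := LinearMap.range_eq_bot.1 h6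
  apply h0
  apply Matrix.toLin'.injective
  rw [h7, map_zero]

theorem RA_trace_nil {x : Matrix K K C} (hx : IsNilpotent x) : x.trace = 0 := by
  have h1 := Matrix.isNilpotent_trace_of_isNilpotent hx
  exact h1.eq_zero

/-- A splitting of an idempotent of the commutant which is not primitive. -/
theorem exists_split {p : Matrix K K C} (hp : p ∈ RC D) (hpp : p * p = p) (hs : adj D p = p)
    (h : ∃ Y ∈ RC D, ∀ z : C, p * Y * p ≠ z • p) :
    ∃ e ∈ RC D, e * e = e ∧ p * e = e ∧ e * p = e ∧ e ≠ 0 ∧ e ≠ p ∧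
      (adj D e = e ∨ adj D e = p - e) := by
  classical
  obtain ⟨Y, hY, hYz⟩ := h
  have h0 : p ≠ 0 := by
    intro h1
    apply hYz 0
    rw [h1, mul_zero, smul_zero]
  by_contra hcon
  -- symmetric elements
  have hsym : ∀ s ∈ RC D, p * s = s → s * p = s → adj D s = s → ∃ z : C, IsNilpotent (s - z • p) := by
    intro s hsm hps hsp hss
    obtain ⟨z, v, hv0, hv1, hv2⟩ := RA_eig hpp h0 hps
    refine ⟨z, ?_⟩
    by_contra hn
    apply hcon
    obtain ⟨e, he, h1, h2, h3, h4, h5, h6⟩ := RA_sym D (p := p) (b := s - z • p) (v := v)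
      ((RC D).sub_mem hsm ((RC D).smul_mem hp z))
      (by rw [mul_sub, hps, mul_smul_comm, hpp]) (by rw [sub_mul, hsp, smul_mul_assoc, hpp])
      (by rw [sub_eq_add_neg, ← neg_smul, adj_add, adj_smul, hss, hs]) hv0 hv1
      (by rw [sub_mulVec, hv2, smul_mulVec, hv1, sub_self]) hn
    exact ⟨e, he, h1, h2, h3, h4, h5, Or.inl h6⟩
  -- skew elements
  have hskew : ∀ a ∈ RC D, p * a = a → a * p = a → adj D a = - a → IsNilpotent a := by
    intro a ham hpa hap has
    obtain ⟨z, hz⟩ := hsym (a * a) ((RC D).mul_mem ham ham) (by rw [← mul_assoc, hpa])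
      (by rw [mul_assoc, hap]) (by rw [adj_mul, has, neg_mul_neg])
    by_cases hz0 : z = 0
    · rw [hz0, zero_smul, sub_zero, ← pow_two] at hz
      obtain ⟨n, hn⟩ := hz
      exact ⟨2 * n, by rw [pow_mul, hn]⟩
    · exfalso
      apply hcon
      obtain ⟨e, he, h1, h2, h3, h4, h5, h6⟩ := RA_skew D hp ham hpp hs h0 hpa hap has hz0 hz
      exact ⟨e, he, h1, h2, h3, h4, h5, Or.inr h6⟩
  have htr : ∀ s t : Matrix K K C, IsNilpotent s → IsNilpotent t → IsNilpotent (s + t) →
      (s * t).trace = 0 := by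
    intro s t h1 h2 h3
    have e1 : ∀ x : Matrix K K C, IsNilpotent x → (x * x).trace = 0 := by
      intro x hx
      apply RA_trace_nil
      obtain ⟨n, hn⟩ := hx
      exact ⟨n, by rw [← pow_two, ← pow_mul, mul_comm, pow_mul, hn, zero_pow two_ne_zero]⟩
    have e2 := e1 _ h3
    rw [add_mul, mul_add, mul_add, trace_add, trace_add, trace_add, e1 s h1, e1 t h2,
      Matrix.trace_mul_comm t s, zero_add, add_zero] at e2
    have e3 : 2 * (s * t).trace = 0 := by
      rw [two_mul]
      exact e2
    rcases mul_eq_zero.1 e3 with e4 | e4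
    · exact absurd e4 two_ne_zero
    · exact e4
  -- decomposition of the elements of the corner
  have hdec : ∀ Z ∈ RC D, ∃ t ∈ RC D, ∃ x ∈ RC D, p * Z * p = t + x ∧ p * t = t ∧ t * p = t ∧
      adj D t = t ∧ p * x = x ∧ x * p = x ∧ adj D x = - x := by
    intro Z hZ
    obtain ⟨y, hy⟩ : ∃ y, y = p * Z * p := ⟨_, rfl⟩
    have hym : y ∈ RC D := by
      rw [hy]
      exact (RC D).mul_mem ((RC D).mul_mem hp hZ) hp
    have hpy : p * y = y := by rw [hy, ← mul_assoc, ← mul_assoc, hpp]
    have hyp : y * p = y := by rw [hy, mul_assoc, hpp]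
    have hpy' : p * adj D y = adj D y := by
      have e1 := congrArg (adj D) hyp
      rwa [adj_mul, hs] at e1
    have hyp' : adj D y * p = adj D y := by
      have e1 := congrArg (adj D) hpy
      rwa [adj_mul, hs] at e1
    have h2 : (2 : C)⁻¹ + (2 : C)⁻¹ = 1 := by
      rw [← two_mul, mul_inv_cancel₀ two_ne_zero]
    refine ⟨(2 : C)⁻¹ • y + (2 : C)⁻¹ • adj D y, (RC D).add_mem ((RC D).smul_mem hym _)
      ((RC D).smul_mem (adj_mem hym) _), (2 : C)⁻¹ • y + (-(2 : C)⁻¹) • adj D y,
      (RC D).add_mem ((RC D).smul_mem hym _) ((RC D).smul_mem (adj_mem hym) _), ?_, ?_, ?_, ?_,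
      ?_, ?_, ?_⟩
    · rw [← hy, add_add_add_comm, ← add_smul, ← add_smul, add_neg_cancel, zero_smul, add_zero, h2,
        one_smul]
    · rw [mul_add, mul_smul_comm, mul_smul_comm, hpy, hpy']
    · rw [add_mul, smul_mul_assoc, smul_mul_assoc, hyp, hyp']
    · rw [adj_add, adj_smul, adj_smul, adj_adj, add_comm]
    · rw [mul_add, mul_smul_comm, mul_smul_comm, hpy, hpy']
    · rw [add_mul, smul_mul_assoc, smul_mul_assoc, hyp, hyp']
    · rw [adj_add, adj_smul, adj_smul, adj_adj, neg_smul, neg_smul]
      abel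
  have hcross : ∀ s x : Matrix K K C, adj D s = s → adj D x = - x → (s * x).trace = 0 := by
    intro s x h1 h2
    have e1 := trace_adj (D := D) (s * x)
    rw [adj_mul, h1, h2, neg_mul, trace_neg, Matrix.trace_mul_comm] at e1
    have e3 : 2 * (s * x).trace = 0 := by
      rw [two_mul]
      nth_rewrite 1 [← e1]
      rw [neg_add_cancel]
    rcases mul_eq_zero.1 e3 with e4 | e4
    · exact absurd e4 two_ne_zero
    · exact e4
  have hcorner : ∀ s Z : Matrix K K C, p * s = s → s * p = s →
      (s * Z).trace = (s * (p * Z * p)).trace := by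
    intro s Z h1 h2
    calc (s * Z).trace = (p * (s * Z)).trace := by rw [← mul_assoc, h1]
      _ = (s * Z * p).trace := by rw [Matrix.trace_mul_comm]
      _ = (s * (p * Z * p)).trace := by
        conv_lhs => rw [← h2]
        simp only [mul_assoc]
  have hnil0 : ∀ s ∈ RC D, p * s = s → s * p = s → adj D s = s → IsNilpotent s → s = 0 := by
    intro s hsm hps hsp hss hsn
    refine RC_trace D hsm fun Z hZ => ?_
    obtain ⟨t, htm, x, hxm, e1, e2, e3, e4, e5, e6, e7⟩ := hdec Z hZ
    rw [hcorner s Z hps hsp, e1, mul_add, trace_add, hcross s x hss e7, add_zero]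
    obtain ⟨z, hz⟩ := hsym t htm e2 e3 e4
    have e8 : s * t = z • s + s * (t - z • p) := by
      rw [mul_sub, mul_smul_comm, hsp, add_sub_cancel]
    have e9 : (s * (t - z • p)).trace = 0 := by
      refine htr s (t - z • p) hsn hz ?_
      have g1 : p * (s + (t - z • p)) = s + (t - z • p) := by
        rw [mul_add, mul_sub, hps, e2, mul_smul_comm, hpp]
      have g2 : (s + (t - z • p)) * p = s + (t - z • p) := by
        rw [add_mul, sub_mul, hsp, e3, smul_mul_assoc, hpp]
      have g3 : adj D (s + (t - z • p)) = s + (t - z • p) := by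
        rw [adj_add, hss, sub_eq_add_neg, ← neg_smul, adj_add, adj_smul, e4, hs]
      obtain ⟨z', hz'⟩ := hsym _ ((RC D).add_mem hsm ((RC D).sub_mem htm ((RC D).smul_mem hp z)))
        g1 g2 g3
      have g4 := RA_trace_nil hz'
      rw [trace_sub, trace_add, RA_trace_nil hsn, RA_trace_nil hz, trace_smul, add_zero, zero_sub,
        neg_eq_zero, smul_eq_mul] at g4
      rcases mul_eq_zero.1 g4 with g5 | g5
      · rw [g5, zero_smul, sub_zero] at hz'
        exact hz'
      · exact absurd g5 (RA_trace_ne hpp h0)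
    rw [e8, trace_add, trace_smul, RA_trace_nil hsn, smul_zero, zero_add, e9]
  have hskew0 : ∀ x ∈ RC D, p * x = x → x * p = x → adj D x = - x → x = 0 := by
    intro x hxm hpx hxp hxs
    refine RC_trace D hxm fun Z hZ => ?_
    obtain ⟨t, htm, y, hym, e1, e2, e3, e4, e5, e6, e7⟩ := hdec Z hZ
    rw [hcorner x Z hpx hxp, e1, mul_add, trace_add, Matrix.trace_mul_comm x t,
      hcross t x e4 hxs, zero_add]
    refine htr x y (hskew x hxm hpx hxp hxs) (hskew y hym e5 e6 e7) (hskew _
      ((RC D).add_mem hxm hym) (by rw [mul_add, hpx, e5]) (by rw [add_mul, hxp, e6])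
      (by rw [adj_add, hxs, e7, neg_add]))
  obtain ⟨t, htm, x, hxm, e1, e2, e3, e4, e5, e6, e7⟩ := hdec Y hY
  obtain ⟨z, hz⟩ := hsym t htm e2 e3 e4
  have e8 := hnil0 (t - z • p) ((RC D).sub_mem htm ((RC D).smul_mem hp z))
    (by rw [mul_sub, e2, mul_smul_comm, hpp]) (by rw [sub_mul, e3, smul_mul_assoc, hpp])
    (by rw [sub_eq_add_neg, ← neg_smul, adj_add, adj_smul, e4, hs]) hz
  apply hYz z
  rw [e1, hskew0 x hxm e5 e6 e7, add_zero]
  exact sub_eq_zero.1 e8

/-- A complete system of orthogonal idempotents of the commutant. -/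
def RA_plain {X : Type*} [Fintype X] [DecidableEq X] (p : X → Matrix K K C) : Prop :=
  (∀ χ, p χ ∈ RC D) ∧ (∀ χ, p χ ≠ 0) ∧ (∀ χ χ', p χ * p χ' = if χ = χ' then p χ else 0) ∧
    ∑ χ, p χ = 1

variable {D}

/-- The system in which the idempotent `p χ₀` is replaced by `e` and `p χ₀ - e`. -/
def RA_ref {X : Type*} [DecidableEq X] (p : X → Matrix K K C) (χ₀ : X) (e : Matrix K K C) :
    Option X → Matrix K K C
  | none => p χ₀ - e
  | some χ => if χ = χ₀ then e else p χ

theorem RA_refine {X : Type*} [Fintype X] [DecidableEq X] {p : X → Matrix K K C}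
    (h : RA_plain D p) (χ₀ : X) {e : Matrix K K C} (he : e ∈ RC D) (hee : e * e = e)
    (hpe : p χ₀ * e = e) (hep : e * p χ₀ = e) (h0 : e ≠ 0) (h1 : e ≠ p χ₀) :
    RA_plain D (RA_ref p χ₀ e) := by
  obtain ⟨hm, hn, hmul, hsum⟩ := h
  have hpp : p χ₀ * p χ₀ = p χ₀ := by rw [hmul, if_pos rfl]
  have hL : ∀ χ, χ ≠ χ₀ → e * p χ = 0 := by
    intro χ hχ
    rw [← hep, mul_assoc, hmul, if_neg (Ne.symm hχ), mul_zero]
  have hR : ∀ χ, χ ≠ χ₀ → p χ * e = 0 := by
    intro χ hχ
    rw [← hpe, ← mul_assoc, hmul, if_neg hχ, zero_mul]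
  refine ⟨?_, ?_, ?_, ?_⟩
  · rintro (_ | χ)
    · exact (RC D).sub_mem (hm χ₀) he
    · show (if χ = χ₀ then e else p χ) ∈ RC D
      split_ifs
      · exact he
      · exact hm χ
  · rintro (_ | χ)
    · exact sub_ne_zero.2 (Ne.symm h1)
    · show (if χ = χ₀ then e else p χ) ≠ 0
      split_ifs
      · exact h0
      · exact hn χ
  · rintro (_ | χ) (_ | χ')
    · show (p χ₀ - e) * (p χ₀ - e) = _
      rw [if_pos rfl, sub_mul, mul_sub, mul_sub, hpp, hpe, hep, hee, sub_self, sub_zero]
      rfl
    · show (p χ₀ - e) * (if χ' = χ₀ then e else p χ') = _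
      rw [if_neg (show ¬ (none : Option X) = some χ' by simp)]
      split_ifs with h2
      · rw [sub_mul, hpe, hee, sub_self]
      · rw [sub_mul, hL χ' h2, hmul, if_neg (Ne.symm h2), sub_self]
    · show (if χ = χ₀ then e else p χ) * (p χ₀ - e) = _
      rw [if_neg (show ¬ some χ = (none : Option X) by simp)]
      split_ifs with h2
      · rw [mul_sub, hep, hee, sub_self]
      · rw [mul_sub, hR χ h2, hmul, if_neg h2, sub_self]
    · show (if χ = χ₀ then e else p χ) * (if χ' = χ₀ then e else p χ') =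
        if some χ = some χ' then (if χ = χ₀ then e else p χ) else 0
      by_cases h2 : χ = χ₀
      · by_cases h3 : χ' = χ₀
        · rw [if_pos h2, if_pos h3, hee, if_pos (by rw [h2, h3])]
        · rw [if_pos h2, if_neg h3, hL χ' h3, if_neg]
          intro h4
          exact h3 ((Option.some.inj h4).symm.trans h2)
      · by_cases h3 : χ' = χ₀
        · rw [if_neg h2, if_pos h3, hR χ h2, if_neg]
          intro h4
          exact h2 ((Option.some.inj h4).trans h3)
        · rw [if_neg h2, if_neg h3, hmul]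
          exact if_congr (by rw [Option.some.injEq]) rfl rfl
  · rw [Fintype.sum_option]
    show p χ₀ - e + ∑ χ, (if χ = χ₀ then e else p χ) = 1
    rw [← hsum, ← Finset.add_sum_erase Finset.univ _ (Finset.mem_univ χ₀),
      ← Finset.add_sum_erase Finset.univ p (Finset.mem_univ χ₀), if_pos rfl]
    have h2 : ∑ χ ∈ Finset.univ.erase χ₀, (if χ = χ₀ then e else p χ) =
        ∑ χ ∈ Finset.univ.erase χ₀, p χ :=
      Finset.sum_congr rfl fun χ hχ => if_neg (Finset.ne_of_mem_erase hχ)
    rw [h2]
    abel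

theorem RA_card {X : Type*} [Fintype X] [DecidableEq X] {p : X → Matrix K K C}
    (h : RA_plain D p) : Fintype.card X ≤ finrank C (Matrix K K C) := by
  obtain ⟨_, hn, hmul, _⟩ := h
  have hli : LinearIndependent C p := by
    rw [Fintype.linearIndependent_iff]
    intro g hg i
    have h1 : p i * ∑ j, g j • p j = g i • p i := by
      rw [Finset.mul_sum, Finset.sum_eq_single i]
      · rw [mul_smul_comm, hmul, if_pos rfl]
      · intro j _ hj
        rw [mul_smul_comm, hmul, if_neg (Ne.symm hj), smul_zero]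
      · intro h
        exact absurd (Finset.mem_univ i) h
    rw [hg, mul_zero] at h1
    rcases smul_eq_zero.1 h1.symm with h2 | h2
    · exact h2
    · exact absurd h2 (hn i)
  exact hli.fintype_card_le_finrank

theorem RA_transport {X Y : Type*} [Fintype X] [DecidableEq X] [Fintype Y] [DecidableEq Y]
    (e : X ≃ Y) {p : X → Matrix K K C} (h : RA_plain D p) : RA_plain D fun y => p (e.symm y) := by
  obtain ⟨hm, hn, hmul, hsum⟩ := h
  refine ⟨fun y => hm _, fun y => hn _, fun y y' => ?_, ?_⟩
  · rw [hmul]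
    exact if_congr e.symm.injective.eq_iff rfl rfl
  · rw [← hsum]
    exact Equiv.sum_comp e.symm p

variable (D)

/-- There is a system of size `m` permuted by the adjoint. -/
def RA_has (m : ℕ) : Prop := ∃ p : Fin m → Matrix K K C, RA_plain D p ∧
  ∀ χ, ∃ χ', adj D (p χ) = p χ'

variable {D}

theorem RA_has_of {X : Type*} [Fintype X] [DecidableEq X] {p : X → Matrix K K C}
    (h : RA_plain D p) (h' : ∀ χ, ∃ χ', adj D (p χ) = p χ') : RA_has D (Fintype.card X) := by
  refine ⟨fun i => p ((Fintype.equivFin X).symm i), RA_transport (Fintype.equivFin X) h,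
    fun i => ?_⟩
  obtain ⟨χ', hχ'⟩ := h' ((Fintype.equivFin X).symm i)
  refine ⟨Fintype.equivFin X χ', ?_⟩
  show adj D (p ((Fintype.equivFin X).symm i)) = p ((Fintype.equivFin X).symm (Fintype.equivFin X χ'))
  rw [hχ', Equiv.symm_apply_apply]

variable (D)

theorem RA_start : ∃ m, RA_has D m := by
  rcases isEmpty_or_nonempty K with hK | hK
  · refine ⟨0, fun i => i.elim0, ⟨fun i => i.elim0, fun i => i.elim0, fun i => i.elim0, ?_⟩,
      fun i => i.elim0⟩
    exact Subsingleton.elim _ _
  · refine ⟨1, fun _ => 1, ⟨fun _ => (RC D).one_mem, fun _ => one_ne_zero, fun χ χ' => ?_, ?_⟩,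
      fun χ => ⟨χ, ?_⟩⟩
    · rw [mul_one, if_pos (Subsingleton.elim _ _)]
    · rw [Finset.univ_unique, Finset.sum_singleton]
    · exact adj_one

theorem RA_adj_sub (Y Z : Matrix K K C) : adj D (Y - Z) = adj D Y - adj D Z := by
  rw [sub_eq_add_neg, ← neg_one_smul C Z, adj_add, adj_smul, neg_one_smul, ← sub_eq_add_neg]

/-- There is a complete system of orthogonal primitive idempotents of the commutant, permuted by the
adjoint: a system of maximal size of orthogonal idempotents `≠ 0` with sum `1` permuted by the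
adjoint. -/
theorem exists_idem : ∃ m : ℕ, Nonempty (Idem D (Fin m)) := by
  classical
  by_contra hcon
  have key : ∀ n : ℕ, ∃ m, n ≤ m ∧ RA_has D m := by
    intro n
    induction n with
    | zero =>
      obtain ⟨m, hm⟩ := RA_start D
      exact ⟨m, Nat.zero_le _, hm⟩
    | succ n ih =>
      obtain ⟨m, hnm, p, hp, hadj⟩ := ih
      have hp' := hp
      obtain ⟨hm, hn, hmul, hsum⟩ := hp'
      choose c hc using hadj
      by_cases hprim : ∀ χ, ∀ Y ∈ RC D, ∃ z : C, p χ * Y * p χ = z • p χ
      · exact absurd ⟨m, ⟨⟨p, c, hm, hn, hmul, hsum, hc, hprim⟩⟩⟩ hcon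
      · push Not at hprim
        obtain ⟨χ₀, Y, hY, hYz⟩ := hprim
        have hpp : p χ₀ * p χ₀ = p χ₀ := by rw [hmul, if_pos rfl]
        have hinj : ∀ a b, p a = p b → a = b := by
          intro a b hab
          by_contra hne
          have h1 := hmul a b
          rw [if_neg hne, ← hab, hmul, if_pos rfl] at h1
          exact hn a h1
        have hcc : ∀ χ, c (c χ) = χ := by
          intro χ
          apply hinj
          rw [← hc, ← hc, adj_adj]
        by_cases hs : c χ₀ = χ₀
        · obtain ⟨e, he, hee, hpe, hep, h0, h1, h2⟩ := exists_split D (hm χ₀) hpp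
            (by rw [hc, hs]) ⟨Y, hY, hYz⟩
          have hR := RA_refine hp χ₀ he hee hpe hep h0 h1
          have hh := RA_has_of hR (by
            rintro (_ | χ)
            · rcases h2 with h2 | h2
              · refine ⟨none, ?_⟩
                show adj D (p χ₀ - e) = p χ₀ - e
                rw [RA_adj_sub, hc, hs, h2]
              · refine ⟨some χ₀, ?_⟩
                show adj D (p χ₀ - e) = if χ₀ = χ₀ then e else p χ₀
                rw [RA_adj_sub, hc, hs, h2, if_pos rfl, sub_sub_cancel]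
            · by_cases h3 : χ = χ₀
              · rcases h2 with h2 | h2
                · refine ⟨some χ₀, ?_⟩
                  show adj D (if χ = χ₀ then e else p χ) = if χ₀ = χ₀ then e else p χ₀
                  rw [if_pos h3, if_pos rfl, h2]
                · refine ⟨none, ?_⟩
                  show adj D (if χ = χ₀ then e else p χ) = p χ₀ - e
                  rw [if_pos h3, h2]
              · refine ⟨some (c χ), ?_⟩
                show adj D (if χ = χ₀ then e else p χ) = if c χ = χ₀ then e else p (c χ)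
                rw [if_neg h3, if_neg, hc]
                intro h4
                apply h3
                rw [← hcc χ, h4, hs])
          rw [Fintype.card_option, Fintype.card_fin] at hh
          exact ⟨m + 1, by omega, hh⟩
        · obtain ⟨e, he, hee, hpe, hep, h0, h1⟩ := exists_split' D (hm χ₀) hpp ⟨Y, hY, hYz⟩
          have hR := RA_refine hp χ₀ he hee hpe hep h0 h1
          have hq : RA_ref p χ₀ e (some (c χ₀)) = p (c χ₀) := by
            show (if c χ₀ = χ₀ then e else p (c χ₀)) = p (c χ₀)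
            rw [if_neg hs]
          have hR2 := RA_refine hR (some (c χ₀)) (e := adj D e) (adj_mem he)
            (by rw [← adj_mul, hee]) (by rw [hq, ← hc, ← adj_mul, hep])
            (by rw [hq, ← hc, ← adj_mul, hpe])
            (by
              intro h2
              apply h0
              rw [← adj_adj (D := D) e, h2, adj_zero])
            (by
              intro h2
              apply h1
              rw [hq, ← hc] at h2
              rw [← adj_adj (D := D) e, h2, adj_adj])
          have hh := RA_has_of hR2 (by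
            rintro (_ | _ | χ)
            · refine ⟨some none, ?_⟩
              show adj D (RA_ref p χ₀ e (some (c χ₀)) - adj D e) =
                if (none : Option (Fin m)) = some (c χ₀) then adj D e else p χ₀ - e
              rw [hq, RA_adj_sub, adj_adj, hc, hcc,
                if_neg (show ¬ (none : Option (Fin m)) = some (c χ₀) by simp)]
            · refine ⟨none, ?_⟩
              show adj D (if (none : Option (Fin m)) = some (c χ₀) then adj D e else p χ₀ - e) =
                RA_ref p χ₀ e (some (c χ₀)) - adj D e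
              rw [hq, if_neg (show ¬ (none : Option (Fin m)) = some (c χ₀) by simp), RA_adj_sub, hc]
            · refine ⟨some (some (c χ)), ?_⟩
              show adj D (if some χ = some (c χ₀) then adj D e else
                  (if χ = χ₀ then e else p χ)) = if some (c χ) = some (c χ₀) then adj D e else
                  (if c χ = χ₀ then e else p (c χ))
              by_cases h3 : χ = χ₀
              · have h4 : ¬ some χ = some (c χ₀) := by
                  intro h5
                  exact hs ((Option.some.inj h5).symm.trans h3)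
                rw [if_neg h4, if_pos h3, if_pos (by rw [h3])]
              · have h5 : ¬ some (c χ) = some (c χ₀) := by
                  intro h6
                  apply h3
                  rw [← hcc χ, Option.some.inj h6, hcc]
                rw [if_neg h5]
                by_cases h4 : χ = c χ₀
                · have h6 : c χ = χ₀ := by rw [h4, hcc]
                  rw [if_pos (by rw [h4]), if_pos h6, adj_adj]
                · have h6 : ¬ c χ = χ₀ := by
                    intro h7
                    apply h4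
                    rw [← hcc χ, h7]
                  rw [if_neg (fun h7 => h4 (Option.some.inj h7)), if_neg h6, if_neg h3, hc])
          rw [Fintype.card_option, Fintype.card_option, Fintype.card_fin] at hh
          exact ⟨m + 1 + 1, by omega, hh⟩
  obtain ⟨m, hm, p, hp, _⟩ := key (finrank C (Matrix K K C) + 1)
  have h1 := RA_card hp
  rw [Fintype.card_fin] at h1
  omega

end Pool.Agent.Lib.MP_021685_agU
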