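import Pool.Agent.Lib.MP_021685_agU.RA

/-!
# Classes of primitive idempotents, the isomorphisms between them
-/

set_option autoImplicit false
set_option linter.unusedSectionVars false

namespace Pool.Agent.Lib.MP_021685_agU

open Matrix Function Module

variable {C : Type*} [Field C] [CharZero C] [IsAlgClosed C] {K : Type*} [Fintype K] [DecidableEq K] {D : TData C K} {X : Type*} [Fintype X]
  [DecidableEq X]

namespace Idem

variable (Q : Idem D X)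

theorem RB_p_inj {a b : X} (h : Q.p a = Q.p b) : a = b := by
  by_contra hne
  have h1 := Q.mul a b
  rw [if_neg hne, ← h] at h1
  have h2 := Q.mul a a
  rw [if_pos rfl, h1] at h2
  exact Q.ne a h2.symm

/-- PROOF. `adj_adj` and `adj`: `p (c (c χ)) = p χ`, and `p` is injective (`mul`, `ne`). -/
theorem c_c (χ : X) : Q.c (Q.c χ) = χ := by
  apply Q.RB_p_inj
  rw [← Q.adj, ← Q.adj, adj_adj]

theorem idem (χ : X) : Q.p χ * Q.p χ = Q.p χ := by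
  rw [Q.mul, if_pos rfl]

theorem RB_left {χ χ' : X} {Y : Matrix K K C} (h : Q.p χ * Y * Q.p χ' = Y) : Q.p χ * Y = Y := by
  rw [← h, ← Matrix.mul_assoc, ← Matrix.mul_assoc, Q.idem]

theorem RB_right {χ χ' : X} {Y : Matrix K K C} (h : Q.p χ * Y * Q.p χ' = Y) : Y * Q.p χ' = Y := by
  rw [← h, Matrix.mul_assoc, Matrix.mul_assoc, Matrix.mul_assoc, Q.idem]

/-- PROOF. `Y * Z₀ * Y = Y` with `Z₀ ∈ RC` (`exists_regular`), `S = p χ' * Z₀ * p χ`. `Y * S = z • p χ`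
(`prim`) and `Y * S * Y = Y`, so `z = 1`; in the same way `S * Y = p χ'`. -/
theorem exists_inv {χ χ' : X} {Y : Matrix K K C} (hY : Y ∈ RC D) (h0 : Y ≠ 0)
    (h : Q.p χ * Y * Q.p χ' = Y) : ∃ Z ∈ RC D, Q.p χ' * Z * Q.p χ = Z ∧ Y * Z = Q.p χ ∧
      Z * Y = Q.p χ' := by
  obtain ⟨Z₀, hZ₀, hYZ₀⟩ := exists_regular D hY
  have hl := Q.RB_left h
  have hr := Q.RB_right h
  have hone : ∀ z : C, Y = z • Y → z = 1 := by
    intro z hz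
    have h2 : (1 - z) • Y = 0 := by
      rw [sub_smul, one_smul, ← hz, sub_self]
    rcases smul_eq_zero.1 h2 with h3 | h3
    · exact (sub_eq_zero.1 h3).symm
    · exact absurd h3 h0
  obtain ⟨z, hz⟩ := Q.prim χ (Y * Z₀) ((RC D).mul_mem hY hZ₀)
  obtain ⟨w, hw⟩ := Q.prim χ' (Z₀ * Y) ((RC D).mul_mem hZ₀ hY)
  have h1 : Y * (Q.p χ' * Z₀ * Q.p χ) = z • Q.p χ := by
    calc Y * (Q.p χ' * Z₀ * Q.p χ) = (Y * Q.p χ') * Z₀ * Q.p χ := by simp only [Matrix.mul_assoc]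
      _ = Q.p χ * (Y * Z₀) * Q.p χ := by
          rw [hr, ← Matrix.mul_assoc (Q.p χ), hl]
      _ = z • Q.p χ := hz
  have h2 : (Q.p χ' * Z₀ * Q.p χ) * Y = w • Q.p χ' := by
    calc (Q.p χ' * Z₀ * Q.p χ) * Y = Q.p χ' * Z₀ * (Q.p χ * Y) := by simp only [Matrix.mul_assoc]
      _ = Q.p χ' * (Z₀ * Y) * Q.p χ' := by
          rw [hl, Matrix.mul_assoc (Q.p χ') (Z₀ * Y), Matrix.mul_assoc Z₀ Y, hr, Matrix.mul_assoc]
      _ = w • Q.p χ' := hw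
  have hYSY : Y * (Q.p χ' * Z₀ * Q.p χ) * Y = Y := by
    calc Y * (Q.p χ' * Z₀ * Q.p χ) * Y = (Y * Q.p χ') * Z₀ * (Q.p χ * Y) := by
          simp only [Matrix.mul_assoc]
      _ = Y := by rw [hr, hl, hYZ₀]
  have hz1 : z = 1 := by
    apply hone
    calc Y = Y * (Q.p χ' * Z₀ * Q.p χ) * Y := hYSY.symm
      _ = z • Y := by rw [h1, Matrix.smul_mul, hl]
  have hw1 : w = 1 := by
    apply hone
    calc Y = Y * ((Q.p χ' * Z₀ * Q.p χ) * Y) := by rw [← Matrix.mul_assoc]; exact hYSY.symm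
      _ = w • Y := by rw [h2, Matrix.mul_smul, hr]
  refine ⟨Q.p χ' * Z₀ * Q.p χ, (RC D).mul_mem ((RC D).mul_mem (Q.mem _) hZ₀) (Q.mem _), ?_, ?_, ?_⟩
  · calc Q.p χ' * (Q.p χ' * Z₀ * Q.p χ) * Q.p χ = (Q.p χ' * Q.p χ') * Z₀ * (Q.p χ * Q.p χ) := by
          simp only [Matrix.mul_assoc]
      _ = Q.p χ' * Z₀ * Q.p χ := by rw [Q.idem, Q.idem]
  · rw [h1, hz1, one_smul]
  · rw [h2, hw1, one_smul]

end Idem

/-- Representatives of the classes of primitive idempotents, isomorphisms `a χ : p χ → p (ρ χ)` and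
their inverses `a' χ`. -/
structure Rel (Q : Idem D X) where
  ρ : X → X
  a : X → Matrix K K C
  a' : X → Matrix K K C
  ρρ : ∀ χ, ρ (ρ χ) = ρ χ
  ρc : ∀ χ χ', ρ χ = ρ χ' → ρ (Q.c χ) = ρ (Q.c χ')
  a_mem : ∀ χ, a χ ∈ RC D
  a'_mem : ∀ χ, a' χ ∈ RC D
  pa : ∀ χ, Q.p (ρ χ) * a χ * Q.p χ = a χ
  pa' : ∀ χ, Q.p χ * a' χ * Q.p (ρ χ) = a' χ
  aa' : ∀ χ, a χ * a' χ = Q.p (ρ χ)
  a'a : ∀ χ, a' χ * a χ = Q.p χ
  orth : ∀ χ χ', ρ χ ≠ ρ χ' → ∀ Y ∈ RC D, Q.p χ * Y * Q.p χ' = 0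

/-- The relation between the idempotents. -/
def RB_r (Q : Idem D X) (χ χ' : X) : Prop :=
  ∃ Y ∈ RC D, Y ≠ 0 ∧ Q.p χ * Y * Q.p χ' = Y

theorem RB_refl (Q : Idem D X) (χ : X) : RB_r Q χ χ :=
  ⟨Q.p χ, Q.mem χ, Q.ne χ, by rw [Q.idem, Q.idem]⟩

theorem RB_symm (Q : Idem D X) {χ χ' : X} (h : RB_r Q χ χ') : RB_r Q χ' χ := by
  obtain ⟨Y, hY, h0, h1⟩ := h
  obtain ⟨Z, hZ, h2, h3, _⟩ := Q.exists_inv hY h0 h1
  refine ⟨Z, hZ, ?_, h2⟩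
  intro hZ0
  rw [hZ0, Matrix.mul_zero] at h3
  exact Q.ne χ h3.symm

theorem RB_trans (Q : Idem D X) {χ χ' χ'' : X} (h : RB_r Q χ χ') (h' : RB_r Q χ' χ'') :
    RB_r Q χ χ'' := by
  obtain ⟨Y, hY, h0, h1⟩ := h
  obtain ⟨Y', hY', h0', h1'⟩ := h'
  obtain ⟨Z, _, _, _, h2⟩ := Q.exists_inv hY h0 h1
  obtain ⟨Z', _, _, h2', _⟩ := Q.exists_inv hY' h0' h1'
  refine ⟨Y * Y', (RC D).mul_mem hY hY', ?_, ?_⟩
  · intro h3
    have h4 : Z * (Y * Y') * Z' = Q.p χ' := by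
      rw [← Matrix.mul_assoc, h2, Matrix.mul_assoc, h2', Q.idem]
    rw [h3, Matrix.mul_zero, Matrix.zero_mul] at h4
    exact Q.ne χ' h4.symm
  · rw [← Matrix.mul_assoc, Q.RB_left h1, Matrix.mul_assoc, Q.RB_right h1']

/-- The classes of idempotents. -/
def RB_setoid (Q : Idem D X) : Setoid X where
  r := RB_r Q
  iseqv := ⟨RB_refl Q, fun h => RB_symm Q h, fun h h' => RB_trans Q h h'⟩

theorem RB_c (Q : Idem D X) {χ χ' : X} (h : RB_r Q χ χ') : RB_r Q (Q.c χ) (Q.c χ') := by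
  obtain ⟨Y, hY, h0, h1⟩ := h
  apply RB_symm
  refine ⟨MP_021685_agU.adj D Y, adj_mem hY, ?_, ?_⟩
  · intro h2
    apply h0
    have h3 := adj_smul (D := D) 0 (0 : Matrix K K C)
    rw [zero_smul, zero_smul] at h3
    rw [← adj_adj (D := D) Y, h2, h3]
  · have h2 := congrArg (MP_021685_agU.adj D) h1
    rw [adj_mul, adj_mul, Q.adj, Q.adj, ← Matrix.mul_assoc] at h2
    exact h2

/-- PROOF. The relation `χ ~ χ'` if there is `Y ∈ RC D`, `Y ≠ 0`, `p χ * Y * p χ' = Y`, is an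
equivalence relation: reflexive (`Y = p χ`), symmetric (`exists_inv`), transitive (`Y * Y'` is not
zero: `Z * Y * Y' * Z' = ...`, multiply with the inverses). Let `ρ` choose a representative
(`Quotient.out`). For `Y` with `p (ρ χ) * Y * p χ = Y ≠ 0` take `a χ = Y` and `a' χ` its inverse.
`ρc`: if `Y ≠ 0` is in `p χ RC p χ'` then `adj Y ≠ 0` is in `p (c χ') RC p (c χ)`. `orth`:
`p χ * Y * p χ'` is in `p χ RC p χ'`, so it is zero if `χ`, `χ'` are not equivalent. -/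
theorem exists_rel (Q : Idem D X) : Nonempty (Rel Q) := by
  classical
  set ρ : X → X := fun χ => (Quotient.mk (RB_setoid Q) χ).out with hρ
  have hρr : ∀ χ, RB_r Q (ρ χ) χ := fun χ =>
    Quotient.exact (s := RB_setoid Q) (Quotient.out_eq (Quotient.mk (RB_setoid Q) χ))
  have hρeq : ∀ χ χ', RB_r Q χ χ' → ρ χ = ρ χ' := by
    intro χ χ' h
    have h1 : Quotient.mk (RB_setoid Q) χ = Quotient.mk (RB_setoid Q) χ' := Quotient.sound h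
    simp only [hρ, h1]
  have hρeq' : ∀ χ χ', ρ χ = ρ χ' → RB_r Q χ χ' := by
    intro χ χ' h
    have h1 := hρr χ
    rw [h] at h1
    exact RB_trans Q (RB_symm Q h1) (hρr χ')
  have hex : ∀ χ, ∃ Y Z : Matrix K K C, Y ∈ RC D ∧ Z ∈ RC D ∧ Q.p (ρ χ) * Y * Q.p χ = Y ∧
      Q.p χ * Z * Q.p (ρ χ) = Z ∧ Y * Z = Q.p (ρ χ) ∧ Z * Y = Q.p χ := by
    intro χ
    obtain ⟨Y, hY, h0, h1⟩ := hρr χ
    obtain ⟨Z, hZ, h2, h3, h4⟩ := Q.exists_inv hY h0 h1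
    exact ⟨Y, Z, hY, hZ, h1, h2, h3, h4⟩
  choose a a' h1 h2 h3 h4 h5 h6 using hex
  refine ⟨⟨ρ, a, a', ?_, ?_, h1, h2, h3, h4, h5, h6, ?_⟩⟩
  · intro χ
    exact hρeq _ _ (hρr χ)
  · intro χ χ' h
    exact hρeq _ _ (RB_c Q (hρeq' _ _ h))
  · intro χ χ' hne Y hY
    by_contra h0
    apply hne
    apply hρeq
    refine ⟨Q.p χ * Y * Q.p χ', (RC D).mul_mem ((RC D).mul_mem (Q.mem χ) hY) (Q.mem χ'), h0, ?_⟩
    rw [← Matrix.mul_assoc, ← Matrix.mul_assoc, Q.idem, Matrix.mul_assoc _ (Q.p χ') (Q.p χ'),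
      Q.idem]

namespace Rel

variable {Q : Idem D X} (R : Rel Q)

/-- PROOF. `a χ * Z * a' χ' = p (ρ χ) * (a χ * Z * a' χ') * p (ρ χ')`; if `ρ χ = ρ χ'` use `prim`,
otherwise `orth` (`ρρ`). -/
theorem scal (χ χ' : X) {Z : Matrix K K C} (hZ : Z ∈ RC D) :
    ∃ z : C, R.a χ * Z * R.a' χ' = if R.ρ χ = R.ρ χ' then z • Q.p (R.ρ χ) else 0 := by
  have h1 : Q.p (R.ρ χ) * (R.a χ * Z * R.a' χ') * Q.p (R.ρ χ') = R.a χ * Z * R.a' χ' := by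
    rw [← Matrix.mul_assoc, ← Matrix.mul_assoc, Q.RB_left (R.pa χ), Matrix.mul_assoc _ (R.a' χ'),
      Q.RB_right (R.pa' χ')]
  have hm : R.a χ * Z * R.a' χ' ∈ RC D :=
    (RC D).mul_mem ((RC D).mul_mem (R.a_mem χ) hZ) (R.a'_mem χ')
  by_cases h : R.ρ χ = R.ρ χ'
  · rw [← h] at h1
    obtain ⟨z, hz⟩ := Q.prim (R.ρ χ) _ hm
    exact ⟨z, by rw [if_pos h, ← hz, h1]⟩
  · refine ⟨0, ?_⟩
    rw [if_neg h, ← h1]
    exact R.orth _ _ (by rw [R.ρρ, R.ρρ]; exact h) _ hm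

/-- PROOF. `a χ * a' χ' = a χ * p χ * p χ' * a' χ'`. -/
theorem aa'_ne {χ χ' : X} (h : χ ≠ χ') : R.a χ * R.a' χ' = 0 := by
  rw [← Q.RB_right (R.pa χ), ← Q.RB_left (R.pa' χ'), Matrix.mul_assoc,
    ← Matrix.mul_assoc (Q.p χ), Q.mul, if_neg h, Matrix.zero_mul, Matrix.mul_zero]

/-- For a representative `f` the dual class is `R.ρ (Q.c f)`; it is an involution.
PROOF. `ρc` for `ρ (c f)` and `c f`: `ρ (c (ρ (c f))) = ρ (c (c f)) = ρ f = f`. -/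
theorem dual_dual {f : X} (hf : R.ρ f = f) : R.ρ (Q.c (R.ρ (Q.c f))) = f := by
  have h1 := R.ρc (R.ρ (Q.c f)) (Q.c f) (R.ρρ _)
  rw [h1, Q.c_c, hf]

end Rel

end Pool.Agent.Lib.MP_021685_agU
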