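import Pool.Agent.Lib.MP_021685_agU.RB

/-!
# The forms
-/

set_option autoImplicit false
set_option linter.unusedSectionVars false

namespace Pool.Agent.Lib.MP_021685_agU

open Matrix Function Module

variable {C : Type*} [Field C] [CharZero C] [IsAlgClosed C] {K : Type*} [Fintype K] [DecidableEq K] {D : TData C K} {X : Type*} [Fintype X]
  [DecidableEq X]

/-- The forms: for a representative `f` with dual class `f' = ρ (c f)`, `(x, y) ↦ B (β f x, y)` is a
perfect pairing between the images of `p f` and of `p f'`, symmetric up to the sign `η f`. -/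
structure Form {Q : Idem D X} (R : Rel Q) where
  β : X → Matrix K K C
  β' : X → Matrix K K C
  η : X → C
  β_mem : ∀ f, β f ∈ RC D
  β'_mem : ∀ f, β' f ∈ RC D
  pβ : ∀ f, R.ρ f = f → Q.p (Q.c (R.ρ (Q.c f))) * β f * Q.p f = β f
  pβ' : ∀ f, R.ρ f = f → Q.p f * β' f * Q.p (Q.c (R.ρ (Q.c f))) = β' f
  β'β : ∀ f, R.ρ f = f → β' f * β f = Q.p f
  ββ' : ∀ f, R.ρ f = f → β f * β' f = Q.p (Q.c (R.ρ (Q.c f)))
  adj : ∀ f, R.ρ f = f → MP_021685_agU.adj D (β (R.ρ (Q.c f))) = (D.e * η f) • β f
  η_eq : ∀ f, η f = 1 ∨ η f = -1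
  η_dual : ∀ f, R.ρ f = f → η (R.ρ (Q.c f)) = η f

/-- There are forms. -/
theorem exists_form {Q : Idem D X} (R : Rel Q) : Nonempty (Form R) := by
  classical
  let e : X → ℕ := fun f => (Fintype.equivFin X f : ℕ)
  have he : Function.Injective e := fun f g h => (Fintype.equivFin X).injective (Fin.ext h)
  let d : X → X := fun f => R.ρ (Q.c f)
  have hd : ∀ f, d f = R.ρ (Q.c f) := fun _ => rfl
  have hρd : ∀ f, R.ρ (d f) = d f := fun f => R.ρρ _
  have hdd : ∀ f, R.ρ f = f → d (d f) = f := fun f hf => R.dual_dual hf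
  let b : X → Matrix K K C := fun f => R.a' (Q.c (d f))
  let b' : X → Matrix K K C := fun f => R.a (Q.c (d f))
  have hρ : ∀ f, R.ρ f = f → R.ρ (Q.c (d f)) = f := fun f hf => hdd f hf
  have b_mem : ∀ f, b f ∈ RC D := fun f => R.a'_mem _
  have b'_mem : ∀ f, b' f ∈ RC D := fun f => R.a_mem _
  have hpb : ∀ f, R.ρ f = f → Q.p (Q.c (d f)) * b f * Q.p f = b f := by
    intro f hf
    have h1 := R.pa' (Q.c (d f))
    rw [hρ f hf] at h1
    exact h1
  have hpb' : ∀ f, R.ρ f = f → Q.p f * b' f * Q.p (Q.c (d f)) = b' f := by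
    intro f hf
    have h1 := R.pa (Q.c (d f))
    rw [hρ f hf] at h1
    exact h1
  have hb'b : ∀ f, R.ρ f = f → b' f * b f = Q.p f := by
    intro f hf
    have h1 := R.aa' (Q.c (d f))
    rw [hρ f hf] at h1
    exact h1
  have hbb' : ∀ f, R.ρ f = f → b f * b' f = Q.p (Q.c (d f)) := fun f _ => R.a'a (Q.c (d f))
  -- the adjoints
  have hadjp : ∀ χ, MP_021685_agU.adj D (Q.p χ) = Q.p (Q.c χ) := Q.adj
  have hpa : ∀ f, R.ρ f = f → Q.p (Q.c (d f)) * MP_021685_agU.adj D (b (d f)) * Q.p f =
      MP_021685_agU.adj D (b (d f)) := by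
    intro f hf
    have h1 := congrArg (MP_021685_agU.adj D) (hpb (d f) (hρd f))
    rw [adj_mul, adj_mul, hadjp, hadjp, Q.c_c, hdd f hf, ← Matrix.mul_assoc] at h1
    exact h1
  have hpa' : ∀ f, R.ρ f = f → Q.p f * MP_021685_agU.adj D (b' (d f)) * Q.p (Q.c (d f)) =
      MP_021685_agU.adj D (b' (d f)) := by
    intro f hf
    have h1 := congrArg (MP_021685_agU.adj D) (hpb' (d f) (hρd f))
    rw [adj_mul, adj_mul, hadjp, hadjp, Q.c_c, hdd f hf, ← Matrix.mul_assoc] at h1
    exact h1
  have ha'a : ∀ f, R.ρ f = f → MP_021685_agU.adj D (b' (d f)) * MP_021685_agU.adj D (b (d f)) =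
      Q.p f := by
    intro f hf
    rw [← adj_mul, hbb' (d f) (hρd f), hadjp, Q.c_c, hdd f hf]
  have haa' : ∀ f, R.ρ f = f → MP_021685_agU.adj D (b (d f)) * MP_021685_agU.adj D (b' (d f)) =
      Q.p (Q.c (d f)) := by
    intro f hf
    rw [← adj_mul, hb'b (d f) (hρd f), hadjp]
  -- the self-dual classes
  have hl : ∀ f, ∃ l : C, R.ρ f = f → d f = f →
      (l = 1 ∨ l = -1) ∧ MP_021685_agU.adj D (b f) = l • b f := by
    intro f
    by_cases hf : R.ρ f = f ∧ d f = f
    · obtain ⟨hf, hdf⟩ := hf
      obtain ⟨l, hl⟩ := Q.prim f (b' f * MP_021685_agU.adj D (b f))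
        (mul_mem (b'_mem f) (adj_mem (b_mem f)))
      have h1 := hpa f hf
      rw [hdf] at h1
      have h2 := hpb' f hf
      rw [hdf] at h2
      have h3 : b' f * MP_021685_agU.adj D (b f) = l • Q.p f := by
        rw [← hl]
        conv_lhs => rw [← h1, ← h2]
        have h4 := Q.idem f
        have h5 := Q.idem (Q.c f)
        calc Q.p f * b' f * Q.p (Q.c f) * (Q.p (Q.c f) * MP_021685_agU.adj D (b f) * Q.p f)
            = Q.p f * (b' f * (Q.p (Q.c f) * Q.p (Q.c f)) * MP_021685_agU.adj D (b f)) * Q.p f := by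
              simp only [Matrix.mul_assoc]
          _ = Q.p f * ((b' f * Q.p (Q.c f)) * MP_021685_agU.adj D (b f)) * Q.p f := by
              rw [h5]
          _ = Q.p f * (b' f * MP_021685_agU.adj D (b f)) * Q.p f := by
              have h6 : b' f * Q.p (Q.c f) = b' f := by
                conv_lhs => rw [← h2]
                rw [Matrix.mul_assoc, h5, h2]
              rw [h6]
      have h4 : MP_021685_agU.adj D (b f) = l • b f := by
        have h5 := hbb' f hf
        rw [hdf] at h5
        have h6 : Q.p (Q.c f) * MP_021685_agU.adj D (b f) = MP_021685_agU.adj D (b f) := by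
          conv_lhs => rw [← h1]
          rw [← Matrix.mul_assoc, ← Matrix.mul_assoc, Q.idem, h1]
        have h7 : b f * Q.p f = b f := by
          have h8 := hpb f hf
          conv_lhs => rw [← h8]
          rw [Matrix.mul_assoc, Q.idem, h8]
        calc MP_021685_agU.adj D (b f) = Q.p (Q.c f) * MP_021685_agU.adj D (b f) := h6.symm
          _ = b f * (b' f * MP_021685_agU.adj D (b f)) := by rw [← h5, Matrix.mul_assoc]
          _ = l • b f := by rw [h3, Matrix.mul_smul, h7]
      have h5 : (l * l) • b f = b f := by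
        have h6 := congrArg (MP_021685_agU.adj D) h4
        rw [adj_adj, adj_smul, h4, smul_smul] at h6
        exact h6.symm
      have h6 : b f ≠ 0 := by
        intro h7
        have h8 := hb'b f hf
        rw [h7, Matrix.mul_zero] at h8
        exact Q.ne f h8.symm
      have h7 : l * l = 1 := by
        have h8 : (l * l - 1) • b f = 0 := by
          rw [sub_smul, h5, one_smul, sub_self]
        rcases smul_eq_zero.1 h8 with h9 | h9
        · exact sub_eq_zero.1 h9
        · exact absurd h9 h6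
      refine ⟨l, fun _ _ => ⟨?_, h4⟩⟩
      exact mul_self_eq_one_iff.1 h7
    · exact ⟨1, fun h1 h2 => absurd ⟨h1, h2⟩ hf⟩
  choose l hl using hl
  refine ⟨{
    β := fun f => if R.ρ f = f then (if e (d f) < e f then MP_021685_agU.adj D (b (d f)) else b f)
      else 0
    β' := fun f => if R.ρ f = f then (if e (d f) < e f then MP_021685_agU.adj D (b' (d f)) else b' f)
      else 0
    η := fun f => if R.ρ f = f ∧ d f = f then D.e * l f else D.e
    β_mem := ?_
    β'_mem := ?_
    pβ := ?_
    pβ' := ?_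
    β'β := ?_
    ββ' := ?_
    adj := ?_
    η_eq := ?_
    η_dual := ?_ }⟩
  · intro f
    split_ifs
    · exact adj_mem (b_mem _)
    · exact b_mem _
    · exact zero_mem _
  · intro f
    split_ifs
    · exact adj_mem (b'_mem _)
    · exact b'_mem _
    · exact zero_mem _
  · intro f hf
    rw [if_pos hf]
    split_ifs
    · exact hpa f hf
    · exact hpb f hf
  · intro f hf
    rw [if_pos hf]
    split_ifs
    · exact hpa' f hf
    · exact hpb' f hf
  · intro f hf
    rw [if_pos hf, if_pos hf]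
    split_ifs
    · exact ha'a f hf
    · exact hb'b f hf
  · intro f hf
    rw [if_pos hf, if_pos hf]
    split_ifs
    · exact haa' f hf
    · exact hbb' f hf
  · intro f hf
    change MP_021685_agU.adj D (if R.ρ (d f) = d f then
      (if e (d (d f)) < e (d f) then MP_021685_agU.adj D (b (d (d f))) else b (d f)) else 0) = _
    rw [if_pos hf, if_pos (hρd f), hdd f hf]
    by_cases hdf : d f = f
    · rw [hdf, if_neg (lt_irrefl _), if_pos ⟨hf, rfl⟩, ← mul_assoc, D.e_sq, one_mul]
      exact (hl f hf hdf).2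
    · have h1 : ¬ (R.ρ f = f ∧ d f = f) := fun h => hdf h.2
      rw [if_neg h1, D.e_sq, one_smul]
      have h2 : e (d f) ≠ e f := fun h => hdf (he h)
      by_cases h3 : e (d f) < e f
      · rw [if_pos h3, if_neg (by omega)]
      · rw [if_neg h3, if_pos (by omega), adj_adj]
  · intro f
    by_cases h : R.ρ f = f ∧ d f = f
    · simp only [if_pos h]
      refine mul_self_eq_one_iff.1 ?_
      have h1 : l f * l f = 1 := mul_self_eq_one_iff.2 (hl f h.1 h.2).1
      calc D.e * l f * (D.e * l f) = (D.e * D.e) * (l f * l f) := by ring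
        _ = 1 := by rw [D.e_sq, h1, one_mul]
    · simp only [if_neg h]
      exact mul_self_eq_one_iff.1 D.e_sq
  · intro f hf
    change (if R.ρ (d f) = d f ∧ d (d f) = d f then D.e * l (d f) else D.e) =
      if R.ρ f = f ∧ d f = f then D.e * l f else D.e
    rw [hdd f hf]
    by_cases hdf : d f = f
    · rw [hdf]
    · have h1 : ¬ (R.ρ f = f ∧ d f = f) := fun h => hdf h.2
      have h2 : ¬ (R.ρ (d f) = d f ∧ f = d f) := fun h => hdf h.2.symm
      rw [if_neg h1, if_neg h2]

end Pool.Agent.Lib.MP_021685_agU
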