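import Pool.Agent.Lib.MP_021685_agU.RC

/-!
# Bases adapted to the classes of primitive idempotents and to the forms
-/

set_option autoImplicit false
set_option linter.unusedSectionVars false

namespace Pool.Agent.Lib.MP_021685_agU

open Matrix Function Module

variable {C : Type*} [Field C] [CharZero C] [IsAlgClosed C] {K : Type*} [Fintype K] [DecidableEq K] {D : TData C K} {X : Type*} [Fintype X]
  [DecidableEq X] {Q : Idem D X} {R : Rel Q}

/-- A system of vectors `w i` in the images of the `p (φ i)` which is orthonormal (in the sense of the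
involution `bar` and the signs `ε`) for the forms `(x, y) ↦ B (β f x, y)`. -/
structure PBas (Fo : Form R) (ι : Type) [Fintype ι] [DecidableEq ι] where
  bar : ι → ι
  ε : ι → C
  φ : ι → X
  w : ι → K → C
  rep : ∀ i, R.ρ (φ i) = φ i
  bar_bar : ∀ i, bar (bar i) = i
  ε_sq : ∀ i, ε i * ε i = 1
  ε_bar : ∀ i, ε (bar i) = Fo.η (φ i) * ε i
  φ_bar : ∀ i, φ (bar i) = R.ρ (Q.c (φ i))
  pw : ∀ i, Q.p (φ i) *ᵥ w i = w i
  form : ∀ i j, D.B (Fo.β (φ i) *ᵥ w i) (w j) = if j = bar i then ε i else 0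

namespace PBas

variable {Fo : Form R} {ι : Type} [Fintype ι] [DecidableEq ι] (b : PBas Fo ι)

/-- The dual linear forms: `l i ⬝ᵥ x = ε i * B (β (φ i) x, w (bar i))`. -/
noncomputable def l (i : ι) : K → C :=
  b.ε i • ((Fo.β (b.φ i))ᵀ *ᵥ (D.G *ᵥ b.w (b.bar i)))

theorem l_apply (i : ι) (x : K → C) :
    b.l i ⬝ᵥ x = b.ε i * D.B (Fo.β (b.φ i) *ᵥ x) (b.w (b.bar i)) := by
  rw [l, smul_dotProduct, smul_eq_mul, TData.B, Matrix.toLinearMap₂'_apply', mulVec_transpose,
    ← dotProduct_mulVec, dotProduct_comm]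

/-- PROOF. `φ i = φ j`: `form` for `j` and `bar i`. `φ i ≠ φ j`: `β f = β f * p f` (`pβ`) and
`p (φ i) *ᵥ w j = 0`. -/
theorem l_w (i j : ι) : b.l i ⬝ᵥ b.w j = if i = j then 1 else 0 := by
  rw [l_apply]
  by_cases h : b.φ i = b.φ j
  · rw [h, b.form]
    by_cases hij : i = j
    · rw [if_pos hij, if_pos (by rw [hij]), hij, b.ε_sq]
    · rw [if_neg hij, if_neg fun h2 => hij ?_, mul_zero]
      rw [← b.bar_bar i, h2, b.bar_bar]
  · have hij : i ≠ j := fun h2 => h (by rw [h2])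
    have h1 : Fo.β (b.φ i) * Q.p (b.φ i) = Fo.β (b.φ i) := by
      have h2 := Fo.pβ (b.φ i) (b.rep i)
      calc Fo.β (b.φ i) * Q.p (b.φ i) =
          (Q.p (Q.c (R.ρ (Q.c (b.φ i)))) * Fo.β (b.φ i) * Q.p (b.φ i)) * Q.p (b.φ i) := by rw [h2]
        _ = Q.p (Q.c (R.ρ (Q.c (b.φ i)))) * Fo.β (b.φ i) * (Q.p (b.φ i) * Q.p (b.φ i)) := by
            rw [Matrix.mul_assoc]
        _ = Fo.β (b.φ i) := by rw [Q.idem, h2]
    have h3 : Q.p (b.φ i) *ᵥ b.w j = 0 := by
      rw [← b.pw j, mulVec_mulVec, Q.mul, if_neg h, zero_mulVec]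
    have h4 : Fo.β (b.φ i) *ᵥ b.w j = 0 := by
      rw [← h1, ← mulVec_mulVec, h3, mulVec_zero]
    rw [if_neg hij, h4, map_zero, LinearMap.zero_apply, mul_zero]

include b in
/-- PROOF. The `w i` are linearly independent (`l_w`). -/
theorem card_le : Fintype.card ι ≤ Fintype.card K := by
  have h : LinearIndependent C b.w := by
    rw [Fintype.linearIndependent_iff]
    intro g hg i
    have h1 : b.l i ⬝ᵥ (∑ j, g j • b.w j) = g i := by
      rw [dotProduct_sum, Finset.sum_eq_single i]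
      · rw [dotProduct_smul, l_w, if_pos rfl, smul_eq_mul, mul_one]
      · intro j _ hj
        rw [dotProduct_smul, l_w, if_neg (Ne.symm hj), smul_zero]
      · intro h
        exact absurd (Finset.mem_univ i) h
    rw [← h1, hg, dotProduct_zero]
  have h2 := h.fintype_card_le_finrank
  rwa [Module.finrank_fintype_fun_eq_card] at h2

end PBas

end Pool.Agent.Lib.MP_021685_agU
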