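import Pool.Agent.Lib.MP_021685_agU.RD

/-!
# Extension of a system
-/

set_option autoImplicit false
set_option linter.unusedSectionVars false

namespace Pool.Agent.Lib.MP_021685_agU

open Matrix Function Module

variable {C : Type*} [Field C] [CharZero C] [IsAlgClosed C] {K : Type*} [Fintype K] [DecidableEq K] {D : TData C K} {X : Type*} [Fintype X]
  [DecidableEq X] {Q : Idem D X} {R : Rel Q}

namespace PBas

variable {Fo : Form R} {ι : Type} [Fintype ι] [DecidableEq ι] (b : PBas Fo ι)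

theorem RDx_one {f : X} (hf : R.ρ f = f) (u v : K → C) :
    D.B (Fo.β f *ᵥ u) v = D.B (Fo.β f *ᵥ u) (Q.p (R.ρ (Q.c f)) *ᵥ v) := by
  have h1 : Q.p (Q.c (R.ρ (Q.c f))) * Fo.β f = Fo.β f := by
    have h0 := Fo.pβ f hf
    calc Q.p (Q.c (R.ρ (Q.c f))) * Fo.β f =
        Q.p (Q.c (R.ρ (Q.c f))) * (Q.p (Q.c (R.ρ (Q.c f))) * Fo.β f * Q.p f) := by rw [h0]
      _ = Q.p (Q.c (R.ρ (Q.c f))) * Q.p (Q.c (R.ρ (Q.c f))) * Fo.β f * Q.p f := by
        rw [← mul_assoc, ← mul_assoc]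
      _ = Fo.β f := by rw [Q.idem, h0]
  have h2 : D.B (Fo.β f *ᵥ u) v = D.B (Q.p (Q.c (R.ρ (Q.c f))) *ᵥ (Fo.β f *ᵥ u)) v := by
    rw [mulVec_mulVec, h1]
  rw [h2, B_adj (Q.p (Q.c (R.ρ (Q.c f)))) (Fo.β f *ᵥ u) v, Q.adj, Q.c_c]

theorem RDx_two {f : X} (hf : R.ρ f = f) (u v : K → C) :
    D.B (Fo.β (R.ρ (Q.c f)) *ᵥ v) u = Fo.η f * D.B (Fo.β f *ᵥ u) v := by
  rw [B_adj, Fo.adj f hf, smul_mulVec, map_smul, B_symm v, smul_eq_mul]
  linear_combination (Fo.η f * D.B (Fo.β f *ᵥ u) v) * D.e_sq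

theorem RDx_three {f : X} (hf : R.ρ f = f) (u : K → C) : Fo.β f *ᵥ u = Fo.β f *ᵥ (Q.p f *ᵥ u) := by
  have h0 := Fo.pβ f hf
  have h1 : Fo.β f * Q.p f = Fo.β f := by
    calc Fo.β f * Q.p f = Q.p (Q.c (R.ρ (Q.c f))) * Fo.β f * Q.p f * Q.p f := by rw [h0]
      _ = Q.p (Q.c (R.ρ (Q.c f))) * Fo.β f * (Q.p f * Q.p f) := by rw [mul_assoc _ (Q.p f) (Q.p f)]
      _ = Fo.β f := by rw [Q.idem, h0]
  rw [mulVec_mulVec, h1]

theorem RDx_p_ne {f g : X} (hfg : g ≠ f) {u : K → C} (hu : Q.p f *ᵥ u = u) : Q.p g *ᵥ u = 0 := by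
  rw [← hu, mulVec_mulVec, Q.mul, if_neg hfg, zero_mulVec]

theorem RDx_β_ne {f g : X} (hg : R.ρ g = g) (hfg : g ≠ f) {u : K → C} (hu : Q.p f *ᵥ u = u) :
    Fo.β g *ᵥ u = 0 := by
  rw [RDx_three hg, RDx_p_ne hfg hu, mulVec_zero]

theorem RDx_ε_ne (i : ι) : b.ε i ≠ 0 := by
  intro h
  have h1 := b.ε_sq i
  rw [h, mul_zero] at h1
  exact zero_ne_one h1

theorem RDx_A {y : K → C} (hy : ∀ i, b.l i ⬝ᵥ y = 0) {g : X} (hg : R.ρ g = g) (j : ι) :
    D.B (Fo.β g *ᵥ y) (b.w j) = 0 := by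
  by_cases hj : b.φ j = R.ρ (Q.c g)
  · have hi : b.φ (b.bar j) = g := by rw [b.φ_bar, hj, R.dual_dual hg]
    have h := hy (b.bar j)
    rw [b.l_apply, hi, b.bar_bar] at h
    rcases mul_eq_zero.mp h with h1 | h1
    · exact absurd h1 (b.RDx_ε_ne _)
    · exact h1
  · rw [RDx_one hg, RDx_p_ne (Ne.symm hj) (b.pw j), map_zero]

theorem RDx_A' {y : K → C} (hy : ∀ i, b.l i ⬝ᵥ y = 0) {g : X} (hg : R.ρ g = g) (j : ι) :
    D.B (Fo.β g *ᵥ b.w j) y = 0 := by
  have h := RDx_two (Fo := Fo) (f := R.ρ (Q.c g)) (R.ρρ _) y (b.w j)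
  rw [R.dual_dual hg, b.RDx_A hy (R.ρρ _) j, mul_zero] at h
  exact h

/-- The component orthogonal to the system. -/
noncomputable def RDx_pi (y : K → C) : K → C := y - ∑ i, (b.l i ⬝ᵥ y) • b.w i

theorem RDx_l_pi (y : K → C) (j : ι) : b.l j ⬝ᵥ b.RDx_pi y = 0 := by
  unfold RDx_pi
  rw [dotProduct_sub, dotProduct_sum, Finset.sum_eq_single j]
  · rw [dotProduct_smul, b.l_w, if_pos rfl, smul_eq_mul, mul_one, sub_self]
  · intro i _ hi
    rw [dotProduct_smul, b.l_w, if_neg (Ne.symm hi), smul_zero]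
  · intro h
    exact absurd (Finset.mem_univ j) h

theorem RDx_p_pi {g : X} {y : K → C} (hy : Q.p g *ᵥ y = y) : Q.p g *ᵥ b.RDx_pi y = b.RDx_pi y := by
  unfold RDx_pi
  rw [mulVec_sub, hy, mulVec_sum]
  congr 1
  refine Finset.sum_congr rfl fun i _ => ?_
  rw [mulVec_smul]
  by_cases hi : b.φ i = g
  · rw [← hi, b.pw i]
  · rw [b.l_apply, RDx_β_ne (b.rep i) hi hy, map_zero, LinearMap.zero_apply, mul_zero, zero_smul,
      zero_smul]

/-- The union of two orthogonal systems. -/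
noncomputable def RDx_sum {κ : Type} [Fintype κ] [DecidableEq κ] (b₂ : PBas Fo κ)
    (h : ∀ i k, b.l i ⬝ᵥ b₂.w k = 0) : PBas Fo (ι ⊕ κ) where
  bar := Sum.map b.bar b₂.bar
  ε := Sum.elim b.ε b₂.ε
  φ := Sum.elim b.φ b₂.φ
  w := Sum.elim b.w b₂.w
  rep := by
    rintro (i | k)
    · exact b.rep i
    · exact b₂.rep k
  bar_bar := by
    rintro (i | k)
    · exact congrArg Sum.inl (b.bar_bar i)
    · exact congrArg Sum.inr (b₂.bar_bar k)
  ε_sq := by
    rintro (i | k)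
    · exact b.ε_sq i
    · exact b₂.ε_sq k
  ε_bar := by
    rintro (i | k)
    · exact b.ε_bar i
    · exact b₂.ε_bar k
  φ_bar := by
    rintro (i | k)
    · exact b.φ_bar i
    · exact b₂.φ_bar k
  pw := by
    rintro (i | k)
    · exact b.pw i
    · exact b₂.pw k
  form := by
    rintro (i | k) (j | m)
    · have h1 := b.form i j
      rw [Sum.map_inl]
      simp only [Sum.elim_inl, Sum.inl.injEq]
      exact h1
    · rw [if_neg (by rw [Sum.map_inl]; exact Sum.inr_ne_inl)]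
      exact b.RDx_A' (fun i => h i m) (b.rep i) i
    · rw [if_neg (by rw [Sum.map_inr]; exact Sum.inl_ne_inr)]
      exact b.RDx_A (fun i => h i k) (b₂.rep k) j
    · have h1 := b₂.form k m
      rw [Sum.map_inr]
      simp only [Sum.elim_inr, Sum.inr.injEq]
      exact h1

theorem RDx_η_sq (f : X) : Fo.η f * Fo.η f = 1 := by
  rcases Fo.η_eq f with h | h
  · rw [h, mul_one]
  · rw [h]
    norm_num

/-- A hyperbolic pair. -/
noncomputable def RDx_pair {f : X} (hf : R.ρ f = f) {x y : K → C} (hx : Q.p f *ᵥ x = x)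
    (hy : Q.p (R.ρ (Q.c f)) *ᵥ y = y) (hxy : D.B (Fo.β f *ᵥ x) y = 1)
    (hxx : D.B (Fo.β f *ᵥ x) x = 0) (hyy : D.B (Fo.β (R.ρ (Q.c f)) *ᵥ y) y = 0) : PBas Fo Bool where
  bar := fun k => !k
  ε := fun k => bif k then Fo.η f else 1
  φ := fun k => bif k then R.ρ (Q.c f) else f
  w := fun k => bif k then y else x
  rep := by
    intro k
    cases k
    · exact hf
    · exact R.ρρ _
  bar_bar := fun k => Bool.not_not k
  ε_sq := by
    intro k
    cases k
    · exact mul_one _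
    · exact RDx_η_sq f
  ε_bar := by
    intro k
    cases k
    · exact (mul_one _).symm
    · show (1 : C) = Fo.η (R.ρ (Q.c f)) * Fo.η f
      rw [Fo.η_dual f hf, RDx_η_sq]
  φ_bar := by
    intro k
    cases k
    · rfl
    · exact (R.dual_dual hf).symm
  pw := by
    intro k
    cases k
    · exact hx
    · exact hy
  form := by
    intro k m
    cases k <;> cases m
    · exact hxx
    · exact hxy
    · show D.B (Fo.β (R.ρ (Q.c f)) *ᵥ y) x = Fo.η f
      rw [RDx_two hf, hxy, mul_one]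
    · exact hyy

/-- One vector. -/
noncomputable def RDx_single {f : X} (hf : R.ρ f = f) (hff : R.ρ (Q.c f) = f) (hη : Fo.η f = 1)
    {x : K → C} (hx : Q.p f *ᵥ x = x) (hxx : D.B (Fo.β f *ᵥ x) x = 1) : PBas Fo Unit where
  bar := fun k => k
  ε := fun _ => 1
  φ := fun _ => f
  w := fun _ => x
  rep := fun _ => hf
  bar_bar := fun _ => rfl
  ε_sq := fun _ => mul_one _
  ε_bar := fun _ => by rw [hη, mul_one]
  φ_bar := fun _ => hff.symm
  pw := fun _ => hx
  form := fun _ _ => by rw [if_pos rfl, hxx]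

/-- A system which does not span can be extended.
PROOF. Let `f' = ρ (c f)`. Facts, for `u` with `p f u = u`: (1) `B (β f u, v) = B (β f u, p f' v)`
(`β f = p (c f') β f`, `adj (p (c f')) = p f'`, `B_adj`). (2) `B (β f' v, u) = η f * B (β f u, v)` for
`p f' v = v`: `B (β f' v, u) = - B (u, β f' v) = - B (adj (β f') u, v)` (`B_adj`, `adj_adj`).
Let `x' = x - ∑_{i, φ i = f} (l i ⬝ᵥ x) • w i`: `p f x' = x'`, `x' ≠ 0`, `l i ⬝ᵥ x' = 0` for all `i`
(for `φ i ≠ f`, `β (φ i) x' = 0`). So `B (β f x', w j) = 0` for all `j` (by (1) it is zero unless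
`φ j = f'`, and then `j = bar i` with `φ i = f`), and `B (β (φ j) w j, x') = 0` for all `j` ((2), (1)).
`β f x' ≠ 0` (`β' β = p f`), so there is `y₀` with `B (β f x', y₀) ≠ 0` (`eq_zero_of_B`, `B_symm`);
replace `y₀` by `p f' y₀` (1) and then by `y' = y₀ - ∑_{i, φ i = f'} (l i ⬝ᵥ y₀) • w i`; then
`B (β f x', y') ≠ 0`, and we scale `y'` so that it is `1`. Also `B (β f' y', w j) = 0` and
`B (β (φ j) w j, y') = 0` for all `j`.
(i) `f' ≠ f` or `η f = -1`: then `B (β f x', x') = 0` (if `f' ≠ f` by (1): `p f' x' = 0`; if `f' = f`,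
`η f = -1` by (2)) and in the same way `B (β f' y', y') = 0`; `B (β f' y', x') = η f` by (2). The new
system is indexed by `ι ⊕ Bool`, the new vectors are `x'` (place `f`, sign `1`) and `y'` (place `f'`,
sign `η f`), exchanged by `bar`.
(ii) `f' = f`, `η f = 1`: `S (u, v) = B (β f u, v)` is symmetric by (2) on the image of `p f`, and
`S (x', y') = 1`; so one of `x'`, `y'`, `x' + y'` is a vector `z` with `S (z, z) ≠ 0`; divide it by a
square root of `S (z, z)`. The new system is indexed by `Option ι`, with `bar none = none`, sign `1`,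
place `f`. -/
theorem extend {f : X} (hf : R.ρ f = f) {x : K → C} (hx : Q.p f *ᵥ x = x)
    (h : x ∉ Submodule.span C (Set.range b.w)) :
    ∃ (ι' : Type) (_ : Fintype ι') (_ : DecidableEq ι'), Nonempty (PBas Fo ι') ∧
      Fintype.card ι < Fintype.card ι' := by
  classical
  set f' := R.ρ (Q.c f) with hf'
  -- the component `x'` of `x`
  set x' := b.RDx_pi x with hx'
  have hx'0 : x' ≠ 0 := by
    intro h0
    apply h
    rw [hx', RDx_pi, sub_eq_zero] at h0
    rw [h0]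
    exact Submodule.sum_mem _ fun i _ => Submodule.smul_mem _ _ (Submodule.subset_span ⟨i, rfl⟩)
  have hpx' : Q.p f *ᵥ x' = x' := b.RDx_p_pi hx
  have hlx' : ∀ i, b.l i ⬝ᵥ x' = 0 := b.RDx_l_pi x
  -- the vector `y'`
  obtain ⟨y', hpy', hly', hxy'⟩ : ∃ y' : K → C, Q.p f' *ᵥ y' = y' ∧ (∀ i, b.l i ⬝ᵥ y' = 0) ∧
      D.B (Fo.β f *ᵥ x') y' = 1 := by
    have hβ : Fo.β f *ᵥ x' ≠ 0 := by
      intro h0
      apply hx'0
      have h1 := congrArg (fun v => Fo.β' f *ᵥ v) h0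
      rw [mulVec_mulVec, Fo.β'β f hf, hpx', mulVec_zero] at h1
      exact h1
    obtain ⟨u, hu⟩ : ∃ u, D.B u (Fo.β f *ᵥ x') ≠ 0 := by
      by_contra hcon
      push Not at hcon
      exact hβ (eq_zero_of_B hcon)
    have hu' : D.B (Fo.β f *ᵥ x') u ≠ 0 := by
      rw [B_symm]
      refine mul_ne_zero (fun h0 => ?_) hu
      have h1 := D.e_sq
      rw [h0, mul_zero] at h1
      exact zero_ne_one h1
    have hpp : Q.p f' *ᵥ (Q.p f' *ᵥ u) = Q.p f' *ᵥ u := by rw [mulVec_mulVec, Q.idem]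
    set y₁ := b.RDx_pi (Q.p f' *ᵥ u) with hy₁
    have h1 : D.B (Fo.β f *ᵥ x') y₁ = D.B (Fo.β f *ᵥ x') u := by
      rw [hy₁, RDx_pi, map_sub, map_sum, Finset.sum_eq_zero, sub_zero, ← RDx_one hf]
      intro i _
      rw [map_smul, b.RDx_A hlx' hf i, smul_zero]
    set s := D.B (Fo.β f *ᵥ x') y₁ with hs
    have hs0 : s ≠ 0 := by rw [h1]; exact hu'
    refine ⟨s⁻¹ • y₁, ?_, ?_, ?_⟩
    · rw [mulVec_smul, b.RDx_p_pi hpp]
    · intro i
      rw [dotProduct_smul, b.RDx_l_pi, smul_zero]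
    · rw [map_smul, ← hs, smul_eq_mul, inv_mul_cancel₀ hs0]
  by_cases hcase : f' = f ∧ Fo.η f = 1
  · -- one more vector
    obtain ⟨hff, hη⟩ := hcase
    have hsymm : ∀ u v : K → C, D.B (Fo.β f *ᵥ u) v = D.B (Fo.β f *ᵥ v) u := by
      intro u v
      have h1 := RDx_two (Fo := Fo) hf v u
      rw [← hf', hff, hη, one_mul] at h1
      exact h1
    rw [hff] at hpy'
    obtain ⟨z, hpz, hlz, hzz⟩ : ∃ z : K → C, Q.p f *ᵥ z = z ∧ (∀ i, b.l i ⬝ᵥ z = 0) ∧
        D.B (Fo.β f *ᵥ z) z ≠ 0 := by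
      by_cases h1 : D.B (Fo.β f *ᵥ x') x' = 0
      · by_cases h2 : D.B (Fo.β f *ᵥ y') y' = 0
        · refine ⟨x' + y', ?_, ?_, ?_⟩
          · rw [mulVec_add, hpx', hpy']
          · intro i
            rw [dotProduct_add, hlx', hly', add_zero]
          · rw [mulVec_add, map_add, map_add, LinearMap.add_apply, LinearMap.add_apply, h1, h2,
              hsymm y' x', hxy']
            norm_num
        · exact ⟨y', hpy', hly', h2⟩
      · exact ⟨x', hpx', hlx', h1⟩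
    obtain ⟨r, hr⟩ := IsAlgClosed.exists_pow_nat_eq (D.B (Fo.β f *ᵥ z) z) (n := 2) (by norm_num)
    have hr0 : r ≠ 0 := by
      rintro rfl
      apply hzz
      rw [← hr]
      norm_num
    have hz1 : D.B (Fo.β f *ᵥ (r⁻¹ • z)) (r⁻¹ • z) = 1 := by
      rw [mulVec_smul, map_smul, map_smul, LinearMap.smul_apply, smul_eq_mul, smul_eq_mul, ← hr]
      field_simp
    have hpz1 : Q.p f *ᵥ (r⁻¹ • z) = r⁻¹ • z := by rw [mulVec_smul, hpz]
    refine ⟨ι ⊕ Unit, inferInstance, inferInstance,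
      ⟨b.RDx_sum (RDx_single hf hff hη hpz1 hz1) ?_⟩, ?_⟩
    · intro i k
      show b.l i ⬝ᵥ (r⁻¹ • z) = 0
      rw [dotProduct_smul, hlz, smul_zero]
    · rw [Fintype.card_sum, Fintype.card_unit]
      exact Nat.lt_succ_self _
  · -- a hyperbolic pair
    have key : ∀ g : X, R.ρ g = g → (R.ρ (Q.c g) = g → Fo.η g ≠ 1) → ∀ u : K → C, Q.p g *ᵥ u = u →
        D.B (Fo.β g *ᵥ u) u = 0 := by
      intro g hg hgg u hu
      by_cases h1 : R.ρ (Q.c g) = g
      · have h2 : Fo.η g = -1 := by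
          rcases Fo.η_eq g with h | h
          · exact absurd h (hgg h1)
          · exact h
        have h3 := RDx_two (Fo := Fo) hg u u
        rw [h1, h2] at h3
        have h4 : (2 : C) * D.B (Fo.β g *ᵥ u) u = 0 := by linear_combination h3
        rcases mul_eq_zero.mp h4 with h5 | h5
        · norm_num at h5
        · exact h5
      · rw [RDx_one hg, RDx_p_ne h1 hu, map_zero]
    have hxx : D.B (Fo.β f *ᵥ x') x' = 0 := key f hf (fun h1 h2 => hcase ⟨h1, h2⟩) x' hpx'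
    have hyy : D.B (Fo.β f' *ᵥ y') y' = 0 := by
      refine key f' (R.ρρ _) (fun h1 h2 => hcase ?_) y' hpy'
      rw [hf', R.dual_dual hf] at h1
      refine ⟨h1.symm, ?_⟩
      rw [← Fo.η_dual f hf]
      exact h2
    refine ⟨ι ⊕ Bool, inferInstance, inferInstance,
      ⟨b.RDx_sum (RDx_pair hf hpx' hpy' hxy' hxx hyy) ?_⟩, ?_⟩
    · intro i k
      cases k
      · exact hlx' i
      · exact hly' i
    · rw [Fintype.card_sum, Fintype.card_bool]
      omega

end PBas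

end Pool.Agent.Lib.MP_021685_agU
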