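import Pool.Agent.Lib.MP_021685_agU.RDx

/-!
# A complete system
-/

set_option autoImplicit false
set_option linter.unusedSectionVars false

namespace Pool.Agent.Lib.MP_021685_agU

open Matrix Function Module

variable {C : Type*} [Field C] [CharZero C] [IsAlgClosed C] {K : Type*} [Fintype K] [DecidableEq K] {D : TData C K} {X : Type*} [Fintype X]
  [DecidableEq X] {Q : Idem D X} {R : Rel Q}

/-- the empty system -/
noncomputable def RDy_empty (Fo : Form R) : PBas Fo Empty where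
  bar := Empty.elim
  ε := Empty.elim
  φ := Empty.elim
  w := Empty.elim
  rep := fun i => i.elim
  bar_bar := fun i => i.elim
  ε_sq := fun i => i.elim
  ε_bar := fun i => i.elim
  φ_bar := fun i => i.elim
  pw := fun i => i.elim
  form := fun i => i.elim

/-- there is a system which spans the images of all the `p f` -/
theorem RDy_max (Fo : Form R) : ∃ (ι : Type) (_ : Fintype ι) (_ : DecidableEq ι)
    (b : PBas Fo ι), ∀ f, R.ρ f = f → ∀ x : K → C, Q.p f *ᵥ x = x →
      x ∈ Submodule.span C (Set.range b.w) := by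
  by_contra hcon
  push Not at hcon
  have key : ∀ n : ℕ, ∃ (ι : Type) (_ : Fintype ι) (_ : DecidableEq ι), Nonempty (PBas Fo ι) ∧
      n ≤ Fintype.card ι := by
    intro n
    induction n with
    | zero => exact ⟨Empty, inferInstance, inferInstance, ⟨RDy_empty Fo⟩, Nat.zero_le _⟩
    | succ n ih =>
      obtain ⟨ι, h1, h2, ⟨b⟩, hn⟩ := ih
      obtain ⟨f, hf, x, hx, hxs⟩ := hcon ι h1 h2 b
      obtain ⟨ι', h1', h2', hb', hc⟩ := b.extend hf hx hxs
      exact ⟨ι', h1', h2', hb', by omega⟩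
  obtain ⟨ι, h1, h2, ⟨b⟩, hn⟩ := key (Fintype.card K + 1)
  have := b.card_le
  omega

theorem RDy_βp (Fo : Form R) {f : X} (hf : R.ρ f = f) : Fo.β f * Q.p f = Fo.β f := by
  have h := Fo.pβ f hf
  calc Fo.β f * Q.p f = (Q.p (Q.c (R.ρ (Q.c f))) * Fo.β f * Q.p f) * Q.p f := by rw [h]
    _ = Q.p (Q.c (R.ρ (Q.c f))) * Fo.β f * (Q.p f * Q.p f) := by rw [Matrix.mul_assoc]
    _ = Q.p (Q.c (R.ρ (Q.c f))) * Fo.β f * Q.p f := by rw [Q.idem]
    _ = Fo.β f := h

/-- Every image of a `p f` has a basis consisting of vectors of a system. -/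
theorem exists_pbas (Fo : Form R) : ∃ (ι : Type) (_ : Fintype ι) (_ : DecidableEq ι)
    (b : PBas Fo ι), ∀ f, R.ρ f = f →
      Q.p f = ∑ i, if b.φ i = f then vecMulVec (b.w i) (b.l i) else 0 := by
  obtain ⟨ι, h1, h2, b, hb⟩ := RDy_max Fo
  refine ⟨ι, h1, h2, b, fun f hf => ?_⟩
  refine Matrix.ext_of_mulVec_single fun k => ?_
  set x : K → C := Pi.single k 1 with hx
  have hy : Q.p f *ᵥ (Q.p f *ᵥ x) = Q.p f *ᵥ x := by
    rw [Matrix.mulVec_mulVec, Q.idem]
  obtain ⟨c, hc⟩ := (Submodule.mem_span_range_iff_exists_fun C).1 (hb f hf _ hy)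
  have hci : ∀ i, c i = b.l i ⬝ᵥ (Q.p f *ᵥ x) := by
    intro i
    rw [← hc, dotProduct_sum]
    simp only [dotProduct_smul, b.l_w, smul_eq_mul, mul_ite, mul_one, mul_zero,
      Finset.sum_ite_eq, Finset.mem_univ, if_true]
  have hci2 : ∀ i, c i = if b.φ i = f then b.l i ⬝ᵥ x else 0 := by
    intro i
    rw [hci i, b.l_apply, b.l_apply]
    by_cases hif : b.φ i = f
    · rw [if_pos hif, hif, Matrix.mulVec_mulVec, RDy_βp Fo hf]
    · rw [if_neg hif, Matrix.mulVec_mulVec, ← RDy_βp Fo (b.rep i), Matrix.mul_assoc, Q.mul,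
        if_neg hif]
      simp
  rw [← hc]
  rw [show (∑ i, if b.φ i = f then vecMulVec (b.w i) (b.l i) else 0) *ᵥ x =
    ∑ i, (if b.φ i = f then vecMulVec (b.w i) (b.l i) else 0) *ᵥ x from Matrix.sum_mulVec _ _ _]
  refine Finset.sum_congr rfl fun i _ => ?_
  rw [hci2 i]
  by_cases hif : b.φ i = f
  · rw [if_pos hif, if_pos hif, Matrix.vecMulVec_mulVec]
    ext j
    simp [mul_comm]
  · rw [if_neg hif, if_neg hif]
    simp

end Pool.Agent.Lib.MP_021685_agU
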