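import Pool.Agent.Lib.MP_021685_agU.RDy
import Pool.Agent.Lib.MP_021685_agU.FA

/-!
# Frames of the space adapted to the endomorphism algebra and to the polarisation
-/

set_option autoImplicit false
set_option linter.unusedSectionVars false

namespace Pool.Agent.Lib.MP_021685_agU

open Matrix Function Module

variable {C : Type*} [Field C] [CharZero C] [IsAlgClosed C] {K : Type*} [Fintype K] [DecidableEq K]

/-- The endomorphism of rank `card` attached to the place `f`. -/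
noncomputable def PF {C K X I : Type*} [Field C] [Fintype I] [DecidableEq X] (Y : FFT.Sys C I X)
    (w l : I → K → C) (f : X) : Matrix K K C :=
  ∑ i, if Y.φ i = f then vecMulVec (w i) (l i) else 0

/-- A frame: the space is the direct sum of the images of the `a' χ * PF (ρ χ) * a χ`, `χ ∈ X`; the
`w i` with `φ i = f` form a basis of the image of `PF f`, with dual linear forms `l i`; the
`a χ`, `a' χ` are in the complex span of the endomorphism algebra and identify the summand `χ` with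
the image of `PF (ρ χ)`. -/
structure RFr (D : TData C K) (X I : Type*) [Fintype X] [DecidableEq X] [Fintype I] [DecidableEq I]
    where
  Y : FFT.Sys C I X
  ρ : X → X
  c : X → X
  a : X → Matrix K K C
  a' : X → Matrix K K C
  w : I → K → C
  l : I → K → C
  a_mem : ∀ χ, a χ ∈ RC D
  a'_mem : ∀ χ, a' χ ∈ RC D
  P_mem : ∀ f, PF Y w l f ∈ RC D
  dual : ∀ i i', l i ⬝ᵥ w i' = if i = i' then 1 else 0
  aa' : ∀ χ χ', a χ * a' χ' = if χ = χ' then PF Y w l (ρ χ) else 0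
  scal : ∀ χ χ', ∀ Z ∈ RC D, ∃ z : C,
    a χ * Z * a' χ' = if ρ χ = ρ χ' then z • PF Y w l (ρ χ) else 0
  Pa : ∀ χ, PF Y w l (ρ χ) * a χ = a χ
  a'P : ∀ χ, a' χ * PF Y w l (ρ χ) = a' χ
  res : ∑ χ, a' χ * a χ = 1
  φ_bar : ∀ i χ, ρ χ = Y.φ i → ρ (c χ) = Y.φ (Y.bar i)
  cc : ∀ χ, c (c χ) = χ
  bil : ∀ f, ∃ b ∈ RC D, ∀ x y : K → C,
    ∑ i, (if Y.φ i = f then Y.ε i * (l i ⬝ᵥ x) * (l (Y.bar i) ⬝ᵥ y) else 0) = D.B (b *ᵥ x) y
  exp : ∃ d : X → C, ∀ x y : K → C, D.B x y = ∑ χ, d χ *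
    ∑ i, (if Y.φ i = ρ χ then
      Y.ε i * (l i ⬝ᵥ (a χ *ᵥ x)) * (l (Y.bar i) ⬝ᵥ (a (c χ) *ᵥ y)) else 0)

section RE_aux

variable {D : TData C K} {X : Type*} [Fintype X] [DecidableEq X] {Q : Idem D X} {R : Rel Q}
  {Fo : Form R} {ι : Type} [Fintype ι] [DecidableEq ι]

/-- The index system of a system of vectors. -/
def RE_Y (b : PBas Fo ι) : FFT.Sys C ι X where
  bar := b.bar
  ε := b.ε
  φ := b.φ
  η := Fo.η
  bar_bar := b.bar_bar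
  ε_sq := b.ε_sq
  ε_bar := b.ε_bar
  η_eq := Fo.η_eq
  φ_bar := by
    intro i j h
    rw [b.φ_bar, b.φ_bar, h]

theorem RE_PF1 (b : PBas Fo ι) (hb : ∀ f, R.ρ f = f →
    Q.p f = ∑ i, if b.φ i = f then vecMulVec (b.w i) (b.l i) else 0) {f : X} (hf : R.ρ f = f) :
    PF (RE_Y b) b.w b.l f = Q.p f := (hb f hf).symm

theorem RE_PF0 (b : PBas Fo ι) {f : X} (hf : R.ρ f ≠ f) : PF (RE_Y b) b.w b.l f = 0 := by
  unfold PF
  refine Finset.sum_eq_zero fun i _ => ?_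
  rw [if_neg]
  intro h
  have h1 : b.φ i = f := h
  exact hf (h1 ▸ b.rep i)

theorem RE_vmv (u v x : K → C) : vecMulVec u v *ᵥ x = (v ⬝ᵥ x) • u := by
  ext k
  simp only [Matrix.mulVec, dotProduct, vecMulVec_apply, Pi.smul_apply, smul_eq_mul,
    Finset.sum_mul]
  refine Finset.sum_congr rfl fun l _ => ?_
  ring

theorem RE_p (b : PBas Fo ι) (hb : ∀ f, R.ρ f = f →
    Q.p f = ∑ i, if b.φ i = f then vecMulVec (b.w i) (b.l i) else 0) {f : X} (hf : R.ρ f = f)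
    (x : K → C) : Q.p f *ᵥ x = ∑ i, if b.φ i = f then (b.l i ⬝ᵥ x) • b.w i else 0 := by
  rw [hb f hf, Matrix.sum_mulVec]
  refine Finset.sum_congr rfl fun i _ => ?_
  split_ifs
  · exact RE_vmv _ _ _
  · exact Matrix.zero_mulVec x

/-- `B (x, Y y) = B (adj Y x, y)`. -/
theorem RE_B_adj' (Y : Matrix K K C) (u v : K → C) : D.B u (Y *ᵥ v) = D.B (adj D Y *ᵥ u) v := by
  rw [B_adj, adj_adj]

theorem RE_l_bar (b : PBas Fo ι) (i : ι) (y : K → C) :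
    D.B (Fo.β (b.φ i) *ᵥ b.w i) y = b.ε i * (b.l (b.bar i) ⬝ᵥ y) := by
  rw [b.l_apply, b.bar_bar, b.φ_bar, B_adj (Fo.β (R.ρ (Q.c (b.φ i)))), Fo.adj _ (b.rep i),
    Matrix.smul_mulVec, map_smul, B_symm y, b.ε_bar, smul_eq_mul]
  have h1 := b.ε_sq i
  have h2 : Fo.η (b.φ i) * Fo.η (b.φ i) = 1 := by
    rcases Fo.η_eq (b.φ i) with h | h <;> rw [h] <;> norm_num
  linear_combination (-D.B (Fo.β (b.φ i) *ᵥ b.w i) y * (Fo.η (b.φ i) * Fo.η (b.φ i)) *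
    (D.e * D.e)) * h1 - D.B (Fo.β (b.φ i) *ᵥ b.w i) y * (D.e * D.e) * h2 -
    D.B (Fo.β (b.φ i) *ᵥ b.w i) y * D.e_sq

theorem RE_bil (b : PBas Fo ι) (hb : ∀ f, R.ρ f = f →
    Q.p f = ∑ i, if b.φ i = f then vecMulVec (b.w i) (b.l i) else 0) {f : X} (hf : R.ρ f = f)
    (x y : K → C) :
    ∑ i, (if b.φ i = f then b.ε i * (b.l i ⬝ᵥ x) * (b.l (b.bar i) ⬝ᵥ y) else 0) =
      D.B (Fo.β f *ᵥ x) y := by
  have h1 : Fo.β f *ᵥ x = Fo.β f *ᵥ (Q.p f *ᵥ x) := by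
    rw [Matrix.mulVec_mulVec]
    congr 1
    conv_rhs => rw [← Fo.pβ f hf, mul_assoc, Q.idem, Fo.pβ f hf]
  rw [h1, RE_p b hb hf, Matrix.mulVec_sum, map_sum, LinearMap.sum_apply]
  refine Finset.sum_congr rfl fun i _ => ?_
  split_ifs with h
  · rw [Matrix.mulVec_smul, map_smul, LinearMap.smul_apply, smul_eq_mul, ← h, RE_l_bar]
    ring
  · rw [Matrix.mulVec_zero, map_zero, LinearMap.zero_apply]

/-- The adjoint of `a' χ`. -/
theorem RE_adj_a' (Fo : Form R) (χ : X) : ∃ z : C, adj D (R.a' χ) =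
    z • (Fo.β (R.ρ (Q.c (R.ρ χ))) * R.a (Q.c χ)) := by
  have hf : R.ρ (R.ρ χ) = R.ρ χ := R.ρρ χ
  have hf' : R.ρ (R.ρ (Q.c (R.ρ χ))) = R.ρ (Q.c (R.ρ χ)) := R.ρρ _
  have hc : R.ρ (Q.c χ) = R.ρ (Q.c (R.ρ χ)) := R.ρc _ _ hf.symm
  have hd : R.ρ (Q.c (R.ρ (Q.c (R.ρ χ)))) = R.ρ χ := R.dual_dual hf
  have h1 : Q.p (Q.c (R.ρ χ)) * adj D (R.a' χ) * Q.p (Q.c χ) = adj D (R.a' χ) := by
    conv_rhs => rw [← R.pa' χ]
    rw [adj_mul, adj_mul, Q.adj, Q.adj, mul_assoc]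
  have h1a : Q.p (Q.c (R.ρ χ)) * adj D (R.a' χ) = adj D (R.a' χ) := by
    rw [← h1, ← mul_assoc, ← mul_assoc, Q.idem]
  have h1b : adj D (R.a' χ) * Q.p (Q.c χ) = adj D (R.a' χ) := by
    rw [← h1, mul_assoc, Q.idem]
  have h2 := Fo.ββ' _ hf'
  rw [hd] at h2
  have h3 := Fo.pβ' _ hf'
  rw [hd] at h3
  have h3a : Q.p (R.ρ (Q.c (R.ρ χ))) * Fo.β' (R.ρ (Q.c (R.ρ χ))) =
      Fo.β' (R.ρ (Q.c (R.ρ χ))) := by
    rw [← h3, ← mul_assoc, ← mul_assoc, Q.idem]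
  have h4 : R.a' (Q.c χ) * Q.p (R.ρ (Q.c χ)) = R.a' (Q.c χ) := by
    rw [← R.pa' (Q.c χ), mul_assoc, Q.idem]
  have h4a : Q.p (R.ρ (Q.c χ)) * R.a (Q.c χ) = R.a (Q.c χ) := by
    rw [← R.pa (Q.c χ), ← mul_assoc, ← mul_assoc, Q.idem]
  obtain ⟨z, hz⟩ := Q.prim (R.ρ (Q.c (R.ρ χ)))
    (Fo.β' (R.ρ (Q.c (R.ρ χ))) * adj D (R.a' χ) * R.a' (Q.c χ))
    (mul_mem (mul_mem (Fo.β'_mem _) (adj_mem (R.a'_mem _))) (R.a'_mem _))
  refine ⟨z, ?_⟩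
  have h5 : Fo.β' (R.ρ (Q.c (R.ρ χ))) * adj D (R.a' χ) * R.a' (Q.c χ) =
      z • Q.p (R.ρ (Q.c (R.ρ χ))) := by
    rw [← hz, ← mul_assoc, ← mul_assoc, h3a, mul_assoc _ _ (Q.p _), ← hc, h4]
  have h6 : Fo.β' (R.ρ (Q.c (R.ρ χ))) * adj D (R.a' χ) = z • R.a (Q.c χ) := by
    calc Fo.β' (R.ρ (Q.c (R.ρ χ))) * adj D (R.a' χ)
        = Fo.β' (R.ρ (Q.c (R.ρ χ))) * (adj D (R.a' χ) * Q.p (Q.c χ)) := by rw [h1b]
      _ = Fo.β' (R.ρ (Q.c (R.ρ χ))) * adj D (R.a' χ) * R.a' (Q.c χ) * R.a (Q.c χ) := by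
          rw [← R.a'a (Q.c χ)]
          simp only [mul_assoc]
      _ = z • R.a (Q.c χ) := by rw [h5, smul_mul_assoc, ← hc, h4a]
  calc adj D (R.a' χ) = Q.p (Q.c (R.ρ χ)) * adj D (R.a' χ) := h1a.symm
    _ = Fo.β (R.ρ (Q.c (R.ρ χ))) * (Fo.β' (R.ρ (Q.c (R.ρ χ))) * adj D (R.a' χ)) := by
        rw [← h2, mul_assoc]
    _ = _ := by rw [h6, mul_smul_comm]

theorem RE_term (Fo : Form R) (χ : X) : ∃ d : C, ∀ x y : K → C, D.B (Q.p χ *ᵥ x) y =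
    d * D.B (Fo.β (R.ρ χ) *ᵥ (R.a χ *ᵥ x)) (R.a (Q.c χ) *ᵥ y) := by
  obtain ⟨z, hz⟩ := RE_adj_a' Fo χ
  refine ⟨z * D.e * Fo.η (R.ρ χ), fun x y => ?_⟩
  have hf : R.ρ (R.ρ χ) = R.ρ χ := R.ρρ χ
  rw [← R.a'a χ, ← Matrix.mulVec_mulVec, B_adj, hz, Matrix.smul_mulVec, map_smul,
    ← Matrix.mulVec_mulVec, RE_B_adj', Fo.adj _ hf, Matrix.smul_mulVec, map_smul,
    LinearMap.smul_apply, smul_eq_mul, smul_eq_mul]
  ring

end RE_aux

/-- PROOF. Take `Q` (`exists_idem`), `R` (`exists_rel`), `Fo` (`exists_form`), `b` (`exists_pbas`);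
`X = Fin m`, `I = ι`. `Y`: `bar`, `ε`, `φ` of `b`, `η = Fo.η` (`φ_bar` of `Sys`: from `PBas.φ_bar`).
`PF f = Q.p f` if `ρ f = f`, and `PF f = 0` otherwise (`rep`). `ρ`, `a`, `a'` of `R`, `c` of `Q`, `w`, `l`
of `b`.
* `aa'`: `R.aa'`, `aa'_ne`; `scal`: `Rel.scal`; `Pa`, `a'P` from `pa`, `pa'`; `res`: `a'a` and `Q.sum`.
* `φ_bar`: `ρ χ = φ i`, so `ρ (c χ) = ρ (c (φ i))` (`ρc` with `ρ (φ i) = φ i`) `= φ (bar i)`.
* `bil`: `b = β f * p f` (if `ρ f = f`; otherwise no `i` has `φ i = f` and `b = 0`). For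
`u = p f x = ∑_{φ i = f} (l i ⬝ᵥ x) w i`: `B (β f x, y) = ∑ (l i ⬝ᵥ x) B (β f w i, y)`, and
`B (β f w i, y) = ε i * (l (bar i) ⬝ᵥ y)`: with `f' = φ (bar i)`, `B (β f w i, y) = B (β f w i, p f' y)`
and `p f' y = ∑_{φ j = f'} (l j ⬝ᵥ y) w j`, `form`.
* `exp`: `B (x, y) = ∑ χ, B (p χ x, y) = ∑ χ, B (p χ x, p (c χ) y)` (`Q.adj`). With `f = ρ χ`,
`f' = ρ (c f) = ρ (c χ)`, `p χ = a' χ a χ`: `B (a' χ a χ x, p (c χ) y) = B (a χ x, adj (a' χ) p (c χ) y)`, and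
`adj (a' χ) = p (c f) adj (a' χ) p (c χ) = β f' (β' f' adj (a' χ) p (c χ))` (`ββ'` for `f'`: `β f' β' f' =
p (c f'') = p (c f)`); `β' f' adj (a' χ) p (c χ)` is in `p f' RC p (c χ)`, so it is `z • a (c χ)`
(`W = W p (c χ) = W a' (c χ) a (c χ)` and `W a' (c χ) = z • p f'` by `prim`; `pβ'` for `f'`:
`p f' * β' f' * p (c f) = β' f'`). So the term is `z B (a χ x, β f' a (c χ) y) =
z B (adj (β f') a χ x, a (c χ) y) = - z η f B (β f a χ x, a (c χ) y)`, and `bil`. -/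
theorem exists_rfr (D : TData C K) : ∃ (m : ℕ) (I : Type) (_ : Fintype I) (_ : DecidableEq I),
    Nonempty (RFr D (Fin m) I) := by
  obtain ⟨m, ⟨Q⟩⟩ := exists_idem D
  obtain ⟨R⟩ := exists_rel Q
  obtain ⟨Fo⟩ := exists_form R
  obtain ⟨ι, i1, i2, b, hb⟩ := exists_pbas Fo
  refine ⟨m, ι, i1, i2, ⟨?_⟩⟩
  exact
  { Y := RE_Y b
    ρ := R.ρ
    c := Q.c
    a := R.a
    a' := R.a'
    w := b.w
    l := b.l
    a_mem := R.a_mem
    a'_mem := R.a'_mem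
    P_mem := by
      intro f
      by_cases hf : R.ρ f = f
      · rw [RE_PF1 b hb hf]
        exact Q.mem f
      · rw [RE_PF0 b hf]
        exact zero_mem _
    dual := b.l_w
    aa' := by
      intro χ χ'
      by_cases h : χ = χ'
      · rw [if_pos h, RE_PF1 b hb (R.ρρ χ), ← h, R.aa']
      · rw [if_neg h, R.aa'_ne h]
    scal := by
      intro χ χ' Z hZ
      obtain ⟨z, hz⟩ := R.scal χ χ' hZ
      refine ⟨z, ?_⟩
      rw [hz, RE_PF1 b hb (R.ρρ χ)]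
    Pa := by
      intro χ
      rw [RE_PF1 b hb (R.ρρ χ), ← R.pa χ, ← mul_assoc, ← mul_assoc, Q.idem]
    a'P := by
      intro χ
      rw [RE_PF1 b hb (R.ρρ χ), ← R.pa' χ, mul_assoc, Q.idem]
    res := by
      rw [← Q.sum]
      exact Finset.sum_congr rfl fun χ _ => R.a'a χ
    φ_bar := by
      intro i χ h
      have h1 : R.ρ χ = b.φ i := h
      have h2 : b.φ (b.bar i) = R.ρ (Q.c (b.φ i)) := b.φ_bar i
      have h3 : R.ρ χ = R.ρ (b.φ i) := by rw [b.rep i, h1]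
      exact (R.ρc _ _ h3).trans h2.symm
    cc := Q.c_c
    bil := by
      intro f
      by_cases hf : R.ρ f = f
      · exact ⟨Fo.β f, Fo.β_mem f, fun x y => RE_bil b hb hf x y⟩
      · refine ⟨0, zero_mem _, fun x y => ?_⟩
        rw [Matrix.zero_mulVec, map_zero, LinearMap.zero_apply]
        refine Finset.sum_eq_zero fun i _ => ?_
        rw [if_neg]
        intro h
        have h1 : b.φ i = f := h
        exact hf (h1 ▸ b.rep i)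
    exp := by
      choose d hd using RE_term Fo
      refine ⟨d, fun x y => ?_⟩
      have h1 : x = ∑ χ, Q.p χ *ᵥ x := by
        rw [← Matrix.sum_mulVec, Q.sum, Matrix.one_mulVec]
      have h2 : D.B x y = ∑ χ, D.B (Q.p χ *ᵥ x) y := by
        conv_lhs => rw [h1]
        rw [map_sum, LinearMap.sum_apply]
      rw [h2]
      refine Finset.sum_congr rfl fun χ _ => ?_
      rw [hd χ, ← RE_bil b hb (R.ρρ χ)]
      rfl }

end Pool.Agent.Lib.MP_021685_agU
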