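import Pool.Agent.Lib.MP_021685_agU.PO

/-!
# Tensors on `A` copies of a space: derivations attached to matrices
-/

set_option autoImplicit false
set_option linter.unusedSectionVars false

namespace Pool.Agent.Lib.MP_021685_agU

open Matrix Function Module

/-- The bilinear form with matrix `N` between the copies `a` and `b` of the space. -/
def pr {R K A : Type*} [Zero R] [DecidableEq A] (N : Matrix K K R) (a b : A) (y z : A × K) : R :=
  if y.1 = a ∧ z.1 = b then N y.2 z.2 else 0

/-- The diagonal action of the matrix `X` on `A` copies of the space. -/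
def lift {R K : Type*} [Zero R] (A : Type*) [DecidableEq A] (X : Matrix K K R) :
    Matrix (A × K) (A × K) R :=
  Matrix.of fun p q => if p.1 = q.1 then X p.2 q.2 else 0

section Kill

variable {C S A K : Type*} [CommRing C] [Fintype S] [DecidableEq S] [Fintype K] [DecidableEq K]

/-- The derivation of tensors attached to the matrix `X`. -/
def DX (X : Matrix K K C) (T : (S → A × K) → C) (j : S → A × K) : C :=
  ∑ s, ∑ k, T (update j s ((j s).1, k)) * X k (j s).2

theorem DX_add_left (X Y : Matrix K K C) (T : (S → A × K) → C) (j : S → A × K) :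
    DX (X + Y) T j = DX X T j + DX Y T j := by
  simp only [DX, Matrix.add_apply, mul_add, Finset.sum_add_distrib]

theorem DX_smul_left (c : C) (X : Matrix K K C) (T : (S → A × K) → C) (j : S → A × K) :
    DX (c • X) T j = c * DX X T j := by
  simp only [DX, Matrix.smul_apply, smul_eq_mul, Finset.mul_sum]
  refine Finset.sum_congr rfl fun s _ => Finset.sum_congr rfl fun k _ => ?_
  ring

theorem DX_DX (X Y : Matrix K K C) (T : (S → A × K) → C) (j : S → A × K) :
    DX X (DX Y T) j = DX (Y * X) T j + ∑ s, ∑ t ∈ Finset.univ.erase s, ∑ k, ∑ l,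
      T (update (update j s ((j s).1, k)) t ((j t).1, l)) * (Y l (j t).2 * X k (j s).2) := by
  classical
  unfold DX
  rw [← Finset.sum_add_distrib]
  refine Finset.sum_congr rfl fun s _ => ?_
  have h1 : ∀ k, (∑ t, ∑ l, T (update (update j s ((j s).1, k)) t
        ((update j s ((j s).1, k) t).1, l)) * Y l (update j s ((j s).1, k) t).2) * X k (j s).2 =
      ∑ l, T (update j s ((j s).1, l)) * (Y l k * X k (j s).2) +
      ∑ t ∈ Finset.univ.erase s, ∑ l, T (update (update j s ((j s).1, k)) t ((j t).1, l)) *
        (Y l (j t).2 * X k (j s).2) := by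
    intro k
    rw [← Finset.add_sum_erase Finset.univ _ (Finset.mem_univ s), add_mul, Finset.sum_mul,
      Finset.sum_mul]
    congr 1
    · refine Finset.sum_congr rfl fun l _ => ?_
      rw [update_self, update_idem]
      ring
    · refine Finset.sum_congr rfl fun t ht => ?_
      rw [Finset.sum_mul]
      refine Finset.sum_congr rfl fun l _ => ?_
      rw [update_of_ne (Finset.ne_of_mem_erase ht)]
      ring
  simp only [h1]
  rw [Finset.sum_add_distrib]
  congr 1
  · rw [Finset.sum_comm]
    refine Finset.sum_congr rfl fun l _ => ?_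
    rw [Matrix.mul_apply, Finset.mul_sum]
  · rw [Finset.sum_comm]

theorem DX_comm (X Y : Matrix K K C) (T : (S → A × K) → C) (j : S → A × K) :
    DX X (DX Y T) j - DX Y (DX X T) j = DX (Y * X) T j - DX (X * Y) T j := by
  classical
  rw [DX_DX, DX_DX]
  have h : (∑ s, ∑ t ∈ Finset.univ.erase s, ∑ k, ∑ l,
      T (update (update j s ((j s).1, k)) t ((j t).1, l)) * (Y l (j t).2 * X k (j s).2)) =
      ∑ s, ∑ t ∈ Finset.univ.erase s, ∑ k, ∑ l,
      T (update (update j s ((j s).1, k)) t ((j t).1, l)) * (X l (j t).2 * Y k (j s).2) := by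
    have h2 : ∀ F : S → S → C, ∑ s, ∑ t ∈ Finset.univ.erase s, F s t =
        ∑ s, ∑ t ∈ Finset.univ.erase s, F t s := by
      intro F
      refine Finset.sum_comm' fun x y => ?_
      simp only [Finset.mem_univ, Finset.mem_erase, true_and, and_true]
      exact ne_comm
    rw [h2]
    refine Finset.sum_congr rfl fun s _ => Finset.sum_congr rfl fun t ht => ?_
    rw [Finset.sum_comm]
    refine Finset.sum_congr rfl fun k _ => Finset.sum_congr rfl fun l _ => ?_
    rw [update_comm (Finset.ne_of_mem_erase ht)]
    ring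
  rw [h]
  ring

theorem DX_smul_right (c : C) (X : Matrix K K C) (T : (S → A × K) → C) (j : S → A × K) :
    DX X (c • T) j = c * DX X T j := by
  simp only [DX, Pi.smul_apply, smul_eq_mul, Finset.mul_sum, mul_assoc]

theorem DX_add_right (X : Matrix K K C) (T T' : (S → A × K) → C) (j : S → A × K) :
    DX X (T + T') j = DX X T j + DX X T' j := by
  simp only [DX, Pi.add_apply, add_mul, Finset.sum_add_distrib]

theorem DX_eq_DM [Fintype A] [DecidableEq A] (X : Matrix K K C) (T : (S → A × K) → C)
    (j : S → A × K) : DX X T j = DM (lift A X) T j := by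
  unfold DX DM
  refine Finset.sum_congr rfl fun s _ => ?_
  rw [Fintype.sum_prod_type, Finset.sum_eq_single (j s).1]
  · refine Finset.sum_congr rfl fun k _ => ?_
    congr 1
    simp [lift]
  · intro b _ hb
    refine Finset.sum_eq_zero fun k _ => ?_
    simp [lift, hb]
  · intro h
    exact absurd (Finset.mem_univ _) h

theorem DX_equiv {S' : Type*} [Fintype S'] [DecidableEq S'] (e : S' ≃ S) (X : Matrix K K C)
    (T : (S → A × K) → C) (j : S' → A × K) :
    DX X (fun j' : S' → A × K => T (j' ∘ e.symm)) j = DX X T (j ∘ e.symm) := by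
  unfold DX
  rw [← Equiv.sum_comp e]
  refine Finset.sum_congr rfl fun s _ => ?_
  have h1 : (j ∘ e.symm) (e s) = j s := by simp
  rw [h1]
  refine Finset.sum_congr rfl fun k _ => ?_
  have h2 : update j s ((j s).1, k) ∘ e.symm = update (j ∘ e.symm) (e s) ((j s).1, k) := by
    funext t
    by_cases ht : t = e s
    · subst ht
      simp
    · rw [update_of_ne ht, Function.comp_apply, update_of_ne (fun h => ht (by rw [← h, e.apply_symm_apply])),
        Function.comp_apply]
  show T (update j s ((j s).1, k) ∘ e.symm) * _ = _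
  rw [h2]

end Kill

section Slices

variable {C K A S₁ S₂ : Type*} [CommRing C] [Fintype K] [DecidableEq K] [Fintype A] [DecidableEq A]
  [Fintype S₁] [DecidableEq S₁] [Fintype S₂] [DecidableEq S₂]

/-- The derivation on a disjoint union of sets of slots. -/
theorem DX_sum (X : Matrix K K C) (T : (S₁ ⊕ S₂ → A × K) → C) (x : S₁ → A × K) (y : S₂ → A × K) :
    DX X T (Sum.elim x y) = DX X (fun x' => T (Sum.elim x' y)) x +
      DX X (fun y' => T (Sum.elim x y')) y := by
  unfold DX
  rw [Fintype.sum_sum_type]
  congr 1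
  · refine Finset.sum_congr rfl fun s _ => Finset.sum_congr rfl fun k _ => ?_
    rw [Sum.elim_inl, Sum.update_elim_inl]
  · refine Finset.sum_congr rfl fun s _ => Finset.sum_congr rfl fun k _ => ?_
    rw [Sum.elim_inr, Sum.update_elim_inr]

end Slices

/-- The data: a non-degenerate symmetric or alternating form (Gram matrix `G`, sign `e`) and a set `g` of
skew matrices which acts semisimply (by commutators) on the matrices. -/
structure TData (C : Type*) [Field C] (K : Type*) [Fintype K] [DecidableEq K] where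
  G : Matrix K K C
  g : Set (Matrix K K C)
  e : C
  e_sq : e * e = 1
  G_symm : Gᵀ = e • G
  G_unit : IsUnit G.det
  g_skew : ∀ X ∈ g, Xᵀ * G + G * X = 0
  compl : ∀ U : Submodule C (Matrix K K C), (∀ X ∈ g, ∀ Y ∈ U, X * Y - Y * X ∈ U) →
    ∃ W : Submodule C (Matrix K K C), (∀ X ∈ g, ∀ Y ∈ W, X * Y - Y * X ∈ W) ∧ IsCompl U W

namespace TData

variable {C : Type*} [Field C] {K : Type*} [Fintype K] [DecidableEq K]

/-- The form. -/
noncomputable def B (D : TData C K) : (K → C) →ₗ[C] (K → C) →ₗ[C] C := Matrix.toLinearMap₂' C D.G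

theorem B_apply (D : TData C K) (u v : K → C) : D.B u v = u ⬝ᵥ (D.G *ᵥ v) := by
  unfold B
  rw [Matrix.toLinearMap₂'_apply']

/-- The matrices which kill all the tensors killed by `g`. -/
def lie (D : TData C K) : Submodule C (Matrix K K C) where
  carrier := {X | ∀ (m n : ℕ) (T : (Fin m → Fin n × K) → C),
    (∀ Y ∈ D.g, ∀ j, DX Y T j = 0) → ∀ j, DX X T j = 0}
  add_mem' := by
    intro X Y hX hY m n T hT j
    rw [DX_add_left, hX m n T hT, hY m n T hT, add_zero]
  zero_mem' := by
    intro m n T _ j
    simp [DX]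
  smul_mem' := by
    intro c X hX m n T hT j
    rw [DX_smul_left, hX m n T hT, mul_zero]

variable {D : TData C K}

theorem mem_lie {X : Matrix K K C} : X ∈ D.lie ↔ ∀ (m n : ℕ) (T : (Fin m → Fin n × K) → C),
    (∀ Y ∈ D.g, ∀ j, DX Y T j = 0) → ∀ j, DX X T j = 0 := Iff.rfl

theorem g_le_lie {X : Matrix K K C} (hX : X ∈ D.g) : X ∈ D.lie := fun _ _ _ h => h X hX

theorem lie_bracket {X Y : Matrix K K C} (hX : X ∈ D.lie) (hY : Y ∈ D.lie) :
    X * Y - Y * X ∈ D.lie := by
  intro m n T hT j
  have h3 := hX m n T hT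
  have g3 := hY m n T hT
  have h4 := DX_comm Y X T j
  have h5 : DX X T = 0 := funext h3
  have h6 : DX Y T = 0 := funext g3
  rw [h5, h6] at h4
  have h7 : X * Y - Y * X = X * Y + (-1 : C) • (Y * X) := by rw [neg_one_smul, sub_eq_add_neg]
  rw [h7, DX_add_left, DX_smul_left]
  have h8 : ∀ Z : Matrix K K C, DX Z (0 : (Fin m → Fin n × K) → C) j = 0 := by
    intro Z; simp [DX]
  rw [h8, h8] at h4
  linear_combination -h4

/-- The elements of the Lie algebra kill the tensors killed by `g`, for every finite set of slots. -/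
theorem kill_of_mem_lie {S : Type*} [Fintype S] [DecidableEq S] {X : Matrix K K C}
    (hX : X ∈ D.lie) {n : ℕ} (T : (S → Fin n × K) → C) (hT : ∀ Y ∈ D.g, ∀ j, DX Y T j = 0)
    (j : S → Fin n × K) : DX X T j = 0 := by
  let e : Fin (Fintype.card S) ≃ S := (Fintype.equivFin S).symm
  have h1 := hX (Fintype.card S) n (fun j' => T (j' ∘ e.symm)) (by
    intro Y hY j'
    rw [DX_equiv e Y T j']
    exact hT Y hY _) (j ∘ e)
  have h3 := DX_equiv e X T (j ∘ e)
  have h4 : (j ∘ e) ∘ e.symm = j := by
    funext s
    change j (e (e.symm s)) = j s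
    rw [e.apply_symm_apply]
  rw [h4] at h3
  rw [← h3]
  exact h1

end TData

end Pool.Agent.Lib.MP_021685_agU
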