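import Pool.Agent.Lib.MP_021685_agU.TA

/-!
# The commutant, adjoints, the Lie algebras `uu` and `ss`
-/

set_option autoImplicit false
set_option linter.unusedSectionVars false

namespace Pool.Agent.Lib.MP_021685_agU

open Matrix Function Module

variable {C : Type*} [Field C] {K : Type*} [Fintype K] [DecidableEq K] (D : TData C K)

/-- The matrices which commute with `g` (the endomorphism algebra). -/
def RC : Subalgebra C (Matrix K K C) where
  carrier := {Y | ∀ X ∈ D.g, Y * X = X * Y}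
  mul_mem' := by
    intro Y Z h h' X hX
    rw [mul_assoc, h' X hX, ← mul_assoc, h X hX, mul_assoc]
  add_mem' := by
    intro Y Z h h' X hX
    rw [add_mul, mul_add, h X hX, h' X hX]
  algebraMap_mem' := by
    intro c X _
    rw [Algebra.algebraMap_eq_smul_one, smul_mul_assoc, mul_smul_comm, one_mul, mul_one]

/-- The adjoint for the form. -/
noncomputable def adj (Y : Matrix K K C) : Matrix K K C := D.G⁻¹ * Yᵀ * D.G

/-- The matrices which commute with the endomorphisms and are skew for the form. -/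
def uu : Submodule C (Matrix K K C) where
  carrier := {X | (∀ N ∈ RC D, X * N = N * X) ∧ Xᵀ * D.G + D.G * X = 0}
  add_mem' := by
    rintro X Y ⟨h1, h2⟩ ⟨g1, g2⟩
    refine ⟨fun N hN => by rw [add_mul, mul_add, h1 N hN, g1 N hN], ?_⟩
    rw [transpose_add, add_mul, mul_add]
    calc _ = (Xᵀ * D.G + D.G * X) + (Yᵀ * D.G + D.G * Y) := by abel
      _ = 0 := by rw [h2, g2, add_zero]
  zero_mem' := ⟨fun N _ => by simp, by simp⟩
  smul_mem' := by
    rintro c X ⟨h1, h2⟩
    refine ⟨fun N hN => by rw [smul_mul_assoc, mul_smul_comm, h1 N hN], ?_⟩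
    rw [transpose_smul, smul_mul_assoc, mul_smul_comm, ← smul_add, h2, smul_zero]

/-- The elements of `uu` which are orthogonal to the endomorphisms for the trace form. -/
def ss : Submodule C (Matrix K K C) where
  carrier := {X | X ∈ uu D ∧ ∀ N ∈ RC D, (X * N).trace = 0}
  add_mem' := by
    rintro X Y ⟨h1, h2⟩ ⟨g1, g2⟩
    exact ⟨add_mem h1 g1, fun N hN => by rw [add_mul, trace_add, h2 N hN, g2 N hN, add_zero]⟩
  zero_mem' := ⟨zero_mem _, fun N _ => by simp⟩
  smul_mem' := by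
    rintro c X ⟨h1, h2⟩
    exact ⟨Submodule.smul_mem _ _ h1, fun N hN => by
      rw [smul_mul_assoc, trace_smul, h2 N hN, smul_zero]⟩

variable {D}

theorem mem_RC {Y : Matrix K K C} : Y ∈ RC D ↔ ∀ X ∈ D.g, Y * X = X * Y := Iff.rfl

theorem mem_uu {X : Matrix K K C} : X ∈ uu D ↔ (∀ N ∈ RC D, X * N = N * X) ∧
    Xᵀ * D.G + D.G * X = 0 := Iff.rfl

theorem mem_ss {X : Matrix K K C} : X ∈ ss D ↔ X ∈ uu D ∧ ∀ N ∈ RC D, (X * N).trace = 0 :=
  Iff.rfl

theorem isUnit_G : IsUnit D.G.det := D.G_unit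

theorem adj_mul (Y Z : Matrix K K C) : adj D (Y * Z) = adj D Z * adj D Y := by
  unfold adj
  rw [transpose_mul]
  have h1 := Matrix.mul_nonsing_inv D.G isUnit_G
  calc D.G⁻¹ * (Zᵀ * Yᵀ) * D.G = D.G⁻¹ * Zᵀ * 1 * Yᵀ * D.G := by
        rw [mul_one, mul_assoc D.G⁻¹ Zᵀ Yᵀ]
    _ = D.G⁻¹ * Zᵀ * (D.G * D.G⁻¹) * Yᵀ * D.G := by rw [h1]
    _ = D.G⁻¹ * Zᵀ * D.G * (D.G⁻¹ * Yᵀ * D.G) := by simp only [mul_assoc]

theorem adj_add (Y Z : Matrix K K C) : adj D (Y + Z) = adj D Y + adj D Z := by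
  unfold adj
  rw [transpose_add, mul_add, add_mul]

theorem adj_smul (c : C) (Y : Matrix K K C) : adj D (c • Y) = c • adj D Y := by
  unfold adj
  rw [transpose_smul, mul_smul_comm, smul_mul_assoc]

theorem adj_one : adj D 1 = 1 := by
  unfold adj
  rw [transpose_one, mul_one, Matrix.nonsing_inv_mul D.G isUnit_G]

theorem adj_zero : adj D 0 = 0 := by
  unfold adj
  rw [transpose_zero, mul_zero, zero_mul]

private theorem UB_tr : D.Gᵀ = D.e • D.G := D.G_symm

private theorem UB_inv_tr : (D.G⁻¹)ᵀ * D.G = D.e • 1 := by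
  have h1 := congrArg Matrix.transpose (Matrix.mul_nonsing_inv D.G isUnit_G)
  rw [transpose_mul, transpose_one, UB_tr, mul_smul_comm] at h1
  rw [← h1, smul_smul, D.e_sq, one_smul]

/-- PROOF. `Gᵀ = e G` (`G_symm`), so `adj (adj Y) = G⁻¹ (G⁻¹ Yᵀ G)ᵀ G = G⁻¹ Gᵀ Y (G⁻¹)ᵀ G = Y`. -/
theorem adj_adj (Y : Matrix K K C) : adj D (adj D Y) = Y := by
  unfold adj
  rw [transpose_mul, transpose_mul, transpose_transpose, UB_tr]
  have h1 := Matrix.nonsing_inv_mul D.G isUnit_G
  calc D.G⁻¹ * (D.e • D.G * (Y * (D.G⁻¹)ᵀ)) * D.G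
      = D.e • ((D.G⁻¹ * D.G) * Y * ((D.G⁻¹)ᵀ * D.G)) := by
        simp only [mul_assoc, smul_mul_assoc, mul_smul_comm]
    _ = Y := by rw [h1, UB_inv_tr, one_mul, mul_smul_comm, mul_one, smul_smul, D.e_sq, one_smul]

theorem trace_adj (Y : Matrix K K C) : (adj D Y).trace = Y.trace := by
  unfold adj
  rw [Matrix.trace_mul_comm, ← mul_assoc, Matrix.mul_nonsing_inv D.G isUnit_G, one_mul,
    trace_transpose]

/-- PROOF. `B_apply`, `dotProduct_mulVec`, `G * G⁻¹ = 1`. -/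
theorem B_adj (Y : Matrix K K C) (u v : K → C) : D.B (Y *ᵥ u) v = D.B u (adj D Y *ᵥ v) := by
  rw [TData.B_apply, TData.B_apply]
  have h1 : D.G *ᵥ (adj D Y *ᵥ v) = Yᵀ *ᵥ (D.G *ᵥ v) := by
    unfold adj
    rw [mulVec_mulVec, mulVec_mulVec]
    congr 1
    rw [mul_assoc D.G⁻¹, ← mul_assoc D.G, Matrix.mul_nonsing_inv D.G isUnit_G, one_mul]
  rw [h1, dotProduct_mulVec u Yᵀ, vecMul_transpose]

theorem B_symm (u v : K → C) : D.B u v = D.e * D.B v u := by
  rw [TData.B_apply, TData.B_apply, dotProduct_mulVec, ← mulVec_transpose, UB_tr, smul_mulVec,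
    smul_dotProduct, dotProduct_comm, smul_eq_mul]

/-- `B` is non-degenerate. -/
theorem eq_zero_of_B {v : K → C} (h : ∀ u, D.B u v = 0) : v = 0 := by
  have h1 : D.G *ᵥ v = 0 := by
    funext k
    have h2 := h (Pi.single k 1)
    rw [TData.B_apply, single_one_dotProduct] at h2
    exact h2
  calc v = (D.G⁻¹ * D.G) *ᵥ v := by rw [Matrix.nonsing_inv_mul D.G isUnit_G, one_mulVec]
    _ = 0 := by rw [← mulVec_mulVec, h1, mulVec_zero]

theorem eq_of_B {Y Z : Matrix K K C} (h : ∀ u v, D.B (Y *ᵥ u) v = D.B (Z *ᵥ u) v) : Y = Z := by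
  have h1 : ∀ u, Y *ᵥ u = Z *ᵥ u := by
    intro u
    have h2 : Y *ᵥ u - Z *ᵥ u = 0 := by
      apply eq_zero_of_B (D := D)
      intro v
      rw [map_sub, B_symm v, B_symm v, h u v, sub_self]
    exact sub_eq_zero.1 h2
  ext k l
  have h3 := congrFun (h1 (Pi.single l 1)) k
  rw [mulVec_single_one, mulVec_single_one] at h3
  exact h3

/-- A matrix is skew for the form if and only if it is the opposite of its adjoint. -/
theorem skew_iff (X : Matrix K K C) : Xᵀ * D.G + D.G * X = 0 ↔ adj D X = - X := by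
  unfold adj
  constructor
  · intro h
    have h1 := congrArg (fun Z => D.G⁻¹ * Z) h
    rw [mul_zero, mul_add, ← mul_assoc D.G⁻¹ D.G X, Matrix.nonsing_inv_mul D.G isUnit_G,
      one_mul, ← mul_assoc] at h1
    exact eq_neg_of_add_eq_zero_left h1
  · intro h
    have h1 := congrArg (fun Z => D.G * Z) h
    rw [mul_assoc D.G⁻¹, ← mul_assoc D.G, Matrix.mul_nonsing_inv D.G isUnit_G, one_mul,
      mul_neg] at h1
    rw [h1, neg_add_cancel]

theorem adj_g {X : Matrix K K C} (hX : X ∈ D.g) : adj D X = -X := (skew_iff X).1 (D.g_skew X hX)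

/-- PROOF. The adjoint of `Y X = X Y` with `adj X = - X`. -/
theorem adj_mem {Y : Matrix K K C} (hY : Y ∈ RC D) : adj D Y ∈ RC D := by
  intro X hX
  have h1 := congrArg (adj D) (hY X hX)
  rw [adj_mul, adj_mul, adj_g hX, neg_mul, mul_neg, neg_inj] at h1
  exact h1.symm

theorem DX_two (M Z : Matrix K K C) (a b : K) :
    DX Z (fun j : Fin 2 → Fin 1 × K => M (j 0).2 (j 1).2) ![(0, a), (0, b)] =
      (Zᵀ * M + M * Z) a b := by
  simp only [DX, Fin.sum_univ_two, Matrix.add_apply, Matrix.mul_apply, Matrix.transpose_apply]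
  congr 1
  refine Finset.sum_congr rfl fun k _ => ?_
  simp [update_of_ne, mul_comm]

/-- A matrix which commutes with the Lie algebra is in `RC`. -/
theorem mem_RC_of_comm {Y : Matrix K K C} (h : ∀ X ∈ D.lie, Y * X = X * Y) : Y ∈ RC D :=
  fun X hX => h X (TData.g_le_lie hX)

/-- The elements of the Lie algebra kill the bilinear forms killed by `g`. -/
theorem lie_two {M : Matrix K K C} (hM : ∀ Y ∈ D.g, Yᵀ * M + M * Y = 0) {X : Matrix K K C}
    (hX : X ∈ D.lie) : Xᵀ * M + M * X = 0 := by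
  ext a b
  rw [← DX_two, Matrix.zero_apply]
  refine hX 2 1 (fun j => M (j 0).2 (j 1).2) (fun Y hY j => ?_) _
  have h3 : j = ![(0, (j 0).2), (0, (j 1).2)] := by
    funext i
    fin_cases i
    · exact Prod.ext (Subsingleton.elim _ _) rfl
    · exact Prod.ext (Subsingleton.elim _ _) rfl
  rw [h3]
  have h2 := DX_two M Y (j 0).2 (j 1).2
  rw [hM Y hY, Matrix.zero_apply] at h2
  exact h2

/-- The elements of the Lie algebra are skew. -/
theorem lie_skew {X : Matrix K K C} (hX : X ∈ D.lie) : Xᵀ * D.G + D.G * X = 0 :=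
  lie_two D.g_skew hX

/-- The Lie algebra commutes with the endomorphisms and is skew. -/
theorem lie_le_uu {X : Matrix K K C} (hX : X ∈ D.lie) : X ∈ uu D := by
  have hsk := lie_skew hX
  refine mem_uu.mpr ⟨fun N hN => ?_, hsk⟩
  have hX0 : Xᵀ * (D.G * N) + (D.G * N) * X = 0 := by
    refine lie_two (fun Y hY => ?_) hX
    have h1 : Yᵀ * D.G = -(D.G * Y) := eq_neg_of_add_eq_zero_left (D.g_skew Y hY)
    rw [← Matrix.mul_assoc, h1, Matrix.neg_mul, Matrix.mul_assoc, Matrix.mul_assoc, hN Y hY,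
      neg_add_cancel]
  have h1 : Xᵀ * D.G = -(D.G * X) := eq_neg_of_add_eq_zero_left hsk
  rw [← Matrix.mul_assoc, h1, Matrix.neg_mul, neg_add_eq_zero, Matrix.mul_assoc, Matrix.mul_assoc] at hX0
  have h4 : D.G⁻¹ * (D.G * (X * N)) = D.G⁻¹ * (D.G * (N * X)) := by rw [hX0]
  rw [← Matrix.mul_assoc, ← Matrix.mul_assoc D.G⁻¹, Matrix.nonsing_inv_mul _ isUnit_G, Matrix.one_mul,
    Matrix.one_mul] at h4
  exact h4

theorem g_le_uu {X : Matrix K K C} (hX : X ∈ D.g) : X ∈ uu D := lie_le_uu (TData.g_le_lie hX)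

theorem uu_comm {X Y : Matrix K K C} (hX : X ∈ uu D) (hY : Y ∈ RC D) : X * Y = Y * X := hX.1 Y hY

theorem ss_trace {X Y : Matrix K K C} (hX : X ∈ ss D) (hY : Y ∈ RC D) : (X * Y).trace = 0 :=
  hX.2 Y hY

theorem ss_le_uu {X : Matrix K K C} (hX : X ∈ ss D) : X ∈ uu D := hX.1

/-- `uu` is closed under brackets. -/
theorem uu_bracket {X Y : Matrix K K C} (hX : X ∈ uu D) (hY : Y ∈ uu D) :
    X * Y - Y * X ∈ uu D := by
  refine mem_uu.mpr ⟨fun N hN => ?_, ?_⟩
  · rw [sub_mul, mul_sub, mul_assoc, uu_comm hY hN, ← mul_assoc, uu_comm hX hN, mul_assoc Y X N,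
      uu_comm hX hN, ← mul_assoc Y N X, uu_comm hY hN]
    noncomm_ring
  · rw [skew_iff]
    have h1 := (skew_iff X).1 hX.2
    have h2 := (skew_iff Y).1 hY.2
    have h3 : adj D (X * Y - Y * X) = adj D (X * Y) + (-1 : C) • adj D (Y * X) := by
      rw [← adj_smul, ← adj_add, neg_one_smul, sub_eq_add_neg]
    rw [h3, adj_mul, adj_mul, h1, h2]
    simp only [neg_one_smul]
    noncomm_ring

/-- `ss` is an ideal of `uu`. -/
theorem ss_bracket {X Y : Matrix K K C} (hX : X ∈ ss D) (hY : Y ∈ uu D) :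
    X * Y - Y * X ∈ ss D := by
  refine mem_ss.mpr ⟨uu_bracket hX.1 hY, fun N hN => ?_⟩
  have h1 : ((X * Y - Y * X) * N).trace = (X * (Y * N - N * Y)).trace := by
    rw [sub_mul, mul_sub, trace_sub, trace_sub, mul_assoc, mul_assoc Y X N,
      Matrix.trace_mul_comm Y (X * N), mul_assoc X N Y]
  rw [h1, uu_comm hY hN, sub_self, mul_zero, trace_zero]

end Pool.Agent.Lib.MP_021685_agU
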