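import Pool.Agent.Lib.MP_021685_agU.TB

/-!
# Semisimplicity: equivariant projections and generalised inverses
-/

set_option autoImplicit false
set_option linter.unusedSectionVars false

namespace Pool.Agent.Lib.MP_021685_agU

open Matrix Function Module

variable {C : Type*} [Field C] {K : Type*} [Fintype K] [DecidableEq K] (D : TData C K)

/-- An equivariant projection to a stable space of matrices. -/
theorem exists_proj (U : Submodule C (Matrix K K C)) (hU : ∀ X ∈ D.g, ∀ Y ∈ U, X * Y - Y * X ∈ U) :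
    ∃ r : Matrix K K C →ₗ[C] Matrix K K C, (∀ Y, r Y ∈ U) ∧ (∀ Y ∈ U, r Y = Y) ∧
      ∀ X ∈ D.g, ∀ Y, r (X * Y - Y * X) = X * r Y - r Y * X := by
  obtain ⟨W, hW, hc⟩ := D.compl U hU
  let q := Submodule.projectionOnto U W hc
  have hq1 : ∀ Y (hY : Y ∈ U), q Y = ⟨Y, hY⟩ := fun Y hY =>
    Submodule.projectionOnto_apply_left hc ⟨Y, hY⟩
  have hq2 : ∀ Y ∈ W, q Y = 0 := fun Y hY =>
    (Submodule.projectionOnto_apply_eq_zero_iff hc).2 hY
  refine ⟨U.subtype ∘ₗ q, fun Y => (q Y).2, fun Y hY => ?_, fun X hX Y => ?_⟩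
  · show ((q Y : U) : Matrix K K C) = Y
    rw [hq1 Y hY]
  · show ((q (X * Y - Y * X) : U) : Matrix K K C) = X * (q Y : Matrix K K C) - (q Y : Matrix K K C) * X
    have hmem : Y ∈ U ⊔ W := by rw [hc.sup_eq_top]; exact Submodule.mem_top
    obtain ⟨u, hu, w, hw, rfl⟩ := Submodule.mem_sup.1 hmem
    have h1 : X * (u + w) - (u + w) * X = (X * u - u * X) + (X * w - w * X) := by noncomm_ring
    rw [h1, map_add, hq1 _ (hU X hX u hu), hq2 _ (hW X hX w hw), add_zero, map_add, hq1 u hu,
      hq2 w hw, add_zero]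

theorem vmv_mulVec (v e u : K → C) : vecMulVec v e *ᵥ u = (e ⬝ᵥ u) • v := by
  rw [vecMulVec_mulVec, op_smul_eq_smul]

variable [CharZero C]

/-- A stable subspace is the image of an idempotent of the commutant.
PROOF. Let `r` be an equivariant projection to the matrices with image in `W`. Take
`p v = (1 / card K) ∑ k, r (v ⊗ e k) *ᵥ e k`. -/
theorem exists_RC_proj (W : Submodule C (K → C)) (hW : ∀ X ∈ D.g, ∀ v ∈ W, X *ᵥ v ∈ W) :
    ∃ p ∈ RC D, (∀ v, p *ᵥ v ∈ W) ∧ ∀ w ∈ W, p *ᵥ w = w := by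
  classical
  rcases isEmpty_or_nonempty K with hK | hK
  · refine ⟨0, (RC D).zero_mem, fun v => ?_, fun w _ => Subsingleton.elim _ _⟩
    rw [zero_mulVec]
    exact W.zero_mem
  let U : Submodule C (Matrix K K C) :=
    { carrier := {Y | ∀ v, Y *ᵥ v ∈ W}
      add_mem' := fun {Y Z} hY hZ v => by
        rw [add_mulVec]
        exact W.add_mem (hY v) (hZ v)
      zero_mem' := fun v => by
        rw [zero_mulVec]
        exact W.zero_mem
      smul_mem' := fun c Y hY v => by
        rw [smul_mulVec]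
        exact W.smul_mem c (hY v) }
  have hUm : ∀ Y : Matrix K K C, Y ∈ U ↔ ∀ v, Y *ᵥ v ∈ W := fun Y => Iff.rfl
  obtain ⟨r, hr1, hr2, hr3⟩ := exists_proj D U (fun X hX Y hY v => by
    rw [sub_mulVec, ← mulVec_mulVec, ← mulVec_mulVec]
    exact W.sub_mem (hW X hX _ (hY v)) (hY _))
  let e : K → K → C := fun k => Pi.single k 1
  have hn : (Fintype.card K : C) ≠ 0 := by
    exact_mod_cast Fintype.card_ne_zero
  let f : (K → C) →ₗ[C] (K → C) :=
    { toFun := fun v => (Fintype.card K : C)⁻¹ • ∑ k, r (vecMulVec v (e k)) *ᵥ e k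
      map_add' := fun v w => by
        rw [← smul_add, ← Finset.sum_add_distrib]
        congr 1
        refine Finset.sum_congr rfl fun k _ => ?_
        rw [add_vecMulVec, map_add, add_mulVec]
      map_smul' := fun c v => by
        rw [RingHom.id_apply, smul_comm c]
        congr 1
        rw [Finset.smul_sum]
        refine Finset.sum_congr rfl fun k _ => ?_
        rw [smul_vecMulVec, map_smul, smul_mulVec] }
  have hf : ∀ v, f v = (Fintype.card K : C)⁻¹ • ∑ k, r (vecMulVec v (e k)) *ᵥ e k := fun v => rfl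
  have hfW : ∀ v, f v ∈ W := fun v => by
    rw [hf]
    exact W.smul_mem _ (Submodule.sum_mem W fun k _ => hr1 (vecMulVec v (e k)) (e k))
  have hfw : ∀ w ∈ W, f w = w := by
    intro w hw
    rw [hf]
    have h1 : ∀ k, r (vecMulVec w (e k)) *ᵥ e k = w := by
      intro k
      have hm : vecMulVec w (e k) ∈ U := by
        rw [hUm]
        intro v
        rw [vmv_mulVec]
        exact W.smul_mem _ hw
      rw [hr2 _ hm, vmv_mulVec]
      simp [e]
    simp only [h1]
    rw [Finset.sum_const, Finset.card_univ, ← Nat.cast_smul_eq_nsmul C, smul_smul,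
      inv_mul_cancel₀ hn, one_smul]
  have hfX : ∀ X ∈ D.g, ∀ v, X *ᵥ f v = f (X *ᵥ v) := by
    intro X hX v
    rw [hf, hf, mulVec_smul]
    congr 1
    have h1 : ∀ k, X *ᵥ (r (vecMulVec v (e k)) *ᵥ e k) =
        r (vecMulVec (X *ᵥ v) (e k)) *ᵥ e k - r (vecMulVec v (e k ᵥ* X)) *ᵥ e k +
          r (vecMulVec v (e k)) *ᵥ (X *ᵥ e k) := by
      intro k
      have h2 := hr3 X hX (vecMulVec v (e k))
      rw [mul_vecMulVec, vecMulVec_mul, map_sub] at h2
      have h3 := congrArg (fun M => M *ᵥ e k) h2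
      simp only [sub_mulVec, ← mulVec_mulVec] at h3
      rw [h3, sub_add_cancel]
    have h4 : ∑ k, r (vecMulVec v (e k ᵥ* X)) *ᵥ e k = ∑ k, r (vecMulVec v (e k)) *ᵥ (X *ᵥ e k) := by
      have h5 : ∀ k, r (vecMulVec v (e k ᵥ* X)) = ∑ l, X k l • r (vecMulVec v (e l)) := by
        intro k
        have h6 : vecMulVec v (e k ᵥ* X) = ∑ l, X k l • vecMulVec v (e l) := by
          ext a b
          rw [Matrix.sum_apply, vecMulVec_apply, single_one_vecMul]
          simp [vecMulVec_apply, e, Pi.single_apply, mul_comm]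
        rw [h6, map_sum]
        refine Finset.sum_congr rfl fun l _ => ?_
        rw [map_smul]
      have h7 : ∀ k, X *ᵥ e k = ∑ l, X l k • e l := by
        intro k
        funext a
        rw [mulVec_single_one, Finset.sum_apply]
        simp [e, Pi.single_apply]
      simp only [h5, h7, sum_mulVec, mulVec_sum, smul_mulVec, mulVec_smul]
      rw [Finset.sum_comm]
    rw [mulVec_sum, Finset.sum_congr rfl fun k _ => h1 k, Finset.sum_add_distrib,
      Finset.sum_sub_distrib, h4, sub_add_cancel]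
  refine ⟨LinearMap.toMatrix' f, fun X hX => ?_, fun v => ?_, fun w hw => ?_⟩
  · apply Matrix.toLin'.injective
    rw [Matrix.toLin'_mul, Matrix.toLin'_mul, Matrix.toLin'_toMatrix']
    refine LinearMap.ext fun v => ?_
    simp only [LinearMap.comp_apply, Matrix.toLin'_apply]
    exact (hfX X hX v).symm
  · rw [← Matrix.toLin'_apply, Matrix.toLin'_toMatrix']
    exact hfW v
  · rw [← Matrix.toLin'_apply, Matrix.toLin'_toMatrix']
    exact hfw w hw

/-- The commutant is von Neumann regular.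
PROOF. Let `q`, `p ∈ RC` be idempotents with images `ker Y` and `Y (K → C)`, and `R` any matrix with
`Y R Y = Y`. Take `Z = (1 - q) R p`. -/
theorem exists_regular {Y : Matrix K K C} (hY : Y ∈ RC D) : ∃ Z ∈ RC D, Y * Z * Y = Y := by
  classical
  obtain ⟨q, hq, hq1, hq2⟩ := exists_RC_proj D (LinearMap.ker (Matrix.toLin' Y)) (by
    intro X hX v hv
    rw [LinearMap.mem_ker, Matrix.toLin'_apply] at hv ⊢
    rw [mulVec_mulVec, hY X hX, ← mulVec_mulVec, hv, mulVec_zero])
  obtain ⟨p, hp, hp1, hp2⟩ := exists_RC_proj D (LinearMap.range (Matrix.toLin' Y)) (by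
    rintro X hX v ⟨u, rfl⟩
    refine ⟨X *ᵥ u, ?_⟩
    rw [Matrix.toLin'_apply, Matrix.toLin'_apply, mulVec_mulVec, mulVec_mulVec, hY X hX])
  have hYq : Y * q = 0 := by
    apply Matrix.toLin'.injective
    rw [Matrix.toLin'_mul, map_zero]
    refine LinearMap.ext fun v => ?_
    have h1 := hq1 v
    rw [LinearMap.mem_ker] at h1
    simpa [LinearMap.comp_apply, Matrix.toLin'_apply] using h1
  have hpY : p * Y = Y := by
    apply Matrix.toLin'.injective
    rw [Matrix.toLin'_mul]
    refine LinearMap.ext fun v => ?_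
    rw [LinearMap.comp_apply, Matrix.toLin'_apply p]
    exact hp2 _ ⟨v, rfl⟩
  obtain ⟨R, hR⟩ : ∃ R : Matrix K K C, ∀ v, Y *ᵥ (R *ᵥ (p *ᵥ v)) = p *ᵥ v := by
    obtain ⟨s, hs⟩ := (Matrix.toLin' Y).rangeRestrict.exists_rightInverse_of_surjective
      (LinearMap.range_rangeRestrict _)
    obtain ⟨s', hs'⟩ := LinearMap.exists_extend s
    refine ⟨LinearMap.toMatrix' s', fun v => ?_⟩
    have h1 : (LinearMap.toMatrix' s') *ᵥ (p *ᵥ v) = s ⟨p *ᵥ v, hp1 v⟩ := by
      rw [← Matrix.toLin'_apply, Matrix.toLin'_toMatrix']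
      exact LinearMap.congr_fun hs' ⟨p *ᵥ v, hp1 v⟩
    rw [h1]
    have h2 := LinearMap.congr_fun hs ⟨p *ᵥ v, hp1 v⟩
    have h3 := congrArg Subtype.val h2
    exact h3
  have hYRp : Y * R * p = p := by
    apply Matrix.toLin'.injective
    refine LinearMap.ext fun v => ?_
    rw [Matrix.toLin'_apply, Matrix.toLin'_apply, ← mulVec_mulVec, ← mulVec_mulVec]
    exact hR v
  -- everything killed by `Y` is killed by `1 - q`
  have hker : ∀ M : Matrix K K C, Y * M = 0 → (1 - q) * M = 0 := by
    intro M hM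
    rw [sub_mul, one_mul, sub_eq_zero]
    apply Matrix.toLin'.injective
    refine LinearMap.ext fun v => ?_
    rw [Matrix.toLin'_apply, Matrix.toLin'_apply, ← mulVec_mulVec]
    symm
    apply hq2
    rw [LinearMap.mem_ker, Matrix.toLin'_apply, mulVec_mulVec, hM, zero_mulVec]
  refine ⟨(1 - q) * R * p, ?_, ?_⟩
  · intro X hX
    have h1 : Y * (R * X * p - X * R * p) = 0 := by
      have h2 : R * X * p = R * p * X := by rw [mul_assoc, ← hp X hX, mul_assoc]
      rw [h2, mul_sub]
      have h3 : Y * (R * p * X) = p * X := by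
        calc Y * (R * p * X) = (Y * R * p) * X := by noncomm_ring
          _ = p * X := by rw [hYRp]
      have h4 : Y * (X * R * p) = X * p := by
        calc Y * (X * R * p) = (Y * X) * R * p := by noncomm_ring
          _ = X * (Y * R * p) := by rw [hY X hX]; noncomm_ring
          _ = X * p := by rw [hYRp]
      rw [h3, h4, hp X hX, sub_self]
    have h5 := hker _ h1
    rw [mul_sub, sub_eq_zero] at h5
    have h6 : (1 - q) * X = X * (1 - q) := by rw [sub_mul, mul_sub, hq X hX, one_mul, mul_one]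
    calc (1 - q) * R * p * X = (1 - q) * R * (p * X) := by rw [mul_assoc]
      _ = (1 - q) * (R * X * p) := by rw [hp X hX]; noncomm_ring
      _ = (1 - q) * (X * R * p) := h5
      _ = ((1 - q) * X) * R * p := by noncomm_ring
      _ = X * ((1 - q) * R * p) := by rw [h6]; noncomm_ring
  · calc Y * ((1 - q) * R * p) * Y = Y * R * p * Y - (Y * q) * R * p * Y := by noncomm_ring
      _ = Y := by rw [hYq, hYRp, hpY]; noncomm_ring

/-- The trace form is non-degenerate on the commutant.
PROOF. `e = Y Z` with `Y Z Y = Y` is idempotent, so its trace is its rank, and `e Y = Y`. -/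
theorem RC_trace {Y : Matrix K K C} (hY : Y ∈ RC D) (h : ∀ Z ∈ RC D, (Y * Z).trace = 0) : Y = 0 := by
  obtain ⟨Z, hZ, hYZ⟩ := exists_regular D hY
  have h1 : IsIdempotentElem (Y * Z) := by
    show Y * Z * (Y * Z) = Y * Z
    rw [← mul_assoc, hYZ]
  have h2 : IsIdempotentElem (Matrix.toLin' (Y * Z)) := by
    show Matrix.toLin' (Y * Z) * Matrix.toLin' (Y * Z) = _
    rw [Module.End.mul_eq_comp, ← Matrix.toLin'_mul]
    congr 1
  have h3 := LinearMap.IsIdempotentElem.isProj_range _ h2
  have h4 := h3.trace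
  rw [Matrix.trace_toLin'_eq, h Z hZ] at h4
  have h5 : finrank C (LinearMap.range (Matrix.toLin' (Y * Z))) = 0 := by exact_mod_cast h4.symm
  have h6 : LinearMap.range (Matrix.toLin' (Y * Z)) = ⊥ := Submodule.finrank_eq_zero.1 h5
  have h7 : Matrix.toLin' (Y * Z) = 0 := LinearMap.range_eq_bot.1 h6
  have h8 : Y * Z = 0 := by
    apply Matrix.toLin'.injective
    rw [h7, map_zero]
  rw [← hYZ, h8, zero_mul]

end Pool.Agent.Lib.MP_021685_agU
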