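import Pool.Agent.Lib.MP_021685_agU.TN

/-!
# `ss` is contained in the Lie algebra if it kills the invariant tensors of degree four
-/

set_option autoImplicit false
set_option linter.unusedSectionVars false

namespace Pool.Agent.Lib.MP_021685_agU

open Matrix Function Module

variable {C : Type*} [Field C] {K : Type*} [Fintype K] [DecidableEq K] (D : TData C K)

/-- The matrix of `v ↦ B (e k₂, v) e k₁`. -/
def TD_E (k₁ k₂ : K) : Matrix K K C := vecMulVec (Pi.single k₁ 1) ((Pi.single k₂ 1) ᵥ* D.G)

/-- The tensor of a linear map of matrices. -/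
def TD_T (r : Matrix K K C →ₗ[C] Matrix K K C) : (Fin 4 → Fin 1 × K) → C := fun j =>
  (D.G * r (TD_E D (j 1).2 (j 2).2)) (j 0).2 (j 3).2

theorem TD_E_left (X : Matrix K K C) (k₁ k₂ : K) :
    ∑ k, X k k₁ • TD_E D k k₂ = X * TD_E D k₁ k₂ := by
  unfold TD_E
  rw [mul_vecMulVec, mulVec_single_one]
  ext a b
  rw [Matrix.sum_apply, vecMulVec_apply]
  simp [vecMulVec_apply, Pi.single_apply]

theorem TD_E_right {X : Matrix K K C} (hX : Xᵀ * D.G + D.G * X = 0) (k₁ k₂ : K) :
    ∑ k, X k k₂ • TD_E D k₁ k = -(TD_E D k₁ k₂ * X) := by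
  have h1 : Xᵀ * D.G = -(D.G * X) := eq_neg_of_add_eq_zero_left hX
  have h2 : ∀ b, ∑ k, X k k₂ * D.G k b = -(D.G * X) k₂ b := by
    intro b
    have h3 := congrFun (congrFun h1 k₂) b
    rw [Matrix.neg_apply] at h3
    rw [← h3, Matrix.mul_apply]
    rfl
  ext a b
  rw [Matrix.sum_apply, Matrix.neg_apply]
  unfold TD_E
  rw [vecMulVec_mul, vecMul_vecMul, vecMulVec_apply, single_one_vecMul, Matrix.row_apply, ← mul_neg,
    ← h2, Finset.mul_sum]
  refine Finset.sum_congr rfl fun k _ => ?_
  rw [Matrix.smul_apply, vecMulVec_apply, single_one_vecMul, Matrix.row_apply, smul_eq_mul]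
  ring

theorem TD_DX (r : Matrix K K C →ₗ[C] Matrix K K C) {X : Matrix K K C}
    (hX : Xᵀ * D.G + D.G * X = 0) (j : Fin 4 → Fin 1 × K) :
    DX X (TD_T D r) j = (D.G * (r (X * TD_E D (j 1).2 (j 2).2 - TD_E D (j 1).2 (j 2).2 * X) -
      (X * r (TD_E D (j 1).2 (j 2).2) - r (TD_E D (j 1).2 (j 2).2) * X))) (j 0).2 (j 3).2 := by
  have h1 : Xᵀ * D.G = -(D.G * X) := eq_neg_of_add_eq_zero_left hX
  set E := TD_E D (j 1).2 (j 2).2 with hE
  have t0 : ∑ k, TD_T D r (update j 0 ((j 0).1, k)) * X k (j 0).2 = (Xᵀ * (D.G * r E)) (j 0).2 (j 3).2 := by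
    rw [Matrix.mul_apply]
    refine Finset.sum_congr rfl fun k _ => ?_
    simp only [TD_T, update_self, Fin.isValue,
      update_of_ne (show (1 : Fin 4) ≠ 0 by decide), update_of_ne (show (2 : Fin 4) ≠ 0 by decide),
      update_of_ne (show (3 : Fin 4) ≠ 0 by decide), transpose_apply]
    rw [mul_comm]
  have t1 : ∑ k, TD_T D r (update j 1 ((j 1).1, k)) * X k (j 1).2 = (D.G * r (X * E)) (j 0).2 (j 3).2 := by
    rw [hE, ← TD_E_left, map_sum, Matrix.mul_sum, Matrix.sum_apply]
    refine Finset.sum_congr rfl fun k _ => ?_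
    rw [map_smul, Matrix.mul_smul, Matrix.smul_apply, smul_eq_mul, mul_comm]
    simp only [TD_T, update_self, 
      update_of_ne (show (0 : Fin 4) ≠ 1 by decide), update_of_ne (show (2 : Fin 4) ≠ 1 by decide),
      update_of_ne (show (3 : Fin 4) ≠ 1 by decide)]
  have t2 : ∑ k, TD_T D r (update j 2 ((j 2).1, k)) * X k (j 2).2 =
      (D.G * r (-(E * X))) (j 0).2 (j 3).2 := by
    rw [hE, ← TD_E_right D hX, map_sum, Matrix.mul_sum, Matrix.sum_apply]
    refine Finset.sum_congr rfl fun k _ => ?_
    rw [map_smul, Matrix.mul_smul, Matrix.smul_apply, smul_eq_mul, mul_comm]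
    simp only [TD_T, update_self, 
      update_of_ne (show (0 : Fin 4) ≠ 2 by decide), update_of_ne (show (1 : Fin 4) ≠ 2 by decide),
      update_of_ne (show (3 : Fin 4) ≠ 2 by decide)]
  have t3 : ∑ k, TD_T D r (update j 3 ((j 3).1, k)) * X k (j 3).2 =
      ((D.G * r E) * X) (j 0).2 (j 3).2 := by
    rw [Matrix.mul_apply]
    refine Finset.sum_congr rfl fun k _ => ?_
    simp only [TD_T, update_self, 
      update_of_ne (show (0 : Fin 4) ≠ 3 by decide), update_of_ne (show (1 : Fin 4) ≠ 3 by decide),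
      update_of_ne (show (2 : Fin 4) ≠ 3 by decide)]
    rw [hE]
  have hfin : Xᵀ * (D.G * r E) + D.G * r (X * E) + D.G * r (-(E * X)) + D.G * r E * X =
      D.G * (r (X * E - E * X) - (X * r E - r E * X)) := by
    rw [← Matrix.mul_assoc, h1, map_neg, map_sub]
    noncomm_ring
  unfold DX
  rw [Fin.sum_univ_four, t0, t1, t2, t3, ← hfin]
  rfl

theorem TD_span (M : Matrix K K C) :
    M ∈ Submodule.span C (Set.range fun k : K × K => TD_E D k.1 k.2) := by
  have h1 : M = ∑ k₁, ∑ k₂, (M * D.G⁻¹) k₁ k₂ • TD_E D k₁ k₂ := by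
    have h2 : M = (M * D.G⁻¹) * D.G := by
      rw [Matrix.mul_assoc, Matrix.nonsing_inv_mul D.G D.G_unit, Matrix.mul_one]
    set N := M * D.G⁻¹
    rw [h2]
    ext a b
    rw [Matrix.mul_apply, Matrix.sum_apply]
    symm
    rw [Finset.sum_eq_single a]
    · rw [Matrix.sum_apply]
      refine Finset.sum_congr rfl fun k _ => ?_
      rw [Matrix.smul_apply, TD_E, vecMulVec_apply, Pi.single_eq_same, one_mul, single_one_vecMul,
        Matrix.row_apply, smul_eq_mul]
    · intro k _ hk
      rw [Matrix.sum_apply]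
      refine Finset.sum_eq_zero fun l _ => ?_
      rw [Matrix.smul_apply, TD_E, vecMulVec_apply, Pi.single_eq_of_ne (Ne.symm hk), zero_mul,
        smul_zero]
    · intro h
      exact absurd (Finset.mem_univ _) h
  rw [h1]
  exact Submodule.sum_mem _ fun k₁ _ => Submodule.sum_mem _ fun k₂ _ =>
    Submodule.smul_mem _ _ (Submodule.subset_span ⟨(k₁, k₂), rfl⟩)

/-- The tensor of `r` is killed by a skew matrix `X` if and only if `r` commutes with the bracket
with `X`. -/
theorem TD_iff (r : Matrix K K C →ₗ[C] Matrix K K C) {X : Matrix K K C}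
    (hX : Xᵀ * D.G + D.G * X = 0) :
    (∀ j, DX X (TD_T D r) j = 0) ↔ ∀ M, r (X * M - M * X) = X * r M - r M * X := by
  constructor
  · intro h M
    have h1 : ∀ k₁ k₂, r (X * TD_E D k₁ k₂ - TD_E D k₁ k₂ * X) =
        X * r (TD_E D k₁ k₂) - r (TD_E D k₁ k₂) * X := by
      intro k₁ k₂
      have h2 : D.G * (r (X * TD_E D k₁ k₂ - TD_E D k₁ k₂ * X) -
          (X * r (TD_E D k₁ k₂) - r (TD_E D k₁ k₂) * X)) = 0 := by
        ext a b
        have h3 := h ![(0, a), (0, k₁), (0, k₂), (0, b)]
        rw [TD_DX D r hX] at h3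
        exact h3
      have h4 := congrArg (fun Z => D.G⁻¹ * Z) h2
      rw [← Matrix.mul_assoc, Matrix.nonsing_inv_mul D.G D.G_unit, Matrix.one_mul,
        Matrix.mul_zero, sub_eq_zero] at h4
      exact h4
    induction TD_span D M using Submodule.span_induction with
    | mem M hM =>
      obtain ⟨k, rfl⟩ := hM
      exact h1 k.1 k.2
    | zero => simp
    | add x y _ _ hx hy =>
      have e1 : X * (x + y) - (x + y) * X = (X * x - x * X) + (X * y - y * X) := by noncomm_ring
      rw [e1, map_add, hx, hy, map_add]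
      noncomm_ring
    | smul c x _ hx =>
      rw [Matrix.mul_smul, Matrix.smul_mul, ← smul_sub, map_smul, hx, map_smul, Matrix.mul_smul,
        Matrix.smul_mul, ← smul_sub]
  · intro h j
    rw [TD_DX D r hX, h, sub_self, Matrix.mul_zero, Matrix.zero_apply]

variable {D}

theorem TD_pow {A Z : Matrix K K C} (h : A * (Z * A - A * Z) = (Z * A - A * Z) * A) (n : ℕ) :
    Z * A ^ (n + 1) - A ^ (n + 1) * Z = ((n : C) + 1) • (A ^ n * (Z * A - A * Z)) := by
  induction n with
  | zero =>
    rw [zero_add, pow_one, pow_zero, Nat.cast_zero, zero_add, one_smul, one_mul]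
  | succ n ih =>
    set B := Z * A - A * Z with hB
    have h1 : Z * A ^ (n + 1 + 1) - A ^ (n + 1 + 1) * Z =
        (Z * A ^ (n + 1) - A ^ (n + 1) * Z) * A + A ^ (n + 1) * B := by
      rw [pow_succ A (n + 1), hB]
      noncomm_ring
    have h2 : A ^ n * B * A = A ^ (n + 1) * B := by
      rw [mul_assoc, ← h, ← mul_assoc, ← pow_succ]
    rw [h1, ih, smul_mul_assoc, h2, Nat.cast_succ, add_smul ((n : C) + 1) 1, one_smul]

theorem TD_aeval {A Z : Matrix K K C} (h : A * (Z * A - A * Z) = (Z * A - A * Z) * A)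
    (f : Polynomial C) : Z * Polynomial.aeval A f - Polynomial.aeval A f * Z =
      Polynomial.aeval A (Polynomial.derivative f) * (Z * A - A * Z) := by
  induction f using Polynomial.induction_on' with
  | add p q hp hq =>
    rw [map_add, map_add, map_add, add_mul, add_mul, mul_add, ← hp, ← hq]
    abel
  | monomial n a =>
    rw [Polynomial.aeval_monomial, Polynomial.derivative_monomial, Polynomial.aeval_monomial]
    rcases n with _ | n
    · rw [pow_zero, mul_one, Nat.cast_zero, mul_zero, map_zero, zero_mul, zero_mul,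
        Algebra.commutes a Z, sub_self]
    · have h1 := TD_pow h n
      have h2 : Z * ((algebraMap C (Matrix K K C)) a * A ^ (n + 1)) -
          (algebraMap C (Matrix K K C)) a * A ^ (n + 1) * Z =
          a • (Z * A ^ (n + 1) - A ^ (n + 1) * Z) := by
        rw [Algebra.algebraMap_eq_smul_one, smul_mul_assoc, one_mul, mul_smul_comm, smul_mul_assoc,
          smul_sub]
      rw [h2, h1, smul_smul, Algebra.algebraMap_eq_smul_one, smul_mul_assoc, one_mul, smul_mul_assoc,
        Nat.add_sub_cancel, Nat.cast_succ]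

theorem TD_comm {A B : Matrix K K C} (h : Commute B A) (f : Polynomial C) :
    Commute B (Polynomial.aeval A f) := by
  induction f using Polynomial.induction_on' with
  | add p q hp hq =>
    rw [map_add]
    exact hp.add_right hq
  | monomial n a =>
    rw [Polynomial.aeval_monomial]
    exact Commute.mul_right (Algebra.commutes a B).symm (h.pow_right n)

/-- Jacobson's lemma.
PROOF. Let `B = Z A - A Z` and `f(A) = 0`, `f` of degree `n`. By induction on `k`,
`f^(k) (A) * B ^ m = 0` for some `m`: apply the bracket with `Z` and multiply by `B ^ m`. -/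
theorem TD_jacobson [CharZero C] {A Z : Matrix K K C} (h : A * (Z * A - A * Z) = (Z * A - A * Z) * A) :
    IsNilpotent (Z * A - A * Z) := by
  set B := Z * A - A * Z with hB
  have hc : Commute B A := h.symm
  have key : ∀ k, ∃ m, Polynomial.aeval A (Polynomial.derivative^[k] A.charpoly) * B ^ m = 0 := by
    intro k
    induction k with
    | zero =>
      refine ⟨0, ?_⟩
      rw [Function.iterate_zero, id, Matrix.aeval_self_charpoly, zero_mul]
    | succ k ih =>
      obtain ⟨m, hm⟩ := ih
      set F := Polynomial.aeval A (Polynomial.derivative^[k] A.charpoly) with hF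
      have h1 := TD_aeval h (Polynomial.derivative^[k] A.charpoly)
      rw [← hF, ← Function.iterate_succ_apply' Polynomial.derivative, ← hB] at h1
      have hcF : F * B = B * F := by
        have h2 : Commute B F := by
          rw [hF]
          exact TD_comm hc _
        exact h2.symm
      have hcm : ∀ i : ℕ, F * B ^ i = B ^ i * F := fun i => (Commute.pow_right hcF i)
      refine ⟨m + 1 + m, ?_⟩
      -- `[Z, F B^m] = 0`
      have h3 : (Z * F - F * Z) * B ^ m = -(F * (Z * B ^ m - B ^ m * Z)) := by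
        have h4 : (Z * F - F * Z) * B ^ m = Z * (F * B ^ m) - F * (Z * B ^ m - B ^ m * Z) -
            F * B ^ m * Z := by noncomm_ring
        rw [h4, hm]
        simp
      have h5 : B ^ m * ((Z * F - F * Z) * B ^ m) = 0 := by
        rw [h3, mul_neg, ← mul_assoc, ← hcm, hm, zero_mul, neg_zero]
      rw [h1] at h5
      set F' := Polynomial.aeval A (Polynomial.derivative^[k + 1] A.charpoly) with hF'
      have hcF' : Commute F' B := by
        have h2 : Commute B F' := by
          rw [hF']
          exact TD_comm hc _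
        exact h2.symm
      calc F' * B ^ (m + 1 + m) = F' * B ^ m * B * B ^ m := by
            rw [pow_add, pow_succ]
            noncomm_ring
        _ = B ^ m * (F' * B * B ^ m) := by
            rw [(hcF'.pow_right m).eq]
            noncomm_ring
        _ = 0 := h5
  obtain ⟨m, hm⟩ := key (Fintype.card K)
  have h1 : Polynomial.derivative^[Fintype.card K] A.charpoly =
      Polynomial.C ((Fintype.card K).factorial : C) := by
    ext m
    rw [Polynomial.coeff_iterate_derivative, Polynomial.coeff_C]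
    have hd : A.charpoly.natDegree = Fintype.card K := Matrix.charpoly_natDegree_eq_dim A
    rcases Nat.eq_zero_or_pos m with h0 | h0
    · rw [if_pos h0, h0, zero_add, Nat.descFactorial_self]
      have h2 : A.charpoly.coeff (Fintype.card K) = 1 := by
        rw [← hd]
        exact A.charpoly_monic
      rw [h2, nsmul_eq_mul, mul_one]
    · rw [if_neg (by omega), Polynomial.coeff_eq_zero_of_natDegree_lt (by omega), smul_zero]
  refine ⟨m, ?_⟩
  rw [h1, Polynomial.aeval_C, Algebra.algebraMap_eq_smul_one, smul_mul_assoc, one_mul] at hm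
  exact (smul_eq_zero.1 hm).resolve_left (by exact_mod_cast Nat.factorial_ne_zero _)

/-- The radical of the trace form on an ideal is zero. -/
theorem TD_radical [CharZero C] (N : Submodule C (Matrix K K C)) (hss : ∀ A ∈ N, A ∈ ss D)
    (hlie : ∀ A ∈ N, A ∈ D.lie) (hN : ∀ Z ∈ D.lie, ∀ A ∈ N, Z * A - A * Z ∈ N)
    (h0 : ∀ A ∈ N, ∀ B ∈ N, (A * B).trace = 0) : ∀ A ∈ N, A = 0 := by
  have hcomm : ∀ A ∈ N, ∀ Y ∈ RC D, A * Y = Y * A := fun A hA Y hY => uu_comm (hss A hA).1 hY
  -- the derived algebra is zero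
  have h1 : ∀ A ∈ N, ∀ B ∈ N, A * B - B * A = 0 := by
    have h2 := nil_zero D (Submodule.span C {M : Matrix K K C | ∃ A ∈ N, ∃ B ∈ N, M = A * B - B * A})
      ?_ ?_ (nilF_cartan N (fun A hA B hB => hN A (hlie A hA) B hB) h0)
    · intro A hA B hB
      exact h2 _ (Submodule.subset_span ⟨A, hA, B, hB, rfl⟩)
    · intro X hX M hM
      induction hM using Submodule.span_induction with
      | mem M hM =>
        obtain ⟨A, hA, B, hB, rfl⟩ := hM
        have e1 : X * (A * B - B * A) - (A * B - B * A) * X =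
            ((X * A - A * X) * B - B * (X * A - A * X)) + (A * (X * B - B * X) - (X * B - B * X) * A) := by
          noncomm_ring
        rw [e1]
        refine Submodule.add_mem _ (Submodule.subset_span ?_) (Submodule.subset_span ?_)
        · exact ⟨_, hN X (TData.g_le_lie hX) A hA, B, hB, rfl⟩
        · exact ⟨A, hA, _, hN X (TData.g_le_lie hX) B hB, rfl⟩
      | zero => simp
      | add x y _ _ hx hy =>
        have e1 : X * (x + y) - (x + y) * X = (X * x - x * X) + (X * y - y * X) := by noncomm_ring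
        rw [e1]
        exact Submodule.add_mem _ hx hy
      | smul c x _ hx =>
        rw [Matrix.mul_smul, Matrix.smul_mul, ← smul_sub]
        exact Submodule.smul_mem _ c hx
    · intro M hM Y hY
      induction hM using Submodule.span_induction with
      | mem M hM =>
        obtain ⟨A, hA, B, hB, rfl⟩ := hM
        exact hcomm _ (hN A (hlie A hA) B hB) Y hY
      | zero => simp
      | add x y _ _ hx hy => rw [Matrix.add_mul, hx, hy, Matrix.mul_add]
      | smul c x _ hx => rw [Matrix.smul_mul, hx, Matrix.mul_smul]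
  -- the brackets with the Lie algebra are zero
  have h2 : ∀ Z ∈ D.lie, ∀ A ∈ N, Z * A - A * Z = 0 := by
    set N' : Submodule C (Matrix K K C) :=
      Submodule.span C {M : Matrix K K C | ∃ Z ∈ D.lie, ∃ A ∈ N, M = Z * A - A * Z} with hN'
    have hle : ∀ M ∈ N', M ∈ N := by
      intro M hM
      have h3 : N' ≤ N := by
        rw [hN', Submodule.span_le]
        rintro M ⟨Z, hZ, A, hA, rfl⟩
        exact hN Z hZ A hA
      exact h3 hM
    have hnil : ∀ M ∈ N', IsNilpotent M := by
      intro M hM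
      induction hM using Submodule.span_induction with
      | mem M hM =>
        obtain ⟨Z, hZ, A, hA, rfl⟩ := hM
        refine TD_jacobson ?_
        exact sub_eq_zero.1 (h1 A hA _ (hN Z hZ A hA))
      | zero => exact IsNilpotent.zero
      | add x y hx' hy' hx hy =>
        have h3 : Commute x y := sub_eq_zero.1 (h1 x (hle x hx') y (hle y hy'))
        exact h3.isNilpotent_add hx hy
      | smul c x _ hx => exact hx.smul c
    have h3 := nil_zero D N' ?_ (fun A hA Y hY => hcomm A (hle A hA) Y hY)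
      (nilF_engel N' (fun A hA B hB => by
        rw [h1 A (hle A hA) B (hle B hB)]
        exact Submodule.zero_mem _) hnil)
    · intro Z hZ A hA
      exact h3 _ (Submodule.subset_span ⟨Z, hZ, A, hA, rfl⟩)
    · intro X hX M hM
      exact Submodule.subset_span ⟨X, TData.g_le_lie hX, M, hle M hM, rfl⟩
  intro A hA
  have h3 : A ∈ RC D := mem_RC_of_comm fun X hX => (sub_eq_zero.1 (h2 X hX A hA)).symm
  exact RC_trace D h3 fun Z hZ => ss_trace (hss A hA) hZ

/-- If `ss` kills the tensors on four slots killed by `g` then it is contained in the Lie algebra. -/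
theorem ss_le_lie_of [CharZero C] (hyp : ∀ T : (Fin 4 → Fin 1 × K) → C,
    (∀ Y ∈ D.g, ∀ j, DX Y T j = 0) → ∀ X ∈ ss D, ∀ j, DX X T j = 0) {S : Matrix K K C}
    (hS : S ∈ ss D) : S ∈ D.lie := by
  classical
  obtain ⟨r, hr1, hr2, hr3⟩ := exists_proj D D.lie
    fun X hX Y hY => TData.lie_bracket (TData.g_le_lie hX) hY
  have hk : ∀ X ∈ ss D, ∀ M, r (X * M - M * X) = X * r M - r M * X := by
    intro X hX
    rw [← TD_iff D r hX.1.2]
    exact hyp _ (fun Y hY => (TD_iff D r (D.g_skew Y hY)).2 (hr3 Y hY)) X hX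
  -- `ss` normalises the Lie algebra
  have hnorm : ∀ X ∈ ss D, ∀ Z ∈ D.lie, X * Z - Z * X ∈ D.lie := by
    intro X hX Z hZ
    have h1 := hk X hX Z
    rw [hr2 Z hZ] at h1
    rw [← h1]
    exact hr1 _
  let a : Submodule C (Matrix K K C) := ss D ⊓ D.lie
  have ha : ∀ M, M ∈ a ↔ M ∈ ss D ∧ M ∈ D.lie := fun M => Submodule.mem_inf
  have hbr : ∀ X ∈ ss D, ∀ Z ∈ D.lie, X * Z - Z * X ∈ a := fun X hX Z hZ =>
    (ha _).2 ⟨ss_bracket hX (lie_le_uu hZ), hnorm X hX Z hZ⟩
  have hbr' : ∀ Z ∈ D.lie, ∀ A ∈ a, Z * A - A * Z ∈ a := by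
    intro Z hZ A hA
    have h1 := hbr A ((ha A).1 hA).1 Z hZ
    have h2 : Z * A - A * Z = -(A * Z - Z * A) := by abel
    rw [h2]
    exact a.neg_mem h1
  -- the trace form on `a`
  have hrad : ∀ A ∈ a, (∀ B ∈ a, (A * B).trace = 0) → A = 0 := by
    let N : Submodule C (Matrix K K C) :=
      { carrier := {A | A ∈ a ∧ ∀ B ∈ a, (A * B).trace = 0}
        add_mem' := by
          rintro A A' ⟨hA, hA'⟩ ⟨hB, hB'⟩
          exact ⟨a.add_mem hA hB, fun B hb => by
            rw [Matrix.add_mul, trace_add, hA' B hb, hB' B hb, add_zero]⟩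
        zero_mem' := ⟨a.zero_mem, fun B _ => by simp⟩
        smul_mem' := by
          rintro c A ⟨hA, hA'⟩
          exact ⟨a.smul_mem c hA, fun B hb => by
            rw [Matrix.smul_mul, trace_smul, hA' B hb, smul_zero]⟩ }
    have h1 := TD_radical (D := D) N (fun A hA => ((ha A).1 hA.1).1) (fun A hA => ((ha A).1 hA.1).2) ?_
      (fun A hA B hB => hA.2 B hB.1)
    · intro A hA h2
      exact h1 A ⟨hA, h2⟩
    · rintro Z hZ A ⟨hA, hA'⟩
      refine ⟨hbr' Z hZ A hA, fun B hB => ?_⟩
      have h2 : ((Z * A - A * Z) * B).trace = (A * (B * Z - Z * B)).trace := by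
        rw [Matrix.sub_mul, Matrix.mul_sub, trace_sub, trace_sub, Matrix.mul_assoc,
          Matrix.trace_mul_comm Z (A * B), Matrix.mul_assoc, Matrix.mul_assoc]
      rw [h2]
      refine hA' _ ?_
      have h3 := hbr B ((ha B).1 hB).1 Z hZ
      exact h3
  -- the decomposition of `S`
  obtain ⟨A, hA, hSA⟩ : ∃ A ∈ a, ∀ B ∈ a, (S * B).trace = (A * B).trace := by
    let tf : a →ₗ[C] Dual C a :=
      LinearMap.mk₂ C (fun A B => ((A : Matrix K K C) * (B : Matrix K K C)).trace)
        (fun x y z => by simp [Matrix.add_mul]) (fun c x y => by simp)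
        (fun x y z => by simp [Matrix.mul_add]) (fun c x y => by simp)
    have htf : ∀ x y, tf x y = ((x : Matrix K K C) * (y : Matrix K K C)).trace := fun x y => rfl
    have hinj : Function.Injective tf := by
      rw [← LinearMap.ker_eq_bot, eq_bot_iff]
      intro x hx
      rw [LinearMap.mem_ker] at hx
      refine (Submodule.mem_bot C).2 (Subtype.ext ?_)
      refine hrad x x.2 fun B hB => ?_
      have h1 := LinearMap.congr_fun hx ⟨B, hB⟩
      exact h1
    have hsurj : Function.Surjective tf := by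
      refine (LinearMap.injective_iff_surjective_of_finrank_eq_finrank ?_).1 hinj
      exact (Subspace.dual_finrank_eq).symm
    let ℓ : Dual C a := 
      { toFun := fun B => (S * (B : Matrix K K C)).trace
        map_add' := fun x y => by simp [Matrix.mul_add]
        map_smul' := fun c x => by simp }
    obtain ⟨A, hA⟩ := hsurj ℓ
    refine ⟨A, A.2, fun B hB => ?_⟩
    have h1 := LinearMap.congr_fun hA ⟨B, hB⟩
    exact h1.symm
  have hY : S - A ∈ ss D := (ss D).sub_mem hS ((ha A).1 hA).1
  have hY0 : ∀ B ∈ a, ((S - A) * B).trace = 0 := by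
    intro B hB
    rw [Matrix.sub_mul, trace_sub, hSA B hB, sub_self]
  have hcom : ∀ Z ∈ D.lie, (S - A) * Z - Z * (S - A) = 0 := by
    intro Z hZ
    refine hrad _ (hbr _ hY Z hZ) fun B hB => ?_
    have h2 : (((S - A) * Z - Z * (S - A)) * B).trace = ((S - A) * (Z * B - B * Z)).trace := by
      rw [Matrix.sub_mul, Matrix.mul_sub (S - A), trace_sub, trace_sub, Matrix.mul_assoc,
        Matrix.mul_assoc Z, Matrix.trace_mul_comm Z ((S - A) * B), Matrix.mul_assoc (S - A) B Z]
    rw [h2]
    exact hY0 _ (hbr' Z hZ B hB)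
  have h5 : S - A = 0 := RC_trace D (mem_RC_of_comm fun Z hZ => sub_eq_zero.1 (hcom Z hZ))
    fun Z hZ => ss_trace hY hZ
  rw [sub_eq_zero.1 h5]
  exact ((ha A).1 hA).2

end Pool.Agent.Lib.MP_021685_agU
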