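import Mathlib

/-!
# Tate classes on the powers of a space with an action of a Lie algebra; determinant classes
-/

set_option autoImplicit false

namespace Pool.Agent.Lib.MP_021685_agU

open Module

/-- The alternating form `η` of degree `2 i` on `Hⁿ` is a Tate class of degree `i`: every element `X` of
`g` acts on it (as a derivation, diagonally on `Hⁿ`) as the multiplication by `i c(X)`, where `c` is the
multiplier of the polarisation. -/
def IsTateClass {k H : Type*} [Field k] [AddCommGroup H] [Module k H] (g : Set (Module.End k H))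
    (c : Module.End k H → k) (n i : ℕ) (η : (Fin n → H) [⋀^Fin (2 * i)]→ₗ[k] k) : Prop :=
  ∀ X ∈ g, ∀ v : Fin (2 * i) → Fin n → H,
    ∑ s, η (Function.update v s (fun a => X (v s a))) = (i : k) * c X * η v

/-- The Tate class `ξ` of degree `i` on `Hⁿ` is a determinant class: there is a `g`-stable subspace `N`
of `Hⁿ` with `dim Hⁿ / N ≤ 2 i` such that `ξ` comes from a form on `Hⁿ / N` (a form of top degree if
`ξ` is not zero). -/
def IsDeterminantClass {k H : Type*} [Field k] [AddCommGroup H] [Module k H]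
    (g : Set (Module.End k H)) (c : Module.End k H → k) (n i : ℕ)
    (ξ : (Fin n → H) [⋀^Fin (2 * i)]→ₗ[k] k) : Prop :=
  IsTateClass g c n i ξ ∧ ∃ N : Submodule k (Fin n → H),
    (∀ X ∈ g, ∀ w ∈ N, (fun a => X (w a)) ∈ N) ∧ finrank k ((Fin n → H) ⧸ N) ≤ 2 * i ∧
    ∀ v, (∃ s, v s ∈ N) → ξ v = 0

theorem tDefs_update_inl {W : Type*} {m d i : ℕ}
    (p : (Fin m × Fin 2) ⊕ Fin (2 * d) ≃ Fin (2 * i)) (v : Fin (2 * i) → W) (r₀ : Fin m)
    (ε₀ : Fin 2) (z : W) :
    (fun ε : Fin 2 => Function.update v (p (Sum.inl (r₀, ε₀))) z (p (Sum.inl (r₀, ε)))) =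
      Function.update (fun ε : Fin 2 => v (p (Sum.inl (r₀, ε)))) ε₀ z := by
  funext ε
  by_cases h : ε = ε₀
  · subst h; simp
  · rw [Function.update_of_ne h, Function.update_of_ne]
    intro h'
    have h1 := p.injective h'
    simp only [Sum.inl.injEq, Prod.mk.injEq, true_and] at h1
    exact h h1

theorem tDefs_update_inl_ne {W : Type*} {m d i : ℕ}
    (p : (Fin m × Fin 2) ⊕ Fin (2 * d) ≃ Fin (2 * i)) (v : Fin (2 * i) → W) (r₀ r : Fin m)
    (hr : r ≠ r₀) (ε₀ : Fin 2) (z : W) :
    (fun ε : Fin 2 => Function.update v (p (Sum.inl (r₀, ε₀))) z (p (Sum.inl (r, ε)))) =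
      (fun ε : Fin 2 => v (p (Sum.inl (r, ε)))) := by
  funext ε
  rw [Function.update_of_ne]
  intro h'
  have h1 := p.injective h'
  simp only [Sum.inl.injEq, Prod.mk.injEq] at h1
  exact hr h1.1

theorem tDefs_update_inl_inr {W : Type*} {m d i : ℕ}
    (p : (Fin m × Fin 2) ⊕ Fin (2 * d) ≃ Fin (2 * i)) (v : Fin (2 * i) → W) (r₀ : Fin m)
    (ε₀ : Fin 2) (z : W) :
    (fun t : Fin (2 * d) => Function.update v (p (Sum.inl (r₀, ε₀))) z (p (Sum.inr t))) =
      (fun t : Fin (2 * d) => v (p (Sum.inr t))) := by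
  funext t
  rw [Function.update_of_ne]
  intro h'
  have h1 := p.injective h'
  simp at h1

theorem tDefs_update_inr_inl {W : Type*} {m d i : ℕ}
    (p : (Fin m × Fin 2) ⊕ Fin (2 * d) ≃ Fin (2 * i)) (v : Fin (2 * i) → W) (t₀ : Fin (2 * d))
    (r : Fin m) (z : W) :
    (fun ε : Fin 2 => Function.update v (p (Sum.inr t₀)) z (p (Sum.inl (r, ε)))) =
      (fun ε : Fin 2 => v (p (Sum.inl (r, ε)))) := by
  funext ε
  rw [Function.update_of_ne]
  intro h'
  have h1 := p.injective h'
  simp at h1

theorem tDefs_update_inr {W : Type*} {m d i : ℕ}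
    (p : (Fin m × Fin 2) ⊕ Fin (2 * d) ≃ Fin (2 * i)) (v : Fin (2 * i) → W) (t₀ : Fin (2 * d))
    (z : W) :
    (fun t : Fin (2 * d) => Function.update v (p (Sum.inr t₀)) z (p (Sum.inr t))) =
      Function.update (fun t : Fin (2 * d) => v (p (Sum.inr t))) t₀ z := by
  funext t
  by_cases h : t = t₀
  · subst h; simp
  · rw [Function.update_of_ne h, Function.update_of_ne]
    intro h'
    have h1 := p.injective h'
    simp only [Sum.inr.injEq] at h1
    exact h h1

/-- The (not yet alternating) product of the alternating forms `ω r`, `r < m`, of degree two and of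
the alternating form `ξ` of degree `2 d`, the arguments being distributed by the bijection `p`:
`v ↦ (∏ r, ω r (v (p (r, 0)), v (p (r, 1)))) * ξ (v (p 0), …, v (p (2 d - 1)))`. -/
def mixedProd {k W : Type*} [CommRing k] [AddCommGroup W] [Module k W] {m d i : ℕ}
    (p : (Fin m × Fin 2) ⊕ Fin (2 * d) ≃ Fin (2 * i))
    (ω : Fin m → W [⋀^Fin (2 * 1)]→ₗ[k] k) (ξ : W [⋀^Fin (2 * d)]→ₗ[k] k) :
    MultilinearMap k (fun _ : Fin (2 * i) => W) k where
  toFun v := (∏ r, ω r (fun ε => v (p (Sum.inl (r, ε))))) * ξ (fun t => v (p (Sum.inr t)))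
  map_update_add' := by
    classical
    intro inst v j x y
    have hinst : inst = instDecidableEqFin (2 * i) := Subsingleton.elim _ _
    subst hinst
    obtain ⟨j', rfl⟩ := p.surjective j
    rcases j' with ⟨r₀, ε₀⟩ | t₀
    · have h1 : ∀ z : W, (∏ r, ω r (fun ε => Function.update v (p (Sum.inl (r₀, ε₀))) z
            (p (Sum.inl (r, ε))))) =
          ω r₀ (Function.update (fun ε : Fin 2 => v (p (Sum.inl (r₀, ε)))) ε₀ z) *
            ∏ r ∈ Finset.univ.erase r₀, ω r (fun ε => v (p (Sum.inl (r, ε)))) := by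
        intro z
        rw [← Finset.mul_prod_erase Finset.univ _ (Finset.mem_univ r₀),
          tDefs_update_inl p v r₀ ε₀ z]
        refine congrArg₂ (· * ·) rfl (Finset.prod_congr rfl fun r hr => ?_)
        rw [tDefs_update_inl_ne p v r₀ r (Finset.ne_of_mem_erase hr) ε₀ z]
      rw [h1, h1, h1, tDefs_update_inl_inr, tDefs_update_inl_inr, tDefs_update_inl_inr,
        AlternatingMap.map_update_add]
      ring
    · simp only [tDefs_update_inr_inl p v t₀, tDefs_update_inr p v t₀]
      rw [AlternatingMap.map_update_add]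
      ring
  map_update_smul' := by
    classical
    intro inst v j c x
    have hinst : inst = instDecidableEqFin (2 * i) := Subsingleton.elim _ _
    subst hinst
    obtain ⟨j', rfl⟩ := p.surjective j
    rcases j' with ⟨r₀, ε₀⟩ | t₀
    · have h1 : ∀ z : W, (∏ r, ω r (fun ε => Function.update v (p (Sum.inl (r₀, ε₀))) z
            (p (Sum.inl (r, ε))))) =
          ω r₀ (Function.update (fun ε : Fin 2 => v (p (Sum.inl (r₀, ε)))) ε₀ z) *
            ∏ r ∈ Finset.univ.erase r₀, ω r (fun ε => v (p (Sum.inl (r, ε)))) := by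
        intro z
        rw [← Finset.mul_prod_erase Finset.univ _ (Finset.mem_univ r₀),
          tDefs_update_inl p v r₀ ε₀ z]
        refine congrArg₂ (· * ·) rfl (Finset.prod_congr rfl fun r hr => ?_)
        rw [tDefs_update_inl_ne p v r₀ r (Finset.ne_of_mem_erase hr) ε₀ z]
      rw [h1, h1, tDefs_update_inl_inr, tDefs_update_inl_inr,
        AlternatingMap.map_update_smul]
      simp only [smul_eq_mul]
      ring
    · simp only [tDefs_update_inr_inl p v t₀, tDefs_update_inr p v t₀]
      rw [AlternatingMap.map_update_smul]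
      simp only [smul_eq_mul]
      ring

/-- The alternating form `η` of degree `2 i` on `Hⁿ` is a linear combination of products
`ω₁ ∧ … ∧ ω_m ∧ ξ`, where the `ω_r` are Tate classes of degree one and `ξ` is a determinant class of
degree `d = i - m` on `Hⁿ`. -/
def IsGenerated {k H : Type*} [Field k] [AddCommGroup H] [Module k H]
    (g : Set (Module.End k H)) (c : Module.End k H → k) (n i : ℕ)
    (η : (Fin n → H) [⋀^Fin (2 * i)]→ₗ[k] k) : Prop :=
  η ∈ Submodule.span k {η' | ∃ (m d : ℕ) (p : (Fin m × Fin 2) ⊕ Fin (2 * d) ≃ Fin (2 * i))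
    (ω : Fin m → (Fin n → H) [⋀^Fin (2 * 1)]→ₗ[k] k) (ξ : (Fin n → H) [⋀^Fin (2 * d)]→ₗ[k] k),
    (∀ r, IsTateClass g c n 1 (ω r)) ∧ IsDeterminantClass g c n d ξ ∧
    η' = MultilinearMap.alternatization (mixedProd p ω ξ)}

end Pool.Agent.Lib.MP_021685_agU
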