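import Pool.Agent.Lib.MP_021685_agU.GMg
import Pool.Agent.Lib.MP_021685_agU.TD

/-!
# The main theorem for multilinear forms
-/

set_option autoImplicit false

namespace Pool.Agent.Lib.MP_021685_agU

open Module

/-- The main theorem for multilinear forms.
PROOF. The tensors of generated forms are killed by `ss` (`generatedForm_killed`), so `ss ≤ lie`
(`ss_le_lie_of`), so the tensors of all Tate forms are killed by `ss` and the first fundamental theorem
for the commutant of `g` applies (`generated_of_killed`). -/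
theorem main_form {k H : Type*} [Field k] [CharZero k] [IsAlgClosed k] [AddCommGroup H] [Module k H]
    [Module.Finite k H] {ψ : H →ₗ[k] H →ₗ[k] k} (hψ : ψ.Nondegenerate)
    (hψ' : ψ.IsAlt ∨ ψ.IsSymm) {g : Set (Module.End k H)} {c : Module.End k H → k}
    (hc : ∀ X ∈ g, ∀ u v, ψ (X u) v + ψ u (X v) = c X * ψ u v)
    (hg : ∀ U : Submodule k (Module.End k H), (∀ X ∈ g, ∀ Y ∈ U, X * Y - Y * X ∈ U) →
      ∃ W : Submodule k (Module.End k H), (∀ X ∈ g, ∀ Y ∈ W, X * Y - Y * X ∈ W) ∧ IsCompl U W)
    (h : ∀ T : MultilinearMap k (fun _ : Fin 4 => H) k,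
      IsTateForm g c 4 T → IsGeneratedForm g c 4 T)
    (s : ℕ) (T : MultilinearMap k (fun _ : Fin s => H) k) (hT : IsTateForm g c s T) :
    IsGeneratedForm g c s T := by
  classical
  let b := Module.finBasis k H
  obtain ⟨D, hD⟩ := exists_tdata b hψ hψ' hc hg
  refine generated_of_killed hD hT fun X hX => ?_
  have hX' : X ∈ D.lie := by
    refine ss_le_lie_of (D := D) ?_ hX
    intro T0 hT0 X hX j
    obtain ⟨T, rfl⟩ := exists_ml b T0
    exact generatedForm_killed hD (h T ((tateForm_iff' b hD T).2 hT0)) hX j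
  exact hX' s 1 (cm b T) ((tateForm_iff' b hD T).1 hT)

end Pool.Agent.Lib.MP_021685_agU
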