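import Pool.Agent.Lib.MP_021685_agU.TC

/-!
# Nilpotent spaces of matrices normalised by `g`
-/

set_option autoImplicit false
set_option linter.unusedSectionVars false

namespace Pool.Agent.Lib.MP_021685_agU

open Matrix Function Module

attribute [local instance 100] LieRing.ofAssociativeRing LieAlgebra.ofAssociativeAlgebra

variable {C : Type*} [Field C] {K : Type*} [Fintype K] [DecidableEq K] (D : TData C K)

/-- The descending series of a set of matrices. -/
def nilF (N : Set (Matrix K K C)) : ℕ → Submodule C (K → C)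
  | 0 => ⊤
  | i + 1 => Submodule.span C {w | ∃ A ∈ N, ∃ v ∈ nilF N i, w = A *ᵥ v}

theorem nilF_zero (N : Set (Matrix K K C)) : nilF N 0 = ⊤ := rfl

theorem nilF_succ (N : Set (Matrix K K C)) (i : ℕ) :
    nilF N (i + 1) = Submodule.span C {w | ∃ A ∈ N, ∃ v ∈ nilF N i, w = A *ᵥ v} := rfl

/-- A nilpotent space of matrices which is normalised by `g` and commutes with the endomorphisms
is zero. -/
theorem nil_zero [CharZero C] (N : Submodule C (Matrix K K C))
    (hg : ∀ X ∈ D.g, ∀ A ∈ N, X * A - A * X ∈ N) (hc : ∀ A ∈ N, ∀ Y ∈ RC D, A * Y = Y * A)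
    (hk : ∃ k, nilF (N : Set (Matrix K K C)) k = ⊥) : ∀ A ∈ N, A = 0 := by
  classical
  let W : Submodule C (K → C) :=
    { carrier := {v | ∀ A ∈ N, A *ᵥ v = 0}
      add_mem' := fun {v w} hv hw A hA => by rw [mulVec_add, hv A hA, hw A hA, add_zero]
      zero_mem' := fun A _ => mulVec_zero A
      smul_mem' := fun c v hv A hA => by rw [mulVec_smul, hv A hA, smul_zero] }
  have hWm : ∀ v, v ∈ W ↔ ∀ A ∈ N, A *ᵥ v = 0 := fun v => Iff.rfl
  obtain ⟨p, hp, hp1, hp2⟩ := exists_RC_proj D W (by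
    intro X hX v hv A hA
    have h1 := hv _ (hg X hX A hA)
    rw [sub_mulVec, ← mulVec_mulVec, ← mulVec_mulVec, hv A hA, mulVec_zero, zero_sub,
      neg_eq_zero] at h1
    exact h1)
  have hAp : ∀ A ∈ N, A * p = 0 := by
    intro A hA
    apply Matrix.toLin'.injective
    refine LinearMap.ext fun v => ?_
    rw [Matrix.toLin'_apply, ← mulVec_mulVec, map_zero, LinearMap.zero_apply]
    exact hp1 v A hA
  -- `p` vanishes on the images
  have hpF : ∀ i, ∀ w ∈ nilF (N : Set (Matrix K K C)) (i + 1), p *ᵥ w = 0 := by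
    intro i w hw
    rw [nilF_succ] at hw
    induction hw using Submodule.span_induction with
    | mem w hw =>
      obtain ⟨A, hA, v, _, rfl⟩ := hw
      rw [mulVec_mulVec, ← hc A hA p hp, hAp A hA, zero_mulVec]
    | zero => exact mulVec_zero p
    | add x y _ _ hx hy => rw [mulVec_add, hx, hy, add_zero]
    | smul c x _ hx => rw [mulVec_smul, hx, smul_zero]
  have hbot : nilF (N : Set (Matrix K K C)) 1 = ⊥ := by
    obtain ⟨k, hk⟩ := hk
    induction k with
    | zero =>
      rw [nilF_zero] at hk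
      rw [eq_bot_iff]
      calc nilF (N : Set (Matrix K K C)) 1 ≤ ⊤ := le_top
        _ = ⊥ := hk
    | succ k ih =>
      rcases Nat.eq_zero_or_pos k with h0 | h0
      · rw [h0] at hk
        exact hk
      · refine ih ?_
        rw [eq_bot_iff]
        intro w hw
        have h1 : w ∈ W := by
          intro A hA
          have h2 : A *ᵥ w ∈ nilF (N : Set (Matrix K K C)) (k + 1) :=
            Submodule.subset_span ⟨A, hA, w, hw, rfl⟩
          rw [hk] at h2
          exact (Submodule.mem_bot C).1 h2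
        have h3 := hpF (k - 1) w (by rwa [Nat.sub_add_cancel h0])
        rw [hp2 w h1] at h3
        exact (Submodule.mem_bot C).2 h3
  intro A hA
  apply Matrix.toLin'.injective
  refine LinearMap.ext fun v => ?_
  rw [Matrix.toLin'_apply, map_zero, LinearMap.zero_apply]
  have h2 : A *ᵥ v ∈ nilF (N : Set (Matrix K K C)) 1 :=
    Submodule.subset_span ⟨A, hA, v, by rw [nilF_zero]; exact Submodule.mem_top, rfl⟩
  rw [hbot] at h2
  exact (Submodule.mem_bot C).1 h2

/-- The Lie algebra of endomorphisms attached to a space of matrices closed under brackets. -/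
def endLie (N : Submodule C (Matrix K K C)) (hN : ∀ A ∈ N, ∀ B ∈ N, A * B - B * A ∈ N) :
    LieSubalgebra C (Module.End C (K → C)) where
  carrier := {f | ∃ A ∈ N, f = Matrix.toLin' A}
  add_mem' := by
    rintro f g ⟨A, hA, rfl⟩ ⟨B, hB, rfl⟩
    exact ⟨A + B, N.add_mem hA hB, by rw [map_add]⟩
  zero_mem' := ⟨0, N.zero_mem, by rw [map_zero]⟩
  smul_mem' := by
    rintro c f ⟨A, hA, rfl⟩
    exact ⟨c • A, N.smul_mem c hA, by rw [map_smul]⟩
  lie_mem' := by
    rintro f g ⟨A, hA, rfl⟩ ⟨B, hB, rfl⟩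
    refine ⟨A * B - B * A, hN A hA B hB, ?_⟩
    rw [map_sub, Matrix.toLin'_mul, Matrix.toLin'_mul]
    rfl

theorem nilF_le {L : Type*} [LieRing L] [LieAlgebra C L] [LieRingModule L (K → C)]
    [LieModule C L (K → C)] (N : Set (Matrix K K C)) (hN : ∀ A ∈ N, ∃ x : L, ∀ v, ⁅x, v⁆ = A *ᵥ v)
    (i : ℕ) : nilF N i ≤ (LieModule.lowerCentralSeries C L (K → C) i : Submodule C (K → C)) := by
  induction i with
  | zero =>
    rw [LieModule.lowerCentralSeries_zero]
    exact le_top
  | succ i ih =>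
    rw [nilF_succ, Submodule.span_le]
    rintro w ⟨A, hA, v, hv, rfl⟩
    obtain ⟨x, hx⟩ := hN A hA
    rw [← hx v, LieModule.lowerCentralSeries_succ]
    exact LieSubmodule.lie_mem_lie (LieSubmodule.mem_top x) (ih hv)

theorem nilF_of_isNilpotent {L : Type*} [LieRing L] [LieAlgebra C L] [LieRingModule L (K → C)]
    [LieModule C L (K → C)] (hL : LieModule.IsNilpotent L (K → C)) (N : Set (Matrix K K C))
    (hN : ∀ A ∈ N, ∃ x : L, ∀ v, ⁅x, v⁆ = A *ᵥ v) : ∃ k, nilF N k = ⊥ := by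
  obtain ⟨k, hk⟩ := (LieModule.isNilpotent_iff C L (K → C)).1 hL
  refine ⟨k, ?_⟩
  rw [eq_bot_iff]
  refine (nilF_le N hN k).trans ?_
  rw [hk]
  exact le_of_eq rfl

/-- Engel's theorem. -/
theorem nilF_engel (N : Submodule C (Matrix K K C)) (hN : ∀ A ∈ N, ∀ B ∈ N, A * B - B * A ∈ N)
    (h : ∀ A ∈ N, IsNilpotent A) : ∃ k, nilF (N : Set (Matrix K K C)) k = ⊥ := by
  have h1 : LieModule.IsNilpotent (endLie N hN) (K → C) := by
    rw [LieModule.isNilpotent_iff_forall (R := C)]
    rintro ⟨f, A, hA, rfl⟩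
    obtain ⟨n, hn⟩ := h A hA
    refine ⟨n, ?_⟩
    have h2 : LieModule.toEnd C (endLie N hN) (K → C) ⟨Matrix.toLin' A, A, hA, rfl⟩ =
        Matrix.toLin' A := by
      refine LinearMap.ext fun v => ?_
      rfl
    rw [h2, ← Matrix.toLin'_pow, hn, map_zero]
  refine nilF_of_isNilpotent h1 _ fun A hA => ⟨⟨Matrix.toLin' A, A, hA, rfl⟩, fun v => ?_⟩
  rfl

/-- Cartan's criterion. -/
theorem nilF_cartan [CharZero C] (N : Submodule C (Matrix K K C))
    (hN : ∀ A ∈ N, ∀ B ∈ N, A * B - B * A ∈ N) (h : ∀ A ∈ N, ∀ B ∈ N, (A * B).trace = 0) :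
    ∃ k, nilF (Submodule.span C {M : Matrix K K C | ∃ A ∈ N, ∃ B ∈ N, M = A * B - B * A} :
      Set (Matrix K K C)) k = ⊥ := by
  have h0 : LieModule.traceForm C (endLie N hN) (K → C) = 0 := by
    ext ⟨f, A, hA, rfl⟩ ⟨g, B, hB, rfl⟩
    rw [LieModule.traceForm_apply_apply]
    have h2 : ∀ (A : Matrix K K C) (hA : A ∈ N),
        LieModule.toEnd C (endLie N hN) (K → C) ⟨Matrix.toLin' A, A, hA, rfl⟩ =
        Matrix.toLin' A := by
      intro A hA
      refine LinearMap.ext fun v => ?_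
      rfl
    rw [h2 A hA, h2 B hB, ← Matrix.toLin'_mul, Matrix.trace_toLin'_eq, h A hA B hB]
    rfl
  have h1 := LieModule.isNilpotent_derivedSeries_of_traceForm_eq_zero (R := C)
    (L := endLie N hN) (M := K → C) h0
  refine nilF_of_isNilpotent h1 _ fun A hA => ?_
  have hA' : A ∈ Submodule.span C {M : Matrix K K C | ∃ A ∈ N, ∃ B ∈ N, M = A * B - B * A} := hA
  have h3 : ∃ x : endLie N hN, x ∈ LieAlgebra.derivedSeries C (endLie N hN) 1 ∧
      (x : Module.End C (K → C)) = Matrix.toLin' A := by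
    clear hA
    induction hA' using Submodule.span_induction with
    | mem M hM =>
      obtain ⟨A, hA, B, hB, rfl⟩ := hM
      refine ⟨⁅(⟨Matrix.toLin' A, A, hA, rfl⟩ : endLie N hN), ⟨Matrix.toLin' B, B, hB, rfl⟩⁆, ?_, ?_⟩
      · rw [LieAlgebra.derivedSeries_def, LieAlgebra.derivedSeriesOfIdeal_succ]
        exact LieSubmodule.lie_mem_lie (LieSubmodule.mem_top _) (LieSubmodule.mem_top _)
      · rw [map_sub, Matrix.toLin'_mul, Matrix.toLin'_mul]
        rfl
    | zero => exact ⟨0, LieSubmodule.zero_mem _, by rw [map_zero]; rfl⟩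
    | add x y _ _ hx hy =>
      obtain ⟨a, ha, ha'⟩ := hx
      obtain ⟨b, hb, hb'⟩ := hy
      exact ⟨a + b, add_mem ha hb, by rw [map_add, ← ha', ← hb']; rfl⟩
    | smul c x _ hx =>
      obtain ⟨a, ha, ha'⟩ := hx
      exact ⟨c • a, SMulMemClass.smul_mem c ha, by rw [map_smul, ← ha']; rfl⟩
  obtain ⟨x, hx, hx'⟩ := h3
  refine ⟨⟨x, hx⟩, fun v => ?_⟩
  rw [← Matrix.toLin'_apply, ← hx']
  rfl

end Pool.Agent.Lib.MP_021685_agU
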