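import Mathlib

/-!
# Tensors: derivations, substitutions, alternation; Weil tensors
-/

set_option autoImplicit false
set_option linter.unusedSectionVars false

namespace Pool.Agent.Lib.MP_021685_agU

open Matrix Function Module

section General

variable {R S M M' M'' : Type*} [CommRing R] [Fintype S] [DecidableEq S] [Fintype M] [DecidableEq M]
  [Fintype M'] [DecidableEq M'] [Fintype M''] [DecidableEq M'']

/-- The derivation of the tensors on `M` attached to the matrix `X`. -/
def DM (X : Matrix M M R) (T : (S → M) → R) (j : S → M) : R :=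
  ∑ s, ∑ m, T (update j s m) * X m (j s)

/-- The operator which applies the matrix `X` to the slot `s` of the tensor `T`. -/
def D1 (X : Matrix M M R) (s : S) (T : (S → M) → R) (j : S → M) : R :=
  ∑ m, T (update j s m) * X m (j s)

/-- The pull-back of the tensor `T` on `M'` under the linear map with the matrix `Φ`. -/
def PM (Φ : Matrix M' M R) (T : (S → M') → R) (j : S → M) : R :=
  ∑ j' : S → M', T j' * ∏ s, Φ (j' s) (j s)

/-- The tensor is alternating. -/
def IsAlt (T : (S → M) → R) : Prop :=
  ∀ (σ : Equiv.Perm S) (j : S → M), T (fun s => j (σ s)) = (Equiv.Perm.sign σ : ℤ) • T j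

/-- The alternation of a tensor. -/
def altT (T : (S → M) → R) (j : S → M) : R :=
  ∑ σ : Equiv.Perm S, (Equiv.Perm.sign σ : ℤ) • T (fun s => j (σ s))

/-- The tensor attached to a square family of linear forms: the determinant of the `lam s c (j s)`. -/
def detT (lam : S → S → M → R) (j : S → M) : R := (Matrix.of fun s c => lam s c (j s)).det

theorem DM_eq_sum (X : Matrix M M R) (T : (S → M) → R) (j : S → M) :
    DM X T j = ∑ s, D1 X s T j := rfl

theorem DM_add (X : Matrix M M R) (T T' : (S → M) → R) : DM X (T + T') = DM X T + DM X T' := by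
  funext j
  simp only [DM, Pi.add_apply, add_mul, Finset.sum_add_distrib]

theorem DM_smul (X : Matrix M M R) (c : R) (T : (S → M) → R) : DM X (c • T) = c • DM X T := by
  funext j
  simp only [DM, Pi.smul_apply, smul_eq_mul, Finset.mul_sum, mul_assoc]

theorem D1_add (X : Matrix M M R) (s : S) (T T' : (S → M) → R) :
    D1 X s (T + T') = D1 X s T + D1 X s T' := by
  funext j
  simp only [D1, Pi.add_apply, add_mul, Finset.sum_add_distrib]

theorem D1_smul (X : Matrix M M R) (s : S) (c : R) (T : (S → M) → R) :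
    D1 X s (c • T) = c • D1 X s T := by
  funext j
  simp only [D1, Pi.smul_apply, smul_eq_mul, Finset.mul_sum, mul_assoc]

theorem PM_add (Φ : Matrix M' M R) (T T' : (S → M') → R) : PM Φ (T + T') = PM Φ T + PM Φ T' := by
  funext j
  simp only [MP_021685_agU.PM, Pi.add_apply, add_mul, Finset.sum_add_distrib]

theorem PM_smul (Φ : Matrix M' M R) (c : R) (T : (S → M') → R) : PM Φ (c • T) = c • PM Φ T := by
  funext j
  simp only [MP_021685_agU.PM, Pi.smul_apply, smul_eq_mul, Finset.mul_sum, mul_assoc]

/-- PROOF. `∑_{j'} ∑_{j''} T j'' ∏ Φ' (j'' s) (j' s) ∏ Φ (j' s) (j s)`, exchange the sums and use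
`Finset.prod_univ_sum` (`Fintype.piFinset_univ`): `∑_{j'} ∏_s f s (j' s) = ∏_s ∑_m f s m`. -/
theorem PM_PM (Φ : Matrix M' M R) (Φ' : Matrix M'' M' R) (T : (S → M'') → R) :
    PM Φ (PM Φ' T) = PM (Φ' * Φ) T := by
  funext j
  simp only [MP_021685_agU.PM]
  calc ∑ j' : S → M', (∑ j'' : S → M'', T j'' * ∏ s, Φ' (j'' s) (j' s)) * ∏ s, Φ (j' s) (j s)
      = ∑ j'' : S → M'', ∑ j' : S → M', T j'' * ∏ s, (Φ' (j'' s) (j' s) * Φ (j' s) (j s)) := by
        rw [Finset.sum_comm]
        refine Finset.sum_congr rfl fun j' _ => ?_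
        rw [Finset.sum_mul]
        refine Finset.sum_congr rfl fun j'' _ => ?_
        rw [Finset.prod_mul_distrib, mul_assoc]
    _ = ∑ j'' : S → M'', T j'' * ∏ s, (Φ' * Φ) (j'' s) (j s) := by
        refine Finset.sum_congr rfl fun j'' _ => ?_
        rw [← Finset.mul_sum]
        congr 1
        simp only [Matrix.mul_apply]
        rw [Finset.prod_univ_sum, Fintype.piFinset_univ]

theorem PM_one (T : (S → M) → R) : PM (1 : Matrix M M R) T = T := by
  funext j
  simp only [MP_021685_agU.PM]
  rw [Finset.sum_eq_single j]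
  · simp
  · intro j' _ hj
    obtain ⟨s, hs⟩ := Function.ne_iff.1 hj
    have h1 : ∏ s, (1 : Matrix M M R) (j' s) (j s) = 0 :=
      Finset.prod_eq_zero (Finset.mem_univ s) (Matrix.one_apply_ne hs)
    rw [h1, mul_zero]
  · intro h
    exact absurd (Finset.mem_univ j) h

/-- Exchange of the value at the slot `s` with an additional index. -/
theorem UT_sum_swap (s : S) (f : (S → M) → M → R) :
    ∑ j : S → M, ∑ m, f (update j s m) (j s) = ∑ j : S → M, ∑ m, f j m := by
  rw [← Fintype.sum_prod_type', ← Fintype.sum_prod_type']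
  have he : Function.Involutive (fun p : (S → M) × M => (update p.1 s p.2, p.1 s)) := by
    rintro ⟨j, m⟩
    simp
  exact Fintype.sum_equiv he.toPerm _ _ (fun p => rfl)

/-- PROOF. For one slot: `D1 X s (PM Φ T) = ` the tensor `T` with `Φ` in the slots `≠ s` and `Φ X` in
the slot `s`; `PM Φ (D1 X' s T) = ` the tensor with `X' Φ` in the slot `s`. Both are sums over
`j' : S → M'`; for the first: `∏_{s'} Φ (j' s') (update j s m s') * X m (j s)`, split off the factor
`s' = s` (`Finset.prod_update_of_mem` or `Fintype.prod_eq_mul_prod_compl`) and sum over `m`. For the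
second: `∑_{j'} ∑_m T (update j' s m) X' m (j' s) ∏ Φ (j' s') (j s')`: reindex by the pairs
`(j', m) ↦ (update j' s m, j' s)`, an involution. -/
theorem D1_PM (Φ : Matrix M' M R) (X : Matrix M M R) (X' : Matrix M' M' R) (h : Φ * X = X' * Φ)
    (s : S) (T : (S → M') → R) : D1 X s (PM Φ T) = PM Φ (D1 X' s T) := by
  funext j
  have h1 : D1 X s (MP_021685_agU.PM Φ T) j =
      ∑ k : S → M', T k * (∏ s' ∈ Finset.univ.erase s, Φ (k s') (j s')) * (Φ * X) (k s) (j s) := by
    simp only [D1, MP_021685_agU.PM, Finset.sum_mul]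
    rw [Finset.sum_comm]
    refine Finset.sum_congr rfl fun k _ => ?_
    rw [Matrix.mul_apply, Finset.mul_sum]
    refine Finset.sum_congr rfl fun m _ => ?_
    rw [← Finset.mul_prod_erase Finset.univ _ (Finset.mem_univ s), update_self]
    have h2 : ∏ s' ∈ Finset.univ.erase s, Φ (k s') (update j s m s') =
        ∏ s' ∈ Finset.univ.erase s, Φ (k s') (j s') :=
      Finset.prod_congr rfl fun s' hs' => by rw [update_of_ne (Finset.ne_of_mem_erase hs')]
    rw [h2]
    ring
  have h3 : MP_021685_agU.PM Φ (D1 X' s T) j =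
      ∑ k : S → M', T k * (∏ s' ∈ Finset.univ.erase s, Φ (k s') (j s')) * (X' * Φ) (k s) (j s) := by
    have h4 : ∀ k : S → M', T k * (∏ s' ∈ Finset.univ.erase s, Φ (k s') (j s')) * (X' * Φ) (k s) (j s) =
        ∑ m, T k * (∏ s' ∈ Finset.univ.erase s, Φ (k s') (j s')) * (X' (k s) m * Φ m (j s)) := by
      intro k
      rw [Matrix.mul_apply, Finset.mul_sum]
    rw [Finset.sum_congr rfl fun k _ => h4 k, ← UT_sum_swap s (fun k m =>
      T k * (∏ s' ∈ Finset.univ.erase s, Φ (k s') (j s')) * (X' (k s) m * Φ m (j s)))]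
    simp only [MP_021685_agU.PM, D1]
    refine Finset.sum_congr rfl fun k _ => ?_
    rw [Finset.sum_mul]
    refine Finset.sum_congr rfl fun m _ => ?_
    rw [← Finset.mul_prod_erase Finset.univ (fun s' => Φ (k s') (j s')) (Finset.mem_univ s), update_self]
    have h2 : ∏ s' ∈ Finset.univ.erase s, Φ (update k s m s') (j s') =
        ∏ s' ∈ Finset.univ.erase s, Φ (k s') (j s') :=
      Finset.prod_congr rfl fun s' hs' => by rw [update_of_ne (Finset.ne_of_mem_erase hs')]
    rw [h2]
    ring
  rw [h1, h3, h]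

theorem DM_PM (Φ : Matrix M' M R) (X : Matrix M M R) (X' : Matrix M' M' R) (h : Φ * X = X' * Φ)
    (T : (S → M') → R) : DM X (PM Φ T) = PM Φ (DM X' T) := by
  funext j
  rw [DM_eq_sum]
  simp only [D1_PM Φ X X' h]
  simp only [MP_021685_agU.PM, DM_eq_sum, Finset.sum_mul]
  rw [Finset.sum_comm]

theorem IsAlt.PM {T : (S → M') → R} (h : IsAlt T) (Φ : Matrix M' M R) :
    IsAlt (MP_021685_agU.PM Φ T) := by
  intro σ j
  simp only [MP_021685_agU.PM]
  rw [← Equiv.sum_comp (Equiv.arrowCongr σ.symm (Equiv.refl M')), Finset.smul_sum]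
  refine Finset.sum_congr rfl fun k _ => ?_
  have h1 : (Equiv.arrowCongr σ.symm (Equiv.refl M')) k = fun s => k (σ s) := rfl
  rw [h1, h σ k, smul_mul_assoc]
  congr 2
  exact Equiv.prod_comp σ (fun s => Φ (k s) (j s))

theorem isAlt_altT (T : (S → M) → R) : IsAlt (altT T) := by
  intro σ j
  simp only [MP_021685_agU.altT]
  rw [← Equiv.sum_comp (Equiv.mulLeft σ) (fun τ : Equiv.Perm S => (Equiv.Perm.sign τ : ℤ) • T (fun s => j (τ s))),
    Finset.smul_sum]
  refine Finset.sum_congr rfl fun τ _ => ?_
  rw [Equiv.coe_mulLeft, Equiv.Perm.sign_mul, Units.val_mul, smul_smul, ← mul_assoc]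
  have h1 : ((Equiv.Perm.sign σ : ℤˣ) : ℤ) * ((Equiv.Perm.sign σ : ℤˣ) : ℤ) = 1 := by
    rw [← Units.val_mul, Int.units_mul_self, Units.val_one]
  rw [h1, one_mul]
  rfl

theorem IsAlt.altT {T : (S → M) → R} (h : IsAlt T) :
    MP_021685_agU.altT T = (Fintype.card S).factorial • T := by
  funext j
  simp only [MP_021685_agU.altT]
  have h1 : ∀ σ : Equiv.Perm S, (Equiv.Perm.sign σ : ℤ) • T (fun s => j (σ s)) = T j := by
    intro σ
    have h2 : ((Equiv.Perm.sign σ : ℤˣ) : ℤ) * ((Equiv.Perm.sign σ : ℤˣ) : ℤ) = 1 := by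
      rw [← Units.val_mul, Int.units_mul_self, Units.val_one]
    rw [h σ j, smul_smul, h2, one_smul]
  rw [Finset.sum_congr rfl fun σ _ => h1 σ, Finset.sum_const, Finset.card_univ, Fintype.card_perm]
  rfl

theorem altT_add (T T' : (S → M) → R) : altT (T + T') = altT T + altT T' := by
  funext j
  simp only [MP_021685_agU.altT, Pi.add_apply, smul_add, Finset.sum_add_distrib]

theorem altT_smul (c : R) (T : (S → M) → R) : altT (c • T) = c • altT T := by
  funext j
  simp only [MP_021685_agU.altT, Pi.smul_apply, Finset.smul_sum]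
  refine Finset.sum_congr rfl fun σ _ => ?_
  rw [smul_comm]

/-- PROOF. `DM X` commutes with the permutations of the slots. -/
theorem DM_altT (X : Matrix M M R) (T : (S → M) → R) : DM X (altT T) = altT (DM X T) := by
  funext j
  simp only [DM, MP_021685_agU.altT, Finset.sum_mul, Finset.smul_sum]
  have h1 : ∀ σ : Equiv.Perm S, ∑ s, ∑ m, (Equiv.Perm.sign σ : ℤ) • (T (update (fun s => j (σ s)) s m) * X m (j (σ s))) =
      ∑ s, ∑ m, (Equiv.Perm.sign σ : ℤ) • T (fun s' => update j s m (σ s')) * X m (j s) := by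
    intro σ
    rw [← Equiv.sum_comp σ (fun s => ∑ m, (Equiv.Perm.sign σ : ℤ) • T (fun s' => update j s m (σ s')) * X m (j s))]
    refine Finset.sum_congr rfl fun s _ => Finset.sum_congr rfl fun m _ => ?_
    have h2 : update (fun s => j (σ s)) s m = fun s' => update j (σ s) m (σ s') := by
      funext s'
      by_cases h3 : s' = s
      · subst h3
        rw [update_self, update_self]
      · rw [update_of_ne h3, update_of_ne fun h4 => h3 (σ.injective h4)]
    rw [h2, smul_mul_assoc]
  rw [Finset.sum_congr rfl fun σ _ => h1 σ]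
  exact (Finset.sum_congr rfl fun s _ => Finset.sum_comm).trans Finset.sum_comm

/-- PROOF. `j ↦ j ∘ σ` in the sums, and the substitution commutes with the ring homomorphism. -/
theorem PM_map {R' : Type*} [CommRing R'] (f : R →+* R') (Φ : Matrix M' M R) (T : (S → M') → R)
    (j : S → M) : PM (Φ.map f) (fun j => f (T j)) j = f (PM Φ T j) := by
  simp only [MP_021685_agU.PM, map_sum, map_mul, map_prod, Matrix.map_apply]

theorem DM_map {R' : Type*} [CommRing R'] (f : R →+* R') (X : Matrix M M R) (T : (S → M) → R)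
    (j : S → M) : DM (X.map f) (fun j => f (T j)) j = f (DM X T j) := by
  simp only [DM, map_sum, map_mul, Matrix.map_apply]

theorem D1_map {R' : Type*} [CommRing R'] (f : R →+* R') (X : Matrix M M R) (s : S)
    (T : (S → M) → R) (j : S → M) : D1 (X.map f) s (fun j => f (T j)) j = f (D1 X s T j) := by
  simp only [D1, map_sum, map_mul, Matrix.map_apply]

end General

end Pool.Agent.Lib.MP_021685_agU
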