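import Pool.Agent.Lib.MP_021685_agU.UT

/-!
# Determinant tensors; alternation of products
-/

set_option autoImplicit false
set_option linter.unusedSectionVars false

namespace Pool.Agent.Lib.MP_021685_agU

open Matrix Function Module

section General

variable {R S M M' M'' : Type*} [CommRing R] [Fintype S] [DecidableEq S] [Fintype M] [DecidableEq M]
  [Fintype M'] [DecidableEq M'] [Fintype M''] [DecidableEq M'']

theorem UV_det_updateRow (m : Matrix S S R) (s : S) (b : S → R) :
    (m.updateRow s b).det = ∑ c, m.adjugate c s * b c := by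
  have h1 := Matrix.cramer_transpose_apply m b s
  rw [← h1, Matrix.cramer_eq_adjugate_mulVec, ← Matrix.adjugate_transpose]
  rfl

/-- The derivation of a determinant tensor.
PROOF. Put `m = (lam s c (j s))`. The term of the slot `s` is the determinant of `m` with the row `s`
replaced by `c ↦ ∑_m lam s c m * X m (j s) = ∑ c', A c c' * m s c'`, i.e. the row `s` of
`m * Aᵀ` (the determinant is linear in the row `s`: `Matrix.det_updateRow_add`, `_smul`, or
`Matrix.cramer`/`adjugate`). With the adjugate: `det (updateRow m s b) = ∑ c, b c * m.adjugate c s`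
(`Matrix.cramer_transpose_apply`, `Matrix.adjugate_def`), so the sum over `s` is
`∑ s c, (m * Aᵀ) s c * adjugate c s = trace (m * Aᵀ * adjugate m) = trace (Aᵀ * (adjugate m * m)) =
det m * trace A`. -/
theorem DM_detT (X : Matrix M M R) (lam : S → S → M → R) (A : Matrix S S R)
    (h : ∀ s c m', ∑ m, lam s c m * X m m' = ∑ c', A c c' * lam s c' m') (j : S → M) :
    DM X (detT lam) j = A.trace * detT lam j := by
  have h1 : ∀ s m, detT lam (update j s m) =
      ∑ c, (Matrix.of fun s c => lam s c (j s)).adjugate c s * lam s c m := by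
    intro s m
    rw [← UV_det_updateRow]
    unfold detT
    congr 1
    ext s' c
    by_cases hs : s' = s
    · subst hs
      rw [Matrix.updateRow_self, Matrix.of_apply, update_self]
    · rw [Matrix.updateRow_ne hs, Matrix.of_apply, Matrix.of_apply, update_of_ne hs]
  have h2 : ∀ c c', ∑ s, (Matrix.of fun s c => lam s c (j s)).adjugate c s * lam s c' (j s) =
      if c = c' then detT lam j else 0 := by
    intro c c'
    have h3 := congrFun (congrFun (Matrix.adjugate_mul (Matrix.of fun s c => lam s c (j s))) c) c'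
    rw [Matrix.mul_apply, Matrix.smul_apply, Matrix.one_apply, smul_eq_mul, mul_ite, mul_one,
      mul_zero] at h3
    exact h3
  unfold DM
  calc ∑ s, ∑ m, detT lam (update j s m) * X m (j s)
      = ∑ s, ∑ c, (Matrix.of fun s c => lam s c (j s)).adjugate c s *
          ∑ c', A c c' * lam s c' (j s) := by
        refine Finset.sum_congr rfl fun s _ => ?_
        have h4 : ∀ m, detT lam (update j s m) * X m (j s) =
            ∑ c, (Matrix.of fun s c => lam s c (j s)).adjugate c s * (lam s c m * X m (j s)) := by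
          intro m
          rw [h1, Finset.sum_mul]
          exact Finset.sum_congr rfl fun c _ => by ring
        rw [Finset.sum_congr rfl fun m _ => h4 m, Finset.sum_comm]
        refine Finset.sum_congr rfl fun c _ => ?_
        rw [← Finset.mul_sum, h]
    _ = ∑ c, ∑ c', A c c' *
          ∑ s, (Matrix.of fun s c => lam s c (j s)).adjugate c s * lam s c' (j s) := by
        rw [Finset.sum_comm]
        refine Finset.sum_congr rfl fun c _ => ?_
        have h5 : ∀ s, (Matrix.of fun s c => lam s c (j s)).adjugate c s *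
            ∑ c', A c c' * lam s c' (j s) = ∑ c', A c c' *
              ((Matrix.of fun s c => lam s c (j s)).adjugate c s * lam s c' (j s)) := by
          intro s
          rw [Finset.mul_sum]
          exact Finset.sum_congr rfl fun c' _ => by ring
        rw [Finset.sum_congr rfl fun s _ => h5 s, Finset.sum_comm]
        refine Finset.sum_congr rfl fun c' _ => ?_
        rw [Finset.mul_sum]
    _ = ∑ c, A c c * detT lam j := by
        refine Finset.sum_congr rfl fun c _ => ?_
        rw [Finset.sum_congr rfl fun c' _ => by rw [h2 c c'], Finset.sum_eq_single c]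
        · rw [if_pos rfl]
        · intro c' _ hc
          rw [if_neg (fun h => hc h.symm), mul_zero]
        · intro hc
          exact absurd (Finset.mem_univ c) hc
    _ = A.trace * detT lam j := by
        rw [Matrix.trace, Finset.sum_mul]
        rfl

theorem UV_detT_eq {N : Type*} (lam : S → S → N → R) (j : S → N) :
    detT lam j = ∑ σ : Equiv.Perm S, ((Equiv.Perm.sign σ : ℤ) : R) * ∏ s, lam s (σ s) (j s) := by
  unfold detT
  rw [← Matrix.det_transpose, Matrix.det_apply']
  rfl

/-- The pull-back of a determinant tensor. PROOF. `det = ∑ σ, sign σ ∏ s`, and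
`Finset.prod_univ_sum`. -/
theorem PM_detT (Φ : Matrix M' M R) (lam : S → S → M' → R) :
    PM Φ (detT lam) = detT fun s c m => ∑ m', lam s c m' * Φ m' m := by
  funext j
  unfold PM
  rw [UV_detT_eq]
  calc ∑ j' : S → M', detT lam j' * ∏ s, Φ (j' s) (j s)
      = ∑ j' : S → M', ∑ σ : Equiv.Perm S, ((Equiv.Perm.sign σ : ℤ) : R) *
          ∏ s, (lam s (σ s) (j' s) * Φ (j' s) (j s)) := by
        refine Finset.sum_congr rfl fun j' _ => ?_
        rw [UV_detT_eq, Finset.sum_mul]
        refine Finset.sum_congr rfl fun σ _ => ?_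
        rw [Finset.prod_mul_distrib, mul_assoc]
    _ = ∑ σ : Equiv.Perm S, ((Equiv.Perm.sign σ : ℤ) : R) *
          ∏ s, ∑ m', lam s (σ s) m' * Φ m' (j s) := by
        rw [Finset.sum_comm]
        refine Finset.sum_congr rfl fun σ _ => ?_
        rw [← Finset.mul_sum, Finset.prod_univ_sum, Fintype.piFinset_univ]

/-- The tensor `detT` is alternating if the linear forms do not depend on the slot. -/
theorem isAlt_detT (l : S → M → R) : IsAlt (detT fun _ c => l c) := by
  intro σ j
  have h := Matrix.det_permute σ (Matrix.of fun (s : S) c => l c (j s))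
  rw [zsmul_eq_mul]
  exact h

/-- Alternation of a product: the second factor can be alternated first.
PROOF. Let `b = card S₂`. `altT (G ⊗ altT w) j = ∑_σ ∑_τ sign σ sign τ G (j ∘ σ ∘ p ∘ inl)
w (j ∘ σ ∘ p ∘ inr ∘ τ)`, and for fixed `τ : Perm S₂` replace `σ` by
`σ * (p (1 ⊕ τ) p⁻¹)⁻¹` (`Equiv.Perm.sumCongr 1 τ`, `p.permCongr`, sign `sign τ`). Every `τ` gives
`altT (G ⊗ w) j`. Compare `alt_mixed` in `MP_802513_agH/Geo4.lean`. -/
theorem altT_mul_altT {S₁ S₂ : Type*} [Fintype S₁] [DecidableEq S₁] [Fintype S₂] [DecidableEq S₂]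
    (p : S₁ ⊕ S₂ ≃ S) (G : (S₁ → M) → R) (w : (S₂ → M) → R) :
    altT (fun j : S → M => G (fun a => j (p (Sum.inl a))) * altT w (fun a => j (p (Sum.inr a)))) =
      (Fintype.card S₂).factorial •
        altT (fun j : S → M => G (fun a => j (p (Sum.inl a))) * w (fun a => j (p (Sum.inr a)))) := by
  funext j
  rw [Pi.smul_apply]
  unfold altT
  have key : ∀ τ : Equiv.Perm S₂,
      ∑ σ : Equiv.Perm S, (Equiv.Perm.sign σ : ℤ) • (G (fun a => j (σ (p (Sum.inl a)))) *
        ((Equiv.Perm.sign τ : ℤ) • w (fun a => j (σ (p (Sum.inr (τ a))))))) =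
      ∑ σ : Equiv.Perm S, (Equiv.Perm.sign σ : ℤ) • (G (fun a => j (σ (p (Sum.inl a)))) *
        w (fun a => j (σ (p (Sum.inr a))))) := by
    intro τ
    have hs : Equiv.Perm.sign (p.permCongr (Equiv.Perm.sumCongr (1 : Equiv.Perm S₁) τ)) =
        Equiv.Perm.sign τ := by
      rw [Equiv.Perm.sign_permCongr, Equiv.Perm.sign_sumCongr, Equiv.Perm.sign_one, one_mul]
    have hl : ∀ a, p.permCongr (Equiv.Perm.sumCongr (1 : Equiv.Perm S₁) τ) (p (Sum.inl a)) =
        p (Sum.inl a) := by
      intro a
      rw [Equiv.permCongr_apply, Equiv.symm_apply_apply]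
      rfl
    have hr : ∀ a, p.permCongr (Equiv.Perm.sumCongr (1 : Equiv.Perm S₁) τ) (p (Sum.inr a)) =
        p (Sum.inr (τ a)) := by
      intro a
      rw [Equiv.permCongr_apply, Equiv.symm_apply_apply]
      rfl
    rw [← Equiv.sum_comp (Equiv.mulRight (p.permCongr (Equiv.Perm.sumCongr (1 : Equiv.Perm S₁) τ)))
      (fun σ : Equiv.Perm S => (Equiv.Perm.sign σ : ℤ) • (G (fun a => j (σ (p (Sum.inl a)))) *
        w (fun a => j (σ (p (Sum.inr a))))))]
    refine Finset.sum_congr rfl fun σ _ => ?_
    simp only [Equiv.coe_mulRight, Equiv.Perm.mul_apply, hl, hr, Equiv.Perm.sign_mul, hs,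
      Units.val_mul, mul_smul_comm, smul_smul]
  have h1 : ∀ σ : Equiv.Perm S, (Equiv.Perm.sign σ : ℤ) • (G (fun a => j (σ (p (Sum.inl a)))) *
      ∑ τ : Equiv.Perm S₂, (Equiv.Perm.sign τ : ℤ) • w (fun a => j (σ (p (Sum.inr (τ a)))))) =
      ∑ τ : Equiv.Perm S₂, (Equiv.Perm.sign σ : ℤ) • (G (fun a => j (σ (p (Sum.inl a)))) *
        ((Equiv.Perm.sign τ : ℤ) • w (fun a => j (σ (p (Sum.inr (τ a))))))) := by
    intro σ
    rw [Finset.mul_sum, Finset.smul_sum]
  rw [Finset.sum_congr rfl fun σ _ => h1 σ, Finset.sum_comm, Finset.sum_congr rfl fun τ _ => key τ,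
    Finset.sum_const, Finset.card_univ, Fintype.card_perm]

theorem altT_equiv {S' : Type*} [Fintype S'] [DecidableEq S'] (e : S ≃ S') (T : (S → M) → R) :
    altT (fun j : S' → M => T (fun s => j (e s))) = fun j => altT T (fun s => j (e s)) := by
  funext j
  unfold altT
  rw [← Equiv.sum_comp e.permCongr]
  refine Finset.sum_congr rfl fun σ _ => ?_
  rw [Equiv.Perm.sign_permCongr]
  have h : (fun s => j ((e.permCongr σ) (e s))) = fun s => j (e (σ s)) := by
    funext s
    rw [Equiv.permCongr_apply, Equiv.symm_apply_apply]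
  exact congrArg (fun t => (Equiv.Perm.sign σ : ℤ) • T t) h

end General

end Pool.Agent.Lib.MP_021685_agU
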