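import Pool.Agent.Lib.MP_021685_agU.RE

/-!
# The elements of the Lie algebra `ss` in a frame
-/

set_option autoImplicit false
set_option linter.unusedSectionVars false

namespace Pool.Agent.Lib.MP_021685_agU

open Matrix Function Module

variable {C : Type*} [Field C] [CharZero C] [IsAlgClosed C] {K : Type*} [Fintype K]
  [DecidableEq K] {D : TData C K} {X I : Type*} [Fintype X] [DecidableEq X] [Fintype I]
  [DecidableEq I] (F : RFr D X I)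

namespace RFr

/-- The matrix unit which maps the basis vector `i'` to the basis vector `i`, on all the summands
with the place of `i`. -/
noncomputable def Zt (i i' : I) : Matrix K K C :=
  ∑ χ, if F.ρ χ = F.Y.φ i then F.a' χ * vecMulVec (F.w i) (F.l i') * F.a χ else 0

/-- Its skew part. -/
noncomputable def Xt (i i' : I) : Matrix K K C :=
  F.Zt i i' - (F.Y.ε i * F.Y.ε i') • F.Zt (F.Y.bar i') (F.Y.bar i)

/-- auxiliary -/
theorem XA_vv (w l x : K → C) : vecMulVec w l *ᵥ x = (l ⬝ᵥ x) • w := by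
  rw [Matrix.vecMulVec_mulVec]
  ext k
  simp [mul_comm]

theorem XA_PF_mulVec (f : X) (m : I) :
    PF F.Y F.w F.l f *ᵥ F.w m = if F.Y.φ m = f then F.w m else 0 := by
  unfold PF
  rw [Matrix.sum_mulVec, Finset.sum_eq_single m]
  · by_cases h : F.Y.φ m = f
    · rw [if_pos h, if_pos h, XA_vv, F.dual, if_pos rfl, one_smul]
    · rw [if_neg h, if_neg h, Matrix.zero_mulVec]
  · intro i _ hi
    by_cases h : F.Y.φ i = f
    · rw [if_pos h, XA_vv, F.dual, if_neg hi, zero_smul]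
    · rw [if_neg h, Matrix.zero_mulVec]
  · intro hh
    exact absurd (Finset.mem_univ _) hh

theorem XA_vecMul_PF (f : X) (m : I) :
    F.l m ᵥ* PF F.Y F.w F.l f = if F.Y.φ m = f then F.l m else 0 := by
  unfold PF
  rw [Matrix.vecMul_sum, Finset.sum_eq_single m]
  · by_cases h : F.Y.φ m = f
    · rw [if_pos h, if_pos h, Matrix.vecMul_vecMulVec, F.dual, if_pos rfl, one_smul]
    · rw [if_neg h, if_neg h, Matrix.vecMul_zero]
  · intro i _ hi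
    by_cases h : F.Y.φ i = f
    · rw [if_pos h, Matrix.vecMul_vecMulVec, F.dual, if_neg (fun hh => hi hh.symm), zero_smul]
    · rw [if_neg h, Matrix.vecMul_zero]
  · intro hh
    exact absurd (Finset.mem_univ _) hh

theorem XA_E_PF {i i' : I} (h : F.Y.φ i = F.Y.φ i') :
    vecMulVec (F.w i) (F.l i') * PF F.Y F.w F.l (F.Y.φ i) = vecMulVec (F.w i) (F.l i') := by
  rw [Matrix.vecMulVec_mul, XA_vecMul_PF, if_pos h.symm]

theorem XA_PF_E {i i' : I} :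
    PF F.Y F.w F.l (F.Y.φ i) * vecMulVec (F.w i) (F.l i') = vecMulVec (F.w i) (F.l i') := by
  rw [Matrix.mul_vecMulVec, XA_PF_mulVec, if_pos rfl]

theorem XA_aZt (i i' : I) (χ : X) (x : K → C) :
    F.a χ *ᵥ (F.Zt i i' *ᵥ x) = if F.ρ χ = F.Y.φ i then (F.l i' ⬝ᵥ (F.a χ *ᵥ x)) • F.w i else 0 := by
  unfold Zt
  rw [Matrix.sum_mulVec, Matrix.mulVec_sum, Finset.sum_eq_single χ]
  · by_cases hρ : F.ρ χ = F.Y.φ i
    · rw [if_pos hρ, if_pos hρ, Matrix.mulVec_mulVec]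
      have e1 : F.a χ * (F.a' χ * vecMulVec (F.w i) (F.l i') * F.a χ) =
          vecMulVec (F.w i) (F.l i') * F.a χ := by
        rw [← mul_assoc, ← mul_assoc, F.aa', if_pos rfl, hρ, XA_PF_E]
      rw [e1, ← Matrix.mulVec_mulVec, XA_vv]
    · rw [if_neg hρ, if_neg hρ, Matrix.zero_mulVec, Matrix.mulVec_zero]
  · intro χ' _ hχ
    by_cases hρ : F.ρ χ' = F.Y.φ i
    · rw [if_pos hρ, Matrix.mulVec_mulVec]
      have e1 : F.a χ * (F.a' χ' * vecMulVec (F.w i) (F.l i') * F.a χ') = 0 := by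
        rw [← mul_assoc, ← mul_assoc, F.aa', if_neg (fun hh => hχ hh.symm), zero_mul, zero_mul]
      rw [e1, Matrix.zero_mulVec]
    · rw [if_neg hρ, Matrix.zero_mulVec, Matrix.mulVec_zero]
  · intro hh
    exact absurd (Finset.mem_univ _) hh

/-- PROOF. `PF (φ i) *ᵥ w i = w i`, `l i ᵥ* PF (φ i) = l i` (`dual`). -/
theorem PF_w (i : I) : PF F.Y F.w F.l (F.Y.φ i) *ᵥ F.w i = F.w i := by
  rw [XA_PF_mulVec, if_pos rfl]

theorem l_PF (i : I) : F.l i ᵥ* PF F.Y F.w F.l (F.Y.φ i) = F.l i := by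
  rw [XA_vecMul_PF, if_pos rfl]

/-- PROOF. `a χ' * a' χ *ᵥ w m` is `PF (ρ χ) *ᵥ w m` if `χ' = χ` and `0` otherwise (`aa'`), so the sum is
the term `χ' = χ`: `[ρ χ = φ i] (l i' ⬝ᵥ (PF (ρ χ) *ᵥ w m)) • a' χ *ᵥ w i`, and
`l i' ⬝ᵥ PF (φ i) *ᵥ w m = l i' ⬝ᵥ w m` since `φ i' = φ i` (`l_PF`). -/
theorem Zt_mulVec {i i' : I} (h : F.Y.φ i = F.Y.φ i') (χ : X) (m : I) :
    F.Zt i i' *ᵥ (F.a' χ *ᵥ F.w m) =
      if m = i' ∧ F.ρ χ = F.Y.φ i then F.a' χ *ᵥ F.w i else 0 := by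
  unfold Zt
  rw [Matrix.sum_mulVec]
  rw [Finset.sum_eq_single χ]
  · by_cases hρ : F.ρ χ = F.Y.φ i
    · rw [if_pos hρ]
      rw [← Matrix.mulVec_mulVec, ← Matrix.mulVec_mulVec, Matrix.mulVec_mulVec _ (F.a χ) (F.a' χ), F.aa', if_pos rfl, hρ,
        XA_PF_mulVec, XA_vv]
      by_cases hm : m = i'
      · subst hm
        rw [if_pos h.symm, F.dual, if_pos rfl, one_smul, if_pos ⟨rfl, rfl⟩]
      · rw [if_neg (fun hh : m = i' ∧ _ => hm hh.1)]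
        by_cases hφ : F.Y.φ m = F.Y.φ i
        · rw [if_pos hφ, F.dual, if_neg (fun hh => hm hh.symm), zero_smul, Matrix.mulVec_zero]
        · rw [if_neg hφ, dotProduct_zero, zero_smul, Matrix.mulVec_zero]
    · rw [if_neg hρ, Matrix.zero_mulVec, if_neg (fun hh : _ ∧ F.ρ χ = _ => hρ hh.2)]
  · intro χ' _ hχ
    by_cases hρ : F.ρ χ' = F.Y.φ i
    · rw [if_pos hρ, ← Matrix.mulVec_mulVec, Matrix.mulVec_mulVec _ (F.a χ') (F.a' χ), F.aa', if_neg hχ,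
        Matrix.zero_mulVec, Matrix.mulVec_zero]
    · rw [if_neg hρ, Matrix.zero_mulVec]
  · intro hh
    exact absurd (Finset.mem_univ _) hh

/-- PROOF. Let `f = φ i = φ i'`, `E = vecMulVec (w i) (l i')`, so `PF f * E = E = E * PF f`.
`Z * Zt = ∑_χ [ρ χ = f] Z a' χ E a χ = ∑_{χ, χ'} [ρ χ = f] a' χ' (a χ' Z a' χ) E a χ` (`res`) and
`a χ' Z a' χ = z χ' χ • PF f` if `ρ χ' = f` and `0` otherwise (`scal`; choose the scalars `z χ' χ`).
In the same way `Zt * Z = ∑_{χ, χ'} [ρ χ' = f] a' χ' E (a χ' Z a' χ) a χ`. Both are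
`∑_{χ, χ'} [ρ χ = f][ρ χ' = f] z χ' χ • a' χ' E a χ`. -/
theorem Zt_comm {i i' : I} (h : F.Y.φ i = F.Y.φ i') {Z : Matrix K K C} (hZ : Z ∈ RC D) :
    F.Zt i i' * Z = Z * F.Zt i i' := by
  have hsc : ∀ χ χ', ∃ z : C, F.a χ * Z * F.a' χ' = if F.ρ χ = F.ρ χ' then z • PF F.Y F.w F.l (F.ρ χ) else 0 :=
    fun χ χ' => F.scal χ χ' Z hZ
  choose z hz using hsc
  have hL : F.Zt i i' * Z = ∑ χ, ∑ χ', if F.ρ χ = F.Y.φ i ∧ F.ρ χ' = F.Y.φ i then
      z χ χ' • (F.a' χ * vecMulVec (F.w i) (F.l i') * F.a χ') else 0 := by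
    calc F.Zt i i' * Z = (F.Zt i i' * Z) * ∑ χ', F.a' χ' * F.a χ' := by rw [F.res, mul_one]
      _ = ∑ χ, ∑ χ', (if F.ρ χ = F.Y.φ i then F.a' χ * vecMulVec (F.w i) (F.l i') * F.a χ else 0) * Z *
            (F.a' χ' * F.a χ') := by
          unfold Zt
          rw [Finset.sum_mul, Finset.sum_mul]
          refine Finset.sum_congr rfl fun χ _ => ?_
          rw [Finset.mul_sum]
      _ = _ := by
          refine Finset.sum_congr rfl fun χ _ => Finset.sum_congr rfl fun χ' _ => ?_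
          by_cases hρ : F.ρ χ = F.Y.φ i
          · rw [if_pos hρ]
            have e1 : F.a' χ * vecMulVec (F.w i) (F.l i') * F.a χ * Z * (F.a' χ' * F.a χ') =
                F.a' χ * vecMulVec (F.w i) (F.l i') * (F.a χ * Z * F.a' χ') * F.a χ' := by
              simp only [mul_assoc]
            rw [e1, hz]
            by_cases hρ' : F.ρ χ = F.ρ χ'
            · rw [if_pos hρ', if_pos ⟨hρ, by rw [← hρ', hρ]⟩, mul_smul_comm, hρ, mul_assoc (F.a' χ),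
                XA_E_PF F h, smul_mul_assoc]
            · rw [if_neg hρ', if_neg (fun hh => hρ' (by rw [hh.1, hh.2])), mul_zero, zero_mul]
          · rw [if_neg hρ, if_neg (fun hh => hρ hh.1), zero_mul, zero_mul]
  have hR : Z * F.Zt i i' = ∑ χ, ∑ χ', if F.ρ χ = F.Y.φ i ∧ F.ρ χ' = F.Y.φ i then
      z χ χ' • (F.a' χ * vecMulVec (F.w i) (F.l i') * F.a χ') else 0 := by
    calc Z * F.Zt i i' = (∑ χ, F.a' χ * F.a χ) * (Z * F.Zt i i') := by rw [F.res, one_mul]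
      _ = ∑ χ, ∑ χ', (F.a' χ * F.a χ) * (Z *
            (if F.ρ χ' = F.Y.φ i then F.a' χ' * vecMulVec (F.w i) (F.l i') * F.a χ' else 0)) := by
          unfold Zt
          rw [Finset.sum_mul]
          refine Finset.sum_congr rfl fun χ _ => ?_
          rw [Finset.mul_sum, Finset.mul_sum]
      _ = _ := by
          refine Finset.sum_congr rfl fun χ _ => Finset.sum_congr rfl fun χ' _ => ?_
          by_cases hρ : F.ρ χ' = F.Y.φ i
          · rw [if_pos hρ]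
            have e1 : F.a' χ * F.a χ * (Z * (F.a' χ' * vecMulVec (F.w i) (F.l i') * F.a χ')) =
                F.a' χ * (F.a χ * Z * F.a' χ') * vecMulVec (F.w i) (F.l i') * F.a χ' := by
              simp only [mul_assoc]
            rw [e1, hz]
            by_cases hρ' : F.ρ χ = F.ρ χ'
            · rw [if_pos hρ', if_pos ⟨by rw [hρ', hρ], hρ⟩, hρ', hρ, mul_smul_comm, smul_mul_assoc, smul_mul_assoc,
                mul_assoc (F.a' χ) (PF _ _ _ _), XA_PF_E F]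
            · rw [if_neg hρ', if_neg (fun hh => hρ' (by rw [hh.1, hh.2])), mul_zero, zero_mul, zero_mul]
          · rw [if_neg hρ, if_neg (fun hh => hρ hh.2), mul_zero, mul_zero]
  rw [hL, hR]

/-- PROOF. By `exp`: `B (Zt i i' x, y) = ∑ χ, d χ ∑_m [φ m = ρ χ] ε m (l m ⬝ᵥ a χ Zt i i' x)
(l (bar m) ⬝ᵥ a (c χ) y)` and `l m ⬝ᵥ (a χ *ᵥ (Zt i i' *ᵥ x)) = [ρ χ = φ i] [m = i] l i' ⬝ᵥ a χ x`
(`aa'`); so it is `∑_{χ, ρ χ = f} d χ ε i (l i' ⬝ᵥ a χ x) (l (bar i) ⬝ᵥ a (c χ) y)`.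
`B (x, Zt (bar i') (bar i) y) = ∑ χ, d χ ∑_m [φ m = ρ χ] ε m (l m ⬝ᵥ a χ x)
(l (bar m) ⬝ᵥ a (c χ) Zt (bar i') (bar i) y)`, the last factor is
`[ρ (c χ) = φ (bar i')] [bar m = bar i'] (l (bar i) ⬝ᵥ a (c χ) y)`, so `m = i'` and (`φ_bar`, `cc`:
`ρ (c χ) = φ (bar i')` iff `ρ χ = φ i'`) it is `∑_{χ, ρ χ = f} d χ ε i' (l i' ⬝ᵥ a χ x)
(l (bar i) ⬝ᵥ a (c χ) y)`. So `B (Zt i i' x, y) = ε i ε i' B (x, Zt (bar i') (bar i) y)`; conclude with
`B_adj` and the non-degeneracy. -/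
theorem adj_Zt {i i' : I} (h : F.Y.φ i = F.Y.φ i') :
    adj D (F.Zt i i') = (F.Y.ε i * F.Y.ε i') • F.Zt (F.Y.bar i') (F.Y.bar i) := by
  obtain ⟨d, hd⟩ := F.exp
  have key : ∀ x y : K → C, D.B (F.Zt i i' *ᵥ x) y =
      D.B x (((F.Y.ε i * F.Y.ε i') • F.Zt (F.Y.bar i') (F.Y.bar i)) *ᵥ y) := by
    intro x y
    rw [Matrix.smul_mulVec, map_smul, smul_eq_mul, hd, hd, Finset.mul_sum]
    refine Finset.sum_congr rfl fun χ _ => ?_
    have hl : ∑ m, (if F.Y.φ m = F.ρ χ then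
        F.Y.ε m * (F.l m ⬝ᵥ (F.a χ *ᵥ (F.Zt i i' *ᵥ x))) * (F.l (F.Y.bar m) ⬝ᵥ (F.a (F.c χ) *ᵥ y)) else 0) =
        if F.Y.φ i = F.ρ χ then F.Y.ε i * (F.l i' ⬝ᵥ (F.a χ *ᵥ x)) * (F.l (F.Y.bar i) ⬝ᵥ (F.a (F.c χ) *ᵥ y)) else 0 := by
      rw [Finset.sum_eq_single i]
      · by_cases hρ : F.Y.φ i = F.ρ χ
        · rw [if_pos hρ, if_pos hρ, XA_aZt, if_pos hρ.symm, dotProduct_smul, F.dual, if_pos rfl, smul_eq_mul, mul_one]
        · rw [if_neg hρ, if_neg hρ]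
      · intro m _ hm
        by_cases hρ : F.Y.φ m = F.ρ χ
        · rw [if_pos hρ, XA_aZt]
          by_cases hρ' : F.ρ χ = F.Y.φ i
          · rw [if_pos hρ', dotProduct_smul, F.dual, if_neg hm, smul_zero, mul_zero, zero_mul]
          · rw [if_neg hρ', dotProduct_zero, mul_zero, zero_mul]
        · rw [if_neg hρ]
      · intro hh
        exact absurd (Finset.mem_univ _) hh
    have hr : ∑ m, (if F.Y.φ m = F.ρ χ then
        F.Y.ε m * (F.l m ⬝ᵥ (F.a χ *ᵥ x)) *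
          (F.l (F.Y.bar m) ⬝ᵥ (F.a (F.c χ) *ᵥ (F.Zt (F.Y.bar i') (F.Y.bar i) *ᵥ y))) else 0) =
        if F.Y.φ i' = F.ρ χ then F.Y.ε i' * (F.l i' ⬝ᵥ (F.a χ *ᵥ x)) *
          (F.l (F.Y.bar i) ⬝ᵥ (F.a (F.c χ) *ᵥ y)) else 0 := by
      rw [Finset.sum_eq_single i']
      · by_cases hρ : F.Y.φ i' = F.ρ χ
        · rw [if_pos hρ, if_pos hρ, XA_aZt, if_pos (F.φ_bar i' χ hρ.symm), dotProduct_smul, F.dual, if_pos rfl,
            smul_eq_mul, mul_one]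
        · rw [if_neg hρ, if_neg hρ]
      · intro m _ hm
        by_cases hρ : F.Y.φ m = F.ρ χ
        · rw [if_pos hρ, XA_aZt]
          by_cases hρ' : F.ρ (F.c χ) = F.Y.φ (F.Y.bar i')
          · rw [if_pos hρ', dotProduct_smul, F.dual, if_neg (fun hh => hm (F.Y.bar_inj hh)), smul_zero, mul_zero]
          · rw [if_neg hρ', dotProduct_zero, mul_zero]
        · rw [if_neg hρ]
      · intro hh
        exact absurd (Finset.mem_univ _) hh
    rw [hl, hr, ← h]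
    by_cases hρ : F.Y.φ i = F.ρ χ
    · rw [if_pos hρ, if_pos hρ]
      have e2 := F.Y.ε_sq i'
      calc d χ * (F.Y.ε i * (F.l i' ⬝ᵥ (F.a χ *ᵥ x)) * (F.l (F.Y.bar i) ⬝ᵥ (F.a (F.c χ) *ᵥ y))) =
            d χ * (F.Y.ε i * (F.Y.ε i' * F.Y.ε i') * (F.l i' ⬝ᵥ (F.a χ *ᵥ x)) *
              (F.l (F.Y.bar i) ⬝ᵥ (F.a (F.c χ) *ᵥ y))) := by rw [e2, mul_one]
        _ = _ := by ring
    · rw [if_neg hρ, if_neg hρ, mul_zero, mul_zero]
  have h1 : F.Zt i i' = adj D ((F.Y.ε i * F.Y.ε i') • F.Zt (F.Y.bar i') (F.Y.bar i)) := by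
    refine eq_of_B (D := D) (fun u v => ?_)
    rw [key, B_adj, adj_adj]
  rw [h1, adj_adj]

/-- PROOF. `Zt_comm`, `skew_iff`, `adj_Zt` (twice, `adj_adj`). -/
theorem Xt_mem_uu {i i' : I} (h : F.Y.φ i = F.Y.φ i') : F.Xt i i' ∈ uu D := by
  have hb : F.Y.φ (F.Y.bar i') = F.Y.φ (F.Y.bar i) := F.Y.φ_bar _ _ h.symm
  rw [mem_uu]
  constructor
  · intro N hN
    unfold Xt
    rw [sub_mul, mul_sub, smul_mul_assoc, mul_smul_comm, F.Zt_comm h hN, F.Zt_comm hb hN]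
  · rw [skew_iff]
    have hsub : ∀ A B : Matrix K K C, adj D (A - B) = adj D A - adj D B := by
      intro A B
      rw [sub_eq_add_neg, ← neg_one_smul C B, adj_add, adj_smul, neg_one_smul, ← sub_eq_add_neg]
    unfold Xt
    rw [hsub, adj_smul, F.adj_Zt h, F.adj_Zt hb, F.Y.bar_bar, F.Y.bar_bar, smul_smul]
    have e1 : F.Y.ε i * F.Y.ε i' * (F.Y.ε (F.Y.bar i') * F.Y.ε (F.Y.bar i)) = 1 := by
      rw [F.Y.ε_bar, F.Y.ε_bar, ← h]
      have h1 := F.Y.ε_sq i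
      have h2 := F.Y.ε_sq i'
      have h3 := F.Y.η_sq (F.Y.φ i)
      calc F.Y.ε i * F.Y.ε i' * (F.Y.η (F.Y.φ i) * F.Y.ε i' * (F.Y.η (F.Y.φ i) * F.Y.ε i)) =
            (F.Y.ε i * F.Y.ε i) * (F.Y.ε i' * F.Y.ε i') * (F.Y.η (F.Y.φ i) * F.Y.η (F.Y.φ i)) := by ring
        _ = 1 := by rw [h1, h2, h3]; norm_num
    rw [e1, one_smul, neg_sub]

/-- PROOF. `trace (Zt i i' * Z) = ∑_χ [ρ χ = φ i] trace (vecMulVec (w i) (l i') * (a χ Z a' χ)) =
∑_χ [ρ χ = φ i] z χ * (l i' ⬝ᵥ w i)` with `a χ Z a' χ = z χ • PF (ρ χ)` (`scal`). -/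
theorem trace_Zt {i i' : I} (h : F.Y.φ i = F.Y.φ i') {Z : Matrix K K C} (hZ : Z ∈ RC D) :
    ∃ z : X → C, (∀ χ, F.a χ * Z * F.a' χ = z χ • PF F.Y F.w F.l (F.ρ χ)) ∧
      (F.Zt i i' * Z).trace = if i = i' then ∑ χ, (if F.ρ χ = F.Y.φ i then z χ else 0) else 0 := by
  have hsc : ∀ χ, ∃ z : C, F.a χ * Z * F.a' χ = z • PF F.Y F.w F.l (F.ρ χ) := by
    intro χ
    obtain ⟨z, hz⟩ := F.scal χ χ Z hZ
    exact ⟨z, by rw [hz, if_pos rfl]⟩
  choose z hz using hsc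
  refine ⟨z, hz, ?_⟩
  have h1 : (F.Zt i i' * Z).trace = ∑ χ, if F.ρ χ = F.Y.φ i then z χ * (F.w i ⬝ᵥ F.l i') else 0 := by
    unfold Zt
    rw [Finset.sum_mul, Matrix.trace_sum]
    refine Finset.sum_congr rfl fun χ _ => ?_
    by_cases hρ : F.ρ χ = F.Y.φ i
    · rw [if_pos hρ, if_pos hρ]
      have e1 : F.a' χ * vecMulVec (F.w i) (F.l i') * F.a χ * Z =
          F.a' χ * (vecMulVec (F.w i) (F.l i') * F.a χ * Z) := by
        simp only [mul_assoc]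
      have e2 : vecMulVec (F.w i) (F.l i') * F.a χ * Z * F.a' χ =
          vecMulVec (F.w i) (F.l i') * (F.a χ * Z * F.a' χ) := by
        simp only [mul_assoc]
      rw [e1, Matrix.trace_mul_comm, e2, hz, hρ, mul_smul_comm, XA_E_PF F h, Matrix.trace_smul,
        Matrix.trace_vecMulVec, smul_eq_mul]
    · rw [if_neg hρ, if_neg hρ, zero_mul, Matrix.trace_zero]
  rw [h1, dotProduct_comm, F.dual]
  by_cases hi : i = i'
  · rw [if_pos hi, if_pos hi.symm]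
    simp only [mul_one]
  · rw [if_neg hi, if_neg (fun hh => hi hh.symm)]
    simp only [mul_zero, ite_self, Finset.sum_const_zero]

/-- PROOF. `trace_Zt` for `(i, i')` and `(bar i', bar i)`. -/
theorem Xt_mem_ss {i i' : I} (h : F.Y.φ i = F.Y.φ i') (hne : i ≠ i') : F.Xt i i' ∈ ss D := by
  have hb : F.Y.φ (F.Y.bar i') = F.Y.φ (F.Y.bar i) := F.Y.φ_bar _ _ h.symm
  rw [mem_ss]
  refine ⟨F.Xt_mem_uu h, fun N hN => ?_⟩
  obtain ⟨_, _, h1⟩ := F.trace_Zt h hN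
  obtain ⟨_, _, h2⟩ := F.trace_Zt hb hN
  unfold Xt
  rw [sub_mul, smul_mul_assoc, Matrix.trace_sub, Matrix.trace_smul, h1, h2, if_neg hne,
    if_neg (fun hh => hne (F.Y.bar_inj hh).symm), smul_zero, sub_zero]

/-- PROOF. `trace (Zt i i * Z)` depends only on `φ i` (`trace_Zt`: the sums are equal even if the
`z χ` are different, because for `ρ χ = φ i` the scalar `z χ` is determined by `Z`: `PF (φ i) ≠ 0`). -/
theorem Xt_sub_mem_ss {i i' : I} (h : F.Y.φ i = F.Y.φ i') : F.Xt i i - F.Xt i' i' ∈ ss D := by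
  have hb : F.Y.φ (F.Y.bar i) = F.Y.φ (F.Y.bar i') := F.Y.φ_bar _ _ h
  rw [mem_ss]
  refine ⟨Submodule.sub_mem _ (F.Xt_mem_uu rfl) (F.Xt_mem_uu rfl), fun N hN => ?_⟩
  have htr : ∀ j j' : I, F.Y.φ j = F.Y.φ j' → (F.Zt j j * N).trace = (F.Zt j' j' * N).trace := by
    intro j j' hj
    obtain ⟨z, hz, h1⟩ := F.trace_Zt (rfl : F.Y.φ j = F.Y.φ j) hN
    obtain ⟨z', hz', h2⟩ := F.trace_Zt (rfl : F.Y.φ j' = F.Y.φ j') hN
    rw [h1, h2, if_pos rfl, if_pos rfl]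
    refine Finset.sum_congr rfl fun χ _ => ?_
    rw [← hj]
    by_cases hρ : F.ρ χ = F.Y.φ j
    · rw [if_pos hρ, if_pos hρ]
      have e1 : z χ • PF F.Y F.w F.l (F.Y.φ j) = z' χ • PF F.Y F.w F.l (F.Y.φ j) := by
        rw [← hρ, ← hz, ← hz']
      have e2 := congrArg (fun A : Matrix K K C => F.l j ⬝ᵥ (A *ᵥ F.w j)) e1
      simp only [Matrix.smul_mulVec, F.PF_w, dotProduct_smul, F.dual, if_true, smul_eq_mul, mul_one] at e2
      exact e2
    · rw [if_neg hρ, if_neg hρ]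
  unfold Xt
  rw [F.Y.ε_sq, F.Y.ε_sq, one_smul, one_smul, sub_mul, sub_mul, sub_mul, Matrix.trace_sub, Matrix.trace_sub,
    Matrix.trace_sub, htr i i' h, htr _ _ hb]
  ring

end RFr

end Pool.Agent.Lib.MP_021685_agU
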