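import Pool.Agent.Lib.MP_021685_agU.XA
import Pool.Agent.Lib.MP_021685_agU.FT
import Pool.Agent.Lib.MP_021685_agU.UV

/-!
# The coordinates of a tensor in a frame; tensors killed by `ss`
-/

set_option autoImplicit false
set_option linter.unusedSectionVars false

namespace Pool.Agent.Lib.MP_021685_agU

open Matrix Function Module

section General

variable {C : Type*} [Field C]

/-- The action of a matrix on vectors in several copies. -/
noncomputable def FX_act {A K : Type*} [Fintype K] (X : Matrix K K C) (u : A × K → C) :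
    A × K → C := fun y => ∑ k, X y.2 k * u (y.1, k)

theorem FX_ev_DX {S A K : Type*} [Fintype S] [DecidableEq S] [Fintype K] [DecidableEq K]
    [Fintype A] [DecidableEq A] (X : Matrix K K C) (T : (S → A × K) → C)
    (hT : ∀ j, DX X T j = 0) (u : S → A × K → C) :
    ∑ s, ∑ j, T j * ∏ t, (update u s (FX_act X (u s))) t (j t) = 0 := by
  classical
  have h1 : ∀ s, ∑ j : S → A × K, T j * ∏ t, (update u s (FX_act X (u s))) t (j t) =
      ∑ j : S → A × K, (∑ k, T (update j s ((j s).1, k)) * X k (j s).2) * ∏ t, u t (j t) := by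
    intro s
    let F : (S → A × K) × K → C := fun z => T z.1 * X (z.1 s).2 z.2 * u s ((z.1 s).1, z.2) *
      ∏ t ∈ Finset.univ.erase s, u t (z.1 t)
    have h2 : ∑ j : S → A × K, T j * ∏ t, (update u s (FX_act X (u s))) t (j t) =
        ∑ z, F z := by
      rw [Fintype.sum_prod_type]
      refine Finset.sum_congr rfl fun j _ => ?_
      rw [← Finset.mul_prod_erase Finset.univ _ (Finset.mem_univ s), update_self]
      have h3 : ∏ t ∈ Finset.univ.erase s, (update u s (FX_act X (u s))) t (j t) =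
          ∏ t ∈ Finset.univ.erase s, u t (j t) := by
        refine Finset.prod_congr rfl fun t ht => ?_
        rw [update_of_ne (Finset.ne_of_mem_erase ht)]
      rw [h3, FX_act, Finset.sum_mul, Finset.mul_sum]
      refine Finset.sum_congr rfl fun k _ => ?_
      simp only [F]
      ring
    let φ : (S → A × K) × K → (S → A × K) × K :=
      fun z => (update z.1 s ((z.1 s).1, z.2), (z.1 s).2)
    have hφ : Function.Involutive φ := by
      rintro ⟨j, k⟩
      simp only [φ, update_self, update_idem]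
      rw [Prod.mk.injEq]
      exact ⟨update_eq_self s j, rfl⟩
    have h4 : ∑ j : S → A × K, (∑ k, T (update j s ((j s).1, k)) * X k (j s).2) *
        ∏ t, u t (j t) = ∑ z, F (φ z) := by
      rw [Fintype.sum_prod_type]
      refine Finset.sum_congr rfl fun j _ => ?_
      rw [← Finset.mul_prod_erase Finset.univ _ (Finset.mem_univ s), Finset.sum_mul]
      refine Finset.sum_congr rfl fun k _ => ?_
      simp only [F, φ, update_self]
      have h3 : ∏ t ∈ Finset.univ.erase s, u t (update j s ((j s).1, k) t) =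
          ∏ t ∈ Finset.univ.erase s, u t (j t) := by
        refine Finset.prod_congr rfl fun t ht => ?_
        rw [update_of_ne (Finset.ne_of_mem_erase ht)]
      rw [h3]
      ring
    rw [h2, h4]
    exact (Equiv.sum_comp hφ.toPerm F).symm
  simp only [h1]
  rw [Finset.sum_comm]
  refine Finset.sum_eq_zero fun j _ => ?_
  rw [← Finset.sum_mul]
  have h5 := hT j
  unfold DX at h5
  rw [h5, zero_mul]

end General

variable {C : Type*} [Field C] [CharZero C] [IsAlgClosed C] {K : Type*} [Fintype K] [DecidableEq K]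
  {D : TData C K} {X I : Type*} [Fintype X] [DecidableEq X] [Fintype I] [DecidableEq I]
  (F : RFr D X I)

namespace RFr

variable {S A : Type*} [Fintype S] [DecidableEq S] [Fintype A] [DecidableEq A]

/-- The coordinates of the tensor `T` with the labels `α`, the summands `χ` and the indices `i`. -/
noncomputable def tv (T : (S → A × K) → C) (α : S → A) (χ : S → X) (i : S → I) : C :=
  if ∀ s, F.Y.φ (i s) = F.ρ (χ s) then
    ∑ k : S → K, T (fun s => (α s, k s)) * ∏ s, (F.a' (χ s) *ᵥ F.w (i s)) (k s)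
  else 0

/-- The coordinate forms. -/
noncomputable def cov (χ : X) (i : I) (k : K) : C := if F.Y.φ i = F.ρ χ then (F.l i ᵥ* F.a χ) k else 0

/-- PROOF. The entries of `∑ χ, a' χ * PF (ρ χ) * a χ = 1` (`res`, `Pa`). -/
theorem resolution (k k' : K) :
    ∑ χ, ∑ i, (F.a' χ *ᵥ F.w i) k * F.cov χ i k' = if k = k' then 1 else 0 := by
  classical
  have h1 : ∀ χ, ∑ i, (F.a' χ *ᵥ F.w i) k * F.cov χ i k' = (F.a' χ * F.a χ) k k' := by
    intro χ
    have h2 : F.a' χ * F.a χ = ∑ i, if F.Y.φ i = F.ρ χ then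
        vecMulVec (F.a' χ *ᵥ F.w i) (F.l i ᵥ* F.a χ) else 0 := by
      have h0 : F.a' χ * F.a χ = F.a' χ * PF F.Y F.w F.l (F.ρ χ) * F.a χ := by
        rw [Matrix.mul_assoc, F.Pa χ]
      rw [h0, PF, Finset.mul_sum, Finset.sum_mul]
      refine Finset.sum_congr rfl fun i _ => ?_
      split_ifs with h
      · rw [Matrix.mul_vecMulVec, Matrix.vecMulVec_mul]
      · rw [Matrix.mul_zero, Matrix.zero_mul]
    rw [h2, Matrix.sum_apply]
    refine Finset.sum_congr rfl fun i _ => ?_
    unfold cov
    split_ifs with h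
    · rfl
    · rw [mul_zero]; rfl
  rw [Finset.sum_congr rfl fun χ _ => h1 χ, ← Matrix.sum_apply, F.res, Matrix.one_apply]

/-- PROOF. Insert `resolution` in every slot: `T (α, k') = ∑_k T (α, k) ∏_s δ (k s) (k' s)` and
`Finset.prod_univ_sum`. -/
theorem eq_sum_tv (T : (S → A × K) → C) (α : S → A) (k' : S → K) :
    T (fun s => (α s, k' s)) =
      ∑ χ : S → X, ∑ i : S → I, F.tv T α χ i * ∏ s, F.cov (χ s) (i s) (k' s) := by
  classical
  have h1 : ∀ k : S → K, (∏ s, if k s = k' s then (1 : C) else 0) =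
      ∑ χ : S → X, ∑ i : S → I, (∏ s, (F.a' (χ s) *ᵥ F.w (i s)) (k s)) *
        ∏ s, F.cov (χ s) (i s) (k' s) := by
    intro k
    have h2 : (∏ s, if k s = k' s then (1 : C) else 0) =
        ∏ s, ∑ p : X × I, (F.a' p.1 *ᵥ F.w p.2) (k s) * F.cov p.1 p.2 (k' s) := by
      refine Finset.prod_congr rfl fun s _ => ?_
      rw [Fintype.sum_prod_type, F.resolution]
    rw [h2, Finset.prod_univ_sum, Fintype.piFinset_univ,
      ← Equiv.sum_comp (Equiv.arrowProdEquivProdArrow S (fun _ => X) (fun _ => I)).symm,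
      Fintype.sum_prod_type]
    refine Finset.sum_congr rfl fun χ _ => Finset.sum_congr rfl fun i _ => ?_
    rw [← Finset.prod_mul_distrib]
    rfl
  have h3 : ∀ (χ : S → X) (i : S → I), F.tv T α χ i * ∏ s, F.cov (χ s) (i s) (k' s) =
      (∑ k : S → K, T (fun s => (α s, k s)) * ∏ s, (F.a' (χ s) *ᵥ F.w (i s)) (k s)) *
        ∏ s, F.cov (χ s) (i s) (k' s) := by
    intro χ i
    unfold tv
    split_ifs with h
    · rfl
    · have : ∏ s, F.cov (χ s) (i s) (k' s) = 0 := by
        push Not at h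
        obtain ⟨s, hs⟩ := h
        refine Finset.prod_eq_zero (Finset.mem_univ s) ?_
        unfold cov
        rw [if_neg hs]
      rw [this, mul_zero, mul_zero]
  simp only [h3]
  have h4 : T (fun s => (α s, k' s)) =
      ∑ k : S → K, T (fun s => (α s, k s)) * ∏ s, if k s = k' s then (1 : C) else 0 := by
    rw [Finset.sum_eq_single k']
    · simp
    · intro k _ hk
      have : ∏ s, (if k s = k' s then (1 : C) else 0) = 0 := by
        obtain ⟨s, hs⟩ := Function.ne_iff.1 hk
        exact Finset.prod_eq_zero (Finset.mem_univ s) (if_neg hs)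
      rw [this, mul_zero]
    · intro h
      exact absurd (Finset.mem_univ _) h
  rw [h4]
  simp only [h1, Finset.mul_sum, Finset.sum_mul]
  rw [Finset.sum_comm]
  refine Finset.sum_congr rfl fun χ _ => ?_
  rw [Finset.sum_comm]
  refine Finset.sum_congr rfl fun i _ => Finset.sum_congr rfl fun k _ => ?_
  ring

/-- The evaluation of the tensor on vectors. -/
noncomputable def XB_ev (T : (S → A × K) → C) (α : S → A) (u : S → K → C) : C :=
  ∑ k : S → K, T (fun s => (α s, k s)) * ∏ s, u s (k s)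

omit [DecidableEq K] [Fintype A] in
theorem XB_ev_eq [Fintype A] [DecidableEq K] (T : (S → A × K) → C) (α : S → A) (u : S → K → C) :
    ∑ j : S → A × K, T j * ∏ t, (if (j t).1 = α t then u t (j t).2 else 0) = XB_ev T α u := by
  classical
  rw [← Equiv.sum_comp (Equiv.arrowProdEquivProdArrow S (fun _ => A) (fun _ => K)).symm,
    Fintype.sum_prod_type, Finset.sum_eq_single α]
  · unfold XB_ev
    refine Finset.sum_congr rfl fun k _ => ?_
    have e1 : ∀ t, ((Equiv.arrowProdEquivProdArrow S (fun _ => A) (fun _ => K)).symm (α, k)) t =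
        (α t, k t) := fun t => rfl
    have e2 : (Equiv.arrowProdEquivProdArrow S (fun _ => A) (fun _ => K)).symm (α, k) =
        fun t => (α t, k t) := rfl
    rw [e2]
    simp
  · intro β _ hβ
    obtain ⟨s, hs⟩ := Function.ne_iff.1 hβ
    refine Finset.sum_eq_zero fun k _ => ?_
    have e2 : (Equiv.arrowProdEquivProdArrow S (fun _ => A) (fun _ => K)).symm (β, k) =
        fun t => (β t, k t) := rfl
    rw [e2]
    have : ∏ t, (if ((fun t => (β t, k t)) t : A × K).1 = α t then
        u t ((fun t => (β t, k t)) t : A × K).2 else 0) = 0 :=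
      Finset.prod_eq_zero (Finset.mem_univ s) (if_neg hs)
    rw [this, mul_zero]
  · intro h
    exact absurd (Finset.mem_univ _) h

theorem XB_ev_DX (M : Matrix K K C) {T : (S → A × K) → C} (hT : ∀ j, DX M T j = 0) (α : S → A)
    (u : S → K → C) : ∑ s, XB_ev T α (update u s (M *ᵥ u s)) = 0 := by
  classical
  have h := FX_ev_DX M T hT (fun t y => if y.1 = α t then u t y.2 else 0)
  rw [← h]
  refine Finset.sum_congr rfl fun s _ => ?_
  rw [← XB_ev_eq]
  refine Finset.sum_congr rfl fun j _ => ?_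
  congr 1
  refine Finset.prod_congr rfl fun t _ => ?_
  by_cases hts : t = s
  · subst hts
    rw [update_self, update_self, FX_act]
    by_cases h1 : (j t).1 = α t
    · rw [if_pos h1]
      simp only [h1, if_true]
      rfl
    · rw [if_neg h1]
      simp only [h1, if_false, mul_zero, Finset.sum_const_zero]
  · rw [update_of_ne hts, update_of_ne hts]

omit [DecidableEq K] [Fintype A] [DecidableEq A] in
theorem XB_ev_sub (T : (S → A × K) → C) (α : S → A) (u : S → K → C) (s : S) (c : C)
    (x y : K → C) : XB_ev T α (update u s (x - c • y)) =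
      XB_ev T α (update u s x) - c * XB_ev T α (update u s y) := by
  classical
  unfold XB_ev
  rw [Finset.mul_sum, ← Finset.sum_sub_distrib]
  refine Finset.sum_congr rfl fun k _ => ?_
  rw [← Finset.mul_prod_erase Finset.univ _ (Finset.mem_univ s),
    ← Finset.mul_prod_erase Finset.univ (fun t => update u s x t (k t)) (Finset.mem_univ s),
    ← Finset.mul_prod_erase Finset.univ (fun t => update u s y t (k t)) (Finset.mem_univ s)]
  have h3 : ∀ z : K → C, ∏ t ∈ Finset.univ.erase s, update u s z t (k t) =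
      ∏ t ∈ Finset.univ.erase s, u t (k t) := by
    intro z
    refine Finset.prod_congr rfl fun t ht => ?_
    rw [update_of_ne (Finset.ne_of_mem_erase ht)]
  rw [h3, h3, h3]
  simp only [update_self, Pi.sub_apply, Pi.smul_apply, smul_eq_mul]
  ring

omit [DecidableEq K] [Fintype A] [DecidableEq A] in
theorem XB_ev_zero (T : (S → A × K) → C) (α : S → A) (u : S → K → C) (s : S) :
    XB_ev T α (update u s 0) = 0 := by
  classical
  unfold XB_ev
  refine Finset.sum_eq_zero fun k _ => ?_
  rw [Finset.prod_eq_zero (Finset.mem_univ s) (by rw [update_self]; rfl), mul_zero]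

/-- The contraction with the matrix `Zt i i'`. -/
theorem XB_Zt (T : (S → A × K) → C) (α : S → A) (χ : S → X) {i i' : I} (h : F.Y.φ i = F.Y.φ i')
    (j : S → I) (hj : ∀ s, F.Y.φ (j s) = F.ρ (χ s)) :
    ∑ s, XB_ev T α (update (fun s => F.a' (χ s) *ᵥ F.w (j s)) s
      (F.Zt i i' *ᵥ (F.a' (χ s) *ᵥ F.w (j s)))) =
      FFT.op Finset.univ i' i (F.tv T α χ) j := by
  classical
  unfold FFT.op
  refine Finset.sum_congr rfl fun s _ => ?_
  rw [F.Zt_mulVec h]
  by_cases hs : j s = i'
  · have h1 : F.ρ (χ s) = F.Y.φ i := by rw [← hj s, hs, h]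
    rw [if_pos ⟨hs, h1⟩, if_pos hs]
    unfold tv
    have h2 : ∀ t, F.Y.φ (update j s i t) = F.ρ (χ t) := by
      intro t
      by_cases hts : t = s
      · rw [hts, update_self, h1]
      · rw [update_of_ne hts]
        exact hj t
    rw [if_pos h2]
    unfold XB_ev
    refine Finset.sum_congr rfl fun k _ => ?_
    congr 1
    refine Finset.prod_congr rfl fun t _ => ?_
    by_cases hts : t = s
    · subst hts
      rw [update_self, update_self]
    · rw [update_of_ne hts, update_of_ne hts]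
  · rw [if_neg hs, if_neg (fun h => hs h.1), XB_ev_zero]

/-- The operators vanish if the places do not fit. -/
theorem XB_op_zero (T : (S → A × K) → C) (α : S → A) (χ : S → X) {i i' : I}
    (h : F.Y.φ i = F.Y.φ i') (j : S → I) (hj : ¬ ∀ s, F.Y.φ (j s) = F.ρ (χ s)) :
    FFT.op Finset.univ i' i (F.tv T α χ) j = 0 := by
  classical
  unfold FFT.op
  refine Finset.sum_eq_zero fun s _ => ?_
  split_ifs with hs
  · unfold tv
    rw [if_neg]
    intro h2
    refine hj fun t => ?_
    have h3 := h2 t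
    by_cases hts : t = s
    · rw [hts, update_self] at h3
      rw [hts, hs, ← h, h3]
    · rwa [update_of_ne hts] at h3
  · rfl

/-- The contraction with the matrix `Xt i i'`. -/
theorem XB_Xt (T : (S → A × K) → C) (α : S → A) (χ : S → X) {i i' : I} (h : F.Y.φ i = F.Y.φ i')
    (j : S → I) (hj : ∀ s, F.Y.φ (j s) = F.ρ (χ s)) :
    ∑ s, XB_ev T α (update (fun s => F.a' (χ s) *ᵥ F.w (j s)) s
      (F.Xt i i' *ᵥ (F.a' (χ s) *ᵥ F.w (j s)))) =
      FFT.op Finset.univ i' i (F.tv T α χ) j - F.Y.ε i * F.Y.ε i' *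
        FFT.op Finset.univ (F.Y.bar i) (F.Y.bar i') (F.tv T α χ) j := by
  rw [← F.XB_Zt T α χ h j hj, ← F.XB_Zt T α χ (F.Y.φ_bar _ _ h.symm) j hj, Finset.mul_sum,
    ← Finset.sum_sub_distrib]
  refine Finset.sum_congr rfl fun s _ => ?_
  rw [Xt, Matrix.sub_mulVec, Matrix.smul_mulVec, XB_ev_sub]

/-- PROOF. `T` is evaluated on vectors: `∑_k T (α, k) ∏_s u s (k s)` with `u s = a' (χ s) *ᵥ w (i s)`.
Contracting `DX M T (α, k)` with `∏_s u s (k s)` gives
`∑_s (T evaluated on the u with u s replaced by M *ᵥ u s)` (compare `FX_ev_DX` in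
`MP_802513_agH/FX.lean`). For `M = Xt i i'` (`φ i = φ i'`): by `Zt_mulVec`,
`M *ᵥ u s = [i s = i'][ρ (χ s) = φ i] a' (χ s) *ᵥ w i - ε i ε i' [i s = bar i][ρ (χ s) = φ (bar i)]
a' (χ s) *ᵥ w (bar i')`. If all `φ (i s) = ρ (χ s)`, the conditions on `ρ (χ s)` follow, and the new
indices satisfy again the condition of `tv`; so the result is
`op univ i' i (tv T α χ) i - ε i ε i' op univ (bar i) (bar i') (tv T α χ) i`. If the condition on `i`
fails, both sides are zero because `op univ i' i` does not change the places. So for `X ∈ ss`: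
* `i ≠ i'`: `Xt i i' ∈ ss` gives `off` (multiply by `ε i'`);
* `Xt i i - Xt i' i' ∈ ss` gives `diag`. -/
theorem inv_tv {T : (S → A × K) → C} (hT : ∀ M ∈ ss D, ∀ j, DX M T j = 0) (α : S → A) (χ : S → X) :
    FFT.InvS F.Y Finset.univ (F.tv T α χ) := by
  classical
  refine ⟨fun i i' h hne j => ?_, fun i i' h j => ?_⟩
  · by_cases hj : ∀ s, F.Y.φ (j s) = F.ρ (χ s)
    · have h1 := XB_ev_DX (F.Xt i i') (hT _ (F.Xt_mem_ss h hne)) α
        (fun s => F.a' (χ s) *ᵥ F.w (j s))
      rw [F.XB_Xt T α χ h j hj] at h1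
      have h2 := F.Y.ε_sq i'
      linear_combination F.Y.ε i' * h1 + F.Y.ε i *
        FFT.op Finset.univ (F.Y.bar i) (F.Y.bar i') (F.tv T α χ) j * h2
    · rw [F.XB_op_zero T α χ h j hj, F.XB_op_zero T α χ (F.Y.φ_bar _ _ h.symm) j hj, mul_zero,
        mul_zero]
  · by_cases hj : ∀ s, F.Y.φ (j s) = F.ρ (χ s)
    · have h1 := XB_ev_DX (F.Xt i i - F.Xt i' i') (hT _ (F.Xt_sub_mem_ss h)) α
        (fun s => F.a' (χ s) *ᵥ F.w (j s))
      have h3 : ∑ s, XB_ev T α (update (fun s => F.a' (χ s) *ᵥ F.w (j s)) s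
          ((F.Xt i i - F.Xt i' i') *ᵥ (F.a' (χ s) *ᵥ F.w (j s)))) =
          ∑ s, XB_ev T α (update (fun s => F.a' (χ s) *ᵥ F.w (j s)) s
            (F.Xt i i *ᵥ (F.a' (χ s) *ᵥ F.w (j s)))) -
          ∑ s, XB_ev T α (update (fun s => F.a' (χ s) *ᵥ F.w (j s)) s
            (F.Xt i' i' *ᵥ (F.a' (χ s) *ᵥ F.w (j s)))) := by
        rw [← Finset.sum_sub_distrib]
        refine Finset.sum_congr rfl fun s _ => ?_
        have h4 := XB_ev_sub T α (fun s => F.a' (χ s) *ᵥ F.w (j s)) s 1
          (F.Xt i i *ᵥ (F.a' (χ s) *ᵥ F.w (j s))) (F.Xt i' i' *ᵥ (F.a' (χ s) *ᵥ F.w (j s)))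
        rw [one_smul, one_mul] at h4
        rw [Matrix.sub_mulVec, h4]
      rw [h3, F.XB_Xt T α χ rfl j hj, F.XB_Xt T α χ rfl j hj] at h1
      have h2 := F.Y.ε_sq i
      have h5 := F.Y.ε_sq i'
      linear_combination h1 + FFT.op Finset.univ (F.Y.bar i) (F.Y.bar i) (F.tv T α χ) j * h2 -
        FFT.op Finset.univ (F.Y.bar i') (F.Y.bar i') (F.tv T α χ) j * h5
    · rw [F.XB_op_zero T α χ rfl j hj, F.XB_op_zero T α χ rfl j hj,
        F.XB_op_zero T α χ rfl j hj, F.XB_op_zero T α χ rfl j hj]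

end RFr

end Pool.Agent.Lib.MP_021685_agU
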