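import Pool.Agent.Lib.MP_021685_agU.XB

/-!
# Tensors killed by `ss` are combinations of products of pairings and determinants
-/

set_option autoImplicit false
set_option linter.unusedSectionVars false

namespace Pool.Agent.Lib.MP_021685_agU

open Matrix Function Module

variable {C : Type*} [Field C] [CharZero C] [IsAlgClosed C] {K : Type*} [Fintype K] [DecidableEq K]
  {D : TData C K} {X I : Type*} [Fintype X] [DecidableEq X] [Fintype I] [DecidableEq I]
  (F : RFr D X I)

namespace RFr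

/-- The index set of the determinants of the places `f ν`. -/
abbrev Cx {N : ℕ} (f : Fin N → X) : Type _ := Σ ν : Fin N, FFT.Ix F.Y (f ν)

/-- The linear forms of the determinant: the slot `s` has the label `α s` and is moved by `r s`. -/
noncomputable def dlam {N : ℕ} (f : Fin N → X) {A : Type*} [DecidableEq A]
    (r : F.Cx f → Matrix K K C) (α : F.Cx f → A) (s c : F.Cx f) (m : A × K) : C :=
  if s.1 = c.1 ∧ m.1 = α s then (F.l c.2.1 ᵥ* r s) m.2 else 0

/-- The product of pairings and determinants. -/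
noncomputable def genT {S A : Type*} [DecidableEq A] {m N : ℕ} (f : Fin N → X)
    (q : (Fin m × Fin 2) ⊕ F.Cx f ≃ S) (e : Fin m → Matrix K K C) (r : F.Cx f → Matrix K K C)
    (α : S → A) (j : S → A × K) : C :=
  (∏ μ, pr ((e μ)ᵀ * D.G) (α (q (Sum.inl (μ, 0)))) (α (q (Sum.inl (μ, 1))))
    (j (q (Sum.inl (μ, 0)))) (j (q (Sum.inl (μ, 1))))) *
  detT (F.dlam f r fun s => α (q (Sum.inr s))) fun s => j (q (Sum.inr s))

variable {S A : Type*} [Fintype S] [DecidableEq S] [Fintype A] [DecidableEq A]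

/-- The determinant of the coordinates.
PROOF. `dt Y f g = 0` unless `g = fun a => (π a).1` for a permutation `π` of `Ix Y f`, and then it is
`sign π`. So the left side is `∑_π sign π ∏_a cov (χ a) (π a) (k a)`. -/
theorem sum_dt (f : X) (χ : FFT.Ix F.Y f → X) (k : FFT.Ix F.Y f → K) :
    ∑ g : FFT.Ix F.Y f → I, FFT.dt F.Y f g * ∏ a, F.cov (χ a) (g a) (k a) =
      (Matrix.of fun a c : FFT.Ix F.Y f => F.cov (χ a) c.1 (k a)).det := by
  have h1 : (Matrix.of fun a c : FFT.Ix F.Y f => F.cov (χ a) c.1 (k a)) =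
      fun a => ∑ i : I, F.cov (χ a) i (k a) • (fun b : FFT.Ix F.Y f => if i = b.1 then (1 : C) else 0) := by
    funext a c
    rw [Matrix.of_apply, Finset.sum_apply, Finset.sum_eq_single c.1]
    · simp
    · intro i _ hi
      simp [hi]
    · intro h
      exact absurd (Finset.mem_univ _) h
  have h2 := (Matrix.detRowAlternating (n := FFT.Ix F.Y f) (R := C)).toMultilinearMap.map_sum
    (fun (a : FFT.Ix F.Y f) (i : I) =>
      F.cov (χ a) i (k a) • (fun b : FFT.Ix F.Y f => if i = b.1 then (1 : C) else 0))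
  have h3 : (Matrix.of fun a c : FFT.Ix F.Y f => F.cov (χ a) c.1 (k a)).det =
      (Matrix.detRowAlternating (n := FFT.Ix F.Y f) (R := C)).toMultilinearMap
        (fun a => ∑ i : I, F.cov (χ a) i (k a) • (fun b : FFT.Ix F.Y f => if i = b.1 then (1 : C) else 0)) := by
    rw [h1]
    rfl
  rw [h3, h2]
  refine Finset.sum_congr rfl fun g _ => ?_
  rw [MultilinearMap.map_smul_univ, smul_eq_mul, mul_comm]
  rfl

/-- PROOF. Let `b ∈ RC` be the matrix of `bil f`. If `ρ χ = f` and `ρ χ' = φ (bar i)` for the `i` with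
`φ i = f` (a condition which does not depend on `i`), the sum is
`∑_i [φ i = f] ε i (l i ⬝ᵥ a χ e_k) (l (bar i) ⬝ᵥ a χ' e_k') = B (b a χ e_k, a χ' e_k') =
B (adj (a χ') b a χ e_k, e_k')`; otherwise it is `0`. -/
theorem sum_beta (f χ χ' : X) : ∃ e ∈ RC D, ∀ k k' : K,
    ∑ x, ∑ y, FFT.beta F.Y f x y * (F.cov χ x k * F.cov χ' y k') = (eᵀ * D.G) k k' := by
  have hsum : ∀ k k' : K, ∑ x, ∑ y, FFT.beta F.Y f x y * (F.cov χ x k * F.cov χ' y k') =
      ∑ x, if F.Y.φ x = f then F.Y.ε x * (F.cov χ x k * F.cov χ' (F.Y.bar x) k') else 0 := by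
    intro k k'
    refine Finset.sum_congr rfl fun x _ => ?_
    rw [Finset.sum_eq_single (F.Y.bar x)]
    · unfold FFT.beta
      by_cases h : F.Y.φ x = f
      · rw [if_pos ⟨h, rfl⟩, if_pos h]
      · rw [if_neg (fun hh => h hh.1), if_neg h, zero_mul]
    · intro y _ hy
      unfold FFT.beta
      rw [if_neg (fun hh => hy hh.2), zero_mul]
    · intro h
      exact absurd (Finset.mem_univ _) h
  by_cases hc : F.ρ χ = f ∧ ∃ x, F.Y.φ x = f ∧ F.Y.φ (F.Y.bar x) = F.ρ χ'
  · obtain ⟨h1, x0, h2, h3⟩ := hc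
    obtain ⟨b, hb, hB⟩ := F.bil f
    refine ⟨adj D (F.a χ') * b * F.a χ, ?_, fun k k' => ?_⟩
    · exact Subalgebra.mul_mem _ (Subalgebra.mul_mem _ (adj_mem (F.a_mem χ')) hb) (F.a_mem χ)
    · have hgen : ∀ Y : Matrix K K C,
          D.B (Y *ᵥ Pi.single k 1) (Pi.single k' 1) = (Yᵀ * D.G) k k' := by
        intro Y
        rw [TData.B_apply, Matrix.mulVec_single_one, Matrix.mulVec_single_one, Matrix.mul_apply]
        rfl
      have hk : ∀ (i : I) (Z : Matrix K K C) (m : K), (F.l i ᵥ* Z) m = F.l i ⬝ᵥ (Z *ᵥ Pi.single m 1) := by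
        intro i Z m
        rw [Matrix.mulVec_single_one]
        rfl
      rw [hsum, ← hgen]
      have h4 := hB (F.a χ *ᵥ Pi.single k 1) (F.a χ' *ᵥ Pi.single k' 1)
      have h5 : D.B (b *ᵥ (F.a χ *ᵥ Pi.single k 1)) (F.a χ' *ᵥ Pi.single k' 1) =
          D.B ((adj D (F.a χ') * b * F.a χ) *ᵥ Pi.single k 1) (Pi.single k' 1) := by
        have h6 := B_adj (D := D) (adj D (F.a χ')) (b *ᵥ (F.a χ *ᵥ Pi.single k 1)) (Pi.single k' 1)
        rw [adj_adj] at h6
        rw [← h6, Matrix.mulVec_mulVec, Matrix.mulVec_mulVec]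
      rw [← h5, ← h4]
      refine Finset.sum_congr rfl fun x _ => ?_
      by_cases hx : F.Y.φ x = f
      · rw [if_pos hx, if_pos hx]
        have h7 : F.Y.φ x = F.ρ χ := hx.trans h1.symm
        have h8 : F.Y.φ (F.Y.bar x) = F.ρ χ' := (F.Y.φ_bar x x0 (hx.trans h2.symm)).trans h3
        unfold cov
        rw [if_pos h7, if_pos h8, hk, hk, mul_assoc]
      · rw [if_neg hx, if_neg hx]
  · refine ⟨0, Subalgebra.zero_mem _, fun k k' => ?_⟩
    rw [hsum, Matrix.transpose_zero, Matrix.zero_mul, Matrix.zero_apply]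
    refine Finset.sum_eq_zero fun x _ => ?_
    by_cases hx : F.Y.φ x = f
    · rw [if_pos hx]
      unfold cov
      by_cases h1 : F.Y.φ x = F.ρ χ
      · have h2 : ¬ F.Y.φ (F.Y.bar x) = F.ρ χ' := fun h3 => hc ⟨h1.symm.trans hx, x, hx, h3⟩
        rw [if_neg h2, mul_zero, mul_zero]
      · rw [if_neg h1, zero_mul, mul_zero]
    · rw [if_neg hx]

end RFr

end Pool.Agent.Lib.MP_021685_agU
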