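import Pool.Agent.Lib.MP_021685_agU.XC

/-!
# The evaluation of a generator
-/

set_option autoImplicit false
set_option linter.unusedSectionVars false

namespace Pool.Agent.Lib.MP_021685_agU

open Matrix Function Module

variable {C : Type*} [Field C] [CharZero C] [IsAlgClosed C] {K : Type*} [Fintype K] [DecidableEq K]
  {D : TData C K} {X I : Type*} [Fintype X] [DecidableEq X] [Fintype I] [DecidableEq I]
  (F : RFr D X I)

/-- The functions on a sum type, sorted. -/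
def XCe_equiv (m N : ℕ) (I : Type*) (β : Fin N → Type*) :
    ((Fin m × Fin 2) ⊕ (Σ ν, β ν) → I) ≃ (Fin m → I × I) × (∀ ν, β ν → I) where
  toFun i := (fun μ => (i (Sum.inl (μ, 0)), i (Sum.inl (μ, 1))), fun ν a => i (Sum.inr ⟨ν, a⟩))
  invFun z t := match t with
    | Sum.inl (μ, b) => if b = 0 then (z.1 μ).1 else (z.1 μ).2
    | Sum.inr ⟨ν, a⟩ => z.2 ν a
  left_inv i := by
    funext t
    rcases t with ⟨μ, b⟩ | ⟨ν, a⟩
    · fin_cases b
      · simp
      · simp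
    · rfl
  right_inv z := by
    refine Prod.ext (funext fun μ => ?_) (funext fun ν => funext fun a => rfl)
    simp

/-- The sum of a product over the functions on a sum type. -/
theorem XCe_sum {m N : ℕ} {I : Type*} [Fintype I] [DecidableEq I] {β : Fin N → Type*}
    [∀ ν, Fintype (β ν)] [∀ ν, DecidableEq (β ν)] (P : Fin m → I → I → C) (Q : ∀ ν, (β ν → I) → C) :
    ∑ i : (Fin m × Fin 2) ⊕ (Σ ν, β ν) → I,
      (∏ μ, P μ (i (Sum.inl (μ, 0))) (i (Sum.inl (μ, 1)))) *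
        ∏ ν, Q ν (fun a => i (Sum.inr ⟨ν, a⟩)) =
      (∏ μ, ∑ x, ∑ y, P μ x y) * ∏ ν, ∑ g, Q ν g := by
  have h1 : ∀ μ, ∑ x, ∑ y, P μ x y = ∑ z : I × I, P μ z.1 z.2 := fun μ =>
    (Fintype.sum_prod_type fun z : I × I => P μ z.1 z.2).symm
  simp only [h1]
  rw [Fintype.prod_sum, Fintype.prod_sum, Fintype.sum_mul_sum, ← Fintype.sum_prod_type']
  exact Fintype.sum_equiv (XCe_equiv m N I β) _ _ fun i => rfl

/-- The determinant of a block matrix. -/
theorem XCe_det {N : ℕ} {β : Fin N → Type*} [∀ ν, Fintype (β ν)] [∀ ν, DecidableEq (β ν)]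
    (M : ∀ ν, Matrix (β ν) (β ν) C) (T : Matrix (Σ ν, β ν) (Σ ν, β ν) C)
    (h : ∀ s c, s.1 ≠ c.1 → T s c = 0) (h' : ∀ ν a c, T ⟨ν, a⟩ ⟨ν, c⟩ = M ν a c) :
    T.det = ∏ ν, (M ν).det := by
  have hT : T.BlockTriangular (fun s : Σ ν, β ν => s.1) := fun s c hsc => h s c (ne_of_gt hsc)
  rw [hT.det_fintype]
  refine Finset.prod_congr rfl fun ν _ => ?_
  let e : β ν ≃ {s : Σ ν, β ν // s.1 = ν} :=
    { toFun := fun a => ⟨⟨ν, a⟩, rfl⟩
      invFun := fun s => s.2 ▸ s.1.2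
      left_inv := fun a => rfl
      right_inv := by
        rintro ⟨⟨ν', a⟩, rfl⟩
        rfl }
  rw [← Matrix.det_submatrix_equiv_self e]
  refine congrArg Matrix.det ?_
  ext a c
  exact h' ν a c

namespace RFr

variable {S A : Type*} [Fintype S] [DecidableEq S] [Fintype A] [DecidableEq A]

/-- The evaluation of a generator.
PROOF. Reindex `i : S → I` by `q`: a pair `(x_μ, y_μ)` for every `μ` and a function `g_ν` for every
`ν`; the sum of the products is the product of the sums `sum_beta` and `sum_dt`. The determinant of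
`ν` has the rows `c ↦ cov (χ a) c (k a)`, `a = ⟨ν, a⟩`, which is `(l c ᵥ* a (χ a)) (k a)` if
`ρ (χ a) = f ν` and `0` otherwise: take `r ⟨ν, a⟩ = a (χ (q (inr ⟨ν, a⟩)))` or `0`. The product over `ν` of
the determinants is the block determinant (`Matrix.det_blockDiagonal'`), which is `detT (dlam ..)` at
the `j` with the labels `α`. For the other `j` the left side is `0` and `genT` is zero as well: a
factor `pr` or a row of the matrix is zero. -/
theorem eval_gen {m N : ℕ} (f' : Fin m → X) (f : Fin N → X)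
    (q : (Fin m × Fin 2) ⊕ F.Cx f ≃ S) (α : S → A) (χ : S → X) :
    ∃ (e : Fin m → Matrix K K C) (r : F.Cx f → Matrix K K C), (∀ μ, e μ ∈ RC D) ∧
      (∀ s, r s ∈ RC D) ∧ ∀ j : S → A × K,
      (if (∀ s, (j s).1 = α s) then ∑ i : S → I,
        ((∏ μ, FFT.beta F.Y (f' μ) (i (q (Sum.inl (μ, 0)))) (i (q (Sum.inl (μ, 1))))) *
          ∏ ν, FFT.dt F.Y (f ν) (fun a => i (q (Sum.inr ⟨ν, a⟩)))) *
        ∏ s, F.cov (χ s) (i s) (j s).2 else 0) = F.genT f q e r α j := by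
  choose e he hsum using fun μ : Fin m =>
    F.sum_beta (f' μ) (χ (q (Sum.inl (μ, 0)))) (χ (q (Sum.inl (μ, 1))))
  refine ⟨e, fun s => if F.ρ (χ (q (Sum.inr s))) = f s.1 then F.a (χ (q (Sum.inr s))) else 0, he,
    fun s => ?_, fun j => ?_⟩
  · dsimp only
    split_ifs with h
    · exact F.a_mem _
    · exact (RC D).zero_mem
  by_cases hj : ∀ s, (j s).1 = α s
  · rw [if_pos hj]
    unfold genT
    have h1 : ∀ i : S → I, ((∏ μ, FFT.beta F.Y (f' μ) (i (q (Sum.inl (μ, 0)))) (i (q (Sum.inl (μ, 1))))) *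
          ∏ ν, FFT.dt F.Y (f ν) (fun a => i (q (Sum.inr ⟨ν, a⟩)))) *
        ∏ s, F.cov (χ s) (i s) (j s).2 =
        (∏ μ, (FFT.beta F.Y (f' μ) (i (q (Sum.inl (μ, 0)))) (i (q (Sum.inl (μ, 1)))) *
          (F.cov (χ (q (Sum.inl (μ, 0)))) (i (q (Sum.inl (μ, 0)))) (j (q (Sum.inl (μ, 0)))).2 *
            F.cov (χ (q (Sum.inl (μ, 1)))) (i (q (Sum.inl (μ, 1)))) (j (q (Sum.inl (μ, 1)))).2))) *
        ∏ ν, (FFT.dt F.Y (f ν) (fun a => i (q (Sum.inr ⟨ν, a⟩))) *
          ∏ a, F.cov (χ (q (Sum.inr ⟨ν, a⟩))) (i (q (Sum.inr ⟨ν, a⟩))) (j (q (Sum.inr ⟨ν, a⟩))).2) := by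
      intro i
      rw [← q.prod_comp (fun s => F.cov (χ s) (i s) (j s).2), Fintype.prod_sum_type,
        Fintype.prod_prod_type, Fintype.prod_sigma]
      simp only [Fin.prod_univ_two, Finset.prod_mul_distrib]
      ring
    have h2 : ∑ i : S → I,
        ((∏ μ, FFT.beta F.Y (f' μ) (i (q (Sum.inl (μ, 0)))) (i (q (Sum.inl (μ, 1))))) *
          ∏ ν, FFT.dt F.Y (f ν) (fun a => i (q (Sum.inr ⟨ν, a⟩)))) *
        ∏ s, F.cov (χ s) (i s) (j s).2 =
        ∑ i : (Fin m × Fin 2) ⊕ (Σ ν, FFT.Ix F.Y (f ν)) → I,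
          (∏ μ, (FFT.beta F.Y (f' μ) (i (Sum.inl (μ, 0))) (i (Sum.inl (μ, 1))) *
          (F.cov (χ (q (Sum.inl (μ, 0)))) (i (Sum.inl (μ, 0))) (j (q (Sum.inl (μ, 0)))).2 *
            F.cov (χ (q (Sum.inl (μ, 1)))) (i (Sum.inl (μ, 1))) (j (q (Sum.inl (μ, 1)))).2))) *
        ∏ ν, (FFT.dt F.Y (f ν) (fun a => i (Sum.inr ⟨ν, a⟩)) *
          ∏ a, F.cov (χ (q (Sum.inr ⟨ν, a⟩))) (i (Sum.inr ⟨ν, a⟩)) (j (q (Sum.inr ⟨ν, a⟩))).2) := by
      refine Fintype.sum_equiv (q.symm.arrowCongr (Equiv.refl I)) _ _ fun i => ?_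
      rw [h1 i]
      rfl
    rw [h2, XCe_sum (fun μ x y => FFT.beta F.Y (f' μ) x y *
          (F.cov (χ (q (Sum.inl (μ, 0)))) x (j (q (Sum.inl (μ, 0)))).2 *
            F.cov (χ (q (Sum.inl (μ, 1)))) y (j (q (Sum.inl (μ, 1)))).2))
      (fun ν g => FFT.dt F.Y (f ν) g *
          ∏ a, F.cov (χ (q (Sum.inr ⟨ν, a⟩))) (g a) (j (q (Sum.inr ⟨ν, a⟩))).2)]
    refine congrArg₂ (· * ·) (Finset.prod_congr rfl fun μ _ => ?_) ?_
    · rw [hsum μ]
      unfold pr
      rw [if_pos ⟨hj _, hj _⟩]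
    · unfold detT
      rw [XCe_det (fun ν => Matrix.of fun a c : FFT.Ix F.Y (f ν) =>
        F.cov (χ (q (Sum.inr ⟨ν, a⟩))) c.1 (j (q (Sum.inr ⟨ν, a⟩))).2)]
      · refine Finset.prod_congr rfl fun ν _ => ?_
        exact F.sum_dt (f ν) (fun a => χ (q (Sum.inr ⟨ν, a⟩))) (fun a => (j (q (Sum.inr ⟨ν, a⟩))).2)
      · intro s c hsc
        rw [Matrix.of_apply]
        unfold dlam
        rw [if_neg fun h => hsc h.1]
      · intro ν a c
        rw [Matrix.of_apply, Matrix.of_apply]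
        unfold dlam cov
        rw [if_pos ⟨rfl, hj _⟩, c.2]
        dsimp only
        by_cases h : F.ρ (χ (q (Sum.inr ⟨ν, a⟩))) = f ν
        · rw [if_pos h, if_pos h.symm]
        · rw [if_neg h, if_neg (Ne.symm h), Matrix.vecMul_zero]
          rfl
  · rw [if_neg hj]
    push Not at hj
    obtain ⟨s, hs⟩ := hj
    obtain ⟨t, rfl⟩ := q.surjective s
    symm
    unfold genT
    rcases t with ⟨μ, b⟩ | t
    · refine mul_eq_zero_of_left (Finset.prod_eq_zero (Finset.mem_univ μ) ?_) _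
      unfold pr
      refine if_neg fun h => ?_
      fin_cases b
      · exact hs h.1
      · exact hs h.2
    · refine mul_eq_zero_of_right _ (Matrix.det_eq_zero_of_row_eq_zero t fun c => ?_)
      rw [Matrix.of_apply]
      unfold dlam
      exact if_neg fun h => hs h.2

end RFr

end Pool.Agent.Lib.MP_021685_agU
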